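import Pool.Agent.H98.PK.Defs
import Pool.Agent.H43.HX.Kr
import Pool.Agent.H43.SI.Pw

/-!
# [H98 PK SMO] Long smooth factors

`‖pol (cf c1 i) a t‖ <= C (1+a)/|t|` for `i = 3, 4, 5`, `1 <= |t| <= 2^a/2`.

PROOF. `1 <= |t| <= 2^a/2` forces `a >= 1`, `K = 2^(a-1) >= |t|`, the sum is over `n ∈ (K, 2K]`. By conjugation let `t > 0`. Coefficients
`c(n)/n * exp(-i t log n)`, `c(n) = 1` (`i = 4,5`) or `log n` (`i = 3`) (`c1 n = 1` for all `n`: `ZMod 1` is trivial, `MulChar.one_apply`).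
(1) For every `K' <= 2K`: `‖Σ_{K<n<=K'} exp(-(t log n) I)‖ <= 80 K/(1+t)` (Kusmin-Landau; first case `v <= M` of the proof of `HX.kr_block`;
copy that part). (2) Partial summation with the decreasing positive factor `1/n` on `(K,2K]`: `‖Σ exp(..)/n‖ <= 80 K/(1+t) * 1/K <= 80/t`
(e.g. `Finset.sum_Ioc_by_parts`, or `1/n = 1/(2K) + Σ_{j=n}^{2K-1} (1/j - 1/(j+1))` and exchange of sums as in `SI.pw_log`); all partial sums
up to `K' <= 2K` have the same bound. (3) `i = 3`: `SI.pw_log` (factor `log n`): `<= 2 log(2K) * 80/t <= 160 a/t`.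
-/

namespace Pool.Agent.H98.PK

open Finset

private theorem smo_block (M N : ℕ) (v : ℝ) (hv : 1 ≤ v) (hM : 1 ≤ M) (hN : N ≤ 2 * M)
    (hvM : v ≤ M) :
    ‖∑ n ∈ Ioc M N, Complex.exp (-(v * Real.log (n : ℝ) : ℝ) * Complex.I)‖ ≤
      80 * (M / (1 + v)) := by
  have hM0 : (0 : ℝ) < M := by exact_mod_cast hM
  have hv0 : 0 < v := by linarith
  have hpi : 0 < Real.pi := Real.pi_pos
  set θ : ℕ → ℝ := fun n => -(v / (2 * Real.pi)) * Real.log (n : ℝ) with hθ
  have hvp : 0 < v / (2 * Real.pi) := by positivity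
  have hd : ∀ n : ℕ, 1 ≤ n → v / (2 * Real.pi) * (1 / ((n : ℝ) + 1)) ≤ θ n - θ (n + 1) ∧
      θ n - θ (n + 1) ≤ v / (2 * Real.pi) * (1 / (n : ℝ)) := by
    intro n hn
    have hn0 : (0 : ℝ) < n := by exact_mod_cast hn
    have e1 : θ n - θ (n + 1) = v / (2 * Real.pi) * Real.log (1 + 1 / (n : ℝ)) := by
      simp only [hθ]
      push_cast
      have : (1 + 1 / (n : ℝ)) = ((n : ℝ) + 1) / n := by field_simp
      rw [this, Real.log_div (by positivity) (by positivity)]
      ring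
    rw [e1]
    constructor
    · refine mul_le_mul_of_nonneg_left ?_ hvp.le
      have h2 := Real.one_sub_inv_le_log_of_pos (show 0 < 1 + 1 / (n : ℝ) by positivity)
      refine le_trans (le_of_eq ?_) h2
      field_simp
      ring
    · refine mul_le_mul_of_nonneg_left ?_ hvp.le
      have h2 := Real.log_le_sub_one_of_pos (show 0 < 1 + 1 / (n : ℝ) by positivity)
      linarith
  set δ : ℝ := v / (6 * Real.pi * M) with hδ
  have hδ0 : 0 < δ := by positivity
  have hδ2 : δ ≤ 1 / 2 := by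
    rw [hδ, div_le_div_iff₀ (by positivity) (by norm_num)]
    have h3 := Real.pi_gt_three
    nlinarith
  have hmain := H43.LF.vd_minus (Ioc M N) (by
      intro x hx y hy z h1 h2
      rw [mem_Ioc] at hx hy ⊢
      omega) θ 0 δ hδ0 hδ2
    (by
      intro n hn _
      rw [mem_Ioc] at hn
      have hn0 : (0 : ℝ) < n := by
        have : 0 < n := by omega
        exact_mod_cast this
      simp only [hθ]
      push_cast
      have h1 : Real.log (n : ℝ) + Real.log ((n : ℝ) + 2) ≤ 2 * Real.log ((n : ℝ) + 1) := by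
        rw [← Real.log_mul (by positivity) (by positivity)]
        have : 2 * Real.log ((n : ℝ) + 1) = Real.log (((n : ℝ) + 1) ^ 2) := by
          rw [Real.log_pow]
          push_cast
          ring
        rw [this]
        exact Real.log_le_log (by positivity) (by nlinarith)
      nlinarith)
    (by
      intro n hn
      rw [mem_Ioc] at hn
      have h1 := (hd n (by omega)).2
      have hn0 : (M : ℝ) ≤ n := by exact_mod_cast hn.1.le
      have hn1 : (0 : ℝ) < n := by linarith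
      have h2 : v / (2 * Real.pi) * (1 / (n : ℝ)) ≤ 1 / 2 := by
        rw [div_mul_div_comm, mul_one, div_le_div_iff₀ (by positivity) (by norm_num)]
        have h3 := Real.pi_gt_three
        nlinarith
      push_cast
      linarith)
    (by
      intro n hn
      rw [mem_Ioc] at hn
      have h1 := (hd n (by omega)).1
      have hn0 : (n : ℝ) ≤ 2 * M := by
        have : n ≤ 2 * M := by omega
        exact_mod_cast this
      have hM1 : (1 : ℝ) ≤ M := by exact_mod_cast hM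
      have hn1 : (0 : ℝ) ≤ n := Nat.cast_nonneg n
      have h2 : δ ≤ v / (2 * Real.pi) * (1 / ((n : ℝ) + 1)) := by
        rw [hδ, div_mul_div_comm, mul_one]
        apply div_le_div_of_nonneg_left hv0.le (by positivity)
        nlinarith
      push_cast
      linarith)
  have e1 : ∑ n ∈ Ioc M N, Complex.exp (-(v * Real.log (n : ℝ) : ℝ) * Complex.I) =
      ∑ n ∈ Ioc M N, Pool.H19.Wa.e (θ n) := by
    refine Finset.sum_congr rfl fun n _ => ?_
    unfold Pool.H19.Wa.e
    congr 1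
    congr 1
    have h1 : 2 * Real.pi * θ n = -(v * Real.log (n : ℝ)) := by
      simp only [hθ]
      field_simp
    have h2 : ((2 * Real.pi * θ n : ℝ) : ℂ) = 2 * (Real.pi : ℂ) * (θ n : ℂ) := by push_cast; ring
    rw [← h2, h1]
    push_cast
    ring
  rw [e1]
  refine hmain.trans ?_
  have h2 : 2 / δ ≤ 80 * (M / (1 + v)) := by
    have h3 : 2 / δ = 12 * Real.pi * M / v := by
      rw [hδ]
      field_simp
      ring
    rw [h3, ← mul_div_assoc, div_le_div_iff₀ hv0 (by linarith)]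
    have h4 := Real.pi_lt_d2
    have h5 : 12 * Real.pi * M * (1 + v) ≤ 12 * Real.pi * M * (2 * v) :=
      mul_le_mul_of_nonneg_left (by linarith) (by positivity)
    refine h5.trans ?_
    have h6 : 0 < (M : ℝ) * v := by positivity
    nlinarith
  exact h2

private theorem smo_term (n : ℕ) (hn : 1 ≤ n) (v : ℝ) :
    (n : ℂ) ^ (-(1 + (v : ℂ) * Complex.I)) =
      ((1 / (max 1 n : ℕ) : ℝ) : ℂ) * Complex.exp (-(v * Real.log (n : ℝ) : ℝ) * Complex.I) := by
  have hn0 : (n : ℂ) ≠ 0 := by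
    have : n ≠ 0 := by omega
    exact_mod_cast this
  rw [Complex.cpow_def_of_ne_zero hn0, ← Complex.natCast_log, max_eq_right hn]
  have h1 : ((Real.log n : ℝ) : ℂ) * -(1 + (v : ℂ) * Complex.I) =
      -((Real.log n : ℝ) : ℂ) + (-(v * Real.log (n : ℝ) : ℝ) * Complex.I) := by
    push_cast
    ring
  rw [h1, Complex.exp_add]
  congr 1
  rw [← Complex.ofReal_neg, ← Complex.ofReal_exp, Real.exp_neg,
    Real.exp_log (by exact_mod_cast hn)]
  push_cast
  ring

private theorem smo_pos (K K' : ℕ) (hK : 1 ≤ K) (hK' : K' ≤ 2 * K) (t : ℝ) (h1 : 1 ≤ t)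
    (h2 : t ≤ K) :
    ‖∑ n ∈ Ioc K K', ((1 / (max 1 n : ℕ) : ℝ) : ℂ) *
      Complex.exp (-(t * Real.log (n : ℝ) : ℝ) * Complex.I)‖ ≤ 80 / t := by
  have hK0 : (0 : ℝ) < K := by exact_mod_cast hK
  have h3 := H43.LF.cls_abel (fun n => Complex.exp (-(t * Real.log (n : ℝ) : ℝ) * Complex.I))
    (fun n => 1 / ((max 1 n : ℕ) : ℝ)) (by
      intro n
      apply one_div_le_one_div_of_le
      · have : 0 < max 1 n := by omega
        exact_mod_cast this
      · have : max 1 n ≤ max 1 (n + 1) := by omega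
        exact_mod_cast this) (fun n => by positivity) K K' (80 * (K / (1 + t)))
    (fun J hJ => smo_block K J t h1 hK (hJ.trans hK') h2)
  refine h3.trans ?_
  have h4 : (1 : ℝ) / ((max 1 (K + 1) : ℕ) : ℝ) ≤ 1 / K := by
    apply one_div_le_one_div_of_le hK0
    have : K ≤ max 1 (K + 1) := by omega
    exact_mod_cast this
  have h5 : 0 ≤ 80 * ((K : ℝ) / (1 + t)) := by positivity
  calc (1 : ℝ) / ((max 1 (K + 1) : ℕ) : ℝ) * (80 * (K / (1 + t)))
      ≤ 1 / K * (80 * (K / (1 + t))) := mul_le_mul_of_nonneg_right h4 h5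
    _ = 80 / (1 + t) := by field_simp
    _ ≤ 80 / t := div_le_div_of_nonneg_left (by norm_num) (by linarith) (by linarith)

private theorem smo_all (K K' : ℕ) (hK : 1 ≤ K) (hK' : K' ≤ 2 * K) (t : ℝ) (h1 : 1 ≤ |t|)
    (h2 : |t| ≤ K) :
    ‖∑ n ∈ Ioc K K', (n : ℂ) ^ (-(1 + (t : ℂ) * Complex.I))‖ ≤ 80 / |t| := by
  have h3 : ∑ n ∈ Ioc K K', (n : ℂ) ^ (-(1 + (t : ℂ) * Complex.I)) =
      ∑ n ∈ Ioc K K', ((1 / (max 1 n : ℕ) : ℝ) : ℂ) *
        Complex.exp (-(t * Real.log (n : ℝ) : ℝ) * Complex.I) := by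
    refine Finset.sum_congr rfl fun n hn => ?_
    rw [mem_Ioc] at hn
    exact smo_term n (by omega) t
  rw [h3]
  rcases le_total 0 t with h | h
  · rw [abs_of_nonneg h] at h1 h2 ⊢
    exact smo_pos K K' hK hK' t h1 h2
  · rw [abs_of_nonpos h] at h1 h2 ⊢
    have h4 := smo_pos K K' hK hK' (-t) h1 h2
    rw [← Complex.norm_conj, map_sum] at h4
    refine le_trans (le_of_eq ?_) h4
    congr 1
    refine Finset.sum_congr rfl fun n _ => ?_
    rw [map_mul, Complex.conj_ofReal, ← Complex.exp_conj]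
    congr 2
    rw [map_mul, Complex.conj_I, map_neg, Complex.conj_ofReal]
    push_cast
    ring

private theorem smo_c1 (n : ℕ) : c1 n = 1 :=
  MulChar.one_apply (isUnit_of_subsingleton _)

theorem smo : ∃ C : ℝ, 0 < C ∧ ∀ (i : Fin 6) (a : ℕ) (t : ℝ), 3 ≤ (i : ℕ) → 1 ≤ |t| →
    |t| ≤ (2 : ℝ) ^ a / 2 → ‖H43.SI.pol (H43.SI.cf c1 i) a t‖ ≤ C * (1 + a) / |t| := by
  refine ⟨160, by norm_num, ?_⟩
  intro i a t hi h1 h2
  have ht0 : 0 < |t| := by linarith
  have hapos : 1 ≤ a := by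
    by_contra hcon
    have h0 : a = 0 := by omega
    subst h0
    norm_num at h2
    linarith
  obtain ⟨b, rfl⟩ : ∃ b, a = b + 1 := ⟨a - 1, by omega⟩
  have hdiv : 2 ^ (b + 1) / 2 = 2 ^ b := by
    rw [pow_succ]
    omega
  have hb1 : 1 ≤ 2 ^ b := Nat.one_le_two_pow
  have hb2 : 2 ^ (b + 1) = 2 * 2 ^ b := by
    rw [pow_succ]
    omega
  have hKt : |t| ≤ ((2 ^ b : ℕ) : ℝ) := by
    rw [pow_succ] at h2
    push_cast
    linarith
  have hblock : ∀ K' : ℕ, K' ≤ 2 ^ (b + 1) →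
      ‖∑ n ∈ Ioc ((2 : ℕ) ^ b) K', (n : ℂ) ^ (-(1 + (t : ℂ) * Complex.I))‖ ≤ 80 / |t| :=
    fun K' hK' => smo_all (2 ^ b) K' hb1 (hK'.trans hb2.le) t h1 hKt
  have hb0 : (0 : ℝ) ≤ b := Nat.cast_nonneg b
  unfold H43.SI.pol
  rw [hdiv]
  by_cases hi4 : (i : ℕ) = 3
  · have e1 : H43.LF.ds (H43.SI.cf c1 i) (2 ^ b) (2 ^ (b + 1)) t =
        ∑ n ∈ Ioc ((2 : ℕ) ^ b) ((2 : ℕ) ^ (b + 1)),
          ((Real.log n : ℝ) : ℂ) * ((n : ℂ) ^ (-(1 + (t : ℂ) * Complex.I))) := by
      unfold H43.LF.ds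
      refine Finset.sum_congr rfl fun n _ => ?_
      unfold H43.SI.cf
      rw [if_neg (by omega), if_pos hi4, smo_c1]
      ring
    rw [e1]
    have h4 := H43.SI.pw_log (fun n : ℕ => (n : ℂ) ^ (-(1 + (t : ℂ) * Complex.I))) (2 ^ b)
      (2 ^ (b + 1)) (by omega) (80 / |t|) hblock
    refine h4.trans ?_
    have h5 : Real.log ((2 ^ (b + 1) : ℕ) : ℝ) ≤ b + 1 := by
      push_cast
      rw [Real.log_pow]
      have h6 : Real.log 2 ≤ 1 := by
        have := Real.log_two_lt_d9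
        linarith
      push_cast
      nlinarith
    have h7 : 0 < 80 / |t| := by positivity
    calc 2 * Real.log ((2 ^ (b + 1) : ℕ) : ℝ) * (80 / |t|) ≤ 2 * (b + 1) * (80 / |t|) := by
          apply mul_le_mul_of_nonneg_right _ h7.le
          linarith
      _ = 160 * (b + 1) / |t| := by ring
      _ ≤ 160 * (1 + ((b + 1 : ℕ) : ℝ)) / |t| := by
          apply div_le_div_of_nonneg_right _ ht0.le
          push_cast
          linarith
  · have e1 : H43.LF.ds (H43.SI.cf c1 i) (2 ^ b) (2 ^ (b + 1)) t =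
        ∑ n ∈ Ioc ((2 : ℕ) ^ b) ((2 : ℕ) ^ (b + 1)), (n : ℂ) ^ (-(1 + (t : ℂ) * Complex.I)) := by
      unfold H43.LF.ds
      refine Finset.sum_congr rfl fun n _ => ?_
      unfold H43.SI.cf
      rw [if_neg (by omega), if_neg hi4, smo_c1, one_mul]
    rw [e1]
    refine (hblock _ le_rfl).trans ?_
    apply div_le_div_of_nonneg_right _ ht0.le
    push_cast
    linarith

end Pool.Agent.H98.PK
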