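import Pool.Agent.H98.PK.Triv
import Pool.Agent.H43.SI.Poly

/-!
# [H98 PK FAR] Boxes far from the cubes

PROOF. `S = Σ e i`, `x ∈ tup N P`, `m = mv x ∈ [M/2^(r+2), M]` (`mv_bounds`), `bf(n) ≠ 0`, so `1 <= n <= 2^S <= 64 n` (`SI.bf_supp`). Claim:
`|log n - 3 log m - τ| >= 1`. If `2^(3r+12) 2^S < M^3`: `log n - 3 log m <= log(M^3/2^(3r+12)) - log(M^3/2^(3r+6)) = -6 log 2 <= -4`. If
`2^S > 2^(3r+12) M^3`: `n >= 2^S/64 > 2^(3r+6) M^3`, `log n - 3 log m >= (3r+6) log 2 >= 4`, minus `τ <= 1`. So every term of `W` has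
`exp(-(Tξ)^2) <= exp(-T^2)`. `|bf(n)| <= (1+S)^6 τ_6(n)` (`SI.mvp_bound` with `s = univ`; `bf = ∏_i af`, see `SI.bf`, `Fin.prod_univ_six`), crudely
`τ_6(n) <= n^5` (`n >= 1`; `τ_(j+1)(n) = Σ_{d∣n} τ_j(d) <= n τ_j-bound`: `τ_j(n) <= n^(j-1)` for `j >= 1`, or simply `<= n^6`), `S <= 12 bh` (`e ∈ boxes`),
`Nm = 2^(3 bh) <= 2^(3r+15) M^3`, `#tup <= M` (`tup_card`): `‖T W‖ <= T Nm (1+12 bh)^6 Nm^6 M exp(-T^2)`, `T exp(-T^2) <= exp(-T^2/2)`,
`T^2/2 >= M^(β/2)/2`: `<= 1` for `M >= M1(r,β)`.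
-/

namespace Pool.Agent.H98.PK

open Finset

private theorem far_zeta (k : ℕ) : ∀ n,
    ((ArithmeticFunction.zeta : ArithmeticFunction ℕ) ^ k) n ≤ n ^ k := by
  induction k with
  | zero =>
    intro n
    rw [pow_zero, pow_zero]
    by_cases h : n = 1
    · subst h; simp
    · rw [ArithmeticFunction.one_apply_ne h]; exact Nat.zero_le _
  | succ k ih =>
    intro n
    rw [pow_succ' (ArithmeticFunction.zeta : ArithmeticFunction ℕ), ArithmeticFunction.mul_apply]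
    have h1 : ∀ x ∈ n.divisorsAntidiagonal, ArithmeticFunction.zeta x.1 *
        ((ArithmeticFunction.zeta : ArithmeticFunction ℕ) ^ k) x.2 ≤ n ^ k := by
      intro x hx
      obtain ⟨h1, h2⟩ := Nat.mem_divisorsAntidiagonal.1 hx
      have hx1 : x.1 ≠ 0 := by
        rintro h0
        rw [h0, zero_mul] at h1
        exact h2 h1.symm
      rw [ArithmeticFunction.zeta_apply_ne hx1, one_mul]
      refine (ih x.2).trans (Nat.pow_le_pow_left ?_ k)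
      rw [← h1]
      exact Nat.le_mul_of_pos_left _ (Nat.pos_of_ne_zero hx1)
    refine (sum_le_card_nsmul _ _ _ h1).trans ?_
    rw [smul_eq_mul, pow_succ, mul_comm]
    refine Nat.mul_le_mul_left _ ?_
    refine le_trans (card_le_card_of_injOn (fun x : ℕ × ℕ => x.1) (t := n.divisors) ?_ ?_)
      (Nat.card_divisors_le_self n)
    · intro x hx
      exact Nat.fst_mem_divisors_of_mem_antidiagonal hx
    · intro x hx y hy hxy
      rw [mem_coe, Nat.mem_divisorsAntidiagonal] at hx hy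
      dsimp only at hxy
      have hx1 : x.1 ≠ 0 := by
        intro h0
        rw [h0, zero_mul] at hx
        exact hx.2 hx.1.symm
      refine Prod.ext hxy (Nat.eq_of_mul_eq_mul_left (Nat.pos_of_ne_zero hx1) ?_)
      rw [hx.1, hxy, hy.1]

theorem far_bf (e : Fin 6 → ℕ) (n : ℕ) :
    ‖H43.SI.bf c1 e n‖ ≤ (1 + ((∑ i, e i : ℕ) : ℝ)) ^ 6 * (n : ℝ) ^ 6 := by
  have h1 := H43.SI.mvp_bound c1 e univ n
  rw [Fin.prod_univ_six, card_univ, Fintype.card_fin] at h1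
  refine h1.trans (mul_le_mul_of_nonneg_left ?_
    (pow_nonneg (add_nonneg zero_le_one (Nat.cast_nonneg _)) 6))
  exact_mod_cast far_zeta 6 n

private theorem far_xi {r M N : ℕ} {β : ℝ} {F : Fin r → ℕ} {P : Fin r → Finset ℕ}
    (h : Bx β M N F P) (x : ℕ × (Fin r → ℕ)) (hx : x ∈ tup N P) {n S : ℕ} (hn : 1 ≤ n)
    (hn1 : n ≤ 2 ^ S) (hn2 : 2 ^ S ≤ 64 * n) (hS : ¬ (M ^ 3 ≤ 2 ^ (3 * r + 12) * 2 ^ S ∧
      2 ^ S ≤ 2 ^ (3 * r + 12) * M ^ 3)) {τ : ℝ} (h0 : 0 ≤ τ) (h1 : τ ≤ 1) :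
    1 ≤ |Real.log n - 3 * Real.log (mv x) - τ| := by
  obtain ⟨hm1, hm2, hm3⟩ := mv_bounds h x hx
  obtain ⟨m, hm⟩ : ∃ m, m = mv x := ⟨_, rfl⟩
  rw [← hm] at hm1 hm2 hm3 ⊢
  have hn0 : (0 : ℝ) < n := by exact_mod_cast hn
  have hm0 : (0 : ℝ) < m := by exact_mod_cast hm1
  have h64 : Real.log 64 = 6 * Real.log 2 := by
    rw [show (64 : ℝ) = 2 ^ 6 by norm_num, Real.log_pow]
    norm_num
  have hl2 := Real.log_two_gt_d9
  have hpow : 2 ^ (3 * r + 12) = 2 ^ (3 * (r + 2)) * 64 := by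
    rw [show 3 * r + 12 = 3 * (r + 2) + 6 by ring, pow_add]
    norm_num
  rw [not_and_or, not_le, not_le] at hS
  rcases hS with hS | hS
  · have h2 : M ^ 3 ≤ 2 ^ (3 * (r + 2)) * m ^ 3 := by
      calc M ^ 3 ≤ (2 ^ (r + 2) * m) ^ 3 := Nat.pow_le_pow_left hm2 3
        _ = 2 ^ (3 * (r + 2)) * m ^ 3 := by rw [mul_pow, ← pow_mul, mul_comm (r + 2)]
    have h3 : 64 * n < m ^ 3 := by
      have h4 : 2 ^ (3 * (r + 2)) * (64 * n) < 2 ^ (3 * (r + 2)) * m ^ 3 := by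
        calc 2 ^ (3 * (r + 2)) * (64 * n) = 2 ^ (3 * r + 12) * n := by rw [hpow]; ring
          _ ≤ 2 ^ (3 * r + 12) * 2 ^ S := Nat.mul_le_mul_left _ hn1
          _ < M ^ 3 := hS
          _ ≤ _ := h2
      exact lt_of_mul_lt_mul_left h4 (Nat.zero_le _)
    have h4 : Real.log (64 * n) ≤ Real.log ((m : ℝ) ^ 3) := by
      apply Real.log_le_log (by positivity)
      exact_mod_cast h3.le
    rw [Real.log_mul (by norm_num) hn0.ne', Real.log_pow, h64] at h4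
    push_cast at h4
    rw [abs_of_nonpos (by linarith)]
    linarith
  · have h2 : 64 * m ^ 3 ≤ n := by
      have h4 : 64 * (64 * m ^ 3) ≤ 64 * n := by
        calc 64 * (64 * m ^ 3) ≤ 2 ^ (3 * r + 12) * m ^ 3 := by
              rw [← mul_assoc]
              refine Nat.mul_le_mul_right _ ?_
              calc 64 * 64 = 2 ^ 12 := by norm_num
                _ ≤ 2 ^ (3 * r + 12) := Nat.pow_le_pow_right (by norm_num) (by omega)
          _ ≤ 2 ^ (3 * r + 12) * M ^ 3 := Nat.mul_le_mul_left _ (Nat.pow_le_pow_left hm3 3)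
          _ ≤ 2 ^ S := hS.le
          _ ≤ 64 * n := hn2
      omega
    have h4 : Real.log (64 * (m : ℝ) ^ 3) ≤ Real.log n := by
      apply Real.log_le_log (by positivity)
      exact_mod_cast h2
    rw [Real.log_mul (by norm_num) (by positivity), Real.log_pow, h64] at h4
    push_cast at h4
    rw [abs_of_nonneg (by linarith)]
    linarith

theorem far_aux {T y : ℝ} (hy : 1 ≤ |y|) :
    Real.exp (-(T * y) ^ 2) ≤ Real.exp (-T ^ 2) := by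
  rw [Real.exp_le_exp, mul_pow]
  have h3 : 1 ≤ y ^ 2 := by
    rw [← sq_abs]
    exact one_le_pow₀ hy
  have h4 := mul_le_mul_of_nonneg_left h3 (sq_nonneg T)
  linarith

private theorem far_W {r M N : ℕ} {β : ℝ} {F : Fin r → ℕ} {P : Fin r → Finset ℕ}
    (h : Bx β M N F P) (e : Fin 6 → ℕ) (Nm S : ℕ) (hSe : ∑ i, e i = S)
    (hS : ¬ (M ^ 3 ≤ 2 ^ (3 * r + 12) * 2 ^ S ∧ 2 ^ S ≤ 2 ^ (3 * r + 12) * M ^ 3))
    {T τ : ℝ} (hT : 0 ≤ T) (h0 : 0 ≤ τ) (h1 : τ ≤ 1) :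
    ‖(T : ℂ) * W (fun n => H43.SI.bf c1 e n) Nm N P T τ‖ ≤
      T * ((Nm : ℝ) * ((1 + (S : ℝ)) ^ 6 * (Nm : ℝ) ^ 6 *
        (M * Real.exp (-T ^ 2)))) := by
  have hS0 : (0 : ℝ) ≤ 1 + (S : ℝ) := by positivity
  have hM0 : (0 : ℝ) ≤ M * Real.exp (-T ^ 2) := by positivity
  rw [norm_mul, Complex.norm_real, Real.norm_of_nonneg hT]
  refine mul_le_mul_of_nonneg_left ?_ hT
  unfold W
  refine (norm_sum_le _ _).trans ?_
  have hcard : ((Icc 1 Nm).card : ℝ) = Nm := by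
    rw [Nat.card_Icc, Nat.add_sub_cancel]
  rw [← hcard, ← nsmul_eq_mul, hcard]
  refine sum_le_card_nsmul _ _ _ fun n hn => ?_
  rw [mem_Icc] at hn
  have hn0 : (1 : ℝ) ≤ n := by exact_mod_cast hn.1
  dsimp only
  by_cases hb : H43.SI.bf c1 e n = 0
  · rw [hb, zero_div, zero_mul, norm_zero]
    exact mul_nonneg (mul_nonneg (pow_nonneg hS0 6) (pow_nonneg (Nat.cast_nonneg _) 6)) hM0
  obtain ⟨hb1, hb2, hb3⟩ := H43.SI.bf_supp c1 e n hb
  rw [hSe] at hb2 hb3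
  rw [norm_mul, norm_div, Complex.norm_natCast]
  refine mul_le_mul ?_ ?_ (norm_nonneg _)
    (mul_nonneg (pow_nonneg hS0 6) (pow_nonneg (Nat.cast_nonneg _) 6))
  · have hbf := far_bf e n
    rw [hSe] at hbf
    refine (div_le_self (norm_nonneg _) hn0).trans (hbf.trans ?_)
    refine mul_le_mul_of_nonneg_left (pow_le_pow_left₀ (Nat.cast_nonneg _) ?_ 6)
      (pow_nonneg hS0 6)
    exact_mod_cast hn.2
  · refine (norm_sum_le _ _).trans ?_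
    have h2 : ∀ x ∈ tup N P, ‖(Real.exp (-(T * (Real.log n - 3 * Real.log (mv x) - τ)) ^ 2) : ℂ)‖
        ≤ Real.exp (-T ^ 2) := by
      intro x hx
      have hxi := far_xi h x hx hb1 hb2 hb3 hS h0 h1
      rw [Complex.norm_real, Real.norm_of_nonneg (Real.exp_pos _).le]
      exact far_aux hxi
    refine (sum_le_card_nsmul _ _ _ h2).trans ?_
    rw [nsmul_eq_mul]
    refine mul_le_mul_of_nonneg_right ?_ (Real.exp_pos _).le
    have h3 := tup_card h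
    rw [← h3.1] at h3
    exact_mod_cast h3.2

theorem far_T {T x : ℝ} (h : x ≤ T ^ 2) :
    T * Real.exp (-T ^ 2) ≤ Real.exp (-(1 / 2) * x) := by
  have h2 : T ≤ Real.exp (T ^ 2 / 2) := by
    have h3 := Real.add_one_le_exp (T ^ 2 / 2)
    have h4 := sq_nonneg (T - 1)
    nlinarith
  calc T * Real.exp (-T ^ 2) ≤ Real.exp (T ^ 2 / 2) * Real.exp (-T ^ 2) :=
        mul_le_mul_of_nonneg_right h2 (Real.exp_pos _).le
    _ = Real.exp (-(1 / 2) * T ^ 2) := by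
        rw [← Real.exp_add]
        congr 1
        ring
    _ ≤ _ := by
        rw [Real.exp_le_exp]
        linarith

private theorem far_big {A B C X E M S : ℝ} (hA : 0 ≤ A) (hS : 0 ≤ S) (hE : 0 ≤ E) (hM : 0 ≤ M)
    (h1 : A ≤ B) (h2 : S ≤ 25 * M) (hB : B = X * M ^ 3) (hC : C = X ^ 7 * 25 ^ 6) :
    A * (S ^ 6 * A ^ 6 * (M * E)) ≤ C * M ^ 28 * E := by
  have h3 : S ^ 6 ≤ (25 * M) ^ 6 := pow_le_pow_left₀ hS h2 6
  have h4 : A ^ 7 ≤ B ^ 7 := pow_le_pow_left₀ hA h1 7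
  calc A * (S ^ 6 * A ^ 6 * (M * E)) = A ^ 7 * S ^ 6 * (M * E) := by ring
    _ ≤ B ^ 7 * (25 * M) ^ 6 * (M * E) :=
        mul_le_mul_of_nonneg_right (mul_le_mul h4 h3 (pow_nonneg hS 6)
          (pow_nonneg (hA.trans h1) 7)) (mul_nonneg hM hE)
    _ = _ := by rw [hB, hC]; ring


theorem far (r : ℕ) (β : ℝ) (hβ : 0 < β) : ∃ M1 : ℕ, ∀ M : ℕ, M1 ≤ M →
    ∀ (N : ℕ) (F : Fin r → ℕ) (P : Fin r → Finset ℕ), Bx β M N F P →
    ∀ e ∈ H43.SI.boxes (bh r M) (3 * bh r M), ¬ (M ^ 3 ≤ 2 ^ (3 * r + 12) * 2 ^ (∑ i, e i) ∧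
      2 ^ (∑ i, e i) ≤ 2 ^ (3 * r + 12) * M ^ 3) → ∀ T : ℝ, (M : ℝ) ^ (β / 4) ≤ T →
    ∀ τ : ℝ, 0 ≤ τ → τ ≤ 1 →
    ‖(T : ℂ) * W (fun n => H43.SI.bf c1 e n) (2 ^ (3 * bh r M)) N P T τ‖ ≤ 1 := by
  -- the constant
  obtain ⟨C, hC⟩ : ∃ C : ℝ, C = ((2 : ℝ) ^ (3 * r + 15)) ^ 7 * 25 ^ 6 := ⟨_, rfl⟩
  have hC0 : 0 < C := by rw [hC]; positivity
  have hlim : Filter.Tendsto (fun M : ℕ => ((M : ℝ) ^ (β / 2)) ^ (28 * (2 / β)) *
      Real.exp (-(1 / 2) * (M : ℝ) ^ (β / 2))) Filter.atTop (nhds 0) :=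
    (tendsto_rpow_mul_exp_neg_mul_atTop_nhds_zero (28 * (2 / β)) (1 / 2) (by norm_num)).comp
      ((tendsto_rpow_atTop (by positivity : 0 < β / 2)).comp tendsto_natCast_atTop_atTop)
  have hev : ∀ᶠ M : ℕ in Filter.atTop, ((M : ℝ) ^ (β / 2)) ^ (28 * (2 / β)) *
      Real.exp (-(1 / 2) * (M : ℝ) ^ (β / 2)) ≤ 1 / C :=
    (hlim.eventually (eventually_le_nhds (by positivity : (0 : ℝ) < 1 / C)))
  obtain ⟨M1, hM1⟩ := Filter.eventually_atTop.1 hev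
  refine ⟨max M1 (r + 6), fun M hM N F P hB e he hS T hT τ h0 h1 => ?_⟩
  have hMa : M1 ≤ M := (le_max_left _ _).trans hM
  have hMb : r + 6 ≤ M := (le_max_right _ _).trans hM
  have hM0 : (0 : ℝ) < M := by exact_mod_cast (by omega : 0 < M)
  have hMge : (1 : ℝ) ≤ M := by exact_mod_cast (by omega : 1 ≤ M)
  have hT0 : 0 ≤ T := (Real.rpow_nonneg hM0.le _).trans hT
  refine (far_W hB e _ _ rfl hS hT0 h0 h1).trans ?_
  -- the sizes
  have hlog : Nat.log 2 M ≤ M := Nat.log_le_self 2 M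
  have hbh : bh r M ≤ 2 * M := by unfold bh; omega
  have hSum : ∑ i, e i ≤ 24 * M := by
    have h2 : ∀ i, e i ≤ if (i : ℕ) < 3 then bh r M else 3 * bh r M := by
      intro i
      have h3 := Fintype.mem_piFinset.1 he i
      split_ifs with h4
      · rw [if_pos h4, mem_range] at h3
        omega
      · rw [if_neg h4, mem_range] at h3
        omega
    have h5 := sum_le_sum fun (i : Fin 6) (_ : i ∈ univ) => h2 i
    rw [Fin.sum_univ_six (fun i : Fin 6 => if (i : ℕ) < 3 then bh r M else 3 * bh r M)] at h5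
    norm_num at h5
    omega
  have hS1 : 1 + ((∑ i, e i : ℕ) : ℝ) ≤ 25 * M := by
    have h2 : ((∑ i, e i : ℕ) : ℝ) ≤ 24 * M := by exact_mod_cast hSum
    linarith
  have hNm : ((2 ^ (3 * bh r M) : ℕ) : ℝ) ≤ 2 ^ (3 * r + 15) * (M : ℝ) ^ 3 := by
    have h2 : 2 ^ (3 * bh r M) ≤ 2 ^ (3 * r + 15) * M ^ 3 := by
      have h3 : 2 ^ Nat.log 2 M ≤ M := Nat.pow_log_le_self 2 (by omega)
      calc 2 ^ (3 * bh r M) = 2 ^ (3 * r + 15) * (2 ^ Nat.log 2 M) ^ 3 := by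
            unfold bh
            rw [← pow_mul, ← pow_add]
            congr 1
            ring
        _ ≤ _ := Nat.mul_le_mul_left _ (Nat.pow_le_pow_left h3 3)
    exact_mod_cast h2
  obtain ⟨Nm, hNmd⟩ : ∃ Nm : ℕ, Nm = 2 ^ (3 * bh r M) := ⟨_, rfl⟩
  rw [← hNmd] at hNm ⊢
  obtain ⟨S, hSd⟩ : ∃ S : ℕ, S = ∑ i, e i := ⟨_, rfl⟩
  rw [← hSd] at hS1 ⊢
  have hS0 : (0 : ℝ) ≤ 1 + (S : ℝ) := add_nonneg zero_le_one (Nat.cast_nonneg _)
  have hbig := far_big (X := (2 : ℝ) ^ (3 * r + 15)) (C := C) (E := Real.exp (-T ^ 2))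
    (Nat.cast_nonneg Nm) hS0 (Real.exp_pos _).le hM0.le hNm hS1 rfl hC
  have hTe : T * Real.exp (-T ^ 2) ≤ Real.exp (-(1 / 2) * (M : ℝ) ^ (β / 2)) := by
    apply far_T
    have h4 : (M : ℝ) ^ (β / 2) = ((M : ℝ) ^ (β / 4)) ^ 2 := by
      rw [← Real.rpow_natCast, ← Real.rpow_mul hM0.le]
      congr 1
      push_cast
      ring
    rw [h4]
    exact pow_le_pow_left₀ (Real.rpow_nonneg hM0.le _) hT 2
  have hpow : ((M : ℝ) ^ (β / 2)) ^ (28 * (2 / β)) = (M : ℝ) ^ 28 := by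
    rw [← Real.rpow_mul hM0.le, ← Real.rpow_natCast]
    congr 1
    push_cast
    field_simp
  have hfin := hM1 M hMa
  rw [hpow] at hfin
  have hM28 : (0 : ℝ) ≤ (M : ℝ) ^ 28 := pow_nonneg hM0.le 28
  calc T * ((Nm : ℝ) * ((1 + (S : ℝ)) ^ 6 * (Nm : ℝ) ^ 6 * (M * Real.exp (-T ^ 2))))
      ≤ T * (C * (M : ℝ) ^ 28 * Real.exp (-T ^ 2)) := mul_le_mul_of_nonneg_left hbig hT0
    _ = C * ((M : ℝ) ^ 28 * (T * Real.exp (-T ^ 2))) := by ring
    _ ≤ C * ((M : ℝ) ^ 28 * Real.exp (-(1 / 2) * (M : ℝ) ^ (β / 2))) := by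
        refine mul_le_mul_of_nonneg_left (mul_le_mul_of_nonneg_left hTe hM28) hC0.le
    _ ≤ C * (1 / C) := mul_le_mul_of_nonneg_left hfin hC0.le
    _ = 1 := by rw [mul_one_div, div_self hC0.ne']

end Pool.Agent.H98.PK
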