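import Pool.Agent.H98.PK.Defs
import Pool.Agent.H43.SI.Pw

/-!
# [H98 PK TRIV] Trivial bounds

PROOF. `bp_triv`: `SI.pw_triv` gives `‖pol (cf c1 i) (e i) t‖ <= 1 + e i <= 1 + Σ e`; product of six factors.
`cp_triv`: `‖ex x‖ = 1`. `tup_card`: `#tup = N ∏ #(P i)` (`Fintype.card_piFinset`), `#(P i) <= F i` as `P i ⊆ Ioc (F i) (2 F i)`,
so `#tup <= N ∏ F i <= M` by `t1`. `cpx_triv` likewise. `mv_bounds`: `x.1 > N`, `x.2 i > F i`, so `mv x >= N ∏ F i`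
(`Finset.prod_le_prod'`), `M <= 2^(r+2) mv x` by `t0`; `x.1 <= 2N`, `x.2 i <= 2 F i`, so `mv x <= 2^(r+1) N ∏ F i <= M` by `t1`;
`1 <= mv x` as `x.1 >= 1`, `x.2 i >= 1`.
-/

namespace Pool.Agent.H98.PK

open Finset

theorem norm_ex (x : ℝ) : ‖ex x‖ = 1 := by
  unfold ex
  exact Complex.norm_exp_ofReal_mul_I x

theorem bp_triv (e : Fin 6 → ℕ) (t : ℝ) : ‖H43.SI.bp c1 e t‖ ≤ (1 + ((∑ i, e i : ℕ) : ℝ)) ^ 6 := by
  unfold H43.SI.bp
  rw [norm_prod]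
  have h1 : ∀ i ∈ (univ : Finset (Fin 6)), ‖H43.SI.pol (H43.SI.cf c1 i) (e i) t‖ ≤
      1 + ((∑ i, e i : ℕ) : ℝ) := by
    intro i _
    refine (H43.SI.pw_triv c1 i (e i) t).trans ?_
    have h2 : e i ≤ ∑ i, e i := single_le_sum (fun j _ => Nat.zero_le (e j)) (mem_univ i)
    have h3 : ((e i : ℕ) : ℝ) ≤ ((∑ i, e i : ℕ) : ℝ) := by exact_mod_cast h2
    linarith
  refine (prod_le_prod (fun i _ => norm_nonneg _) h1).trans (le_of_eq ?_)
  rw [prod_const, card_univ, Fintype.card_fin]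

theorem cp_triv (P : Finset ℕ) (t : ℝ) : ‖cp P t‖ ≤ (P.card : ℝ) := by
  unfold cp
  refine (norm_sum_le _ _).trans (le_of_eq ?_)
  rw [sum_congr rfl fun p _ => norm_ex _, sum_const, nsmul_eq_mul, mul_one]

variable {β : ℝ} {r M N : ℕ} {F : Fin r → ℕ} {P : Fin r → Finset ℕ}

private theorem triv_P (h : Bx β M N F P) (i : Fin r) : (P i).card ≤ F i := by
  have h1 : P i ⊆ Ioc (F i) (2 * F i) := fun p hp => mem_Ioc.2 (h.hp i p hp)
  refine (card_le_card h1).trans (le_of_eq ?_)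
  rw [Nat.card_Ioc]
  omega

private theorem triv_N : (Ioc N (2 * N)).card = N := by
  rw [Nat.card_Ioc]
  omega

private theorem triv_le (h : Bx β M N F P) : N * ∏ i, F i ≤ M := by
  refine le_trans ?_ h.t1
  exact Nat.le_mul_of_pos_left _ (by positivity)

private theorem triv_cle (h : Bx β M N F P) : N * ∏ i, (P i).card ≤ M :=
  (Nat.mul_le_mul_left N (prod_le_prod' fun i _ => triv_P h i)).trans (triv_le h)

theorem tup_card (h : Bx β M N F P) : (tup N P).card = N * ∏ i, (P i).card ∧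
    N * ∏ i, (P i).card ≤ M := by
  refine ⟨?_, triv_cle h⟩
  unfold tup
  rw [card_product, triv_N, Fintype.card_piFinset]

theorem cpx_triv (h : Bx β M N F P) (t : ℝ) : ‖cpx N P t‖ ≤ (M : ℝ) := by
  unfold cpx
  rw [norm_mul, norm_prod]
  have h1 : ‖cp (Ioc N (2 * N)) t‖ ≤ (N : ℝ) := by
    refine (cp_triv _ t).trans (le_of_eq ?_)
    rw [triv_N]
  have h2 : ∏ i, ‖cp (P i) t‖ ≤ ∏ i, ((P i).card : ℝ) :=
    prod_le_prod (fun i _ => norm_nonneg _) fun i _ => cp_triv _ t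
  have h3 : (N : ℝ) * ∏ i, ((P i).card : ℝ) ≤ M := by exact_mod_cast triv_cle h
  exact (mul_le_mul h1 h2 (prod_nonneg fun i _ => norm_nonneg _) (Nat.cast_nonneg _)).trans h3

theorem mv_bounds (h : Bx β M N F P) (x : ℕ × (Fin r → ℕ)) (hx : x ∈ tup N P) :
    1 ≤ mv x ∧ M ≤ 2 ^ (r + 2) * mv x ∧ mv x ≤ M := by
  unfold tup at hx
  rw [mem_product, mem_Ioc, Fintype.mem_piFinset] at hx
  obtain ⟨⟨h1, h2⟩, h3⟩ := hx
  unfold mv
  have h4 : N * ∏ i, F i ≤ x.1 * ∏ i, x.2 i :=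
    Nat.mul_le_mul h1.le (prod_le_prod' fun i _ => (h.hp i _ (h3 i)).1.le)
  refine ⟨?_, ?_, ?_⟩
  · have h5 : 0 < x.1 * ∏ i, x.2 i := by
      refine Nat.mul_pos (by omega) (prod_pos fun i _ => ?_)
      have := (h.hp i _ (h3 i)).1
      omega
    exact h5
  · exact h.t0.trans (Nat.mul_le_mul_left _ h4)
  · have h5 : x.1 * ∏ i, x.2 i ≤ (2 * N) * ∏ i, (2 * F i) :=
      Nat.mul_le_mul h2 (prod_le_prod' fun i _ => (h.hp i _ (h3 i)).2)
    refine h5.trans (le_trans (le_of_eq ?_) h.t1)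
    rw [prod_mul_distrib, prod_const, card_univ, Fintype.card_fin]
    ring

end Pool.Agent.H98.PK
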