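import Pool.Agent.H98.PK.Bct
import Pool.Agent.H98.PK.Triv

/-!
# [H98 PK MUL] Every `m` has a bounded number of representations

PROOF. `C = (4r+8)^r`. `M` large, `b = bb r M >= 1`, `bct1`. The left side is the sum over the pairs `(g,x)`, `g ∈ GG`, `x ∈ tup (Ng g) (Pg g)`, of `h (mv x)`;
by `mv_bounds` `mv x ∈ Icc 1 M`. Group by `m = mv x`: it is enough that for each `m ∈ Icc 1 M` at most `C` pairs `(g,x)` have `mv x = m`. The pair is
determined by `m` and `p = x.2 : Fin r → ℕ`: `2^(b+g i) < p i <= 2^(b+g i+1)` determines `g i`, and `x.1 = m/∏ p i`. Each `p i` is a prime divisor of `m`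
with `p i > 2^b`. The set `D` of these primes satisfies `2^(b #D) <= ∏_{p∈D} p <= m <= M < 2^(ℓ+1)`, `ℓ = log2 M < (r+2)(b+1)`, so
`b #D <= (r+2)(b+1)`, `#D <= 2(r+2)`. So at most `#D^r <= (2r+4)^r` pairs (inject into `Fintype.piFinset fun _ : Fin r => D`).
-/

namespace Pool.Agent.H98.PK

open Finset

/-- the large prime factors of `m` -/
private def mulD (b m : ℕ) : Finset ℕ := m.primeFactors.filter (fun p => 2 ^ b < p)

private theorem mulD_card {b m l r : ℕ} (hb : 1 ≤ b) (hm : 1 ≤ m) (hml : m < 2 ^ (l + 1))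
    (hl : l < (r + 2) * (b + 1)) : (mulD b m).card ≤ 2 * (r + 2) := by
  have h1 : (2 ^ b) ^ (mulD b m).card ≤ m := by
    calc (2 ^ b) ^ (mulD b m).card = ∏ _p ∈ mulD b m, 2 ^ b := by rw [prod_const]
      _ ≤ ∏ p ∈ mulD b m, p := prod_le_prod' fun p hp => (mem_filter.1 hp).2.le
      _ ≤ ∏ p ∈ m.primeFactors, p := by
          refine prod_le_prod_of_subset_of_one_le' (filter_subset _ _) fun p hp _ => ?_
          exact (Nat.prime_of_mem_primeFactors hp).one_le
      _ ≤ m := Nat.le_of_dvd hm (Nat.prod_primeFactors_dvd m)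
  have h2 : 2 ^ (b * (mulD b m).card) < 2 ^ (l + 1) := by
    rw [pow_mul]
    exact h1.trans_lt hml
  have h3 : b * (mulD b m).card < l + 1 := (Nat.pow_lt_pow_iff_right (by norm_num)).1 h2
  by_contra h4
  push Not at h4
  have h5 : b * (2 * (r + 2) + 1) ≤ b * (mulD b m).card := Nat.mul_le_mul_left b h4
  nlinarith

theorem mul (r : ℕ) (hr : 1 ≤ r) : ∃ C : ℝ, 0 < C ∧ ∃ M1 : ℕ, ∀ M : ℕ, M1 ≤ M → ∀ h : ℕ → ℝ,
    (∀ m, 0 ≤ h m) → ∑ g ∈ GG r M, ∑ x ∈ tup (Ng r M g) (Pg r M g), h (mv x) ≤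
      C * ∑ m ∈ Icc 1 M, h m := by
  classical
  obtain ⟨M1, hM1⟩ := bct1 r hr
  refine ⟨((2 * (r + 2)) ^ r : ℕ), by positivity, max M1 (2 ^ (r + 2)), fun M hM h hh => ?_⟩
  have hMa : M1 ≤ M := (le_max_left _ _).trans hM
  have hMb : 2 ^ (r + 2) ≤ M := (le_max_right _ _).trans hM
  have hM0 : M ≠ 0 := by
    have : 0 < 2 ^ (r + 2) := by positivity
    omega
  set l : ℕ := Nat.log 2 M with hl
  set b : ℕ := bb r M with hb
  have hlr : r + 2 ≤ l := Nat.le_log_of_pow_le (by norm_num) hMb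
  have hb1 : 1 ≤ b := by
    rw [hb, bb, ← hl]
    exact Nat.div_pos hlr (by omega)
  have hMl : M < 2 ^ (l + 1) := Nat.lt_pow_succ_log_self (by norm_num) M
  have hlb : l < (r + 2) * (b + 1) := by
    rw [hb, bb, ← hl]
    exact Nat.lt_mul_div_succ l (by omega)
  have hsig : ∑ g ∈ GG r M, ∑ x ∈ tup (Ng r M g) (Pg r M g), h (mv x) =
      ∑ z ∈ (GG r M).sigma (fun g => tup (Ng r M g) (Pg r M g)), h (mv z.2) := by
    rw [sum_sigma]
  rw [hsig]
  have hmaps : ∀ z ∈ (GG r M).sigma (fun g => tup (Ng r M g) (Pg r M g)), mv z.2 ∈ Icc 1 M := by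
    intro z hz
    rw [mem_sigma] at hz
    have h1 := mv_bounds (hM1 M hMa z.1 hz.1) z.2 hz.2
    exact mem_Icc.2 ⟨h1.1, h1.2.2⟩
  rw [← sum_fiberwise_of_maps_to hmaps, mul_sum]
  refine sum_le_sum fun m hm => ?_
  rw [mem_Icc] at hm
  have h2 : ∑ z ∈ ((GG r M).sigma (fun g => tup (Ng r M g) (Pg r M g))).filter
      (fun z => mv z.2 = m), h (mv z.2) =
      ((((GG r M).sigma (fun g => tup (Ng r M g) (Pg r M g))).filter
      (fun z => mv z.2 = m)).card : ℝ) * h m := by
    rw [← nsmul_eq_mul, ← sum_const]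
    exact sum_congr rfl fun z hz => by rw [(mem_filter.1 hz).2]
  rw [h2]
  refine mul_le_mul_of_nonneg_right ?_ (hh m)
  have h3 : (((GG r M).sigma (fun g => tup (Ng r M g) (Pg r M g))).filter
      (fun z => mv z.2 = m)).card ≤
      (Fintype.piFinset fun _ : Fin r => mulD b m).card := by
    refine card_le_card_of_injOn (fun z => z.2.2) ?_ ?_
    · intro z hz
      rw [mem_coe, mem_filter, mem_sigma] at hz
      obtain ⟨⟨hz1, hz2⟩, hz3⟩ := hz
      rw [mem_coe, Fintype.mem_piFinset]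
      intro i
      unfold tup at hz2
      rw [mem_product, Fintype.mem_piFinset] at hz2
      have h4 := hz2.2 i
      unfold Pg at h4
      rw [mem_filter, mem_Ioc] at h4
      unfold mulD
      rw [mem_filter, Nat.mem_primeFactors]
      refine ⟨⟨h4.2, ?_, by omega⟩, ?_⟩
      · rw [← hz3]
        unfold mv
        exact (dvd_prod_of_mem z.2.2 (mem_univ i)).mul_left _
      · refine lt_of_le_of_lt ?_ h4.1.1
        unfold Fg
        exact Nat.pow_le_pow_right (by norm_num) (by omega)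
    · intro z hz w hw hzw
      rw [mem_coe, mem_filter, mem_sigma] at hz hw
      obtain ⟨⟨hz1, hz2⟩, hz3⟩ := hz
      obtain ⟨⟨hw1, hw2⟩, hw3⟩ := hw
      unfold tup at hz2 hw2
      rw [mem_product, Fintype.mem_piFinset] at hz2 hw2
      have hzw' : z.2.2 = w.2.2 := hzw
      have hg : z.1 = w.1 := by
        funext i
        have h4 := hz2.2 i
        have h5 := hw2.2 i
        unfold Pg Fg at h4 h5
        rw [mem_filter, mem_Ioc, ← pow_succ'] at h4 h5
        rw [← hzw'] at h5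
        have h6 : bb r M + z.1 i < bb r M + w.1 i + 1 :=
          (Nat.pow_lt_pow_iff_right (by norm_num)).1 (h4.1.1.trans_le h5.1.2)
        have h7 : bb r M + w.1 i < bb r M + z.1 i + 1 :=
          (Nat.pow_lt_pow_iff_right (by norm_num)).1 (h5.1.1.trans_le h4.1.2)
        omega
      have hx : z.2 = w.2 := by
        refine Prod.ext ?_ hzw'
        have h8 : z.2.1 * ∏ i, z.2.2 i = w.2.1 * ∏ i, w.2.2 i := by
          have := hz3.trans hw3.symm
          exact this
        rw [← hzw'] at h8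
        refine Nat.eq_of_mul_eq_mul_right (prod_pos fun i _ => ?_) h8
        have h4 := hz2.2 i
        unfold Pg at h4
        rw [mem_filter] at h4
        exact h4.2.pos
      obtain ⟨z1, z2⟩ := z
      obtain ⟨w1, w2⟩ := w
      simp only at hg hx
      subst hg
      subst hx
      rfl
  have h4 : (Fintype.piFinset fun _ : Fin r => mulD b m).card ≤ (2 * (r + 2)) ^ r := by
    rw [Fintype.card_piFinset, prod_const, card_univ, Fintype.card_fin]
    exact Nat.pow_le_pow_left (mulD_card hb1 hm.1 (hm.2.trans_lt hMl) hlb) r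
  exact_mod_cast h3.trans h4

end Pool.Agent.H98.PK
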