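import Pool.Agent.H98.PK.Tii
import Pool.Agent.H98.PK.Smo

/-!
# [H98 PK TI] Boxes with a long smooth factor

PROOF. `L = 1 + log M`, `S = Σ e i`, `1 + S <= C L` (`2^S <= 2^(3r+12) M^3`), `M` large. `sup β (β/16)`: `η'`.
(a) `t ∈ rng`, `|t| <= M^2`: `M^2 <= 2^(e i0)/2` for `M` large, so `smo`: `‖pol (cf i0) (e i0) t‖ <= C (1+S)/|t|`; the other five factors are
`<= 1 + S` (`SI.pw_triv`); `‖cpx‖ <= N M^(-η') ∏ #(P i) <= N M^(-η') ∏ F i <= M^(1-η')` (`sup`, `cp_triv`, `t1`). So the integrand is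
`<= C L^6 M^(1-η')/|t|` and `∫_{1<=|t|<=M^2} dt/|t| = 4 log M`: contribution `<= C L^7 M^(1-η')`.
(b) `M^2 < |t| <= M^3`: `|t|/(2T) >= M^(δ/2)/2`, `exp(-(t/(2T))^2) <= exp(-M^δ/4)`; trivial bounds (`bp_triv`, `cpx_triv`) and length `2 M^3`:
`<= 2 M^3 (CL)^6 M exp(-M^δ/4) <= 1`.
Total `<= M^(1-η'/2)` for `M` large.
-/

namespace Pool.Agent.H98.PK

open Finset MeasureTheory

theorem ti_int (X A B : ℝ) (hX : 1 ≤ X) (hA : 0 ≤ A) (hB : 0 ≤ B) (S : Set ℝ)
    (hS : MeasurableSet S) (hSub : ∀ t ∈ S, 1 ≤ |t| ∧ |t| ≤ X) (f : ℝ → ℝ) (hf0 : ∀ t, 0 ≤ f t)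
    (hf : ∀ t ∈ S, f t ≤ A * |t|⁻¹ + B) :
    ∫ t in S, f t ≤ A * (2 * Real.log X) + B * (2 * X) := by
  set g : ℝ → ℝ := fun t => A * |t|⁻¹ + B with hg
  have hg0 : ∀ t, 0 ≤ g t := fun t => by
    simp only [hg]
    positivity
  set K : Set ℝ := Set.Icc (-X) (-1) ∪ Set.Icc 1 X with hK
  have hSK : S ⊆ K := by
    intro t ht
    obtain ⟨h1, h2⟩ := hSub t ht
    rcases le_or_gt 0 t with h | h
    · rw [abs_of_nonneg h] at h1 h2
      exact Or.inr ⟨h1, h2⟩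
    · rw [abs_of_neg h] at h1 h2
      exact Or.inl ⟨by linarith, by linarith⟩
  have hcont : ∀ K' : Set ℝ, (∀ t ∈ K', t ≠ 0) → ContinuousOn g K' := by
    intro K' hK'
    refine ContinuousOn.add (ContinuousOn.mul continuousOn_const ?_) continuousOn_const
    exact ContinuousOn.inv₀ continuous_abs.continuousOn fun t ht => abs_ne_zero.2 (hK' t ht)
  have hi1 : IntegrableOn g (Set.Icc (-X) (-1)) :=
    (hcont _ fun t ht => ne_of_lt (by linarith [ht.2])).integrableOn_compact isCompact_Icc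
  have hi2 : IntegrableOn g (Set.Icc 1 X) :=
    (hcont _ fun t ht => ne_of_gt (by linarith [ht.1])).integrableOn_compact isCompact_Icc
  have hiK : IntegrableOn g K := hi1.union hi2
  have h1 : ∫ t in S, f t ≤ ∫ t in S, g t := by
    refine integral_mono_of_nonneg (Filter.Eventually.of_forall hf0) (hiK.mono_set hSK) ?_
    exact (ae_restrict_iff' hS).2 (Filter.Eventually.of_forall hf)
  have h2 : ∫ t in S, g t ≤ ∫ t in K, g t :=
    setIntegral_mono_set hiK (Filter.Eventually.of_forall hg0) (Filter.Eventually.of_forall hSK)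
  have hdisj : Disjoint (Set.Icc (-X) (-1)) (Set.Icc (1 : ℝ) X) := by
    rw [Set.disjoint_left]
    intro t h3 h4
    linarith [h3.2, h4.1]
  have h3 : ∫ t in K, g t = (∫ t in Set.Icc (-X) (-1), g t) + ∫ t in Set.Icc 1 X, g t :=
    setIntegral_union hdisj measurableSet_Icc hi1 hi2
  have h4 : ∫ t in Set.Icc 1 X, g t = A * Real.log X + B * (X - 1) := by
    rw [integral_Icc_eq_integral_Ioc, ← intervalIntegral.integral_of_le hX]
    have h5 : ∫ t in (1 : ℝ)..X, g t = ∫ t in (1 : ℝ)..X, (A * t⁻¹ + B) := by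
      refine intervalIntegral.integral_congr fun t ht => ?_
      rw [Set.uIcc_of_le hX] at ht
      simp only [hg]
      rw [abs_of_nonneg (by linarith [ht.1])]
    rw [h5, intervalIntegral.integral_add, intervalIntegral.integral_const_mul,
      integral_inv_of_pos one_pos (by linarith), intervalIntegral.integral_const, div_one,
      smul_eq_mul, mul_comm (X - 1) B]
    · refine ContinuousOn.intervalIntegrable ?_
      rw [Set.uIcc_of_le hX]
      exact continuousOn_const.mul (continuousOn_id.inv₀ fun t ht => ne_of_gt (by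
        have := ht.1
        simp only [id]
        linarith))
    · exact continuous_const.intervalIntegrable _ _
  have h6 : ∫ t in Set.Icc (-X) (-1), g t = ∫ t in Set.Icc 1 X, g t := by
    rw [integral_Icc_eq_integral_Ioc, integral_Icc_eq_integral_Ioc,
      ← intervalIntegral.integral_of_le (by linarith), ← intervalIntegral.integral_of_le hX,
      ← intervalIntegral.integral_comp_neg]
    refine intervalIntegral.integral_congr fun t _ => ?_
    simp only [hg, abs_neg]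
  rw [h3, h6, h4] at h2
  have h7 : A * Real.log X + B * (X - 1) + (A * Real.log X + B * (X - 1)) ≤
      A * (2 * Real.log X) + B * (2 * X) := by nlinarith
  linarith

theorem ti (r : ℕ) (β δ : ℝ) (hβ : 0 < β) (hδ : 40 * β ≤ δ) (hδ1 : δ ≤ 1) : ∃ η : ℝ, 0 < η ∧
    ∃ M1 : ℕ, ∀ M : ℕ, M1 ≤ M → ∀ (N : ℕ) (F : Fin r → ℕ) (P : Fin r → Finset ℕ), Bx β M N F P →
    ∀ (e : Fin 6 → ℕ) (i0 : Fin 6), 3 ≤ (i0 : ℕ) → (M : ℝ) ^ (2 + δ / 8) ≤ (2 : ℝ) ^ (e i0) →
    2 ^ (∑ i, e i) ≤ 2 ^ (3 * r + 12) * M ^ 3 → ∀ T : ℝ, 1 ≤ T → T ≤ (M : ℝ) ^ (2 - δ / 2) →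
    ∫ t in rng β M, Real.exp (-(t / (2 * T)) ^ 2) * (‖H43.SI.bp c1 e t‖ * ‖cpx N P t‖) ≤
      (M : ℝ) ^ (1 - η) := by
  have hδ0 : 0 < δ := by linarith
  obtain ⟨η0, hη0, M0, hsup⟩ := sup β (β / 16) hβ (by positivity)
  obtain ⟨Cs, hCs, hsmo⟩ := smo
  obtain ⟨η1, hη1, hη1le, hη1le'⟩ : ∃ η1 : ℝ, 0 < η1 ∧ η1 ≤ 1 ∧ η1 ≤ η0 :=
    ⟨min η0 1, lt_min hη0 one_pos, min_le_right _ _, min_le_left _ _⟩
  obtain ⟨D, hD⟩ : ∃ D : ℝ, D = 3 * (r : ℝ) + 13 := ⟨_, rfl⟩
  have hD13 : 13 ≤ D := by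
    rw [hD]
    have : (0 : ℝ) ≤ r := Nat.cast_nonneg r
    linarith
  obtain ⟨κ, hκ⟩ : ∃ κ : ℝ, κ = η1 / 28 := ⟨_, rfl⟩
  have hκ0 : 0 < κ := by rw [hκ]; positivity
  -- the conditions on `M`
  have hev1 : ∀ᶠ x : ℝ in Filter.atTop, 2 * (Cs * D ^ 6 * 6) * (1 + 1 / κ) ^ 7 ≤ x ^ (η1 / 4) :=
    (tendsto_rpow_atTop (by positivity)).eventually_ge_atTop _
  have hev2 : ∀ᶠ x : ℝ in Filter.atTop, 2 ≤ x ^ (δ / 8) :=
    (tendsto_rpow_atTop (by positivity)).eventually_ge_atTop _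
  have hev3 : ∀ᶠ x : ℝ in Filter.atTop,
      (x ^ δ) ^ (10 / δ) * Real.exp (-(1 / 4) * x ^ δ) < 1 / (4 * D ^ 6) :=
    ((tendsto_rpow_mul_exp_neg_mul_atTop_nhds_zero (10 / δ) (1 / 4) (by norm_num)).comp
      (tendsto_rpow_atTop hδ0)).eventually_lt_const (by positivity)
  obtain ⟨x1, hx1⟩ := Filter.eventually_atTop.1 (hev1.and (hev2.and hev3))
  refine ⟨η1 / 2, by positivity, max (max M0 ⌈x1⌉₊) 1, ?_⟩
  intro M hM N F P hB e i0 hi0 hei0 hS T hT1 hT
  have hM0 : M0 ≤ M := ((le_max_left _ _).trans (le_max_left _ _)).trans hM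
  have hMx1 : x1 ≤ (M : ℝ) := (Nat.le_ceil _).trans (by
    exact_mod_cast ((le_max_right _ _).trans (le_max_left _ _)).trans hM)
  have hM1 : 1 ≤ M := (le_max_right _ _).trans hM
  have hM1R : (1 : ℝ) ≤ M := by exact_mod_cast hM1
  have hMpos : (0 : ℝ) < M := by linarith
  obtain ⟨hc1, hc2, hc3⟩ := hx1 M hMx1
  have hlog0 : 0 ≤ Real.log M := Real.log_nonneg hM1R
  -- the size of `S`
  obtain ⟨S, hSdef⟩ : ∃ S : ℝ, S = ((∑ i, e i : ℕ) : ℝ) := ⟨_, rfl⟩
  have hS0 : 0 ≤ S := by rw [hSdef]; exact Nat.cast_nonneg _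
  have hSle : 1 + S ≤ D * (1 + Real.log M) := by
    have h1 : (2 : ℝ) ^ (∑ i, e i) ≤ 2 ^ (3 * r + 12) * (M : ℝ) ^ 3 := by exact_mod_cast hS
    have h2 := Real.log_le_log (by positivity) h1
    rw [Real.log_mul (by positivity) (by positivity), Real.log_pow, Real.log_pow, Real.log_pow,
      ← hSdef] at h2
    push_cast at h2
    have h3 := Real.log_two_gt_d9
    have h4 : S * Real.log 2 ≤ (3 * r + 12 + 5 * Real.log M) * Real.log 2 := by
      nlinarith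
    have h5 : S ≤ 3 * r + 12 + 5 * Real.log M := le_of_mul_le_mul_right h4 (by linarith)
    rw [hD]
    have : (0 : ℝ) ≤ r := Nat.cast_nonneg r
    nlinarith
  -- the bound for `cpx` on `rng`
  have hprod : (N : ℝ) * ∏ i, (F i : ℝ) ≤ M := by
    have h1 := hB.t1
    have h2 : N * ∏ i, F i ≤ M := le_trans (Nat.le_mul_of_pos_left _ (by positivity)) h1
    exact_mod_cast h2
  have hcard : ∀ i, ((P i).card : ℝ) ≤ F i := by
    intro i
    have h1 : P i ⊆ Ioc (F i) (2 * F i) := fun p hp => Finset.mem_Ioc.2 (hB.hp i p hp)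
    have h2 := Finset.card_le_card h1
    rw [Nat.card_Ioc] at h2
    have h3 : (P i).card ≤ F i := by omega
    exact_mod_cast h3
  have hcpx : ∀ t ∈ rng β M, ‖cpx N P t‖ ≤ (M : ℝ) ^ (1 - η1) := by
    intro t ht
    unfold cpx
    rw [norm_mul, norm_prod]
    have h1 := hsup M hM0 N hB.n0 t ht.1 ht.2
    have h2 : ∏ i, ‖cp (P i) t‖ ≤ ∏ i, (F i : ℝ) :=
      Finset.prod_le_prod (fun i _ => norm_nonneg _) fun i _ => (cp_triv (P i) t).trans (hcard i)
    have h3 : (M : ℝ) ^ (-η0) ≤ (M : ℝ) ^ (-η1) :=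
      Real.rpow_le_rpow_of_exponent_le hM1R (by linarith)
    calc ‖cp (Ioc N (2 * N)) t‖ * ∏ i, ‖cp (P i) t‖
        ≤ (N * (M : ℝ) ^ (-η0)) * ∏ i, (F i : ℝ) :=
          mul_le_mul h1 h2 (Finset.prod_nonneg fun i _ => norm_nonneg _) (by positivity)
      _ ≤ (N * (M : ℝ) ^ (-η1)) * ∏ i, (F i : ℝ) := by gcongr
      _ = (N * ∏ i, (F i : ℝ)) * (M : ℝ) ^ (-η1) := by ring
      _ ≤ M * (M : ℝ) ^ (-η1) := by gcongr
      _ = (M : ℝ) ^ (1 - η1) := by
          rw [sub_eq_add_neg, Real.rpow_add hMpos, Real.rpow_one]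
  -- the bound for the integrand
  have hX : (1 : ℝ) ≤ (M : ℝ) ^ (3 : ℕ) := one_le_pow₀ hM1R
  have hmeas : MeasurableSet (rng β M) := by
    refine IsClosed.measurableSet ?_
    exact (isClosed_le continuous_const continuous_abs).inter
      (isClosed_le continuous_abs continuous_const)
  have hsub : ∀ t ∈ rng β M, 1 ≤ |t| ∧ |t| ≤ (M : ℝ) ^ (3 : ℕ) := by
    intro t ht
    exact ⟨(Real.one_le_rpow hM1R (by positivity)).trans ht.1, ht.2⟩
  have hint := ti_int ((M : ℝ) ^ (3 : ℕ)) (Cs * (1 + S) ^ 6 * (M : ℝ) ^ (1 - η1))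
    (Real.exp (-(1 / 4) * (M : ℝ) ^ δ) * ((1 + S) ^ 6 * M)) hX (by positivity) (by positivity)
    (rng β M) hmeas hsub
    (fun t => Real.exp (-(t / (2 * T)) ^ 2) * (‖H43.SI.bp c1 e t‖ * ‖cpx N P t‖))
    (fun t => by positivity) (by
      intro t ht
      obtain ⟨ht1, -⟩ := hsub t ht
      have htpos : 0 < |t| := by linarith
      have hA0 : 0 ≤ Cs * (1 + S) ^ 6 * (M : ℝ) ^ (1 - η1) * |t|⁻¹ := by positivity
      have hB0 : 0 ≤ Real.exp (-(1 / 4) * (M : ℝ) ^ δ) * ((1 + S) ^ 6 * M) := by positivity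
      have hcx := hcpx t ht
      rcases le_or_gt |t| ((M : ℝ) ^ (2 : ℕ)) with h | h
      · -- the smooth factor
        have h2a : |t| ≤ (2 : ℝ) ^ (e i0) / 2 := by
          refine h.trans ?_
          rw [le_div_iff₀ (by norm_num)]
          calc (M : ℝ) ^ (2 : ℕ) * 2 ≤ (M : ℝ) ^ (2 : ℕ) * (M : ℝ) ^ (δ / 8) := by gcongr
            _ = (M : ℝ) ^ (2 + δ / 8) := by
                rw [Real.rpow_add hMpos, ← Real.rpow_natCast (M : ℝ) 2]
                norm_num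
            _ ≤ _ := hei0
        have h3 := hsmo i0 (e i0) t hi0 ht1 h2a
        have hei : ∀ i, (1 : ℝ) + (e i : ℝ) ≤ 1 + S := by
          intro i
          rw [hSdef]
          have : e i ≤ ∑ i, e i := Finset.single_le_sum (fun _ _ => Nat.zero_le _) (Finset.mem_univ i)
          have h4 : (e i : ℝ) ≤ ((∑ i, e i : ℕ) : ℝ) := by exact_mod_cast this
          linarith
        have hbp : ‖H43.SI.bp c1 e t‖ ≤ Cs * (1 + S) ^ 6 * |t|⁻¹ := by
          unfold H43.SI.bp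
          rw [norm_prod, ← Finset.mul_prod_erase Finset.univ _ (Finset.mem_univ i0)]
          have h4 : ∏ i ∈ Finset.univ.erase i0, ‖H43.SI.pol (H43.SI.cf c1 i) (e i) t‖ ≤
              (1 + S) ^ 5 := by
            calc ∏ i ∈ Finset.univ.erase i0, ‖H43.SI.pol (H43.SI.cf c1 i) (e i) t‖ ≤
                  ∏ i ∈ (Finset.univ : Finset (Fin 6)).erase i0, (1 + S) :=
                  Finset.prod_le_prod (fun i _ => norm_nonneg _) fun i _ =>
                    (H43.SI.pw_triv c1 i (e i) t).trans (hei i)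
              _ = (1 + S) ^ 5 := by
                  rw [Finset.prod_const, Finset.card_erase_of_mem (Finset.mem_univ i0),
                    Finset.card_univ, Fintype.card_fin]
          calc ‖H43.SI.pol (H43.SI.cf c1 i0) (e i0) t‖ *
                ∏ i ∈ Finset.univ.erase i0, ‖H43.SI.pol (H43.SI.cf c1 i) (e i) t‖ ≤
                (Cs * (1 + e i0) / |t|) * (1 + S) ^ 5 :=
                mul_le_mul h3 h4 (Finset.prod_nonneg fun i _ => norm_nonneg _) (by positivity)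
            _ ≤ (Cs * (1 + S) / |t|) * (1 + S) ^ 5 := by
                have := hei i0
                gcongr
            _ = _ := by
                rw [div_eq_mul_inv]
                ring
        have hexp : Real.exp (-(t / (2 * T)) ^ 2) ≤ 1 := by
          rw [Real.exp_le_one_iff]
          have := sq_nonneg (t / (2 * T))
          linarith
        calc Real.exp (-(t / (2 * T)) ^ 2) * (‖H43.SI.bp c1 e t‖ * ‖cpx N P t‖)
            ≤ 1 * ((Cs * (1 + S) ^ 6 * |t|⁻¹) * (M : ℝ) ^ (1 - η1)) := by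
              gcongr
          _ = Cs * (1 + S) ^ 6 * (M : ℝ) ^ (1 - η1) * |t|⁻¹ := by ring
          _ ≤ _ := by linarith
      · -- the Gaussian
        have hexp : Real.exp (-(t / (2 * T)) ^ 2) ≤ Real.exp (-(1 / 4) * (M : ℝ) ^ δ) := by
          rw [Real.exp_le_exp]
          have h3 : (M : ℝ) ^ (δ / 2) / 2 ≤ |t / (2 * T)| := by
            rw [abs_div, abs_of_pos (by positivity : 0 < 2 * T), le_div_iff₀ (by positivity)]
            calc (M : ℝ) ^ (δ / 2) / 2 * (2 * T) = (M : ℝ) ^ (δ / 2) * T := by ring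
              _ ≤ (M : ℝ) ^ (δ / 2) * (M : ℝ) ^ (2 - δ / 2) := by gcongr
              _ = (M : ℝ) ^ (2 : ℕ) := by
                  rw [← Real.rpow_add hMpos, ← Real.rpow_natCast (M : ℝ) 2]
                  congr 1
                  push_cast
                  ring
              _ ≤ |t| := h.le
          have h4 : ((M : ℝ) ^ (δ / 2) / 2) ^ 2 ≤ |t / (2 * T)| ^ 2 :=
            pow_le_pow_left₀ (by positivity) h3 2
          rw [sq_abs, div_pow, ← Real.rpow_natCast ((M : ℝ) ^ (δ / 2)) 2,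
            ← Real.rpow_mul hMpos.le] at h4
          have h5 : δ / 2 * ((2 : ℕ) : ℝ) = δ := by
            push_cast
            ring
          rw [h5] at h4
          linarith
        have hbp := bp_triv e t
        rw [← hSdef] at hbp
        have hcx' := cpx_triv hB t
        calc Real.exp (-(t / (2 * T)) ^ 2) * (‖H43.SI.bp c1 e t‖ * ‖cpx N P t‖)
            ≤ Real.exp (-(1 / 4) * (M : ℝ) ^ δ) * ((1 + S) ^ 6 * M) := by gcongr
          _ ≤ _ := by linarith)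
  refine hint.trans ?_
  -- numerics
  have hlog3 : Real.log ((M : ℝ) ^ (3 : ℕ)) = 3 * Real.log M := by
    rw [Real.log_pow]
    push_cast
    ring
  rw [hlog3]
  have hS6 : (1 + S) ^ 6 ≤ D ^ 6 * (1 + Real.log M) ^ 6 := by
    rw [← mul_pow]
    exact pow_le_pow_left₀ (by linarith) hSle 6
  have hlk : 1 + Real.log M ≤ (1 + 1 / κ) * (M : ℝ) ^ κ := by
    have h1 := Real.log_le_rpow_div hMpos.le hκ0
    have h2 : 1 ≤ (M : ℝ) ^ κ := Real.one_le_rpow hM1R hκ0.le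
    have h3 : (1 + 1 / κ) * (M : ℝ) ^ κ = (M : ℝ) ^ κ + (M : ℝ) ^ κ / κ := by ring
    rw [h3]
    linarith
  have hlk7 : (1 + Real.log M) ^ 7 ≤ (1 + 1 / κ) ^ 7 * (M : ℝ) ^ (η1 / 4) := by
    have h1 := pow_le_pow_left₀ (by linarith) hlk 7
    have h2 : ((M : ℝ) ^ κ) ^ 7 = (M : ℝ) ^ (η1 / 4) := by
      rw [← Real.rpow_natCast, ← Real.rpow_mul hMpos.le, hκ]
      congr 1
      push_cast
      ring
    rwa [mul_pow, h2] at h1
  have hfirst : Cs * (1 + S) ^ 6 * (M : ℝ) ^ (1 - η1) * (2 * (3 * Real.log M)) ≤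
      (M : ℝ) ^ (1 - η1 / 2) / 2 := by
    calc Cs * (1 + S) ^ 6 * (M : ℝ) ^ (1 - η1) * (2 * (3 * Real.log M)) ≤
          Cs * (D ^ 6 * (1 + Real.log M) ^ 6) * (M : ℝ) ^ (1 - η1) *
            (2 * (3 * (1 + Real.log M))) := by
          gcongr
          linarith
      _ = (Cs * D ^ 6 * 6) * (1 + Real.log M) ^ 7 * (M : ℝ) ^ (1 - η1) := by ring
      _ ≤ (Cs * D ^ 6 * 6) * ((1 + 1 / κ) ^ 7 * (M : ℝ) ^ (η1 / 4)) * (M : ℝ) ^ (1 - η1) := by
          gcongr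
      _ = (2 * (Cs * D ^ 6 * 6) * (1 + 1 / κ) ^ 7) * ((M : ℝ) ^ (η1 / 4) * (M : ℝ) ^ (1 - η1)) / 2 := by
          ring
      _ ≤ (M : ℝ) ^ (η1 / 4) * ((M : ℝ) ^ (η1 / 4) * (M : ℝ) ^ (1 - η1)) / 2 := by gcongr
      _ = (M : ℝ) ^ (1 - η1 / 2) / 2 := by
          rw [← Real.rpow_add hMpos, ← Real.rpow_add hMpos]
          congr 2
          ring
  have hM10 : ((M : ℝ) ^ δ) ^ (10 / δ) = (M : ℝ) ^ (10 : ℕ) := by
    rw [← Real.rpow_mul hMpos.le, mul_div_cancel₀ _ hδ0.ne', ← Real.rpow_natCast]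
    norm_num
  rw [hM10] at hc3
  have hlogM : 1 + Real.log M ≤ M := by
    have := Real.log_le_sub_one_of_pos hMpos
    linarith
  have hsecond : Real.exp (-(1 / 4) * (M : ℝ) ^ δ) * ((1 + S) ^ 6 * M) *
      (2 * (M : ℝ) ^ (3 : ℕ)) ≤ (M : ℝ) ^ (1 - η1 / 2) / 2 := by
    have h1 : (1 : ℝ) ≤ (M : ℝ) ^ (1 - η1 / 2) := Real.one_le_rpow hM1R (by linarith)
    calc Real.exp (-(1 / 4) * (M : ℝ) ^ δ) * ((1 + S) ^ 6 * M) * (2 * (M : ℝ) ^ (3 : ℕ)) ≤
          Real.exp (-(1 / 4) * (M : ℝ) ^ δ) * ((D ^ 6 * (1 + Real.log M) ^ 6) * M) *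
            (2 * (M : ℝ) ^ (3 : ℕ)) := by gcongr
      _ ≤ Real.exp (-(1 / 4) * (M : ℝ) ^ δ) * ((D ^ 6 * (M : ℝ) ^ 6) * M) *
            (2 * (M : ℝ) ^ (3 : ℕ)) := by gcongr
      _ = 2 * D ^ 6 * ((M : ℝ) ^ (10 : ℕ) * Real.exp (-(1 / 4) * (M : ℝ) ^ δ)) := by ring
      _ ≤ 2 * D ^ 6 * (1 / (4 * D ^ 6)) := by gcongr
      _ = 1 / 2 := by
          field_simp
          norm_num
      _ ≤ _ := by linarith
  calc _ ≤ (M : ℝ) ^ (1 - η1 / 2) / 2 + (M : ℝ) ^ (1 - η1 / 2) / 2 := add_le_add hfirst hsecond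
    _ = _ := by ring

end Pool.Agent.H98.PK
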