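import Mathlib

/-!
# [H98 PK GRE] Two greedy choices

PROOF of `gre`. The set of `I` with `V <= A ∏_{i∈I} G i` is nonempty (`univ`); take `I` in it with the least cardinality. If `I = ∅` the product is
`A <= max A (V H)`. Otherwise remove `j ∈ I`: by minimality `A ∏_{i∈I\{j}} G i < V`, so `A ∏_{i∈I} G i <= V G j <= V H`.
PROOF of `cmb`. If some `i` has `hi < 2^(e i)`: right alternative. Otherwise, if some `i` has `lo <= 2^(e i)`, take `J = {i}`. Otherwise all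
`2^(e i) < lo`; take `J` with `lo <= 2^(Σ_J e)` of least cardinality (`univ` is possible); `J = ∅`: `2^0 = 1 <= hi` as `1 <= lo^2 <= hi`;
else remove `j`: `2^(Σ_{J\{j}} e) < lo`, `2^(Σ_J e) < lo * lo <= hi`.
-/

namespace Pool.Agent.H98.PK

open Finset

theorem gre {r : ℕ} (G : Fin r → ℝ) (A V H : ℝ) (hA : 0 < A) (hV : 0 < V) (hG : ∀ i, 1 ≤ G i ∧ G i ≤ H)
    (h : V ≤ A * ∏ i, G i) : ∃ I : Finset (Fin r), V ≤ A * ∏ i ∈ I, G i ∧
      A * ∏ i ∈ I, G i ≤ max A (V * H) := by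
  classical
  obtain ⟨I, hI, hmin⟩ := Finset.exists_min_image
    ((Finset.univ : Finset (Finset (Fin r))).filter fun I => V ≤ A * ∏ i ∈ I, G i) Finset.card
    ⟨Finset.univ, by simpa using h⟩
  have hI' : V ≤ A * ∏ i ∈ I, G i := (Finset.mem_filter.1 hI).2
  refine ⟨I, hI', ?_⟩
  rcases I.eq_empty_or_nonempty with h0 | ⟨j, hj⟩
  · rw [h0]
    simp
  · have hlt : A * ∏ i ∈ I.erase j, G i < V := by
      by_contra hc
      have h1 := hmin (I.erase j) (Finset.mem_filter.2 ⟨Finset.mem_univ _, not_lt.1 hc⟩)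
      have h2 := Finset.card_erase_lt_of_mem hj
      omega
    have h3 : A * ∏ i ∈ I, G i = (A * ∏ i ∈ I.erase j, G i) * G j := by
      rw [← Finset.prod_erase_mul I G hj]
      ring
    have hGj := hG j
    have h4 : (A * ∏ i ∈ I.erase j, G i) * G j ≤ V * H :=
      mul_le_mul hlt.le hGj.2 (by linarith) hV.le
    rw [h3]
    exact h4.trans (le_max_right _ _)

theorem cmb (e : Fin 6 → ℕ) (lo hi : ℝ) (h1 : 1 ≤ lo) (h2 : lo * lo ≤ hi)
    (h3 : lo ≤ (2 : ℝ) ^ (∑ i, e i)) :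
    (∃ J : Finset (Fin 6), lo ≤ (2 : ℝ) ^ (∑ i ∈ J, e i) ∧ (2 : ℝ) ^ (∑ i ∈ J, e i) ≤ hi) ∨
      ∃ i, hi < (2 : ℝ) ^ (e i) := by
  classical
  by_cases hr : ∃ i, hi < (2 : ℝ) ^ (e i)
  · exact Or.inr hr
  left
  push Not at hr
  by_cases hl : ∃ i, lo ≤ (2 : ℝ) ^ (e i)
  · obtain ⟨i, hi'⟩ := hl
    exact ⟨{i}, by simpa using hi', by simpa using hr i⟩
  push Not at hl
  obtain ⟨J, hJ, hmin⟩ := Finset.exists_min_image
    ((Finset.univ : Finset (Finset (Fin 6))).filter fun J => lo ≤ (2 : ℝ) ^ (∑ i ∈ J, e i)) Finset.card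
    ⟨Finset.univ, by simpa using h3⟩
  have hJ' : lo ≤ (2 : ℝ) ^ (∑ i ∈ J, e i) := (Finset.mem_filter.1 hJ).2
  refine ⟨J, hJ', ?_⟩
  rcases J.eq_empty_or_nonempty with h0 | ⟨j, hj⟩
  · rw [h0]
    have : (1 : ℝ) ≤ lo * lo := by nlinarith
    simpa using this.trans h2
  · have hlt : (2 : ℝ) ^ (∑ i ∈ J.erase j, e i) < lo := by
      by_contra hc
      have h4 := hmin (J.erase j) (Finset.mem_filter.2 ⟨Finset.mem_univ _, not_lt.1 hc⟩)
      have h5 := Finset.card_erase_lt_of_mem hj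
      omega
    have h6 : (2 : ℝ) ^ (∑ i ∈ J, e i) = (2 : ℝ) ^ (∑ i ∈ J.erase j, e i) * (2 : ℝ) ^ (e j) := by
      rw [← pow_add, Finset.sum_erase_add J e hj]
    rw [h6]
    refine le_trans ?_ h2
    exact mul_le_mul hlt.le (hl j).le (by positivity) (by linarith)

end Pool.Agent.H98.PK
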