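import Pool.Agent.H98.PK.Defs
import Pool.Agent.H92.DivBound

/-!
# [H98 PK COI] Coefficients of partial products of the factors of `m`

PROOF. Induction on `I` for the statement with the bound `‖c m‖ <= d(m)^|I|` for all `m >= 1` (`d(m) = m.divisors.card`):
`I = ∅`: the product is `1`, `c 1 = 1`, range `Icc 1 1`. `I ∪ {j}`: `c'(m) = Σ_{p ∈ P j, p ∣ m} c(m/p)`, where `c` (extended by `0` outside
`Icc 1 (∏_{i∈I} 2 F i)`, i.e. multiply by the indicator) is the function for `I`. Then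
`cp (P j) t * Σ_m c m ex(3 t log m) = Σ_{p,m} c(m) ex(3 t log(p m))` (`ex (x+y) = ex x * ex y`, `log(pm) = log p + log m`, `p, m >= 1`)
`= Σ_n c'(n) ex(3 t log n)` over `1 <= n = pm <= 2 F j ∏_{i∈I} 2 F i` (`Finset.sum_comm`, fibres `(p, n/p)`).
`‖c'(n)‖ <= #{p ∣ n} max_{p∣n} d(n/p)^|I| <= d(n)^(|I|+1)` (`d(n/p) <= d(n)`: `Nat.divisors_subset_of_dvd`).
End: `d(m)^|I| <= (max 1 C1)^r m^(ε)` with `H5.W.divisor_bound (ε/(r+1))`, and `m <= ∏_{i∈I} 2 F i`.
-/

namespace Pool.Agent.H98.PK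

open Finset

private theorem coi_ex_add (x y : ℝ) : ex (x + y) = ex x * ex y := by
  unfold ex
  rw [← Complex.exp_add]
  congr 1
  push_cast
  ring

private theorem coi_step (Q Fj : ℕ) (P : Finset ℕ)
    (hP : ∀ p ∈ P, Fj < p ∧ p ≤ 2 * Fj) (c : ℕ → ℂ) (k : ℕ)
    (hc : ∀ m, 1 ≤ m → ‖c m‖ ≤ ((m.divisors.card : ℝ)) ^ k)
    (hc0 : ∀ m, m ∉ Icc 1 Q → c m = 0) :
    ∃ c' : ℕ → ℂ, (∀ m, 1 ≤ m → ‖c' m‖ ≤ ((m.divisors.card : ℝ)) ^ (k + 1)) ∧
      (∀ m, m ∉ Icc 1 (2 * Fj * Q) → c' m = 0) ∧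
      ∀ t : ℝ, cp P t * ∑ m ∈ Icc 1 Q, c m * ex (3 * t * Real.log m) =
        ∑ m ∈ Icc 1 (2 * Fj * Q), c' m * ex (3 * t * Real.log m) := by
  classical
  refine ⟨fun n => if n = 0 then 0 else ∑ p ∈ P with p ∣ n, c (n / p), ?_, ?_, ?_⟩
  · intro n hn
    have hn0 : n ≠ 0 := by omega
    show ‖(if n = 0 then 0 else ∑ p ∈ P with p ∣ n, c (n / p))‖ ≤ _
    rw [if_neg hn0]
    have h1 : ∀ p ∈ P.filter (fun p => p ∣ n), ‖c (n / p)‖ ≤ ((n.divisors.card : ℝ)) ^ k := by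
      intro p hp
      rw [Finset.mem_filter] at hp
      have h2 : 1 ≤ n / p := Nat.div_pos (Nat.le_of_dvd hn hp.2) (Nat.pos_of_dvd_of_pos hp.2 hn)
      refine (hc _ h2).trans ?_
      have h3 : (n / p).divisors ⊆ n.divisors :=
        Nat.divisors_subset_of_dvd hn0 (Nat.div_dvd_of_dvd hp.2)
      have h4 := Finset.card_le_card h3
      have h5 : (((n / p).divisors.card : ℕ) : ℝ) ≤ (n.divisors.card : ℝ) := by exact_mod_cast h4
      exact pow_le_pow_left₀ (Nat.cast_nonneg _) h5 k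
    refine (norm_sum_le_of_le _ h1).trans ?_
    rw [Finset.sum_const, nsmul_eq_mul, pow_succ, mul_comm]
    refine mul_le_mul_of_nonneg_left ?_ (pow_nonneg (Nat.cast_nonneg _) _)
    have h6 : P.filter (fun p => p ∣ n) ⊆ n.divisors := by
      intro p hp
      rw [Finset.mem_filter] at hp
      exact Nat.mem_divisors.2 ⟨hp.2, hn0⟩
    exact_mod_cast Finset.card_le_card h6
  · intro n hn
    show (if n = 0 then 0 else ∑ p ∈ P with p ∣ n, c (n / p)) = 0
    split_ifs with h0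
    · rfl
    · refine Finset.sum_eq_zero fun p hp => ?_
      rw [Finset.mem_filter] at hp
      apply hc0
      intro h1
      apply hn
      rw [Finset.mem_Icc] at h1 ⊢
      refine ⟨by omega, ?_⟩
      have h2 : n = p * (n / p) := (Nat.mul_div_cancel' hp.2).symm
      rw [h2]
      exact Nat.mul_le_mul (hP p hp.1).2 h1.2
  · intro t
    have hlhs : cp P t * ∑ m ∈ Icc 1 Q, c m * ex (3 * t * Real.log m) =
        ∑ p ∈ P, ∑ m ∈ Icc 1 Q, c m * ex (3 * t * Real.log ((p * m : ℕ) : ℝ)) := by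
      unfold cp
      rw [Finset.sum_mul]
      refine Finset.sum_congr rfl fun p hp => ?_
      rw [Finset.mul_sum]
      refine Finset.sum_congr rfl fun m hm => ?_
      have hp1 : (p : ℝ) ≠ 0 := by
        have := (hP p hp).1
        exact Nat.cast_ne_zero.2 (by omega)
      have hm1 : (m : ℝ) ≠ 0 := by
        rw [Finset.mem_Icc] at hm
        exact Nat.cast_ne_zero.2 (by omega)
      rw [Nat.cast_mul, Real.log_mul hp1 hm1, mul_add, coi_ex_add]
      ring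
    have hrhs : ∑ n ∈ Icc 1 (2 * Fj * Q), (if n = 0 then 0 else ∑ p ∈ P with p ∣ n, c (n / p)) *
        ex (3 * t * Real.log n) =
        ∑ p ∈ P, ∑ n ∈ Icc 1 (2 * Fj * Q) with p ∣ n, c (n / p) * ex (3 * t * Real.log n) := by
      have h1 : ∀ n ∈ Icc 1 (2 * Fj * Q), (if n = 0 then 0 else ∑ p ∈ P with p ∣ n, c (n / p)) *
          ex (3 * t * Real.log n) =
          ∑ p ∈ P, if p ∣ n then c (n / p) * ex (3 * t * Real.log n) else 0 := by
        intro n hn
        rw [Finset.mem_Icc] at hn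
        rw [if_neg (by omega), Finset.sum_mul, Finset.sum_filter]
      rw [Finset.sum_congr rfl h1, Finset.sum_comm]
      refine Finset.sum_congr rfl fun p _ => ?_
      rw [Finset.sum_filter]
    show cp P t * ∑ m ∈ Icc 1 Q, c m * ex (3 * t * Real.log m) =
      ∑ n ∈ Icc 1 (2 * Fj * Q), (if n = 0 then 0 else ∑ p ∈ P with p ∣ n, c (n / p)) *
        ex (3 * t * Real.log n)
    rw [hlhs, hrhs]
    refine Finset.sum_congr rfl fun p hp => ?_
    have hp0 : 0 < p := by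
      have := (hP p hp).1
      omega
    have h2 : ∑ m ∈ Icc 1 Q, c m * ex (3 * t * Real.log ((p * m : ℕ) : ℝ)) =
        ∑ n ∈ (Icc 1 Q).image (fun m => p * m), c (n / p) * ex (3 * t * Real.log n) := by
      rw [Finset.sum_image]
      · refine Finset.sum_congr rfl fun m _ => ?_
        rw [Nat.mul_div_cancel_left m hp0]
      · intro a _ b _ hab
        exact Nat.eq_of_mul_eq_mul_left hp0 hab
    rw [h2]
    refine Finset.sum_subset ?_ ?_
    · intro n hn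
      rw [Finset.mem_image] at hn
      obtain ⟨m, hm, rfl⟩ := hn
      rw [Finset.mem_Icc] at hm
      rw [Finset.mem_filter, Finset.mem_Icc]
      exact ⟨⟨Nat.mul_pos hp0 hm.1, Nat.mul_le_mul (hP p hp).2 hm.2⟩, dvd_mul_right p m⟩
    · intro n hn hn'
      rw [Finset.mem_filter, Finset.mem_Icc] at hn
      have h3 : n / p ∉ Icc 1 Q := by
        intro h4
        apply hn'
        rw [Finset.mem_image]
        exact ⟨n / p, h4, Nat.mul_div_cancel' hn.2⟩
      rw [hc0 _ h3, zero_mul]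

private theorem coi_main {r : ℕ} (F : Fin r → ℕ) (P : Fin r → Finset ℕ)
    (hP : ∀ i, ∀ p ∈ P i, F i < p ∧ p ≤ 2 * F i) (I : Finset (Fin r)) :
    ∃ c : ℕ → ℂ, (∀ m, 1 ≤ m → ‖c m‖ ≤ ((m.divisors.card : ℝ)) ^ I.card) ∧
      (∀ m, m ∉ Icc 1 (∏ i ∈ I, 2 * F i) → c m = 0) ∧
      ∀ t : ℝ, ∏ i ∈ I, cp (P i) t =
        ∑ m ∈ Icc 1 (∏ i ∈ I, 2 * F i), c m * ex (3 * t * Real.log m) := by
  classical
  induction I using Finset.induction_on with
  | empty =>
    refine ⟨fun m => if m = 1 then 1 else 0, ?_, ?_, ?_⟩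
    · intro m _
      rw [Finset.card_empty, pow_zero]
      show ‖(if m = 1 then (1 : ℂ) else 0)‖ ≤ 1
      split_ifs <;> simp
    · intro m hm
      rw [Finset.prod_empty, Finset.mem_Icc] at hm
      show (if m = 1 then (1 : ℂ) else 0) = 0
      rw [if_neg (by omega)]
    · intro t
      rw [Finset.prod_empty, Finset.prod_empty, Finset.Icc_self, Finset.sum_singleton]
      show (1 : ℂ) = (if (1 : ℕ) = 1 then (1 : ℂ) else 0) * ex (3 * t * Real.log ((1 : ℕ) : ℝ))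
      rw [if_pos rfl, Nat.cast_one, Real.log_one, mul_zero, one_mul]
      unfold ex
      simp
  | insert j I hj ih =>
    obtain ⟨c, h1, h2, h3⟩ := ih
    obtain ⟨c', h4, h5, h6⟩ := coi_step (∏ i ∈ I, 2 * F i) (F j) (P j) (hP j) c I.card h1 h2
    refine ⟨c', ?_, ?_, ?_⟩
    · rw [Finset.card_insert_of_notMem hj]
      exact h4
    · rw [Finset.prod_insert hj]
      exact h5
    · intro t
      rw [Finset.prod_insert hj, Finset.prod_insert hj, h3 t]
      exact h6 t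

theorem coi (r : ℕ) (ε : ℝ) (hε : 0 < ε) : ∃ C : ℝ, 0 < C ∧ ∀ (F : Fin r → ℕ)
    (P : Fin r → Finset ℕ) (I : Finset (Fin r)), (∀ i, 1 ≤ F i) →
    (∀ i, ∀ p ∈ P i, F i < p ∧ p ≤ 2 * F i) →
    ∃ c : ℕ → ℂ, (∀ m ∈ Icc 1 (∏ i ∈ I, 2 * F i), ‖c m‖ ≤ C * ((∏ i ∈ I, 2 * F i : ℕ) : ℝ) ^ ε) ∧
      ∀ t : ℝ, ∏ i ∈ I, cp (P i) t = ∑ m ∈ Icc 1 (∏ i ∈ I, 2 * F i), c m * ex (3 * t * Real.log m) := by
  obtain ⟨C1, hC1, hdiv⟩ := H5.W.divisor_bound (ε / (r + 1)) (by positivity)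
  have hm1 : (1 : ℝ) ≤ max 1 C1 := le_max_left _ _
  refine ⟨(max 1 C1) ^ (r + 1), by positivity, fun F P I _ hP => ?_⟩
  obtain ⟨c, h1, -, h3⟩ := coi_main F P hP I
  refine ⟨c, fun m hm => ?_, h3⟩
  rw [Finset.mem_Icc] at hm
  have hmR : (1 : ℝ) ≤ m := by exact_mod_cast hm.1
  have hx1 : (1 : ℝ) ≤ (m : ℝ) ^ (ε / (r + 1)) := Real.one_le_rpow hmR (by positivity)
  have hcard : I.card ≤ r + 1 := by
    have := Finset.card_le_univ I
    rw [Fintype.card_fin] at this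
    omega
  calc ‖c m‖ ≤ ((m.divisors.card : ℝ)) ^ I.card := h1 m hm.1
    _ ≤ (max 1 C1 * (m : ℝ) ^ (ε / (r + 1))) ^ I.card := by
        refine pow_le_pow_left₀ (Nat.cast_nonneg _) ((hdiv m hm.1).trans ?_) _
        exact mul_le_mul_of_nonneg_right (le_max_right _ _) (by linarith)
    _ ≤ (max 1 C1 * (m : ℝ) ^ (ε / (r + 1))) ^ (r + 1) :=
        pow_le_pow_right₀ (one_le_mul_of_one_le_of_one_le hm1 hx1) hcard
    _ = (max 1 C1) ^ (r + 1) * (m : ℝ) ^ ε := by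
        rw [mul_pow]
        congr 1
        rw [← Real.rpow_natCast, ← Real.rpow_mul (by linarith)]
        congr 1
        push_cast
        field_simp
    _ ≤ (max 1 C1) ^ (r + 1) * ((∏ i ∈ I, 2 * F i : ℕ) : ℝ) ^ ε := by
        refine mul_le_mul_of_nonneg_left ?_ (by positivity)
        exact Real.rpow_le_rpow (by linarith) (by exact_mod_cast hm.2) hε.le

end Pool.Agent.H98.PK
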