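import Pool.Agent.H98.PK.Defs
import Pool.Agent.H43.ZS.Shift
import Pool.Agent.H43.ZS.WB
import Pool.Agent.H43.HX.Kr

/-!
# [H98 PK SUP] Power saving for the short smooth factor

`‖Σ_{N<m<=2N} m^(3it)‖ <= N M^(-η)` for `M^η1 <= |t| <= M^3`, `N >= M^β/2`, `M >= M1`, with `η = η(β,η1) > 0`.

PROOF. By conjugation (`cp P (-t) = conj (cp P t)`) let `t < 0`, `s = -3t = 3|t| > 0`: the sum is `Σ exp(-(s log m) I)`.
(a) `s <= N`. Kusmin-Landau: `<= 80 N/(1+s) <= 80 N M^(-η1)`: this is the first case (`v <= M` there) in the proof of `HX.kr_block`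
(with `M := N`, `N := 2N`); copy that part (in that case it proves the bound without the term `12800 √v`).
(b) `s > N`. `s <= 3 M^3`, `N >= M^β/2 >= M^(β/2)` for large `M`, so `s <= N^(8/β)` (`3M^3 <= M^4 <= N^(8/β)`). Let `k` be the natural
number with `N^((k-1)/3) < s <= N^(k/3)` (`k = ⌈3 log s/log N⌉₊`, `4 <= k <= k1 := ⌈24/β⌉₊ + 1`). `A = ⌊N^(1/3)⌋₊ >= 1`, `2A^2 <= N` for large `N`,
`N <= s^2`. `ZS.shift` (`t := s`, `β := 0`, `N' = 2N`) and `ZS.wb` (`m ∈ (N,2N]`):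
`‖Σ‖ <= A^(-2) N A^2 exp(C k^3)(1+log N) N^(-c/k^2) + 2A^2 + N s (A^2/N)^(k+1)`; `A^2/N <= N^(-1/3)`,
`s (A^2/N)^(k+1) <= N^(k/3) N^(-(k+1)/3) = N^(-1/3)`. So `<= N (exp(C k1^3)(1+log N) N^(-c/k1^2) + 3 N^(-1/3))`, and the bracket is
`<= N^(-c')` with `c' = min(c/(2 k1^2), 1/6)` for `N` large, `<= M^(-β c'/2)`. `η = min(η1/2, β c'/2)`.
-/

namespace Pool.Agent.H98.PK

open Finset

theorem sup_a (M N : ℕ) (v : ℝ) (hv : 1 ≤ v) (hM : 1 ≤ M) (hN : N ≤ 2 * M)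
    (hvM : v ≤ M) :
    ‖∑ n ∈ Ioc M N, Complex.exp (-(v * Real.log (n : ℝ) : ℝ) * Complex.I)‖ ≤
      80 * (M / (1 + v)) := by
  have hM0 : (0 : ℝ) < M := by exact_mod_cast hM
  have hv0 : 0 < v := by linarith
  have hpi : 0 < Real.pi := Real.pi_pos
  set θ : ℕ → ℝ := fun n => -(v / (2 * Real.pi)) * Real.log (n : ℝ) with hθ
  have hvp : 0 < v / (2 * Real.pi) := by positivity
  have hd : ∀ n : ℕ, 1 ≤ n → v / (2 * Real.pi) * (1 / ((n : ℝ) + 1)) ≤ θ n - θ (n + 1) ∧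
      θ n - θ (n + 1) ≤ v / (2 * Real.pi) * (1 / (n : ℝ)) := by
    intro n hn
    have hn0 : (0 : ℝ) < n := by exact_mod_cast hn
    have e1 : θ n - θ (n + 1) = v / (2 * Real.pi) * Real.log (1 + 1 / (n : ℝ)) := by
      simp only [hθ]
      push_cast
      have : (1 + 1 / (n : ℝ)) = ((n : ℝ) + 1) / n := by field_simp
      rw [this, Real.log_div (by positivity) (by positivity)]
      ring
    rw [e1]
    constructor
    · refine mul_le_mul_of_nonneg_left ?_ hvp.le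
      have h2 := Real.one_sub_inv_le_log_of_pos (show 0 < 1 + 1 / (n : ℝ) by positivity)
      refine le_trans (le_of_eq ?_) h2
      field_simp
      ring
    · refine mul_le_mul_of_nonneg_left ?_ hvp.le
      have h2 := Real.log_le_sub_one_of_pos (show 0 < 1 + 1 / (n : ℝ) by positivity)
      linarith
  set δ : ℝ := v / (6 * Real.pi * M) with hδ
  have hδ0 : 0 < δ := by positivity
  have hδ2 : δ ≤ 1 / 2 := by
    rw [hδ, div_le_div_iff₀ (by positivity) (by norm_num)]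
    have h3 := Real.pi_gt_three
    nlinarith
  have hmain := Pool.Agent.H43.LF.vd_minus (Ioc M N) (by
      intro x hx y hy z h1 h2
      rw [mem_Ioc] at hx hy ⊢
      omega) θ 0 δ hδ0 hδ2
    (by
      intro n hn _
      rw [mem_Ioc] at hn
      have hn0 : (0 : ℝ) < n := by
        have : 0 < n := by omega
        exact_mod_cast this
      simp only [hθ]
      push_cast
      have h1 : Real.log (n : ℝ) + Real.log ((n : ℝ) + 2) ≤ 2 * Real.log ((n : ℝ) + 1) := by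
        rw [← Real.log_mul (by positivity) (by positivity)]
        have : 2 * Real.log ((n : ℝ) + 1) = Real.log (((n : ℝ) + 1) ^ 2) := by
          rw [Real.log_pow]
          push_cast
          ring
        rw [this]
        exact Real.log_le_log (by positivity) (by nlinarith)
      nlinarith)
    (by
      intro n hn
      rw [mem_Ioc] at hn
      have h1 := (hd n (by omega)).2
      have hn0 : (M : ℝ) ≤ n := by exact_mod_cast hn.1.le
      have hn1 : (0 : ℝ) < n := by linarith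
      have h2 : v / (2 * Real.pi) * (1 / (n : ℝ)) ≤ 1 / 2 := by
        rw [div_mul_div_comm, mul_one, div_le_div_iff₀ (by positivity) (by norm_num)]
        have h3 := Real.pi_gt_three
        nlinarith
      push_cast
      linarith)
    (by
      intro n hn
      rw [mem_Ioc] at hn
      have h1 := (hd n (by omega)).1
      have hn0 : (n : ℝ) ≤ 2 * M := by
        have : n ≤ 2 * M := by omega
        exact_mod_cast this
      have hM1 : (1 : ℝ) ≤ M := by exact_mod_cast hM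
      have hn1 : (0 : ℝ) ≤ n := Nat.cast_nonneg n
      have h2 : δ ≤ v / (2 * Real.pi) * (1 / ((n : ℝ) + 1)) := by
        rw [hδ, div_mul_div_comm, mul_one]
        apply div_le_div_of_nonneg_left hv0.le (by positivity)
        nlinarith
      push_cast
      linarith)
  have e1 : ∑ n ∈ Ioc M N, Complex.exp (-(v * Real.log (n : ℝ) : ℝ) * Complex.I) =
      ∑ n ∈ Ioc M N, Pool.H19.Wa.e (θ n) := by
    refine Finset.sum_congr rfl fun n _ => ?_
    unfold Pool.H19.Wa.e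
    congr 1
    congr 1
    have h1 : 2 * Real.pi * θ n = -(v * Real.log (n : ℝ)) := by
      simp only [hθ]
      field_simp
    have h2 : ((2 * Real.pi * θ n : ℝ) : ℂ) = 2 * (Real.pi : ℂ) * (θ n : ℂ) := by push_cast; ring
    rw [← h2, h1]
    push_cast
    ring
  rw [e1]
  refine hmain.trans ?_
  have h2 : 2 / δ ≤ 80 * ((M : ℝ) / (1 + v)) := by
    have h3 : 2 / δ = 12 * Real.pi * M / v := by
      rw [hδ]
      field_simp
      ring
    rw [h3, ← mul_div_assoc, div_le_div_iff₀ hv0 (by linarith)]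
    have h4 := Real.pi_lt_d2
    have h5 : 12 * Real.pi * M * (1 + v) ≤ 12 * Real.pi * M * (2 * v) :=
      mul_le_mul_of_nonneg_left (by linarith) (by positivity)
    refine h5.trans ?_
    have h6 : 0 < (M : ℝ) * v := by positivity
    nlinarith
  exact h2

private theorem sup_ev (X c0 : ℝ) (_hX : 0 ≤ X) (hc0 : 0 < c0) : ∃ N1 : ℕ, ∀ N : ℕ, N1 ≤ N →
    X * (1 + Real.log N) * (N : ℝ) ^ (-c0) + 3 * (N : ℝ) ^ (-(1 / 3 : ℝ)) ≤
      (N : ℝ) ^ (-(min (c0 / 2) (1 / 6))) := by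
  have h1 : Filter.Tendsto (fun N : ℕ => X * ((N : ℝ) ^ (-(c0 / 2)) +
      Real.log N * (N : ℝ) ^ (-(c0 / 2)))) Filter.atTop (nhds (X * (0 + 0))) := by
    apply Filter.Tendsto.const_mul
    apply Filter.Tendsto.add
    · exact (tendsto_rpow_neg_atTop (by positivity)).comp tendsto_natCast_atTop_atTop
    · have h2 : Filter.Tendsto (fun x : ℝ => Real.log x * x ^ (-(c0 / 2))) Filter.atTop
          (nhds 0) := by
        have h3 := (isLittleO_log_rpow_atTop (show 0 < c0 / 2 by positivity)).tendsto_div_nhds_zero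
        refine h3.congr' ?_
        filter_upwards [Filter.eventually_gt_atTop 0] with x hx
        rw [Real.rpow_neg hx.le, div_eq_mul_inv]
      exact h2.comp tendsto_natCast_atTop_atTop
  have h2 : Filter.Tendsto (fun N : ℕ => 3 * (N : ℝ) ^ (-(1 / 6 : ℝ))) Filter.atTop
      (nhds (3 * 0)) := by
    apply Filter.Tendsto.const_mul
    exact (tendsto_rpow_neg_atTop (by norm_num)).comp tendsto_natCast_atTop_atTop
  have h3 := h1.eventually (ge_mem_nhds (show X * (0 + 0) < 1 / 2 by norm_num))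
  have h4 := h2.eventually (ge_mem_nhds (show (3 : ℝ) * 0 < 1 / 2 by norm_num))
  obtain ⟨N1, hN1⟩ := Filter.eventually_atTop.1 (h3.and h4)
  refine ⟨max N1 1, fun N hN => ?_⟩
  obtain ⟨h5, h6⟩ := hN1 N ((le_max_left _ _).trans hN)
  have hN0 : 1 ≤ N := (le_max_right _ _).trans hN
  have hN1' : (1 : ℝ) ≤ N := by exact_mod_cast hN0
  have hNp : (0 : ℝ) < N := by linarith
  have e1 : (N : ℝ) ^ (-c0) = (N : ℝ) ^ (-(c0 / 2)) * (N : ℝ) ^ (-(c0 / 2)) := by
    rw [← Real.rpow_add hNp]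
    congr 1
    ring
  have e2 : (N : ℝ) ^ (-(1 / 3 : ℝ)) = (N : ℝ) ^ (-(1 / 6 : ℝ)) * (N : ℝ) ^ (-(1 / 6 : ℝ)) := by
    rw [← Real.rpow_add hNp]
    congr 1
    norm_num
  have a1 : (N : ℝ) ^ (-(c0 / 2)) ≤ (N : ℝ) ^ (-(min (c0 / 2) (1 / 6))) :=
    Real.rpow_le_rpow_of_exponent_le hN1' (neg_le_neg (min_le_left _ _))
  have a2 : (N : ℝ) ^ (-(1 / 6 : ℝ)) ≤ (N : ℝ) ^ (-(min (c0 / 2) (1 / 6))) :=
    Real.rpow_le_rpow_of_exponent_le hN1' (neg_le_neg (min_le_right _ _))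
  have p1 : 0 ≤ (N : ℝ) ^ (-(c0 / 2)) := by positivity
  have p2 : 0 ≤ (N : ℝ) ^ (-(1 / 6 : ℝ)) := by positivity
  rw [e1, e2]
  have b1 : X * (1 + Real.log N) * ((N : ℝ) ^ (-(c0 / 2)) * (N : ℝ) ^ (-(c0 / 2))) ≤
      1 / 2 * (N : ℝ) ^ (-(c0 / 2)) := by
    have := mul_le_mul_of_nonneg_right h5 p1
    linarith
  have b2 : 3 * ((N : ℝ) ^ (-(1 / 6 : ℝ)) * (N : ℝ) ^ (-(1 / 6 : ℝ))) ≤
      1 / 2 * (N : ℝ) ^ (-(1 / 6 : ℝ)) := by
    have := mul_le_mul_of_nonneg_right h6 p2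
    linarith
  linarith

theorem sup_b (κ : ℝ) : ∃ c' : ℝ, 0 < c' ∧ ∃ N1 : ℕ, ∀ N : ℕ, N1 ≤ N → ∀ s : ℝ,
    (N : ℝ) < s → s ≤ (N : ℝ) ^ κ →
    ‖∑ n ∈ Ioc N (2 * N), Complex.exp (-(s * Real.log (n : ℝ) : ℝ) * Complex.I)‖ ≤
      N * (N : ℝ) ^ (-c') := by
  obtain ⟨C, c, hC, hc, hwb⟩ := Pool.Agent.H43.ZS.wb
  set k1 : ℕ := ⌈3 * κ⌉₊ + 4 with hk1
  have hk1p : (0 : ℝ) < k1 := by
    rw [hk1]
    positivity
  obtain ⟨N1, hN1⟩ := sup_ev (Real.exp (C * (k1 : ℝ) ^ 3)) (c / (k1 : ℝ) ^ 2)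
    (Real.exp_pos _).le (by positivity)
  refine ⟨min (c / (k1 : ℝ) ^ 2 / 2) (1 / 6), lt_min (by positivity) (by norm_num),
    max N1 8, fun N hN s hs1 hs2 => ?_⟩
  have hev := hN1 N ((le_max_left _ _).trans hN)
  have hN8 : 8 ≤ N := (le_max_right _ _).trans hN
  have hN8' : (8 : ℝ) ≤ N := by exact_mod_cast hN8
  have hNp : (0 : ℝ) < N := by linarith
  have hN1' : (1 : ℝ) < N := by linarith
  have hlN : 0 < Real.log N := Real.log_pos hN1'
  have hs0 : 0 < s := by linarith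
  have hls : Real.log N < Real.log s := Real.log_lt_log hNp hs1
  set k : ℕ := ⌈3 * Real.log s / Real.log N⌉₊ with hk
  have hq3 : 3 < 3 * Real.log s / Real.log N := by
    rw [lt_div_iff₀ hlN]
    linarith
  have hkle : 3 * Real.log s / Real.log N ≤ k := Nat.le_ceil _
  have hklt : (k : ℝ) < 3 * Real.log s / Real.log N + 1 := Nat.ceil_lt_add_one (by linarith)
  have hk4 : 4 ≤ k := by
    have : (3 : ℝ) < k := by linarith
    have : 3 < k := by exact_mod_cast this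
    omega
  have hkk1 : k ≤ k1 := by
    have h1 : 3 * Real.log s / Real.log N ≤ 3 * κ := by
      rw [div_le_iff₀ hlN]
      have h2 : Real.log s ≤ κ * Real.log N := by
        rw [← Real.log_rpow hNp]
        exact Real.log_le_log hs0 hs2
      linarith
    have h2 : k ≤ ⌈3 * κ⌉₊ := Nat.ceil_mono h1
    omega
  have hkk1' : (k : ℝ) ≤ k1 := by exact_mod_cast hkk1
  have hk0 : (0 : ℝ) < k := by
    have : 0 < k := by omega
    exact_mod_cast this
  have hsk1 : (N : ℝ) ^ (((k : ℝ) - 1) / 3) < s := by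
    rw [← Real.log_lt_log_iff (by positivity) hs0, Real.log_rpow hNp]
    have h1 : (k : ℝ) - 1 < 3 * Real.log s / Real.log N := by linarith
    rw [lt_div_iff₀ hlN] at h1
    linarith
  have hsk2 : s ≤ (N : ℝ) ^ ((k : ℝ) / 3) := by
    rw [← Real.log_le_log_iff hs0 (by positivity), Real.log_rpow hNp]
    rw [div_le_iff₀ hlN] at hkle
    linarith
  have hNs : (N : ℝ) ≤ s ^ 2 := by nlinarith
  set A : ℕ := ⌊(N : ℝ) ^ ((1 : ℝ) / 3)⌋₊ with hA
  have hAx : (A : ℝ) ≤ (N : ℝ) ^ ((1 : ℝ) / 3) := Nat.floor_le (by positivity)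
  have hA1 : 1 ≤ A := by
    rw [hA, Nat.one_le_floor_iff]
    exact Real.one_le_rpow hN1'.le (by norm_num)
  have hA1' : (1 : ℝ) ≤ A := by exact_mod_cast hA1
  have hA2 : (A : ℝ) ^ 2 ≤ (N : ℝ) ^ ((2 : ℝ) / 3) := by
    have h1 : ((N : ℝ) ^ ((1 : ℝ) / 3)) ^ 2 = (N : ℝ) ^ ((2 : ℝ) / 3) := by
      rw [← Real.rpow_natCast, ← Real.rpow_mul hNp.le]
      norm_num
    rw [← h1]
    exact pow_le_pow_left₀ (by positivity) hAx 2
  have hN23 : (N : ℝ) ^ ((2 : ℝ) / 3) * (N : ℝ) ^ ((1 : ℝ) / 3) = N := by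
    rw [← Real.rpow_add hNp]
    norm_num
  have hN13 : 2 ≤ (N : ℝ) ^ ((1 : ℝ) / 3) := by
    have h1 : (8 : ℝ) ^ ((1 : ℝ) / 3) = 2 := by
      rw [show (8 : ℝ) = 2 ^ (3 : ℝ) by norm_num, ← Real.rpow_mul (by norm_num)]
      norm_num
    rw [← h1]
    exact Real.rpow_le_rpow (by norm_num) hN8' (by norm_num)
  have h2A : 2 * A ^ 2 ≤ N := by
    have h1 : 2 * (A : ℝ) ^ 2 ≤ N := by
      have h3 : 0 < (N : ℝ) ^ ((2 : ℝ) / 3) := by positivity
      nlinarith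
    exact_mod_cast h1
  have hsh := Pool.Agent.H43.ZS.shift s 0 hs0.le le_rfl N (2 * N) A k (by omega) hA1 h2A le_rfl
  simp only [add_zero] at hsh
  refine hsh.trans ?_
  -- the main term
  have hW : ∀ m ∈ Ioc N (2 * N), ‖Pool.Agent.H43.ZS.W k A (Pool.Agent.H43.ZS.al k s 0 m)‖ ≤
      (A : ℝ) ^ 2 * (Real.exp (C * (k1 : ℝ) ^ 3) * (1 + Real.log N) *
        (N : ℝ) ^ (-(c / (k1 : ℝ) ^ 2))) := by
    intro m hm
    rw [mem_Ioc] at hm
    have h1 := hwb k N s 0 m (by omega) (by omega) hsk1 hsk2 hNs hm.1 hm.2 le_rfl zero_le_one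
    rw [← hA] at h1
    refine h1.trans ?_
    rw [mul_assoc, mul_assoc]
    refine mul_le_mul_of_nonneg_left ?_ (by positivity)
    rw [mul_assoc]
    have h2 : Real.exp (C * (k : ℝ) ^ 3) ≤ Real.exp (C * (k1 : ℝ) ^ 3) := by
      apply Real.exp_le_exp.2
      exact mul_le_mul_of_nonneg_left (pow_le_pow_left₀ hk0.le hkk1' 3) hC.le
    have h3 : (N : ℝ) ^ (-(c / (k : ℝ) ^ 2)) ≤ (N : ℝ) ^ (-(c / (k1 : ℝ) ^ 2)) := by
      apply Real.rpow_le_rpow_of_exponent_le hN1'.le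
      apply neg_le_neg
      exact div_le_div_of_nonneg_left hc.le (by positivity) (pow_le_pow_left₀ hk0.le hkk1' 2)
    exact mul_le_mul h2 (mul_le_mul_of_nonneg_left h3 (by linarith)) (by positivity)
      (by positivity)
  have hS1 : (1 / (A : ℝ) ^ 2) * ∑ m ∈ Ioc N (2 * N),
      ‖Pool.Agent.H43.ZS.W k A (Pool.Agent.H43.ZS.al k s 0 m)‖ ≤
      N * (Real.exp (C * (k1 : ℝ) ^ 3) * (1 + Real.log N) *
        (N : ℝ) ^ (-(c / (k1 : ℝ) ^ 2))) := by
    have h1 := Finset.sum_le_sum hW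
    rw [Finset.sum_const, Nat.card_Ioc, nsmul_eq_mul] at h1
    have h2 : ((2 * N - N : ℕ) : ℝ) = N := by
      congr 1
      omega
    rw [h2] at h1
    refine (mul_le_mul_of_nonneg_left h1 (by positivity)).trans (le_of_eq ?_)
    field_simp
  have hS2 : 2 * (A : ℝ) ^ 2 ≤ N * (2 * (N : ℝ) ^ (-(1 / 3 : ℝ))) := by
    have h1 : (N : ℝ) * (N : ℝ) ^ (-(1 / 3 : ℝ)) = (N : ℝ) ^ ((2 : ℝ) / 3) := by
      nth_rewrite 1 [← Real.rpow_one (N : ℝ)]
      rw [← Real.rpow_add hNp]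
      norm_num
    linarith
  have hS3 : N * s * ((A : ℝ) ^ 2 / N) ^ (k + 1) ≤ N * (N : ℝ) ^ (-(1 / 3 : ℝ)) := by
    have h1 : (A : ℝ) ^ 2 / N ≤ (N : ℝ) ^ (-(1 / 3 : ℝ)) := by
      rw [div_le_iff₀ hNp]
      refine hA2.trans (le_of_eq ?_)
      nth_rewrite 3 [← Real.rpow_one (N : ℝ)]
      rw [← Real.rpow_add hNp]
      norm_num
    have h2 : ((A : ℝ) ^ 2 / N) ^ (k + 1) ≤ (N : ℝ) ^ (-(((k : ℝ) + 1) / 3)) := by
      refine (pow_le_pow_left₀ (by positivity) h1 (k + 1)).trans (le_of_eq ?_)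
      rw [← Real.rpow_natCast, ← Real.rpow_mul hNp.le]
      congr 1
      push_cast
      ring
    rw [mul_assoc]
    refine mul_le_mul_of_nonneg_left ?_ hNp.le
    refine (mul_le_mul hsk2 h2 (by positivity) (by positivity)).trans (le_of_eq ?_)
    rw [← Real.rpow_add hNp]
    congr 1
    ring
  have h9 := mul_le_mul_of_nonneg_left hev hNp.le
  linarith

private theorem sup_norm (N : ℕ) (t : ℝ) :
    ‖cp (Ioc N (2 * N)) t‖ =
      ‖∑ n ∈ Ioc N (2 * N), Complex.exp (-((3 * |t|) * Real.log (n : ℝ) : ℝ) * Complex.I)‖ := by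
  unfold cp ex
  rcases le_total t 0 with h | h
  · rw [abs_of_nonpos h]
    congr 1
    apply Finset.sum_congr rfl
    intro n _
    congr 2
    push_cast
    ring
  · rw [abs_of_nonneg h, ← Complex.norm_conj, map_sum]
    congr 1
    apply Finset.sum_congr rfl
    intro n _
    rw [← Complex.exp_conj]
    congr 1
    rw [map_mul, Complex.conj_I, Complex.conj_ofReal]
    ring

theorem sup (β η1 : ℝ) (hβ : 0 < β) (hη : 0 < η1) : ∃ η : ℝ, 0 < η ∧ ∃ M1 : ℕ, ∀ M : ℕ, M1 ≤ M →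
    ∀ N : ℕ, (M : ℝ) ^ β / 2 ≤ N → ∀ t : ℝ, (M : ℝ) ^ η1 ≤ |t| → |t| ≤ (M : ℝ) ^ (3 : ℕ) →
    ‖cp (Ioc N (2 * N)) t‖ ≤ N * (M : ℝ) ^ (-η) := by
  obtain ⟨c', hc', N1, hN1⟩ := sup_b (8 / β)
  refine ⟨min (η1 / 2) (β * c' / 2), lt_min (by positivity) (by positivity), ?_⟩
  have e1 : ∀ᶠ M : ℕ in Filter.atTop, (27 : ℝ) ≤ (M : ℝ) ^ (η1 / 2) :=
    ((tendsto_rpow_atTop (show 0 < η1 / 2 by positivity)).comp
      tendsto_natCast_atTop_atTop).eventually_ge_atTop 27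
  have e2 : ∀ᶠ M : ℕ in Filter.atTop, (2 + N1 : ℝ) ≤ (M : ℝ) ^ (β / 2) :=
    ((tendsto_rpow_atTop (show 0 < β / 2 by positivity)).comp
      tendsto_natCast_atTop_atTop).eventually_ge_atTop _
  obtain ⟨M1, hM1⟩ := Filter.eventually_atTop.1 (e1.and e2)
  refine ⟨max M1 3, fun M hM N hN t ht1 ht2 => ?_⟩
  obtain ⟨h27, h2⟩ := hM1 M ((le_max_left _ _).trans hM)
  have hM3 : 3 ≤ M := (le_max_right _ _).trans hM
  have hM3' : (3 : ℝ) ≤ M := by exact_mod_cast hM3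
  have hMp : (0 : ℝ) < M := by linarith
  have hM1' : (1 : ℝ) ≤ M := by linarith
  have hN1c : (0 : ℝ) ≤ N1 := Nat.cast_nonneg _
  have hMβ : (M : ℝ) ^ β = (M : ℝ) ^ (β / 2) * (M : ℝ) ^ (β / 2) := by
    rw [← Real.rpow_add hMp]
    congr 1
    ring
  have hNβ : (M : ℝ) ^ (β / 2) ≤ N := by
    rw [hMβ] at hN
    nlinarith
  have hNN1 : N1 ≤ N := by
    have : (N1 : ℝ) ≤ N := by linarith
    exact_mod_cast this
  have hN2 : (2 : ℝ) ≤ N := by linarith
  have hNp : (0 : ℝ) < N := by linarith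
  have hN1n : 1 ≤ N := by
    have : (1 : ℝ) ≤ N := by linarith
    exact_mod_cast this
  have hMη : (M : ℝ) ^ η1 = (M : ℝ) ^ (η1 / 2) * (M : ℝ) ^ (η1 / 2) := by
    rw [← Real.rpow_add hMp]
    congr 1
    ring
  have ht27 : 27 ≤ |t| := by nlinarith
  rw [sup_norm]
  rcases le_or_gt (3 * |t|) N with hs | hs
  · refine (sup_a N (2 * N) (3 * |t|) (by linarith) hN1n le_rfl hs).trans ?_
    have h3 : (M : ℝ) ^ (-(η1 / 2)) ≤ (M : ℝ) ^ (-(min (η1 / 2) (β * c' / 2))) :=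
      Real.rpow_le_rpow_of_exponent_le hM1' (neg_le_neg (min_le_left _ _))
    refine le_trans ?_ (mul_le_mul_of_nonneg_left h3 hNp.le)
    rw [← mul_div_assoc, div_le_iff₀ (by linarith), Real.rpow_neg hMp.le]
    have h4 : 0 < (M : ℝ) ^ (η1 / 2) := by positivity
    have h5 : 80 * (M : ℝ) ^ (η1 / 2) ≤ 1 + 3 * |t| := by
      rw [hMη] at ht1
      nlinarith
    calc (80 : ℝ) * N = N * ((M : ℝ) ^ (η1 / 2))⁻¹ * (80 * (M : ℝ) ^ (η1 / 2)) := by
          field_simp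
      _ ≤ N * ((M : ℝ) ^ (η1 / 2))⁻¹ * (1 + 3 * |t|) :=
          mul_le_mul_of_nonneg_left h5 (by positivity)
  · have h3 : 3 * |t| ≤ (N : ℝ) ^ (8 / β) := by
      have h4 : (M : ℝ) ^ (4 : ℝ) ≤ (N : ℝ) ^ (8 / β) := by
        have h5 : ((M : ℝ) ^ (β / 2)) ^ (8 / β) = (M : ℝ) ^ (4 : ℝ) := by
          rw [← Real.rpow_mul hMp.le]
          congr 1
          field_simp
          norm_num
        rw [← h5]
        exact Real.rpow_le_rpow (by positivity) hNβ (by positivity)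
      refine le_trans ?_ h4
      have h6 : (M : ℝ) ^ (4 : ℝ) = M * (M : ℝ) ^ (3 : ℕ) := by
        rw [show (4 : ℝ) = ((4 : ℕ) : ℝ) by norm_num, Real.rpow_natCast]
        ring
      rw [h6]
      have h7 : 0 < (M : ℝ) ^ (3 : ℕ) := by positivity
      nlinarith
    refine (hN1 N hNN1 _ hs h3).trans ?_
    refine mul_le_mul_of_nonneg_left ?_ hNp.le
    have h4 : (M : ℝ) ^ (-(β * c' / 2)) ≤ (M : ℝ) ^ (-(min (η1 / 2) (β * c' / 2))) :=
      Real.rpow_le_rpow_of_exponent_le hM1' (neg_le_neg (min_le_right _ _))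
    refine le_trans ?_ h4
    have h5 : (M : ℝ) ^ (-(β * c' / 2)) = ((M : ℝ) ^ (β / 2)) ^ (-c') := by
      rw [← Real.rpow_mul hMp.le]
      congr 1
      ring
    rw [h5]
    exact Real.rpow_le_rpow_of_nonpos (by positivity) hNβ (by linarith)

end Pool.Agent.H98.PK
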