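import Pool.Agent.H98.PK.Gmv
import Pool.Agent.H98.PK.Coj
import Pool.Agent.H98.PK.Coi
import Pool.Agent.H98.PK.Sup
import Pool.Agent.H98.PK.Gre
import Pool.Agent.H98.PK.Triv

/-!
# [H98 PK TII] The main estimate: type II boxes

PROOF. `sup β (β/16)` gives `η'`, `M1`. `ε1 = η'/32`, `L = 1 + log M`, `C1 = 2^(3r+12)`; `C` denotes constants (depending on `r, β, δ` only), `M` is large.
`S = Σ e i`, `A = 2^(Σ_J e)`, `B = 2^(Σ_{Jᶜ} e)`, `AB = 2^S ∈ [M^3/C1, C1 M^3]`.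
CHOICE OF `I`. `G i = 2 F i ∈ [1, 4 M^(2β)]`, `V = M^(2-δ/4)`. By `t0`, `n1`: `∏ G i = 2^r ∏ F i >= 2^r M/(2^(r+2) N) >= M^(1-2β)/8`, so
`A ∏ G i >= M^(2-δ/8-2β)/8 >= V` for `M` large (`δ/8 + 2β <= δ/8 + δ/20 < δ/4`). `gre` with `H = 4 M^(2β)`: `I` with `V <= A Q <= max A (V H)`,
`Q = ∏_{i∈I} 2 F i`; `max A (VH) <= 4 M^(2+δ/8)`. `Q' = ∏_{i∉I} 2 F i`, `Q Q' = 2^r ∏ F i <= M/(2N)` (`t1`).
`B Q' = (AB)(QQ')/(AQ) >= (M^3/C1)(M^(1-2β)/8)/(4 M^(2+δ/8)) >= V` for `M` large.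
MEAN VALUES. `|bp| = |A(t)||B(t)|` (products over `J`, `Jᶜ`: `coj ε1`, coefficients `<= α = C A^(ε1-1)`, `<= α' = C B^(ε1-1)`), `|cpx| = |cp(Ioc N 2N)||C_I||C_I'|`
(`coi r ε1`, coefficients `<= γ = C Q^ε1`, `<= γ' = C Q'^ε1`). `w(t) = exp(-(t/(2T))^2)`. `gmv`:
`∫ w (|A||C_I|)^2 <= 400 α^2 γ^2 (T A Q (1+log A)(1+log Q) + (AQ)^2) <= C (AQ)^(2ε1) L^2 (T Q/A + Q^2)` and
`∫ w (|B||C_I'|)^2 <= C (BQ')^(2ε1) L^2 (T Q'/B + Q'^2)`; `(AQBQ')^(2ε1) <= C M^(8ε1)`.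
On `rng` `|cp(Ioc N 2N)| <= N M^(-η')`. Cauchy-Schwarz (`∫_rng w fg <= (∫ w f^2)^(1/2) (∫ w g^2)^(1/2)`; all functions continuous, bounded times
Gaussian; e.g. `2fg <= λ f^2 + g^2/λ` for all `λ > 0`, or `MeasureTheory.integral_mul_le_Lp_mul_Lq_of_nonneg`):
`(∫_rng ..)^2 <= N^2 M^(-2η') C M^(8ε1) L^4 [T^2 QQ'/(AB) + T (QQ')^2/(AQ) + T (QQ')^2/(BQ') + (QQ')^2]`
(`(TQ/A + Q^2)(TQ'/B + Q'^2)` multiplied out). The four terms times `N^2`: `T^2 QQ'/(AB) N^2 <= M^(4-δ) (M/(2N)) (C1/M^3) N^2 = C M^(2-δ) N <= C M^(2-δ+2β) <= M^2`;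
`T (QQ')^2 N^2/(AQ) <= M^2/4 * T/V <= M^2` as `T <= M^(2-δ/2) <= V`; the third the same; `(QQ')^2 N^2 <= M^2/4`. Hence
`∫_rng .. <= C L^2 M^(4ε1) M^(-η') M <= M^(1-η'/2)` for `M` large (`4 ε1 = η'/8`). `η = η'/2`.
-/

namespace Pool.Agent.H98.PK

open Finset MeasureTheory

/-- the main range of the frequencies -/
def rng (β : ℝ) (M : ℕ) : Set ℝ := {t : ℝ | (M : ℝ) ^ (β / 16) ≤ |t| ∧ |t| ≤ (M : ℝ) ^ (3 : ℕ)}

theorem tii_gauss (T : ℝ) (hT : 0 < T) :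
    Integrable (fun t : ℝ => Real.exp (-(t / (2 * T)) ^ 2)) := by
  have h := integrable_exp_neg_mul_sq (b := 1 / (2 * T) ^ 2) (by positivity)
  refine h.congr (Filter.Eventually.of_forall fun t => ?_)
  simp only
  congr 1
  rw [div_pow]
  ring

theorem tii_int (T : ℝ) (hT : 0 < T) (g : ℝ → ℝ) (hg : Continuous g) (C : ℝ)
    (hC : ∀ t, |g t| ≤ C) : Integrable (fun t : ℝ => Real.exp (-(t / (2 * T)) ^ 2) * g t) := by
  refine (tii_gauss T hT).mul_bdd (c := C) hg.aestronglyMeasurable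
    (Filter.Eventually.of_forall fun t => ?_)
  rw [Real.norm_eq_abs]
  exact hC t

private theorem tii_rng (β : ℝ) (M : ℕ) :
    MeasurableSet {t : ℝ | (M : ℝ) ^ (β / 16) ≤ |t| ∧ |t| ≤ (M : ℝ) ^ (3 : ℕ)} := by
  apply MeasurableSet.inter
  · exact measurableSet_le measurable_const continuous_abs.measurable
  · exact measurableSet_le continuous_abs.measurable measurable_const

theorem tii_cs (T : ℝ) (hT : 0 < T) (s : Set ℝ) (hs : MeasurableSet s) (f g h : ℝ → ℝ)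
    (hf : Continuous f) (hg : Continuous g) (Cf Cg : ℝ) (hf1 : ∀ t, |f t| ≤ Cf)
    (hg1 : ∀ t, |g t| ≤ Cg) (S : ℝ) (hS : 0 ≤ S) (hh0 : ∀ t, 0 ≤ h t)
    (hh : ∀ t ∈ s, h t ≤ S * (f t * g t)) (U1 U2 : ℝ) (hU1 : 0 < U1) (hU2 : 0 < U2)
    (h1 : ∫ t : ℝ, Real.exp (-(t / (2 * T)) ^ 2) * (f t) ^ 2 ≤ U1)
    (h2 : ∫ t : ℝ, Real.exp (-(t / (2 * T)) ^ 2) * (g t) ^ 2 ≤ U2) :
    ∫ t in s, Real.exp (-(t / (2 * T)) ^ 2) * h t ≤ S * Real.sqrt (U1 * U2) := by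
  set w : ℝ → ℝ := fun t => Real.exp (-(t / (2 * T)) ^ 2) with hw
  have hw0 : ∀ t, 0 ≤ w t := fun t => (Real.exp_pos _).le
  have i1 : Integrable (fun t => w t * (f t) ^ 2) := by
    refine tii_int T hT (fun t => (f t) ^ 2) (hf.pow 2) (Cf ^ 2) fun t => ?_
    rw [abs_pow]
    exact pow_le_pow_left₀ (abs_nonneg _) (hf1 t) 2
  have i2 : Integrable (fun t => w t * (g t) ^ 2) := by
    refine tii_int T hT (fun t => (g t) ^ 2) (hg.pow 2) (Cg ^ 2) fun t => ?_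
    rw [abs_pow]
    exact pow_le_pow_left₀ (abs_nonneg _) (hg1 t) 2
  set l : ℝ := Real.sqrt (U2 / U1) with hl
  have hl0 : 0 < l := Real.sqrt_pos.2 (by positivity)
  have hl2 : l ^ 2 = U2 / U1 := Real.sq_sqrt (by positivity)
  set G : ℝ → ℝ := fun t => S * (l * (w t * (f t) ^ 2) + l⁻¹ * (w t * (g t) ^ 2)) / 2 with hG
  have iG : Integrable G := by
    apply Integrable.div_const
    apply Integrable.const_mul
    exact (i1.const_mul l).add (i2.const_mul l⁻¹)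
  have hG0 : ∀ t, 0 ≤ G t := fun t => by
    have := hw0 t
    simp only [hG]
    positivity
  have key : ∀ t ∈ s, w t * h t ≤ G t := by
    intro t ht
    have h3 : 2 * (f t * g t) ≤ l * (f t) ^ 2 + l⁻¹ * (g t) ^ 2 := by
      have h4 : 0 ≤ l⁻¹ * (l * f t - g t) ^ 2 := by positivity
      have h5 : l⁻¹ * (l * f t - g t) ^ 2 = l * (f t) ^ 2 + l⁻¹ * (g t) ^ 2 - 2 * (f t * g t) := by
        field_simp
        ring
      linarith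
    have h6 : w t * h t ≤ w t * (S * (f t * g t)) := mul_le_mul_of_nonneg_left (hh t ht) (hw0 t)
    have h7 : w t * (S * (f t * g t)) ≤ w t * (S * ((l * (f t) ^ 2 + l⁻¹ * (g t) ^ 2) / 2)) := by
      refine mul_le_mul_of_nonneg_left ?_ (hw0 t)
      refine mul_le_mul_of_nonneg_left ?_ hS
      linarith
    refine h6.trans (h7.trans (le_of_eq ?_))
    simp only [hG]
    ring
  have step1 : ∫ t in s, w t * h t ≤ ∫ t in s, G t := by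
    apply integral_mono_of_nonneg
    · exact Filter.Eventually.of_forall fun t => mul_nonneg (hw0 t) (hh0 t)
    · exact iG.integrableOn
    · exact (ae_restrict_iff' hs).2 (Filter.Eventually.of_forall key)
  have step2 : ∫ t in s, G t ≤ ∫ t, G t :=
    setIntegral_le_integral iG (Filter.Eventually.of_forall hG0)
  have step3 : ∫ t, G t = S * (l * (∫ t, w t * (f t) ^ 2) + l⁻¹ * (∫ t, w t * (g t) ^ 2)) / 2 := by
    simp only [hG]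
    rw [integral_div, integral_const_mul, integral_add (i1.const_mul l) (i2.const_mul l⁻¹),
      integral_const_mul, integral_const_mul]
  have step4 : l * U1 = Real.sqrt (U1 * U2) := by
    have h8 : (l * U1) ^ 2 = U1 * U2 := by
      rw [mul_pow, hl2]
      field_simp
    rw [← h8, Real.sqrt_sq (by positivity)]
  have step5 : l⁻¹ * U2 = Real.sqrt (U1 * U2) := by
    have h8 : (l⁻¹ * U2) ^ 2 = U1 * U2 := by
      rw [mul_pow, inv_pow, hl2]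
      field_simp
    rw [← h8, Real.sqrt_sq (by positivity)]
  calc ∫ t in s, w t * h t ≤ ∫ t, G t := step1.trans step2
    _ = S * (l * (∫ t, w t * (f t) ^ 2) + l⁻¹ * (∫ t, w t * (g t) ^ 2)) / 2 := step3
    _ ≤ S * (l * U1 + l⁻¹ * U2) / 2 := by
        have h9 : l * (∫ t, w t * (f t) ^ 2) ≤ l * U1 := mul_le_mul_of_nonneg_left h1 hl0.le
        have h10 : l⁻¹ * (∫ t, w t * (g t) ^ 2) ≤ l⁻¹ * U2 :=
          mul_le_mul_of_nonneg_left h2 (by positivity)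
        have h11 := mul_le_mul_of_nonneg_left (add_le_add h9 h10) hS
        linarith
    _ = S * Real.sqrt (U1 * U2) := by rw [step4, step5]; ring

private theorem tii_alg1 (T V X Y Z R N m C1 : ℝ) (hT : 0 < T) (hX : 0 < X) (hY : 0 < Y) (hZ : 0 < Z)
    (hR : 0 < R) (hN : 0 < N) (hm : 0 < m) (hC1 : 0 < C1) (hXY : X * Y = Z * R) (hTV : T ≤ V) (hVX : V ≤ X) (hVY : V ≤ Y)
    (hNR : 2 * N * R ≤ m) (hZ1 : m ^ 3 ≤ C1 * Z) (hNT : N * T ^ 2 * C1 ≤ 2 * m ^ 4) :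
    N ^ 2 * ((T * X + X ^ 2) * (T * Y + Y ^ 2)) ≤ 2 * m ^ 2 * Z ^ 2 := by
  have hTX : T ≤ X := hTV.trans hVX
  have hTY : T ≤ Y := hTV.trans hVY
  have e1 : (T * X + X ^ 2) * (T * Y + Y ^ 2) = (X * Y) * (T ^ 2 + T * X + T * Y + X * Y) := by ring
  have e2 : T * X ≤ X * Y := by nlinarith
  have e3 : T * Y ≤ X * Y := by nlinarith
  have e4 : (T * X + X ^ 2) * (T * Y + Y ^ 2) ≤ (Z * R) * (T ^ 2 + 3 * (Z * R)) := by
    rw [e1, ← hXY]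
    refine mul_le_mul_of_nonneg_left ?_ (by positivity)
    linarith
  have e5 : N ^ 2 * R * T ^ 2 ≤ m ^ 2 * Z := by
    have h1 : N ^ 2 * R * T ^ 2 * (2 * C1) ≤ m * (2 * m ^ 4) := by
      have h2 : N ^ 2 * R * T ^ 2 * (2 * C1) = (2 * N * R) * (N * T ^ 2 * C1) := by ring
      rw [h2]
      exact mul_le_mul hNR hNT (by positivity) hm.le
    have h3 : m * (2 * m ^ 4) = 2 * m ^ 2 * m ^ 3 := by ring
    have h4 : 2 * m ^ 2 * m ^ 3 ≤ 2 * m ^ 2 * (C1 * Z) := mul_le_mul_of_nonneg_left hZ1 (by positivity)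
    have h5 : N ^ 2 * R * T ^ 2 * (2 * C1) ≤ m ^ 2 * Z * (2 * C1) := by
      calc _ ≤ 2 * m ^ 2 * (C1 * Z) := by rw [h3] at h1; exact h1.trans h4
        _ = _ := by ring
    exact le_of_mul_le_mul_right h5 (by positivity)
  have e6 : N ^ 2 * R ^ 2 ≤ m ^ 2 / 4 := by
    have h1 : (2 * N * R) ^ 2 ≤ m ^ 2 := pow_le_pow_left₀ (by positivity) hNR 2
    nlinarith
  calc N ^ 2 * ((T * X + X ^ 2) * (T * Y + Y ^ 2)) ≤ N ^ 2 * ((Z * R) * (T ^ 2 + 3 * (Z * R))) :=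
        mul_le_mul_of_nonneg_left e4 (by positivity)
    _ = Z * (N ^ 2 * R * T ^ 2) + 3 * Z ^ 2 * (N ^ 2 * R ^ 2) := by ring
    _ ≤ Z * (m ^ 2 * Z) + 3 * Z ^ 2 * (m ^ 2 / 4) :=
        add_le_add (mul_le_mul_of_nonneg_left e5 hZ.le) (mul_le_mul_of_nonneg_left e6 (by positivity))
    _ ≤ 2 * m ^ 2 * Z ^ 2 := by nlinarith [sq_nonneg (m * Z)]

private theorem tii_alg2 (A B Q Q' T V N m C1 Ca Cc ε ℓ : ℝ) (hA : 1 ≤ A) (hB : 1 ≤ B)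
    (hQ : 1 ≤ Q) (hQ' : 1 ≤ Q') (hT : 0 < T) (hN : 0 < N) (hm : 1 ≤ m) (hC1 : 0 < C1)
    (hCa : 0 < Ca) (hCc : 0 < Cc) (hε : 0 < ε) (hℓ : 1 ≤ ℓ)
    (hTV : T ≤ V) (hVX : V ≤ A * Q) (hVY : V ≤ B * Q') (hNR : 2 * N * (Q * Q') ≤ m)
    (hZ1 : m ^ 3 ≤ C1 * (A * B)) (hZ2 : A * B ≤ C1 * m ^ 3) (hNT : N * T ^ 2 * C1 ≤ 2 * m ^ 4)
    (hN1 : 1 ≤ 2 * N)
    (hl1 : Real.log A ≤ 4 * ℓ) (hl2 : Real.log B ≤ 4 * ℓ) (hl3 : Real.log Q ≤ ℓ) (hl4 : Real.log Q' ≤ ℓ) :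
    N ^ 2 * ((400 * (Ca * A ^ (ε - 1)) ^ 2 * (Cc * Q ^ ε) ^ 2 *
        (T * A * Q * (1 + Real.log A) * (1 + Real.log Q) + (A * Q) ^ 2)) *
      (400 * (Ca * B ^ (ε - 1)) ^ 2 * (Cc * Q' ^ ε) ^ 2 *
        (T * B * Q' * (1 + Real.log B) * (1 + Real.log Q') + (B * Q') ^ 2))) ≤
      2 * 4000 ^ 2 * Ca ^ 4 * Cc ^ 4 * ℓ ^ 4 * ((C1 * m ^ 4) ^ ε) ^ 2 * m ^ 2 := by
  have hA0 : 0 < A := by linarith
  have hB0 : 0 < B := by linarith
  have hQ0 : 0 < Q := by linarith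
  have hQ0' : 0 < Q' := by linarith
  have hm0 : 0 < m := by linarith
  have lA : 0 ≤ Real.log A := Real.log_nonneg hA
  have lB : 0 ≤ Real.log B := Real.log_nonneg hB
  have lQ : 0 ≤ Real.log Q := Real.log_nonneg hQ
  have lQ' : 0 ≤ Real.log Q' := Real.log_nonneg hQ'
  have hℓ2 : 1 ≤ ℓ ^ 2 := one_le_pow₀ hℓ
  have aux : ∀ (a q la lq : ℝ), 0 < a → 0 < q → 0 ≤ la → 0 ≤ lq → la ≤ 4 * ℓ → lq ≤ ℓ →
      T * a * q * (1 + la) * (1 + lq) + (a * q) ^ 2 ≤ 10 * ℓ ^ 2 * (T * (a * q) + (a * q) ^ 2) := by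
    intro a q la lq ha hq h1 h2 h3 h4
    have h5 : (1 + la) * (1 + lq) ≤ 10 * ℓ ^ 2 := by
      calc (1 + la) * (1 + lq) ≤ (5 * ℓ) * (2 * ℓ) :=
            mul_le_mul (by linarith) (by linarith) (by linarith) (by linarith)
        _ = 10 * ℓ ^ 2 := by ring
    have h6 : T * a * q * (1 + la) * (1 + lq) ≤ 10 * ℓ ^ 2 * (T * (a * q)) := by
      calc T * a * q * (1 + la) * (1 + lq) = (T * (a * q)) * ((1 + la) * (1 + lq)) := by ring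
        _ ≤ (T * (a * q)) * (10 * ℓ ^ 2) := mul_le_mul_of_nonneg_left h5 (by positivity)
        _ = _ := by ring
    have h7 : (a * q) ^ 2 ≤ 10 * ℓ ^ 2 * (a * q) ^ 2 := by
      have : 0 ≤ (a * q) ^ 2 := sq_nonneg _
      nlinarith
    linarith
  have b1 := aux A Q _ _ hA0 hQ0 lA lQ hl1 hl3
  have b2 := aux B Q' _ _ hB0 hQ0' lB lQ' hl2 hl4
  have key := tii_alg1 T V (A * Q) (B * Q') (A * B) (Q * Q') N m C1 hT (by positivity) (by positivity)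
    (by positivity) (by positivity) hN hm0 hC1 (by ring) hTV hVX hVY hNR hZ1 hNT
  set PA := A ^ (ε - 1) with hPA
  set PB := B ^ (ε - 1) with hPB
  set PQ := Q ^ ε with hPQ
  set PQ' := Q' ^ ε with hPQ'
  have hPA0 : 0 < PA := Real.rpow_pos_of_pos hA0 _
  have hPB0 : 0 < PB := Real.rpow_pos_of_pos hB0 _
  have hPQ0 : 0 < PQ := Real.rpow_pos_of_pos hQ0 _
  have hPQ0' : 0 < PQ' := Real.rpow_pos_of_pos hQ0' _
  have hprod : PA * PB * PQ * PQ' * (A * B) ≤ (C1 * m ^ 4) ^ ε := by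
    have h1 : PA * PB = (A * B) ^ (ε - 1) := (Real.mul_rpow hA0.le hB0.le).symm
    have h2 : PQ * PQ' = (Q * Q') ^ ε := (Real.mul_rpow hQ0.le hQ0'.le).symm
    have h3 : (A * B) ^ (ε - 1) * (A * B) = (A * B) ^ ε := by
      rw [Real.rpow_sub_one (by positivity)]
      field_simp
    have h4 : PA * PB * PQ * PQ' * (A * B) = ((A * B) * (Q * Q')) ^ ε := by
      calc PA * PB * PQ * PQ' * (A * B) = ((PA * PB) * (A * B)) * (PQ * PQ') := by ring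
        _ = (A * B) ^ ε * (Q * Q') ^ ε := by rw [h1, h3, h2]
        _ = _ := (Real.mul_rpow (by positivity) (by positivity)).symm
    rw [h4]
    apply Real.rpow_le_rpow (by positivity) _ hε.le
    have h5 : Q * Q' ≤ m := by
      have : 1 * (Q * Q') ≤ 2 * N * (Q * Q') := mul_le_mul_of_nonneg_right hN1 (by positivity)
      linarith
    calc A * B * (Q * Q') ≤ (C1 * m ^ 3) * m := mul_le_mul hZ2 h5 (by positivity) (by positivity)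
      _ = C1 * m ^ 4 := by ring
  have hfin : N ^ 2 * ((400 * (Ca * PA) ^ 2 * (Cc * PQ) ^ 2 * (10 * ℓ ^ 2 * (T * (A * Q) + (A * Q) ^ 2))) *
      (400 * (Ca * PB) ^ 2 * (Cc * PQ') ^ 2 * (10 * ℓ ^ 2 * (T * (B * Q') + (B * Q') ^ 2)))) =
      (4000 ^ 2 * Ca ^ 4 * Cc ^ 4 * ℓ ^ 4 * (PA * PB * PQ * PQ') ^ 2) *
        (N ^ 2 * ((T * (A * Q) + (A * Q) ^ 2) * (T * (B * Q') + (B * Q') ^ 2))) := by ring
  calc _ ≤ N ^ 2 * ((400 * (Ca * PA) ^ 2 * (Cc * PQ) ^ 2 * (10 * ℓ ^ 2 * (T * (A * Q) + (A * Q) ^ 2))) *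
      (400 * (Ca * PB) ^ 2 * (Cc * PQ') ^ 2 * (10 * ℓ ^ 2 * (T * (B * Q') + (B * Q') ^ 2)))) := by
        refine mul_le_mul_of_nonneg_left ?_ (by positivity)
        refine mul_le_mul ?_ ?_ ?_ ?_
        · exact mul_le_mul_of_nonneg_left b1 (by positivity)
        · exact mul_le_mul_of_nonneg_left b2 (by positivity)
        · positivity
        · positivity
    _ = _ := hfin
    _ ≤ (4000 ^ 2 * Ca ^ 4 * Cc ^ 4 * ℓ ^ 4 * (PA * PB * PQ * PQ') ^ 2) * (2 * m ^ 2 * (A * B) ^ 2) :=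
        mul_le_mul_of_nonneg_left key (by positivity)
    _ = 2 * 4000 ^ 2 * Ca ^ 4 * Cc ^ 4 * ℓ ^ 4 * (PA * PB * PQ * PQ' * (A * B)) ^ 2 * m ^ 2 := by ring
    _ ≤ 2 * 4000 ^ 2 * Ca ^ 4 * Cc ^ 4 * ℓ ^ 4 * ((C1 * m ^ 4) ^ ε) ^ 2 * m ^ 2 := by
        refine mul_le_mul_of_nonneg_right ?_ (by positivity)
        refine mul_le_mul_of_nonneg_left ?_ (by positivity)
        exact pow_le_pow_left₀ (by positivity) hprod 2

private theorem tii_ev (β δ η K C1 : ℝ) (hβ : 0 < β) (hδ : 40 * β ≤ δ) (hη : 0 < η) (hK : 0 < K) : ∃ M1 : ℕ, ∀ M : ℕ, M1 ≤ M → 1 ≤ M ∧ 1 ≤ Real.log M ∧ Real.log C1 ≤ Real.log M ∧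
      32 * C1 ≤ (M : ℝ) ^ (δ / 8 - 2 * β) ∧ 8 ≤ (M : ℝ) ^ (δ / 8 - 2 * β) ∧ C1 ≤ (M : ℝ) ^ (δ - 2 * β) ∧
      K * (Real.log M) ^ 2 ≤ (M : ℝ) ^ (3 * η / 8) := by
  have hcast : Filter.Tendsto (fun M : ℕ => (M : ℝ)) Filter.atTop Filter.atTop :=
    tendsto_natCast_atTop_atTop
  have hlog : Filter.Tendsto (fun M : ℕ => Real.log M) Filter.atTop Filter.atTop :=
    Real.tendsto_log_atTop.comp hcast
  have h1 := (tendsto_rpow_atTop (show 0 < δ / 8 - 2 * β by linarith)).comp hcast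
  have h2 := (tendsto_rpow_atTop (show 0 < δ - 2 * β by linarith)).comp hcast
  have h3 : ∀ᶠ x : ℝ in Filter.atTop, Real.sqrt K * Real.log x ≤ x ^ (3 * η / 16) := by
    have h4 := (isLittleO_log_rpow_atTop (show (0 : ℝ) < 3 * η / 16 by positivity)).bound
      (show (0 : ℝ) < 1 / Real.sqrt K by positivity)
    filter_upwards [h4, Filter.eventually_ge_atTop (1 : ℝ)] with x hx hx1
    have hs : 0 < Real.sqrt K := Real.sqrt_pos.2 hK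
    rw [Real.norm_of_nonneg (Real.log_nonneg hx1), Real.norm_of_nonneg (by positivity)] at hx
    rw [one_div, inv_mul_eq_div, le_div_iff₀ hs] at hx
    linarith
  have h5 : ∀ᶠ M : ℕ in Filter.atTop, 1 ≤ M ∧ 1 ≤ Real.log M ∧ Real.log C1 ≤ Real.log M ∧
      32 * C1 ≤ (M : ℝ) ^ (δ / 8 - 2 * β) ∧ 8 ≤ (M : ℝ) ^ (δ / 8 - 2 * β) ∧ C1 ≤ (M : ℝ) ^ (δ - 2 * β) ∧
      K * (Real.log M) ^ 2 ≤ (M : ℝ) ^ (3 * η / 8) := by
    filter_upwards [Filter.eventually_ge_atTop 1, hlog.eventually_ge_atTop 1,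
      hlog.eventually_ge_atTop (Real.log C1), h1.eventually_ge_atTop (32 * C1),
      h1.eventually_ge_atTop 8, h2.eventually_ge_atTop C1, hcast.eventually h3] with M a1 a2 a3 a4 a5 a6 a7
    refine ⟨a1, a2, a3, a4, a5, a6, ?_⟩
    have hM0 : (0 : ℝ) ≤ M := Nat.cast_nonneg M
    have h6 : (Real.sqrt K * Real.log M) ^ 2 ≤ ((M : ℝ) ^ (3 * η / 16)) ^ 2 :=
      pow_le_pow_left₀ (by positivity) a7 2
    have h7 : ((M : ℝ) ^ (3 * η / 16)) ^ 2 = (M : ℝ) ^ (3 * η / 8) := by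
      rw [← Real.rpow_natCast, ← Real.rpow_mul hM0]
      congr 1
      push_cast
      ring
    rw [mul_pow, Real.sq_sqrt hK.le, h7] at h6
    exact h6
  obtain ⟨M1, hM1⟩ := Filter.eventually_atTop.1 h5
  exact ⟨M1, hM1⟩

/-- the choice of the set `I` -/
private theorem tii_choice (r : ℕ) (β δ C1 : ℝ) (hδ : 40 * β ≤ δ) (hβ : 0 < β)
    (M N : ℕ) (F : Fin r → ℕ) (P : Fin r → Finset ℕ) (hB : Bx β M N F P) (A B : ℝ) (hA : 0 < A)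
    (hC1 : 0 < C1) (hBpos : 0 < B) (hM : 1 ≤ M) (h32 : 32 * C1 ≤ (M : ℝ) ^ (δ / 8 - 2 * β))
    (h8 : 8 ≤ (M : ℝ) ^ (δ / 8 - 2 * β)) (hZ : (M : ℝ) ^ (3 : ℕ) ≤ C1 * (A * B))
    (hA1 : (M : ℝ) ^ (1 - δ / 8) ≤ A) (hA2 : A ≤ (M : ℝ) ^ (2 + δ / 8)) :
    ∃ I : Finset (Fin r), (M : ℝ) ^ (2 - δ / 4) ≤ A * ((∏ i ∈ I, 2 * F i : ℕ) : ℝ) ∧
      (M : ℝ) ^ (2 - δ / 4) ≤ B * ((∏ i ∈ Iᶜ, 2 * F i : ℕ) : ℝ) := by
  have hm1 : (1 : ℝ) ≤ M := by exact_mod_cast hM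
  have hm0 : (0 : ℝ) < M := by linarith
  set m : ℝ := (M : ℝ) with hm
  have hF0 : ∀ i, (1 : ℝ) ≤ F i := fun i => by exact_mod_cast hB.f0 i
  -- the total product
  set R : ℝ := ∏ i, ((2 * F i : ℕ) : ℝ) with hR
  have hR0 : 0 < R := Finset.prod_pos fun i _ => by
    have := hF0 i
    push_cast
    linarith
  have hN0 : (0 : ℝ) < N := by
    have h1 := hB.n0
    have h2 : 0 < m ^ β := Real.rpow_pos_of_pos hm0 _
    linarith
  have hRM : m ≤ 4 * N * R := by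
    have h1 := hB.t0
    have h2 : (m : ℝ) ≤ 2 ^ (r + 2) * (N * ∏ i, (F i : ℝ)) := by
      rw [hm]; exact_mod_cast h1
    have h3 : R = 2 ^ r * ∏ i, (F i : ℝ) := by
      rw [hR]
      push_cast
      rw [Finset.prod_mul_distrib, Finset.prod_const, Finset.card_univ, Fintype.card_fin]
    rw [h3]
    calc m ≤ 2 ^ (r + 2) * (N * ∏ i, (F i : ℝ)) := h2
      _ = 4 * N * (2 ^ r * ∏ i, (F i : ℝ)) := by ring
  have hRlow : m ^ (1 - 2 * β) ≤ 8 * R := by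
    have h1 : m ≤ 8 * m ^ (2 * β) * R := by
      calc m ≤ 4 * N * R := hRM
        _ ≤ 4 * (2 * m ^ (2 * β)) * R := by
            have := hB.n1
            have h2 : (4 : ℝ) * N ≤ 4 * (2 * m ^ (2 * β)) := by linarith
            exact mul_le_mul_of_nonneg_right h2 hR0.le
        _ = _ := by ring
    have h2 : 0 < m ^ (2 * β) := Real.rpow_pos_of_pos hm0 _
    rw [Real.rpow_sub hm0, Real.rpow_one, div_le_iff₀ h2]
    linarith
  have hVA : m ^ (2 - δ / 4) ≤ A * R := by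
    have h1 : m ^ (1 - δ / 8) * m ^ (1 - 2 * β) ≤ A * (8 * R) :=
      mul_le_mul hA1 hRlow (Real.rpow_nonneg hm0.le _) hA.le
    have h2 : m ^ (2 - δ / 4) * m ^ (δ / 8 - 2 * β) = m ^ (1 - δ / 8) * m ^ (1 - 2 * β) := by
      rw [← Real.rpow_add hm0, ← Real.rpow_add hm0]
      congr 1
      ring
    have h3 : m ^ (2 - δ / 4) * 8 ≤ m ^ (2 - δ / 4) * m ^ (δ / 8 - 2 * β) :=
      mul_le_mul_of_nonneg_left h8 (Real.rpow_nonneg hm0.le _)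
    rw [h2] at h3
    linarith
  obtain ⟨I, hI1, hI2⟩ := gre (fun i => ((2 * F i : ℕ) : ℝ)) A (m ^ (2 - δ / 4)) (4 * m ^ (2 * β)) hA
    (Real.rpow_pos_of_pos hm0 _) (fun i => by
      refine ⟨?_, ?_⟩
      · have := hF0 i
        push_cast
        linarith
      · have := hB.f1 i
        push_cast
        linarith) hVA
  refine ⟨I, ?_, ?_⟩
  · rw [Nat.cast_prod]
    exact hI1
  · have hQ0 : 0 < ∏ i ∈ I, ((2 * F i : ℕ) : ℝ) := Finset.prod_pos fun i _ => by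
      have := hF0 i
      push_cast
      linarith
    have hup : A * ∏ i ∈ I, ((2 * F i : ℕ) : ℝ) ≤ 4 * m ^ (2 + δ / 8) := by
      refine hI2.trans (max_le ?_ ?_)
      · have : 0 ≤ m ^ (2 + δ / 8) := Real.rpow_nonneg hm0.le _
        linarith
      · have h1 : m ^ (2 - δ / 4) * (4 * m ^ (2 * β)) = 4 * m ^ (2 - δ / 4 + 2 * β) := by
          rw [Real.rpow_add hm0]
          ring
        rw [h1]
        have h2 : m ^ (2 - δ / 4 + 2 * β) ≤ m ^ (2 + δ / 8) :=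
          Real.rpow_le_rpow_of_exponent_le hm1 (by linarith)
        linarith
    have hsplit : (∏ i ∈ I, ((2 * F i : ℕ) : ℝ)) * ∏ i ∈ Iᶜ, ((2 * F i : ℕ) : ℝ) = R :=
      Finset.prod_mul_prod_compl I _
    have hQ1 : 0 < ∏ i ∈ Iᶜ, ((2 * F i : ℕ) : ℝ) := Finset.prod_pos fun i _ => by
      have := hF0 i
      push_cast
      linarith
    rw [Nat.cast_prod]
    set Q := ∏ i ∈ I, ((2 * F i : ℕ) : ℝ) with hQ
    set Q' := ∏ i ∈ Iᶜ, ((2 * F i : ℕ) : ℝ) with hQ'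
    have h1 : m ^ (3 : ℕ) * m ^ (1 - 2 * β) ≤ (C1 * (A * B)) * (8 * R) :=
      mul_le_mul hZ hRlow (Real.rpow_nonneg hm0.le _) (by positivity)
    have h2 : (C1 * (A * B)) * (8 * R) = 8 * C1 * ((A * Q) * (B * Q')) := by rw [← hsplit]; ring
    have h3 : 8 * C1 * ((A * Q) * (B * Q')) ≤ 8 * C1 * ((4 * m ^ (2 + δ / 8)) * (B * Q')) :=
      mul_le_mul_of_nonneg_left (mul_le_mul_of_nonneg_right hup (by positivity)) (by positivity)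
    have h4 : m ^ (3 : ℕ) * m ^ (1 - 2 * β) = m ^ (δ / 8 - 2 * β) * (m ^ (2 - δ / 4) * m ^ (2 + δ / 8)) := by
      rw [← Real.rpow_natCast, ← Real.rpow_add hm0, ← Real.rpow_add hm0, ← Real.rpow_add hm0]
      congr 1
      push_cast
      ring
    have h5 : 32 * C1 * (m ^ (2 - δ / 4) * m ^ (2 + δ / 8)) ≤
        m ^ (δ / 8 - 2 * β) * (m ^ (2 - δ / 4) * m ^ (2 + δ / 8)) :=
      mul_le_mul_of_nonneg_right h32 (by positivity)
    have h6 : 32 * C1 * (m ^ (2 - δ / 4) * m ^ (2 + δ / 8)) ≤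
        8 * C1 * ((4 * m ^ (2 + δ / 8)) * (B * Q')) := by
      rw [← h4] at h5
      exact h5.trans (h1.trans (h2.le.trans h3))
    have h7 : (32 * C1 * m ^ (2 + δ / 8)) * m ^ (2 - δ / 4) ≤
        (32 * C1 * m ^ (2 + δ / 8)) * (B * Q') := by
      calc _ = 32 * C1 * (m ^ (2 - δ / 4) * m ^ (2 + δ / 8)) := by ring
        _ ≤ _ := h6
        _ = _ := by ring
    exact le_of_mul_le_mul_left h7 (by positivity)

theorem tii_A {a : ℕ → ℂ} {A : ℕ} : Continuous (fun t : ℝ => ‖∑ n ∈ Icc 1 A, a n * ex (-(t * Real.log n))‖) := by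
  unfold ex
  fun_prop

private theorem tii_C {c : ℕ → ℂ} {Q : ℕ} : Continuous (fun t : ℝ => ‖∑ m ∈ Icc 1 Q, c m * ex (3 * t * Real.log m)‖) := by
  unfold ex
  fun_prop

theorem tii_bA (a : ℕ → ℂ) (A : ℕ) (t : ℝ) :
    ‖∑ n ∈ Icc 1 A, a n * ex (-(t * Real.log n))‖ ≤ ∑ n ∈ Icc 1 A, ‖a n‖ := by
  refine (norm_sum_le _ _).trans (Finset.sum_le_sum fun n _ => ?_)
  rw [norm_mul, norm_ex, mul_one]

private theorem tii_bC (c : ℕ → ℂ) (Q : ℕ) (t : ℝ) :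
    ‖∑ m ∈ Icc 1 Q, c m * ex (3 * t * Real.log m)‖ ≤ ∑ m ∈ Icc 1 Q, ‖c m‖ := by
  refine (norm_sum_le _ _).trans (Finset.sum_le_sum fun n _ => ?_)
  rw [norm_mul, norm_ex, mul_one]

theorem tii (r : ℕ) (β δ : ℝ) (hβ : 0 < β) (hδ : 40 * β ≤ δ) (hδ1 : δ ≤ 1) : ∃ η : ℝ, 0 < η ∧
    ∃ M1 : ℕ, ∀ M : ℕ, M1 ≤ M → ∀ (N : ℕ) (F : Fin r → ℕ) (P : Fin r → Finset ℕ), Bx β M N F P →
    ∀ (e : Fin 6 → ℕ) (J : Finset (Fin 6)), M ^ 3 ≤ 2 ^ (3 * r + 12) * 2 ^ (∑ i, e i) →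
    2 ^ (∑ i, e i) ≤ 2 ^ (3 * r + 12) * M ^ 3 → (M : ℝ) ^ (1 - δ / 8) ≤ (2 : ℝ) ^ (∑ i ∈ J, e i) →
    (2 : ℝ) ^ (∑ i ∈ J, e i) ≤ (M : ℝ) ^ (2 + δ / 8) → ∀ T : ℝ, 1 ≤ T → T ≤ (M : ℝ) ^ (2 - δ / 2) →
    ∫ t in rng β M, Real.exp (-(t / (2 * T)) ^ 2) * (‖H43.SI.bp c1 e t‖ * ‖cpx N P t‖) ≤
      (M : ℝ) ^ (1 - η) := by
  obtain ⟨η', hη', M2, hsup⟩ := sup β (β / 16) hβ (by positivity)
  set ε : ℝ := η' / 32 with hε
  have hε0 : 0 < ε := by positivity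
  obtain ⟨Ca, hCa, hcoj⟩ := coj ε hε0
  obtain ⟨Cc, hCc, hcoi⟩ := coi r ε hε0
  set C1 : ℝ := 2 ^ (3 * r + 12) with hC1d
  have hC1 : 0 < C1 := by positivity
  set K1 : ℝ := 2 * 4000 ^ 2 * Ca ^ 4 * Cc ^ 4 * (C1 ^ ε) ^ 2 with hK1
  have hK10 : 0 < K1 := by positivity
  obtain ⟨M1, hM1⟩ := tii_ev β δ η' (Real.sqrt K1) C1 hβ hδ hη' (Real.sqrt_pos.2 hK10)
  refine ⟨η' / 2, by positivity, max M1 M2, ?_⟩
  intro M hM N F P hB e J hS1 hS2 hJ1 hJ2 T hT1 hT2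
  obtain ⟨hMone, hlog1, hlogC, h32, h8, hC1M, hKM⟩ := hM1 M ((le_max_left _ _).trans hM)
  have hm1 : (1 : ℝ) ≤ M := by exact_mod_cast hMone
  have hm0 : (0 : ℝ) < M := by linarith
  have hN0 : (0 : ℝ) < N := by
    have h1 := hB.n0
    have h2 : 0 < (M : ℝ) ^ β := Real.rpow_pos_of_pos hm0 _
    linarith
  have hN1 : (1 : ℝ) ≤ N := by
    have : 0 < N := by exact_mod_cast hN0
    exact_mod_cast this
  have hT0 : 0 < T := by linarith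
  -- the two parts of `S`
  have hSsum : (∑ i ∈ J, e i) + (∑ i ∈ Jᶜ, e i) = ∑ i, e i := Finset.sum_add_sum_compl J e
  obtain ⟨a, ha1, ha2⟩ := hcoj e J
  obtain ⟨b, hb1, hb2⟩ := hcoj e Jᶜ
  set A : ℕ := 2 ^ (∑ i ∈ J, e i) with hAd
  set B : ℕ := 2 ^ (∑ i ∈ Jᶜ, e i) with hBd
  have hAr : ((A : ℕ) : ℝ) = (2 : ℝ) ^ (∑ i ∈ J, e i) := by rw [hAd]; push_cast; rfl
  have hBr : ((B : ℕ) : ℝ) = (2 : ℝ) ^ (∑ i ∈ Jᶜ, e i) := by rw [hBd]; push_cast; rfl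
  have hA1 : 1 ≤ A := Nat.one_le_two_pow
  have hB1 : 1 ≤ B := Nat.one_le_two_pow
  have hA1r : (1 : ℝ) ≤ A := by exact_mod_cast hA1
  have hB1r : (1 : ℝ) ≤ B := by exact_mod_cast hB1
  have hABr : (A : ℝ) * B = 2 ^ (∑ i, e i) := by rw [hAr, hBr, ← pow_add, hSsum]
  have hZ1 : (M : ℝ) ^ (3 : ℕ) ≤ C1 * ((A : ℝ) * B) := by
    rw [hABr, hC1d]; exact_mod_cast hS1
  have hZ2 : (A : ℝ) * B ≤ C1 * (M : ℝ) ^ (3 : ℕ) := by
    rw [hABr, hC1d]; exact_mod_cast hS2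
  obtain ⟨I, hI1, hI2⟩ := tii_choice r β δ C1 hδ hβ M N F P hB A B (by linarith) hC1 (by linarith)
    hMone h32 h8 hZ1 (by rw [hAr]; exact hJ1) (by rw [hAr]; exact hJ2)
  obtain ⟨c, hc1, hc2⟩ := hcoi F P I hB.f0 hB.hp
  obtain ⟨d, hd1, hd2⟩ := hcoi F P Iᶜ hB.f0 hB.hp
  set Q : ℕ := ∏ i ∈ I, 2 * F i with hQd
  set Q' : ℕ := ∏ i ∈ Iᶜ, 2 * F i with hQd'
  have hQ1 : 1 ≤ Q := by
    rw [hQd]
    exact Nat.succ_le_of_lt (Finset.prod_pos (fun i _ => by have := hB.f0 i; omega))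
  have hQ1' : 1 ≤ Q' := by
    rw [hQd']
    exact Nat.succ_le_of_lt (Finset.prod_pos (fun i _ => by have := hB.f0 i; omega))
  have hQ1r : (1 : ℝ) ≤ Q := by exact_mod_cast hQ1
  have hQ1r' : (1 : ℝ) ≤ Q' := by exact_mod_cast hQ1'
  have hQQ : Q * Q' = 2 ^ r * ∏ i, F i := by
    rw [hQd, hQd', Finset.prod_mul_prod_compl, Finset.prod_mul_distrib, Finset.prod_const,
      Finset.card_univ, Fintype.card_fin]
  have hNR : 2 * (N : ℝ) * ((Q : ℝ) * Q') ≤ M := by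
    have h1 := hB.t1
    have h2 : 2 * N * (Q * Q') ≤ M := by
      rw [hQQ]
      calc 2 * N * (2 ^ r * ∏ i, F i) = 2 ^ (r + 1) * (N * ∏ i, F i) := by ring
        _ ≤ M := h1
    exact_mod_cast h2
  -- mean values
  set α : ℝ := Ca * (A : ℝ) ^ (ε - 1) with hα
  set α' : ℝ := Ca * (B : ℝ) ^ (ε - 1) with hα'
  set γ : ℝ := Cc * (Q : ℝ) ^ ε with hγ
  set γ' : ℝ := Cc * (Q' : ℝ) ^ ε with hγ'
  have g1 := gmv A Q a c α γ T hA1 hQ1 hT0 (fun n hn => by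
    have := ha1 n hn
    rw [← hAr] at this
    exact this) (fun m hm => hc1 m hm)
  have g2 := gmv B Q' b d α' γ' T hB1 hQ1' hT0 (fun n hn => by
    have := hb1 n hn
    rw [← hBr] at this
    exact this) (fun m hm => hd1 m hm)
  set U1 : ℝ := 400 * α ^ 2 * γ ^ 2 * (T * A * Q * (1 + Real.log A) * (1 + Real.log Q) + (A * Q) ^ 2)
    with hU1
  set U2 : ℝ := 400 * α' ^ 2 * γ' ^ 2 * (T * B * Q' * (1 + Real.log B) * (1 + Real.log Q') + (B * Q') ^ 2)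
    with hU2
  have lA : 0 ≤ Real.log A := Real.log_nonneg hA1r
  have lB : 0 ≤ Real.log B := Real.log_nonneg hB1r
  have lQ : 0 ≤ Real.log Q := Real.log_nonneg hQ1r
  have lQ' : 0 ≤ Real.log Q' := Real.log_nonneg hQ1r'
  have hA0 : (0 : ℝ) < A := by linarith
  have hB0 : (0 : ℝ) < B := by linarith
  have hQ0 : (0 : ℝ) < Q := by linarith
  have hQ0' : (0 : ℝ) < Q' := by linarith
  have hα0 : 0 < α := mul_pos hCa (Real.rpow_pos_of_pos hA0 _)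
  have hα0' : 0 < α' := mul_pos hCa (Real.rpow_pos_of_pos hB0 _)
  have hγ0 : 0 < γ := mul_pos hCc (Real.rpow_pos_of_pos hQ0 _)
  have hγ0' : 0 < γ' := mul_pos hCc (Real.rpow_pos_of_pos hQ0' _)
  have hU10 : 0 < U1 := by positivity
  have hU20 : 0 < U2 := by positivity
  -- Cauchy-Schwarz
  have hcs := tii_cs T hT0 (rng β M) (tii_rng β M)
    (fun t => ‖∑ n ∈ Icc 1 A, a n * ex (-(t * Real.log n))‖ * ‖∑ m ∈ Icc 1 Q, c m * ex (3 * t * Real.log m)‖)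
    (fun t => ‖∑ n ∈ Icc 1 B, b n * ex (-(t * Real.log n))‖ * ‖∑ m ∈ Icc 1 Q', d m * ex (3 * t * Real.log m)‖)
    (fun t => ‖H43.SI.bp c1 e t‖ * ‖cpx N P t‖)
    (tii_A.mul tii_C) (tii_A.mul tii_C)
    ((∑ n ∈ Icc 1 A, ‖a n‖) * ∑ m ∈ Icc 1 Q, ‖c m‖) ((∑ n ∈ Icc 1 B, ‖b n‖) * ∑ m ∈ Icc 1 Q', ‖d m‖)
    (fun t => by
      rw [abs_of_nonneg (by positivity)]
      exact mul_le_mul (tii_bA a A t) (tii_bC c Q t) (norm_nonneg _)
        (Finset.sum_nonneg fun _ _ => norm_nonneg _))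
    (fun t => by
      rw [abs_of_nonneg (by positivity)]
      exact mul_le_mul (tii_bA b B t) (tii_bC d Q' t) (norm_nonneg _)
        (Finset.sum_nonneg fun _ _ => norm_nonneg _))
    (N * (M : ℝ) ^ (-η')) (by positivity) (fun t => by positivity)
    (fun t ht => by
      have h1 : H43.SI.bp c1 e t = (∑ n ∈ Icc 1 A, a n * ex (-(t * Real.log n))) *
          ∑ n ∈ Icc 1 B, b n * ex (-(t * Real.log n)) := by
        unfold H43.SI.bp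
        rw [← Finset.prod_mul_prod_compl J, ha2 t, hb2 t]
      have h2 : cpx N P t = cp (Ioc N (2 * N)) t * ((∑ m ∈ Icc 1 Q, c m * ex (3 * t * Real.log m)) *
          ∑ m ∈ Icc 1 Q', d m * ex (3 * t * Real.log m)) := by
        unfold cpx
        rw [← Finset.prod_mul_prod_compl I, hc2 t, hd2 t]
      have h3 : ‖cp (Ioc N (2 * N)) t‖ ≤ N * (M : ℝ) ^ (-η') :=
        hsup M ((le_max_right _ _).trans hM) N hB.n0 t ht.1 ht.2
      rw [h1, h2]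
      simp only [norm_mul]
      set x1 := ‖∑ n ∈ Icc 1 A, a n * ex (-(t * Real.log n))‖
      set x2 := ‖∑ n ∈ Icc 1 B, b n * ex (-(t * Real.log n))‖
      set x3 := ‖∑ m ∈ Icc 1 Q, c m * ex (3 * t * Real.log m)‖
      set x4 := ‖∑ m ∈ Icc 1 Q', d m * ex (3 * t * Real.log m)‖
      have h4 : x1 * x2 * (‖cp (Ioc N (2 * N)) t‖ * (x3 * x4)) =
          ‖cp (Ioc N (2 * N)) t‖ * (x1 * x3 * (x2 * x4)) := by ring
      rw [h4]
      exact mul_le_mul_of_nonneg_right h3 (by positivity))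
    U1 U2 hU10 hU20 g1 g2
  refine hcs.trans ?_
  -- the final computation
  have hmβ : 0 < (M : ℝ) ^ (2 * β) := Real.rpow_pos_of_pos hm0 _
  have hNT : (N : ℝ) * T ^ 2 * C1 ≤ 2 * (M : ℝ) ^ 4 := by
    have h1 : T ^ 2 ≤ ((M : ℝ) ^ (2 - δ / 2)) ^ 2 := pow_le_pow_left₀ hT0.le hT2 2
    have h2 : ((M : ℝ) ^ (2 - δ / 2)) ^ 2 = (M : ℝ) ^ (4 - δ) := by
      rw [← Real.rpow_natCast, ← Real.rpow_mul hm0.le]
      congr 1
      push_cast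
      ring
    rw [h2] at h1
    have h3 : (M : ℝ) ^ (2 * β) * (M : ℝ) ^ (4 - δ) * (M : ℝ) ^ (δ - 2 * β) = (M : ℝ) ^ 4 := by
      rw [← Real.rpow_add hm0, ← Real.rpow_add hm0, ← Real.rpow_natCast]
      congr 1
      push_cast
      ring
    calc (N : ℝ) * T ^ 2 * C1 ≤ (2 * (M : ℝ) ^ (2 * β)) * (M : ℝ) ^ (4 - δ) * (M : ℝ) ^ (δ - 2 * β) := by
          refine mul_le_mul (mul_le_mul hB.n1 h1 (by positivity) (by positivity)) hC1M hC1.le ?_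
          positivity
      _ = 2 * (M : ℝ) ^ 4 := by rw [← h3]; ring
  have hTV : T ≤ (M : ℝ) ^ (2 - δ / 4) :=
    hT2.trans (Real.rpow_le_rpow_of_exponent_le hm1 (by linarith))
  have hlAB : Real.log A + Real.log B ≤ 4 * Real.log M := by
    rw [← Real.log_mul hA0.ne' hB0.ne']
    have h1 := Real.log_le_log (mul_pos hA0 hB0) hZ2
    rw [Real.log_mul hC1.ne' (by positivity)] at h1
    have h2 : Real.log ((M : ℝ) ^ (3 : ℕ)) = 3 * Real.log M := by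
      rw [Real.log_pow]
      norm_num
    rw [h2] at h1
    linarith
  have hlQ : Real.log Q + Real.log Q' ≤ Real.log M := by
    rw [← Real.log_mul hQ0.ne' hQ0'.ne']
    refine Real.log_le_log (mul_pos hQ0 hQ0') ?_
    have h1 : 1 * ((Q : ℝ) * Q') ≤ 2 * (N : ℝ) * ((Q : ℝ) * Q') :=
      mul_le_mul_of_nonneg_right (by linarith) (by positivity)
    linarith
  have halg := tii_alg2 A B Q Q' T ((M : ℝ) ^ (2 - δ / 4)) N M C1 Ca Cc ε (Real.log M) hA1r hB1r hQ1r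
    hQ1r' hT0 hN0 hm1 hC1 hCa hCc hε0 hlog1 hTV hI1 hI2 hNR hZ1 hZ2 hNT (by linarith) (by linarith)
    (by linarith) (by linarith) (by linarith)
  have hK : 2 * 4000 ^ 2 * Ca ^ 4 * Cc ^ 4 * (Real.log M) ^ 4 * ((C1 * (M : ℝ) ^ 4) ^ ε) ^ 2 * (M : ℝ) ^ 2 =
      (Real.sqrt K1 * (Real.log M) ^ 2 * (M : ℝ) ^ (4 * ε) * M) ^ 2 := by
    have h1 : (C1 * (M : ℝ) ^ 4) ^ ε = C1 ^ ε * (M : ℝ) ^ (4 * ε) := by
      rw [Real.mul_rpow hC1.le (by positivity), ← Real.rpow_natCast, ← Real.rpow_mul hm0.le]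
      congr 2
    have h3 : Real.sqrt K1 ^ 2 = K1 := Real.sq_sqrt hK10.le
    rw [h1]
    calc _ = K1 * (Real.log M) ^ 4 * ((M : ℝ) ^ (4 * ε)) ^ 2 * (M : ℝ) ^ 2 := by rw [hK1]; ring
      _ = Real.sqrt K1 ^ 2 * (Real.log M) ^ 4 * ((M : ℝ) ^ (4 * ε)) ^ 2 * (M : ℝ) ^ 2 := by rw [h3]
      _ = _ := by ring
  have hsq : Real.sqrt (U1 * U2) * N ≤ Real.sqrt K1 * (Real.log M) ^ 2 * (M : ℝ) ^ (4 * ε) * M := by
    have h1 : (Real.sqrt (U1 * U2) * N) ^ 2 ≤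
        (Real.sqrt K1 * (Real.log M) ^ 2 * (M : ℝ) ^ (4 * ε) * M) ^ 2 := by
      rw [mul_pow, Real.sq_sqrt (by positivity), ← hK]
      calc U1 * U2 * (N : ℝ) ^ 2 = (N : ℝ) ^ 2 * (U1 * U2) := by ring
        _ ≤ _ := halg
    exact le_of_sq_le_sq h1 (by positivity)
  calc N * (M : ℝ) ^ (-η') * Real.sqrt (U1 * U2) = (M : ℝ) ^ (-η') * (Real.sqrt (U1 * U2) * N) := by ring
    _ ≤ (M : ℝ) ^ (-η') * (Real.sqrt K1 * (Real.log M) ^ 2 * (M : ℝ) ^ (4 * ε) * M) :=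
        mul_le_mul_of_nonneg_left hsq (by positivity)
    _ ≤ (M : ℝ) ^ (-η') * ((M : ℝ) ^ (3 * η' / 8) * (M : ℝ) ^ (4 * ε) * M) := by
        refine mul_le_mul_of_nonneg_left ?_ (by positivity)
        refine mul_le_mul_of_nonneg_right ?_ hm0.le
        exact mul_le_mul_of_nonneg_right hKM (by positivity)
    _ = (M : ℝ) ^ (1 - η' / 2) := by
        have h1 : (M : ℝ) = (M : ℝ) ^ (1 : ℝ) := (Real.rpow_one _).symm
        have h2 : (M : ℝ) ^ (3 * η' / 8) * (M : ℝ) ^ (4 * ε) * M =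
            (M : ℝ) ^ (3 * η' / 8) * (M : ℝ) ^ (4 * ε) * (M : ℝ) ^ (1 : ℝ) := by rw [Real.rpow_one]
        rw [h2, ← Real.rpow_add hm0, ← Real.rpow_add hm0, ← Real.rpow_add hm0]
        congr 1
        rw [hε]
        ring

end Pool.Agent.H98.PK
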