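import Pool.Agent.H98.PK.Defs

/-!
# [H98 PK GAU] The Gaussian integral

`∫ exp(-(t/(2T))^2) e^{-itx} dt = 2 √π T exp(-(T x)^2)` for `T > 0`, `x` real; the integrand is integrable.

PROOF. Mathlib: `fourierIntegral_gaussian` (`∫ cexp(I t x) cexp(-b x^2) = (π/b)^(1/2) cexp(-t^2/(4b))`, `0 < b.re`) with `b = 1/(4T^2)`:
`(π/b)^(1/2) = 2 T √π`, `x^2/(4b) = T^2 x^2`. See also `H43/SI/Mvt.lean`, where the same integral is used.
Integrability: `integrable_exp_neg_mul_sq` and `|e^{-itx}| = 1`.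
-/

namespace Pool.Agent.H98.PK

open MeasureTheory

private theorem gau_pt (T x t : ℝ) (hT : 0 < T) :
    (Real.exp (-(t / (2 * T)) ^ 2) : ℂ) * ex (-(t * x)) =
      Complex.exp (Complex.I * ((-x : ℝ) : ℂ) * (t : ℂ)) *
        Complex.exp (-(((1 / (4 * T ^ 2) : ℝ)) : ℂ) * (t : ℂ) ^ 2) := by
  unfold ex
  rw [Complex.ofReal_exp, ← Complex.exp_add, ← Complex.exp_add]
  congr 1
  push_cast
  have hT' : (T : ℂ) ≠ 0 := by exact_mod_cast hT.ne'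
  field_simp
  ring

theorem gau_int (T x : ℝ) (hT : 0 < T) :
    Integrable (fun t : ℝ => (Real.exp (-(t / (2 * T)) ^ 2) : ℂ) * ex (-(t * x))) := by
  have hb : 0 < (((1 / (4 * T ^ 2) : ℝ)) : ℂ).re := by
    rw [Complex.ofReal_re]; positivity
  have h := integrable_cexp_quadratic hb (Complex.I * ((-x : ℝ) : ℂ)) 0
  refine h.congr (Filter.Eventually.of_forall fun t => ?_)
  show Complex.exp _ = (Real.exp (-(t / (2 * T)) ^ 2) : ℂ) * ex (-(t * x))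
  rw [gau_pt T x t hT, ← Complex.exp_add]
  congr 1
  ring

theorem gau (T x : ℝ) (hT : 0 < T) :
    ∫ t : ℝ, (Real.exp (-(t / (2 * T)) ^ 2) : ℂ) * ex (-(t * x)) =
      ((2 * Real.sqrt Real.pi * T * Real.exp (-(T * x) ^ 2) : ℝ) : ℂ) := by
  have hb : 0 < (((1 / (4 * T ^ 2) : ℝ)) : ℂ).re := by
    rw [Complex.ofReal_re]; positivity
  have h := fourierIntegral_gaussian hb ((-x : ℝ) : ℂ)
  have h1 : (∫ t : ℝ, (Real.exp (-(t / (2 * T)) ^ 2) : ℂ) * ex (-(t * x))) =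
      ∫ t : ℝ, Complex.exp (Complex.I * ((-x : ℝ) : ℂ) * (t : ℂ)) *
        Complex.exp (-(((1 / (4 * T ^ 2) : ℝ)) : ℂ) * (t : ℂ) ^ 2) := by
    congr 1
    funext t
    exact gau_pt T x t hT
  rw [h1, h]
  have h2 : ((Real.pi : ℂ) / (((1 / (4 * T ^ 2) : ℝ)) : ℂ)) ^ (1 / 2 : ℂ) =
      ((2 * Real.sqrt Real.pi * T : ℝ) : ℂ) := by
    have e1 : ((Real.pi : ℂ) / (((1 / (4 * T ^ 2) : ℝ)) : ℂ)) =
        ((Real.pi * (2 * T) ^ 2 : ℝ) : ℂ) := by
      have hT' : (T : ℂ) ≠ 0 := by exact_mod_cast hT.ne'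
      push_cast
      field_simp
      ring
    rw [e1]
    have e2 : (1 / 2 : ℂ) = ((1 / 2 : ℝ) : ℂ) := by push_cast; rfl
    rw [e2, ← Complex.ofReal_cpow (by positivity)]
    congr 1
    rw [← Real.sqrt_eq_rpow, Real.sqrt_mul Real.pi_pos.le, Real.sqrt_sq (by positivity)]
    ring
  have h3 : Complex.exp (-(((-x : ℝ) : ℂ)) ^ 2 / (4 * (((1 / (4 * T ^ 2) : ℝ)) : ℂ))) =
      ((Real.exp (-(T * x) ^ 2) : ℝ) : ℂ) := by
    rw [Complex.ofReal_exp]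
    congr 1
    have hT' : (T : ℂ) ≠ 0 := by exact_mod_cast hT.ne'
    push_cast
    field_simp
  rw [h2, h3, ← Complex.ofReal_mul]

end Pool.Agent.H98.PK
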