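import Pool.Agent.H98.PK.Defs
import Pool.Agent.H5.PNT.PNT

/-!
# [H98 PK BCT] The family of boxes

`b = bb r M = ⌊log2 M/(r+2)⌋`, `s = ⌊b/(2r)⌋`, `g : Fin r → {0..s}`: `F i = 2^(b+g i)`, `N = 2^(log2 M - (r+1) - Σ(b+g i))`,
`P i` = primes in `(F i, 2 F i]`. `ℓ = log2 M` (natural), `2^ℓ <= M < 2^(ℓ+1)`, `(r+2) b <= ℓ < (r+2)(b+1)`.

PROOF of `bct1` (M large, so `b >= 4r+4`). `Σ(b+g i) ∈ [rb, rb + b/2]`, so the exponent `f0 = ℓ-(r+1)-Σ(b+g i)` satisfies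
`f0 >= (r+2)b - (r+1) - rb - b/2 = 3b/2 - r - 1 >= b` (in particular no truncation) and `f0 <= (r+2)(b+1) - 1 - (r+1) - rb = 2b`. `β = 1/(r+2)`:
`2^b <= M^β` (`2^(b(r+2)) <= 2^ℓ <= M`), `M^β <= 2^(b+1)` (`M <= 2^(ℓ+1) <= 2^((r+2)(b+1))`). `n0`: `M^β/2 <= 2^b <= N`. `n1`: `N <= 2^(2b) <= M^(2β)`.
`f1`: `F i <= 2^(b+b/2) <= 2^(2b) <= M^(2β)`. `hp`: clear. `N ∏ F i = 2^(ℓ-r-1)`; `t0`: `M <= 2^(ℓ+1)`; `t1`: `2^(r+1) 2^(ℓ-r-1) = 2^ℓ <= M`.
PROOF of `bct2`, `bct3`. Prime number theorem (`H5.PNT.pi_tendsto`): `#primes in (x,2x] >= x/(2 log x)` for `x >= x0`; with `x = 2^(b+g i)`,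
`log x <= 2b log 2`, so `#(P i) >= 2^(b+g i)/(3b)` (`4 log 2 < 3`). Hence `N ∏ #(P i) >= 2^(ℓ-r-1)/(3b)^r >= M/(2^(r+2) (3b)^r)`. `bct2`: `b <= ℓ/(r+2) <= log M`
(`ℓ <= log M/log 2 <= 2 log M`), so this is `>= M/(2^(r+2) 3^r (log M)^r) >= M/(log M)^(r+1)` for `log M >= 2^(r+2) 3^r`. `bct3`: there are
`(s+1)^r >= (b/(2r))^r` functions `g` (`s + 1 > b/(2r)`), so the sum is `>= (b/(2r))^r M/(2^(r+2)(3b)^r) = M/(2^(r+2) (6r)^r)`.
-/

namespace Pool.Agent.H98.PK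

open Finset

def bb (r M : ℕ) : ℕ := Nat.log 2 M / (r + 2)

def Fg (r M : ℕ) (g : Fin r → ℕ) : Fin r → ℕ := fun i => 2 ^ (bb r M + g i)

def Ng (r M : ℕ) (g : Fin r → ℕ) : ℕ := 2 ^ (Nat.log 2 M - (r + 1) - ∑ i, (bb r M + g i))

def Pg (r M : ℕ) (g : Fin r → ℕ) : Fin r → Finset ℕ :=
  fun i => (Ioc (Fg r M g i) (2 * Fg r M g i)).filter Nat.Prime

def GG (r M : ℕ) : Finset (Fin r → ℕ) := Fintype.piFinset fun _ => range (bb r M / (2 * r) + 1)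

private theorem bct_count (a b : ℕ) : (Nat.primeCounting b : ℝ) ≤
    Nat.primeCounting a + (((Ioc a b).filter Nat.Prime).card : ℝ) := by
  have h1 : Nat.primeCounting b ≤ Nat.primeCounting a + ((Ioc a b).filter Nat.Prime).card := by
    unfold Nat.primeCounting Nat.primeCounting'
    rw [Nat.count_eq_card_filter_range, Nat.count_eq_card_filter_range]
    refine le_trans (card_le_card ?_) (card_union_le _ _)
    intro p hp
    rw [mem_filter, mem_range] at hp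
    rw [mem_union, mem_filter, mem_filter, mem_range, mem_Ioc]
    by_cases h : p < a + 1
    · exact Or.inl ⟨h, hp.2⟩
    · exact Or.inr ⟨⟨by omega, by omega⟩, hp.2⟩
  exact_mod_cast h1

private theorem bct_u : Filter.Tendsto (fun k : ℕ => (Nat.primeCounting (2 ^ k) : ℝ) *
    (k * Real.log 2) / 2 ^ k) Filter.atTop (nhds 1) := by
  have h1 := H5.PNT.pi_tendsto.comp (tendsto_pow_atTop_atTop_of_one_lt (one_lt_two : (1 : ℝ) < 2))
  refine h1.congr fun k => ?_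
  have h2 : ⌊(2 : ℝ) ^ k⌋₊ = 2 ^ k := by
    rw [← Nat.cast_ofNat, ← Nat.cast_pow, Nat.floor_natCast]
  rw [Function.comp_apply, h2, Real.log_pow]

private theorem bct_alg {k X A B L : ℝ} (hk : 10 ≤ k) (hX : 0 < X) (hL : 0 < L) (hL1 : L ≤ 1)
    (hB : 0 ≤ B) (h1 : A * (k * L) / X ≤ 11 / 10)
    (h2 : 9 / 10 ≤ B * ((k + 1) * L) / (2 * X)) : X / (2 * k) ≤ B - A := by
  rw [div_le_iff₀ hX] at h1
  rw [le_div_iff₀ (by linarith)] at h2
  rw [div_le_iff₀ (by linarith)]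
  have h3 : 10 / 11 * (B * ((k + 1) * L)) ≤ B * (k * L) := by
    have h4 : 0 ≤ B * L * (k - 10) := mul_nonneg (mul_nonneg hB hL.le) (by linarith)
    nlinarith
  have h5 : X * L ≤ X := by nlinarith
  have h6 : X * L ≤ (B - A) * (2 * k) * L := by nlinarith
  exact le_of_mul_le_mul_right h6 hL

private theorem bct_P : ∃ k0 : ℕ, ∀ k : ℕ, k0 ≤ k → (2 : ℝ) ^ k / (2 * k) ≤
    (((Ioc (2 ^ k) (2 * 2 ^ k)).filter Nat.Prime).card : ℝ) := by
  have h1 : ∀ᶠ k : ℕ in Filter.atTop, (Nat.primeCounting (2 ^ k) : ℝ) *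
      (k * Real.log 2) / 2 ^ k ≤ 11 / 10 :=
    bct_u.eventually (eventually_le_nhds (by norm_num))
  have h2 : ∀ᶠ k : ℕ in Filter.atTop, 9 / 10 ≤ (Nat.primeCounting (2 ^ k) : ℝ) *
      (k * Real.log 2) / 2 ^ k :=
    bct_u.eventually (eventually_ge_nhds (by norm_num))
  obtain ⟨k0, hk0⟩ := Filter.eventually_atTop.1 (h1.and h2)
  refine ⟨max k0 10, fun k hk => ?_⟩
  have hka : k0 ≤ k := (le_max_left _ _).trans hk
  have hkb : 10 ≤ k := (le_max_right _ _).trans hk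
  have h3 := (hk0 k hka).1
  have h4 := (hk0 (k + 1) (by omega)).2
  have h5 := bct_count (2 ^ k) (2 ^ (k + 1))
  have h6 : (2 : ℕ) ^ (k + 1) = 2 * 2 ^ k := by rw [pow_succ, mul_comm]
  have h7 : (2 : ℝ) ^ (k + 1) = 2 * 2 ^ k := by rw [pow_succ, mul_comm]
  rw [h7] at h4
  push_cast at h4
  have hl := Real.log_two_lt_d9
  have h8 := bct_alg (k := (k : ℝ)) (X := (2 : ℝ) ^ k) (A := Nat.primeCounting (2 ^ k))
    (B := Nat.primeCounting (2 ^ (k + 1))) (by exact_mod_cast hkb) (pow_pos two_pos k)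
    (Real.log_pos one_lt_two) (by linarith) (Nat.cast_nonneg _) h3 h4
  rw [← h6]
  linarith

private theorem bct_facts {r M : ℕ} (hr : 1 ≤ r) (hb : 2 * r + 2 ≤ bb r M) {g : Fin r → ℕ}
    (hg : g ∈ GG r M) :
    (r + 2) * bb r M ≤ Nat.log 2 M ∧ Nat.log 2 M < (r + 2) * (bb r M + 1) ∧
      (∀ i, 2 * g i ≤ bb r M) ∧
      Nat.log 2 M - (r + 1) - ∑ i, (bb r M + g i) + ∑ i, (bb r M + g i) + (r + 1) =
        Nat.log 2 M ∧
      bb r M ≤ Nat.log 2 M - (r + 1) - ∑ i, (bb r M + g i) ∧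
      Nat.log 2 M - (r + 1) - ∑ i, (bb r M + g i) ≤ 2 * bb r M := by
  have h1 : (r + 2) * bb r M ≤ Nat.log 2 M := Nat.mul_div_le _ _
  have h2 : Nat.log 2 M < (r + 2) * (bb r M + 1) := Nat.lt_mul_div_succ _ (by omega)
  have h3 : ∀ i, g i ≤ bb r M / (2 * r) := by
    intro i
    have := Fintype.mem_piFinset.1 hg i
    rw [mem_range] at this
    omega
  have h4 : 2 * r * (bb r M / (2 * r)) ≤ bb r M := Nat.mul_div_le _ _
  have h5 : ∀ i, 2 * g i ≤ bb r M := by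
    intro i
    refine le_trans ?_ h4
    refine Nat.mul_le_mul ?_ (h3 i)
    omega
  have h6 : ∑ i, g i ≤ r * (bb r M / (2 * r)) := by
    refine (sum_le_sum fun i _ => h3 i).trans (le_of_eq ?_)
    rw [sum_const, card_univ, Fintype.card_fin, smul_eq_mul]
  have h7 : ∑ i, (bb r M + g i) = r * bb r M + ∑ i, g i := by
    rw [sum_add_distrib, sum_const, card_univ, Fintype.card_fin, smul_eq_mul]
  have h8 : 2 * ∑ i, g i ≤ bb r M := by
    refine le_trans (Nat.mul_le_mul_left 2 h6) ?_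
    rw [← mul_assoc]
    exact h4
  have h9 : (r + 2) * bb r M = r * bb r M + 2 * bb r M := by ring
  have h10 : (r + 2) * (bb r M + 1) = r * bb r M + 2 * bb r M + (r + 2) := by ring
  rw [h7]
  rw [h9] at h1 ⊢
  rw [h10] at h2 ⊢
  refine ⟨h1, h2, h5, ?_, ?_, ?_⟩ <;> omega

private theorem bct_M {r M b0 : ℕ} (hM : 2 ^ ((r + 2) * b0) ≤ M) : b0 ≤ bb r M ∧ M ≠ 0 := by
  have hM0 : M ≠ 0 := by
    have := Nat.pos_of_ne_zero (pow_ne_zero ((r + 2) * b0) (two_ne_zero : (2 : ℕ) ≠ 0))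
    omega
  have h1 : (r + 2) * b0 ≤ Nat.log 2 M := Nat.le_log_of_pow_le one_lt_two hM
  refine ⟨?_, hM0⟩
  unfold bb
  rw [Nat.le_div_iff_mul_le (by omega), mul_comm]
  exact h1

private theorem bct_prod {r M : ℕ} (g : Fin r → ℕ) :
    ∏ i, Fg r M g i = 2 ^ (∑ i, (bb r M + g i)) := by
  unfold Fg
  rw [prod_pow_eq_pow_sum]

private theorem bct_low {r M : ℕ} (hr : 1 ≤ r) (hM0 : M ≠ 0) (hb : 2 * r + 2 ≤ bb r M) {k0 : ℕ}
    (hk0 : ∀ k : ℕ, k0 ≤ k → (2 : ℝ) ^ k / (2 * k) ≤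
      (((Ioc (2 ^ k) (2 * 2 ^ k)).filter Nat.Prime).card : ℝ)) (hb1 : k0 ≤ bb r M)
    {g : Fin r → ℕ} (hg : g ∈ GG r M) :
    (M : ℝ) / (2 ^ (r + 2) * (3 * bb r M) ^ r) ≤ Ng r M g * ∏ i, ((Pg r M g i).card : ℝ) := by
  obtain ⟨h1, h2, h3, h4, h5, h6⟩ := bct_facts hr hb hg
  have hb0 : (0 : ℝ) < bb r M := by exact_mod_cast (by omega : 0 < bb r M)
  have h7 : ∀ i, (2 : ℝ) ^ (bb r M + g i) / (3 * bb r M) ≤ ((Pg r M g i).card : ℝ) := by
    intro i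
    refine le_trans ?_ (hk0 (bb r M + g i) (by omega))
    apply div_le_div_of_nonneg_left (pow_pos two_pos _).le
    · have : (0 : ℝ) < ((bb r M + g i : ℕ) : ℝ) := by exact_mod_cast (by omega : 0 < bb r M + g i)
      linarith
    · have := h3 i
      have h8 : 2 * (bb r M + g i) ≤ 3 * bb r M := by omega
      exact_mod_cast h8
  have h8 : ∏ i, ((2 : ℝ) ^ (bb r M + g i) / (3 * bb r M)) ≤ ∏ i, ((Pg r M g i).card : ℝ) :=
    prod_le_prod (fun i _ => by positivity) fun i _ => h7 i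
  rw [prod_div_distrib, prod_pow_eq_pow_sum, prod_const, card_univ, Fintype.card_fin] at h8
  have h9 : (M : ℝ) ≤ 2 ^ (Nat.log 2 M + 1) := by
    have h10 : M < 2 ^ (Nat.log 2 M + 1) := Nat.lt_pow_succ_log_self one_lt_two M
    exact_mod_cast h10.le
  have h10 : (2 : ℝ) ^ (Nat.log 2 M + 1) = (Ng r M g : ℝ) * 2 ^ (∑ i, (bb r M + g i)) *
      2 ^ (r + 2) := by
    unfold Ng
    push_cast
    rw [← pow_add, ← pow_add]
    congr 1
    omega
  have h11 : (0 : ℝ) < (3 * bb r M) ^ r := by positivity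
  calc (M : ℝ) / (2 ^ (r + 2) * (3 * bb r M) ^ r) ≤
      ((Ng r M g : ℝ) * 2 ^ (∑ i, (bb r M + g i)) * 2 ^ (r + 2)) /
        (2 ^ (r + 2) * (3 * bb r M) ^ r) := by
        rw [← h10]
        exact div_le_div_of_nonneg_right h9 (by positivity)
    _ = (Ng r M g : ℝ) * (2 ^ (∑ i, (bb r M + g i)) / (3 * bb r M) ^ r) := by
        field_simp
    _ ≤ _ := mul_le_mul_of_nonneg_left h8 (Nat.cast_nonneg _)


theorem bct1 (r : ℕ) (hr : 1 ≤ r) : ∃ M1 : ℕ, ∀ M : ℕ, M1 ≤ M → ∀ g ∈ GG r M,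
    Bx (1 / ((r : ℝ) + 2)) M (Ng r M g) (Fg r M g) (Pg r M g) := by
  refine ⟨2 ^ ((r + 2) * (2 * r + 2)), fun M hM g hg => ?_⟩
  obtain ⟨hb, hM0⟩ := bct_M hM
  obtain ⟨h1, h2, h3, h4, h5, h6⟩ := bct_facts hr hb hg
  have hr2 : (0 : ℝ) < (r : ℝ) + 2 := by positivity
  have hlow : (2 : ℝ) ^ bb r M ≤ (M : ℝ) ^ (1 / ((r : ℝ) + 2)) := by
    have h7 : ((2 : ℝ) ^ bb r M) ^ ((r : ℝ) + 2) ≤ (M : ℝ) := by
      have h8 : (2 ^ bb r M) ^ (r + 2) ≤ M := by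
        rw [← pow_mul, mul_comm]
        exact (Nat.pow_le_pow_right two_pos h1).trans (Nat.pow_log_le_self 2 hM0)
      have h9 : ((2 : ℝ) ^ bb r M) ^ ((r : ℝ) + 2) = ((2 : ℝ) ^ bb r M) ^ (r + 2) := by
        rw [← Real.rpow_natCast _ (r + 2)]
        push_cast
        rfl
      rw [h9]
      exact_mod_cast h8
    have h10 := Real.rpow_le_rpow (by positivity) h7 (by positivity : 0 ≤ 1 / ((r : ℝ) + 2))
    rw [← Real.rpow_mul (by positivity), mul_one_div, div_self hr2.ne', Real.rpow_one] at h10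
    exact h10
  have hup : (M : ℝ) ^ (1 / ((r : ℝ) + 2)) ≤ 2 * (2 : ℝ) ^ bb r M := by
    have h7 : (M : ℝ) ≤ (2 * (2 : ℝ) ^ bb r M) ^ ((r : ℝ) + 2) := by
      have h8 : M ≤ (2 * 2 ^ bb r M) ^ (r + 2) := by
        have h9 : (2 * 2 ^ bb r M) ^ (r + 2) = 2 ^ ((r + 2) * (bb r M + 1)) := by
          rw [← pow_succ', ← pow_mul, mul_comm]
        rw [h9]
        exact (Nat.lt_pow_succ_log_self one_lt_two M).le.trans
          (Nat.pow_le_pow_right two_pos h2)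
      have h9 : (2 * (2 : ℝ) ^ bb r M) ^ ((r : ℝ) + 2) = (2 * (2 : ℝ) ^ bb r M) ^ (r + 2) := by
        rw [← Real.rpow_natCast _ (r + 2)]
        push_cast
        rfl
      rw [h9]
      exact_mod_cast h8
    have h10 := Real.rpow_le_rpow (by positivity) h7 (by positivity : 0 ≤ 1 / ((r : ℝ) + 2))
    rw [← Real.rpow_mul (by positivity), mul_one_div, div_self hr2.ne', Real.rpow_one] at h10
    exact h10
  have h2b : (2 : ℝ) ^ (2 * bb r M) ≤ (M : ℝ) ^ (2 * (1 / ((r : ℝ) + 2))) := by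
    have h7 : (M : ℝ) ^ (2 * (1 / ((r : ℝ) + 2))) = ((M : ℝ) ^ (1 / ((r : ℝ) + 2))) ^ 2 := by
      rw [← Real.rpow_natCast, ← Real.rpow_mul (Nat.cast_nonneg _)]
      congr 1
      push_cast
      ring
    rw [h7, mul_comm 2 (bb r M), pow_mul]
    exact pow_le_pow_left₀ (by positivity) hlow 2
  have h2b' : (0 : ℝ) ≤ (M : ℝ) ^ (2 * (1 / ((r : ℝ) + 2))) :=
    Real.rpow_nonneg (Nat.cast_nonneg _) _
  refine ⟨?_, ?_, ?_, ?_, ?_, ?_, ?_⟩
  · unfold Ng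
    push_cast
    have h7 : (2 : ℝ) ^ bb r M ≤ 2 ^ (Nat.log 2 M - (r + 1) - ∑ i, (bb r M + g i)) :=
      pow_le_pow_right₀ one_le_two h5
    linarith
  · unfold Ng
    push_cast
    have h7 : (2 : ℝ) ^ (Nat.log 2 M - (r + 1) - ∑ i, (bb r M + g i)) ≤ 2 ^ (2 * bb r M) :=
      pow_le_pow_right₀ one_le_two h6
    linarith
  · intro i
    exact Nat.one_le_two_pow
  · intro i
    unfold Fg
    push_cast
    have h7 : (2 : ℝ) ^ (bb r M + g i) ≤ 2 ^ (2 * bb r M) := by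
      have := h3 i
      exact pow_le_pow_right₀ one_le_two (by omega)
    linarith
  · intro i p hp
    unfold Pg at hp
    rw [mem_filter, mem_Ioc] at hp
    exact hp.1
  · rw [bct_prod]
    unfold Ng
    rw [← pow_add, ← pow_add]
    refine (Nat.lt_pow_succ_log_self one_lt_two M).le.trans (Nat.pow_le_pow_right two_pos ?_)
    omega
  · rw [bct_prod]
    unfold Ng
    rw [← pow_add, ← pow_add]
    refine (Nat.pow_le_pow_right two_pos ?_).trans (Nat.pow_log_le_self 2 hM0)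
    omega

theorem bct2 (r : ℕ) (hr : 1 ≤ r) : ∃ M1 : ℕ, ∀ M : ℕ, M1 ≤ M → ∀ g ∈ GG r M,
    (M : ℝ) / (Real.log M) ^ (r + 1) ≤ Ng r M g * ∏ i, ((Pg r M g i).card : ℝ) := by
  obtain ⟨k0, hk0⟩ := bct_P
  have hlog : Filter.Tendsto (fun M : ℕ => Real.log M) Filter.atTop Filter.atTop :=
    Real.tendsto_log_atTop.comp tendsto_natCast_atTop_atTop
  obtain ⟨M2, hM2⟩ := Filter.eventually_atTop.1
    (hlog.eventually_ge_atTop ((2 : ℝ) ^ (r + 2) * 3 ^ r))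
  refine ⟨max M2 (2 ^ ((r + 2) * (max (2 * r + 2) k0))), fun M hM g hg => ?_⟩
  have hMa : M2 ≤ M := (le_max_left _ _).trans hM
  obtain ⟨hb, hM0⟩ := bct_M ((le_max_right _ _).trans hM)
  have hb1 : 2 * r + 2 ≤ bb r M := (le_max_left _ _).trans hb
  have hb2 : k0 ≤ bb r M := (le_max_right _ _).trans hb
  refine le_trans ?_ (bct_low hr hM0 hb1 hk0 hb2 hg)
  have h1 := (bct_facts hr hb1 hg).1
  have h2 := hM2 M hMa
  have hl0 : 0 < Real.log M := lt_of_lt_of_le (by positivity) h2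
  have hb0 : (0 : ℝ) < bb r M := by exact_mod_cast (by omega : 0 < bb r M)
  have h3 : (bb r M : ℝ) ≤ Real.log M := by
    have h4 : 2 * bb r M ≤ Nat.log 2 M := by
      refine le_trans (Nat.mul_le_mul_right _ ?_) h1
      omega
    have h5 : (2 : ℝ) ^ (2 * bb r M) ≤ M := by
      have h6 : 2 ^ (2 * bb r M) ≤ M :=
        (Nat.pow_le_pow_right two_pos h4).trans (Nat.pow_log_le_self 2 hM0)
      exact_mod_cast h6
    have h6 := Real.log_le_log (by positivity) h5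
    rw [Real.log_pow] at h6
    push_cast at h6
    have h7 := Real.log_two_gt_d9
    nlinarith
  apply div_le_div_of_nonneg_left (Nat.cast_nonneg _) (by positivity)
  calc (2 : ℝ) ^ (r + 2) * (3 * bb r M) ^ r = (2 : ℝ) ^ (r + 2) * 3 ^ r * (bb r M : ℝ) ^ r := by
        rw [mul_pow]; ring
    _ ≤ Real.log M * (Real.log M) ^ r :=
        mul_le_mul h2 (pow_le_pow_left₀ hb0.le h3 r) (by positivity) hl0.le
    _ = (Real.log M) ^ (r + 1) := by rw [pow_succ]; ring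

theorem bct3 (r : ℕ) (hr : 1 ≤ r) : ∃ c : ℝ, 0 < c ∧ ∃ M1 : ℕ, ∀ M : ℕ, M1 ≤ M →
    c * M ≤ ∑ g ∈ GG r M, (Ng r M g : ℝ) * ∏ i, ((Pg r M g i).card : ℝ) := by
  obtain ⟨k0, hk0⟩ := bct_P
  have hr0 : (0 : ℝ) < r := by exact_mod_cast hr
  refine ⟨1 / (2 ^ (r + 2) * (6 * r) ^ r), by positivity,
    2 ^ ((r + 2) * (max (2 * r + 2) k0)), fun M hM => ?_⟩
  obtain ⟨hb, hM0⟩ := bct_M hM
  have hb1 : 2 * r + 2 ≤ bb r M := (le_max_left _ _).trans hb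
  have hb2 : k0 ≤ bb r M := (le_max_right _ _).trans hb
  have hb0 : (0 : ℝ) < bb r M := by exact_mod_cast (by omega : 0 < bb r M)
  have h1 := card_nsmul_le_sum (GG r M)
    (fun g => (Ng r M g : ℝ) * ∏ i, ((Pg r M g i).card : ℝ))
    ((M : ℝ) / (2 ^ (r + 2) * (3 * bb r M) ^ r)) (fun g hg => bct_low hr hM0 hb1 hk0 hb2 hg)
  refine le_trans ?_ h1
  have h2 : (GG r M).card = (bb r M / (2 * r) + 1) ^ r := by
    unfold GG
    rw [Fintype.card_piFinset, prod_const, card_range, card_univ, Fintype.card_fin]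
  have h3 : (bb r M : ℝ) / (2 * r) ≤ ((bb r M / (2 * r) + 1 : ℕ) : ℝ) := by
    rw [div_le_iff₀ (by positivity)]
    have h4 : bb r M < 2 * r * (bb r M / (2 * r) + 1) := Nat.lt_mul_div_succ _ (by omega)
    have h5 : (bb r M : ℝ) ≤ ((2 * r * (bb r M / (2 * r) + 1) : ℕ) : ℝ) := by
      exact_mod_cast h4.le
    refine h5.trans (le_of_eq ?_)
    push_cast
    ring
  rw [nsmul_eq_mul, h2, Nat.cast_pow]
  have h4 : ((bb r M : ℝ) / (2 * r)) ^ r ≤ ((bb r M / (2 * r) + 1 : ℕ) : ℝ) ^ r :=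
    pow_le_pow_left₀ (by positivity) h3 r
  refine le_trans (le_of_eq ?_) (mul_le_mul_of_nonneg_right h4 (by positivity))
  rw [div_pow, mul_pow 3 (bb r M : ℝ), mul_pow 2 (r : ℝ), mul_pow 6 (r : ℝ)]
  have h5 : (6 : ℝ) ^ r = 2 ^ r * 3 ^ r := by
    rw [← mul_pow]
    norm_num
  rw [h5]
  field_simp

end Pool.Agent.H98.PK
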