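import Pool.Agent.H98.PK.Ti
import Pool.Agent.H98.PK.Trf

/-!
# [H98 PK BXE] One box: scale `T` against scale `T0 = M^(β/4)`

PROOF. `Nm = 2^(3 bh)`, `bh = log2 M + r + 5`, so `2^(3r+12) M^3 <= 2^(3(r+4)) 2^(3(log2 M + 1)) = Nm` (`Nat.lt_pow_succ_log_self`), and `2^S <= Nm`, `S = Σ e i`.
`trf` for `T` and `T0` (elements of `P i` are `> F i >= 1`), `w_T(t) = exp(-(t/(2T))^2)`, `Φ(t) = ex(tτ) bp(t) cpx(t)`:
`T W(T,τ) - T0 W(T0,τ) = (1/(2√π)) ∫ (w_T - w_T0) Φ dt`, `0 <= w_T - w_T0 <= min(w_T, (t/(2T0))^2)` (`T0 <= T`, `1 - exp(-x) <= x`), `‖Φ‖ = ‖bp‖‖cpx‖`.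
(1) `|t| < M^(β/16)`: `‖Φ‖ <= (1+S)^6 M` (`bp_triv`, `cpx_triv`), integral `<= 2 M^(β/16) (M^(β/16)/(2 M^(β/4)))^2 (1+S)^6 M <= (CL)^6 M^(1+3β/16-β/2)`.
(2) `t ∈ rng β M`: `∫_rng w_T ‖bp‖‖cpx‖`. `cmb` with `lo = M^(1-δ/8)`, `hi = M^(2+δ/8)` (`lo^2 <= hi`; `lo <= M^3/2^(3r+12) <= 2^S`): either `J` exists: `tii`;
or `hi < 2^(e i)` for some `i`; if `i < 3` then `e i <= bh` (`e ∈ boxes`, `Fintype.mem_piFinset`), `2^bh <= 2^(r+5) M < hi` for `M` large, a contradiction;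
so `3 <= i`: `ti`. Bound `M^(1-η1)`.
(3) `|t| > M^3`: `w_T <= exp(-(t/(2T))^2/2) exp(-M^2/8)`-like: `t^2/(4T^2) >= t^2/(8T^2) + M^6/(8 M^(4-δ))`, so
`∫ <= (1+S)^6 M exp(-M^2/8) ∫ exp(-t^2/(8T^2)) dt = (1+S)^6 M exp(-M^2/8) √(8π) T <= 1`.
The sum is `<= M^(1-η)`, `η = min(η1, β/4)/2`, for `M` large. (Integrability: `trf_int`, and `integral_union`/`setIntegral` splitting of ℝ.)
-/

namespace Pool.Agent.H98.PK

open Finset MeasureTheory

private theorem bxe_log (C ε : ℝ) (hε : 0 < ε) : ∃ M1 : ℕ, ∀ M : ℕ, M1 ≤ M →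
    (C * (1 + Real.log M)) ^ 6 ≤ (M : ℝ) ^ ε := by
  have hε6 : 0 < ε / 6 := by positivity
  have h1 : (fun x : ℝ => C * (1 + Real.log x)) =o[Filter.atTop] fun x : ℝ => x ^ (ε / 6) := by
    apply Asymptotics.IsLittleO.const_mul_left
    apply Asymptotics.IsLittleO.add _ (isLittleO_log_rpow_atTop hε6)
    rw [Asymptotics.isLittleO_const_left]
    right
    exact tendsto_norm_atTop_atTop.comp (tendsto_rpow_atTop hε6)
  have h2 := h1.bound (c := 1) one_pos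
  have h3 := (tendsto_natCast_atTop_atTop (R := ℝ)).eventually h2
  obtain ⟨M1, hM1⟩ := Filter.eventually_atTop.1 h3
  refine ⟨M1, fun M hM => ?_⟩
  have h4 := hM1 M hM
  rw [one_mul] at h4
  have h5 : ‖(M : ℝ) ^ (ε / 6)‖ = (M : ℝ) ^ (ε / 6) :=
    Real.norm_of_nonneg (Real.rpow_nonneg (Nat.cast_nonneg _) _)
  rw [h5] at h4
  calc (C * (1 + Real.log M)) ^ 6 = ‖C * (1 + Real.log M)‖ ^ 6 := by
        rw [Real.norm_eq_abs, Even.pow_abs (by decide)]
    _ ≤ ((M : ℝ) ^ (ε / 6)) ^ 6 := pow_le_pow_left₀ (norm_nonneg _) h4 6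
    _ = (M : ℝ) ^ ε := by
        rw [← Real.rpow_natCast, ← Real.rpow_mul (Nat.cast_nonneg _)]
        congr 1
        push_cast
        ring

private theorem bxe_S (r S M : ℕ) (hM : 1 ≤ M) (h : 2 ^ S ≤ 2 ^ (3 * r + 12) * M ^ 3) :
    1 + (S : ℝ) ≤ (3 * r + 20) * (1 + Real.log M) := by
  have h1 : (2 : ℝ) ^ S ≤ 2 ^ (3 * r + 12) * (M : ℝ) ^ 3 := by exact_mod_cast h
  have hM0 : (0 : ℝ) < M := by exact_mod_cast hM
  have h2 := Real.log_le_log (by positivity) h1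
  rw [Real.log_mul (by positivity) (by positivity), Real.log_pow, Real.log_pow, Real.log_pow] at h2
  push_cast at h2
  have h3 : 0 ≤ Real.log M := Real.log_nonneg (by exact_mod_cast hM)
  have h4 : (0.6931471803 : ℝ) < Real.log 2 := Real.log_two_gt_d9
  have hr : (0 : ℝ) ≤ r := Nat.cast_nonneg _
  have h5 : (S : ℝ) ≤ (3 * r + 12) + 6 * Real.log M := by
    by_contra hcon
    push Not at hcon
    have h6 : ((3 * r + 12) + 6 * Real.log M) * Real.log 2 < S * Real.log 2 :=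
      mul_lt_mul_of_pos_right hcon (by linarith)
    nlinarith [mul_nonneg h3 (by linarith : (0 : ℝ) ≤ Real.log 2 - 1 / 2)]
  nlinarith [mul_nonneg hr h3]

private theorem bxe_w (t T T0 : ℝ) (hT0 : 0 < T0) (hT : T0 ≤ T) :
    0 ≤ Real.exp (-(t / (2 * T)) ^ 2) - Real.exp (-(t / (2 * T0)) ^ 2) ∧
    Real.exp (-(t / (2 * T)) ^ 2) - Real.exp (-(t / (2 * T0)) ^ 2) ≤
      Real.exp (-(t / (2 * T)) ^ 2) ∧
    Real.exp (-(t / (2 * T)) ^ 2) - Real.exp (-(t / (2 * T0)) ^ 2) ≤ (t / (2 * T0)) ^ 2 := by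
  have hT1 : 0 < T := by linarith
  have h1 : (t / (2 * T)) ^ 2 ≤ (t / (2 * T0)) ^ 2 := by
    rw [div_pow, div_pow]
    apply div_le_div_of_nonneg_left (sq_nonneg _) (by positivity)
    exact pow_le_pow_left₀ (by positivity) (by linarith) 2
  have h2 : Real.exp (-(t / (2 * T0)) ^ 2) ≤ Real.exp (-(t / (2 * T)) ^ 2) :=
    Real.exp_le_exp.2 (by linarith)
  have h3 := Real.exp_pos (-(t / (2 * T0)) ^ 2)
  have h4 : Real.exp (-(t / (2 * T)) ^ 2) ≤ 1 := Real.exp_le_one_iff.2 (by nlinarith [sq_nonneg (t / (2 * T))])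
  have h5 := Real.add_one_le_exp (-(t / (2 * T0)) ^ 2)
  exact ⟨by linarith, by linarith, by linarith⟩

private theorem bxe_int (T0 T A D m : ℝ) (hT0 : 0 < T0) (hT : T0 ≤ T) (hA : 0 < A) (hm : 0 < m)
    (hTm : T ≤ m ^ 2) (φ : ℝ → ℝ) (h0 : ∀ t, 0 ≤ φ t) (hD : ∀ t, φ t ≤ D)
    (hi : Integrable (fun t => Real.exp (-(t / (2 * T)) ^ 2) * φ t)) :
    ∫ t : ℝ, |Real.exp (-(t / (2 * T)) ^ 2) - Real.exp (-(t / (2 * T0)) ^ 2)| * φ t ≤
      A ^ 3 * D / (2 * T0 ^ 2) +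
      (∫ t in {t : ℝ | A ≤ |t| ∧ |t| ≤ m ^ (3 : ℕ)}, Real.exp (-(t / (2 * T)) ^ 2) * φ t) +
      6 * T * (D * Real.exp (-(m ^ 2 / 8))) := by
  have hT1 : 0 < T := by linarith
  have hD0 : 0 ≤ D := (h0 0).trans (hD 0)
  set R : Set ℝ := {t : ℝ | A ≤ |t| ∧ |t| ≤ m ^ (3 : ℕ)} with hR
  have hRm : MeasurableSet R :=
    (measurableSet_le measurable_const measurable_norm).inter
      (measurableSet_le measurable_norm measurable_const)
  have hb : 0 < 1 / (8 * T ^ 2) := by positivity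
  set g1 : ℝ → ℝ := (Set.Ioo (-A) A).indicator (fun _ => (A / (2 * T0)) ^ 2 * D) with hg1
  set g2 : ℝ → ℝ := R.indicator (fun t => Real.exp (-(t / (2 * T)) ^ 2) * φ t) with hg2
  set g3 : ℝ → ℝ := fun t => D * Real.exp (-(m ^ 2 / 8)) * Real.exp (-(1 / (8 * T ^ 2)) * t ^ 2)
    with hg3
  have hI1 : Integrable g1 := by
    rw [hg1, integrable_indicator_iff measurableSet_Ioo]
    exact integrableOn_const (by simp)
  have hI2 : Integrable g2 := hi.indicator hRm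
  have hI3 : Integrable g3 := (integrable_exp_neg_mul_sq hb).const_mul _
  have hle : ∀ t : ℝ, |Real.exp (-(t / (2 * T)) ^ 2) - Real.exp (-(t / (2 * T0)) ^ 2)| * φ t ≤
      g1 t + g2 t + g3 t := by
    intro t
    obtain ⟨w1, w2, w3⟩ := bxe_w t T T0 hT0 hT
    rw [abs_of_nonneg w1]
    have hp1 : 0 ≤ g1 t := Set.indicator_nonneg (fun _ _ => by positivity) t
    have hp2 : 0 ≤ g2 t :=
      Set.indicator_nonneg (fun x _ => mul_nonneg (Real.exp_pos _).le (h0 x)) t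
    have hp3 : 0 ≤ g3 t := by
      rw [hg3]
      positivity
    rcases lt_or_ge |t| A with h | h
    · have hmem : t ∈ Set.Ioo (-A) A := abs_lt.1 h
      have e1 : g1 t = (A / (2 * T0)) ^ 2 * D := by
        rw [hg1, Set.indicator_of_mem hmem]
      have e2 : (t / (2 * T0)) ^ 2 ≤ (A / (2 * T0)) ^ 2 := by
        rw [div_pow, div_pow]
        apply div_le_div_of_nonneg_right _ (by positivity)
        rw [← sq_abs t]
        exact pow_le_pow_left₀ (abs_nonneg _) h.le 2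
      have e3 : (Real.exp (-(t / (2 * T)) ^ 2) - Real.exp (-(t / (2 * T0)) ^ 2)) * φ t ≤
          (A / (2 * T0)) ^ 2 * D :=
        mul_le_mul (w3.trans e2) (hD t) (h0 t) (by positivity)
      rw [e1]
      linarith
    · rcases le_or_gt |t| (m ^ (3 : ℕ)) with h' | h'
      · have hmem : t ∈ R := ⟨h, h'⟩
        have e1 : g2 t = Real.exp (-(t / (2 * T)) ^ 2) * φ t := by
          rw [hg2, Set.indicator_of_mem hmem]
        have e3 : (Real.exp (-(t / (2 * T)) ^ 2) - Real.exp (-(t / (2 * T0)) ^ 2)) * φ t ≤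
            Real.exp (-(t / (2 * T)) ^ 2) * φ t := mul_le_mul_of_nonneg_right w2 (h0 t)
        rw [e1]
        linarith
      · have e3 : (Real.exp (-(t / (2 * T)) ^ 2) - Real.exp (-(t / (2 * T0)) ^ 2)) * φ t ≤
            Real.exp (-(t / (2 * T)) ^ 2) * D := mul_le_mul w2 (hD t) (h0 t) (Real.exp_pos _).le
        have e4 : Real.exp (-(t / (2 * T)) ^ 2) ≤
            Real.exp (-(m ^ 2 / 8)) * Real.exp (-(1 / (8 * T ^ 2)) * t ^ 2) := by
          rw [← Real.exp_add]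
          apply Real.exp_le_exp.2
          have e5 : m ^ 6 ≤ t ^ 2 := by
            rw [← sq_abs t]
            calc m ^ 6 = (m ^ (3 : ℕ)) ^ 2 := by ring
              _ ≤ |t| ^ 2 := pow_le_pow_left₀ (by positivity) h'.le 2
          have e6 : T ^ 2 ≤ m ^ 4 := by
            calc T ^ 2 ≤ (m ^ 2) ^ 2 := pow_le_pow_left₀ hT1.le hTm 2
              _ = m ^ 4 := by ring
          have e7 : m ^ 2 * T ^ 2 ≤ t ^ 2 := by
            calc m ^ 2 * T ^ 2 ≤ m ^ 2 * m ^ 4 := by gcongr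
              _ = m ^ 6 := by ring
              _ ≤ t ^ 2 := e5
          have e8 : m ^ 2 / 8 ≤ t ^ 2 / (8 * T ^ 2) := by
            rw [div_le_div_iff₀ (by norm_num) (by positivity)]
            nlinarith
          have e9 : (t / (2 * T)) ^ 2 = t ^ 2 / (8 * T ^ 2) + t ^ 2 / (8 * T ^ 2) := by
            field_simp
            ring
          have e10 : 1 / (8 * T ^ 2) * t ^ 2 = t ^ 2 / (8 * T ^ 2) := by ring
          rw [e9]
          have : -(1 / (8 * T ^ 2)) * t ^ 2 = - (t ^ 2 / (8 * T ^ 2)) := by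
            rw [← e10]
            ring
          rw [this]
          linarith
        have e11 : Real.exp (-(t / (2 * T)) ^ 2) * D ≤ g3 t := by
          have := mul_le_mul_of_nonneg_right e4 hD0
          rw [hg3]
          calc Real.exp (-(t / (2 * T)) ^ 2) * D ≤
              Real.exp (-(m ^ 2 / 8)) * Real.exp (-(1 / (8 * T ^ 2)) * t ^ 2) * D := this
            _ = D * Real.exp (-(m ^ 2 / 8)) * Real.exp (-(1 / (8 * T ^ 2)) * t ^ 2) := by ring
        linarith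
  have hmono : ∫ t : ℝ, |Real.exp (-(t / (2 * T)) ^ 2) - Real.exp (-(t / (2 * T0)) ^ 2)| * φ t ≤
      ∫ t : ℝ, (g1 t + g2 t + g3 t) :=
    integral_mono_of_nonneg
      (Filter.Eventually.of_forall fun t => mul_nonneg (abs_nonneg _) (h0 t))
      ((hI1.add hI2).add hI3) (Filter.Eventually.of_forall hle)
  refine hmono.trans ?_
  have hs : ∫ t : ℝ, (g1 t + g2 t + g3 t) = (∫ t, g1 t) + (∫ t, g2 t) + ∫ t, g3 t := by
    have := integral_add (hI1.add hI2) hI3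
    simp only [Pi.add_apply] at this
    rw [this, integral_add hI1 hI2]
  rw [hs]
  have k1 : ∫ t, g1 t = A ^ 3 * D / (2 * T0 ^ 2) := by
    rw [hg1, integral_indicator measurableSet_Ioo, setIntegral_const, smul_eq_mul,
      Measure.real, Real.volume_Ioo, ENNReal.toReal_ofReal (by linarith)]
    field_simp
    ring
  have k2 : ∫ t, g2 t = ∫ t in R, Real.exp (-(t / (2 * T)) ^ 2) * φ t := by
    rw [hg2, integral_indicator hRm]
  have k3 : ∫ t, g3 t ≤ 6 * T * (D * Real.exp (-(m ^ 2 / 8))) := by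
    rw [hg3, integral_const_mul, integral_gaussian]
    have e1 : Real.sqrt (Real.pi / (1 / (8 * T ^ 2))) ≤ 6 * T := by
      rw [show Real.pi / (1 / (8 * T ^ 2)) = 8 * Real.pi * T ^ 2 by field_simp]
      rw [show (6 : ℝ) * T = Real.sqrt ((6 * T) ^ 2) by rw [Real.sqrt_sq (by positivity)]]
      apply Real.sqrt_le_sqrt
      have hpi : 8 * Real.pi ≤ 36 := by
        have := Real.pi_lt_d2
        linarith
      calc 8 * Real.pi * T ^ 2 ≤ 36 * T ^ 2 := mul_le_mul_of_nonneg_right hpi (sq_nonneg T)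
        _ = (6 * T) ^ 2 := by ring
    calc D * Real.exp (-(m ^ 2 / 8)) * Real.sqrt (Real.pi / (1 / (8 * T ^ 2))) ≤
        D * Real.exp (-(m ^ 2 / 8)) * (6 * T) := by gcongr
      _ = 6 * T * (D * Real.exp (-(m ^ 2 / 8))) := by ring
  rw [k1, k2]
  linarith

private theorem bxe_tail : ∃ M1 : ℕ, ∀ M : ℕ, M1 ≤ M →
    6 * (M : ℝ) ^ 4 * Real.exp (-((M : ℝ) ^ 2 / 8)) ≤ 1 := by
  have h1 : Filter.Tendsto (fun x : ℝ => x ^ 2 * Real.exp (-x)) Filter.atTop (nhds 0) :=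
    Real.tendsto_pow_mul_exp_neg_atTop_nhds_zero 2
  have h2 : Filter.Tendsto (fun M : ℕ => (M : ℝ) ^ 2 / 8) Filter.atTop Filter.atTop := by
    apply Filter.Tendsto.atTop_div_const (by norm_num)
    exact (Filter.tendsto_pow_atTop (by norm_num)).comp tendsto_natCast_atTop_atTop
  have h3 := (h1.comp h2).eventually (gt_mem_nhds (show (0 : ℝ) < 1 / 384 by norm_num))
  obtain ⟨M1, hM1⟩ := Filter.eventually_atTop.1 h3
  refine ⟨M1, fun M hM => ?_⟩
  have h4 := hM1 M hM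
  simp only [Function.comp_apply] at h4
  have h5 : 6 * (M : ℝ) ^ 4 * Real.exp (-((M : ℝ) ^ 2 / 8)) =
      384 * (((M : ℝ) ^ 2 / 8) ^ 2 * Real.exp (-((M : ℝ) ^ 2 / 8))) := by ring
  rw [h5]
  linarith

private theorem bxe_sqrtpi : 1 / (2 * Real.sqrt Real.pi) ≤ 1 / 3 := by
  have h : (3 / 2 : ℝ) ≤ Real.sqrt Real.pi := by
    rw [show (3 / 2 : ℝ) = Real.sqrt ((3 / 2) ^ 2) by rw [Real.sqrt_sq (by norm_num)]]
    apply Real.sqrt_le_sqrt
    have := Real.pi_gt_three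
    norm_num
    linarith
  apply one_div_le_one_div_of_le (by norm_num)
  linarith

theorem bxe (r : ℕ) (β δ : ℝ) (hβ : 0 < β) (hδ : 40 * β ≤ δ) (hδ1 : δ ≤ 1) : ∃ η : ℝ, 0 < η ∧
    ∃ M1 : ℕ, ∀ M : ℕ, M1 ≤ M → ∀ (N : ℕ) (F : Fin r → ℕ) (P : Fin r → Finset ℕ), Bx β M N F P →
    ∀ e ∈ H43.SI.boxes (bh r M) (3 * bh r M), M ^ 3 ≤ 2 ^ (3 * r + 12) * 2 ^ (∑ i, e i) →
    2 ^ (∑ i, e i) ≤ 2 ^ (3 * r + 12) * M ^ 3 → ∀ T : ℝ, (M : ℝ) ^ (β / 4) ≤ T →
    T ≤ (M : ℝ) ^ (2 - δ / 2) → ∀ τ : ℝ, 0 ≤ τ → τ ≤ 1 →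
    ‖(T : ℂ) * W (fun n => H43.SI.bf c1 e n) (2 ^ (3 * bh r M)) N P T τ -
      (((M : ℝ) ^ (β / 4) : ℝ) : ℂ) *
        W (fun n => H43.SI.bf c1 e n) (2 ^ (3 * bh r M)) N P ((M : ℝ) ^ (β / 4)) τ‖ ≤
      (M : ℝ) ^ (1 - η) := by
  obtain ⟨η1, hη1, M1, hM1⟩ := tii r β δ hβ hδ hδ1
  obtain ⟨η2, hη2, M2, hM2⟩ := ti r β δ hβ hδ hδ1
  obtain ⟨M3, hM3⟩ := bxe_log (3 * r + 20) (β / 16) (by positivity)
  obtain ⟨M4, hM4⟩ := bxe_tail
  have hβ1 : β ≤ 1 / 40 := by linarith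
  refine ⟨min (min η1 η2) (β / 8), lt_min (lt_min hη1 hη2) (by positivity),
    max (max M1 M2) (max (max M3 M4) (2 ^ (3 * r + 12))), ?_⟩
  intro M hM N F P hB e he hS1 hS2 T hT0 hT2 τ hτ0 hτ1
  have hMM1 : M1 ≤ M := le_trans (le_trans (le_max_left _ _) (le_max_left _ _)) hM
  have hMM2 : M2 ≤ M := le_trans (le_trans (le_max_right _ _) (le_max_left _ _)) hM
  have hMM3 : M3 ≤ M := le_trans (le_trans (le_trans (le_max_left _ _) (le_max_left _ _))
    (le_max_right _ _)) hM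
  have hMM4 : M4 ≤ M := le_trans (le_trans (le_trans (le_max_right _ _) (le_max_left _ _))
    (le_max_right _ _)) hM
  have hMM5 : 2 ^ (3 * r + 12) ≤ M := le_trans (le_trans (le_max_right _ _) (le_max_right _ _)) hM
  have hMone : 1 ≤ M := le_trans (Nat.one_le_two_pow) hMM5
  have hMR1 : (1 : ℝ) ≤ M := by exact_mod_cast hMone
  have hMR0 : (0 : ℝ) < M := by linarith
  set η : ℝ := min (min η1 η2) (β / 8) with hη
  have hηb : η ≤ β / 8 := min_le_right _ _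
  have hηa : η ≤ η1 := (min_le_left _ _).trans (min_le_left _ _)
  have hηc : η ≤ η2 := (min_le_left _ _).trans (min_le_right _ _)
  set T0 : ℝ := (M : ℝ) ^ (β / 4) with hT0def
  have hT01 : 1 ≤ T0 := Real.one_le_rpow hMR1 (by positivity)
  have hT00 : 0 < T0 := by linarith
  have hT1 : 1 ≤ T := by linarith
  have hTpos : 0 < T := by linarith
  set S : ℕ := ∑ i, e i with hSdef
  -- the size of the polynomials
  have hD1 : (1 + (S : ℝ)) ^ 6 ≤ (M : ℝ) ^ (β / 16) := by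
    refine le_trans ?_ (hM3 M hMM3)
    exact pow_le_pow_left₀ (by positivity) (bxe_S r S M hMone hS2) 6
  set D : ℝ := (M : ℝ) ^ (1 + β / 16) with hDdef
  have hphi : ∀ t : ℝ, ‖H43.SI.bp c1 e t‖ * ‖cpx N P t‖ ≤ D := by
    intro t
    have h1 : ‖H43.SI.bp c1 e t‖ ≤ (M : ℝ) ^ (β / 16) := (bp_triv e t).trans hD1
    have h2 := cpx_triv hB t
    calc ‖H43.SI.bp c1 e t‖ * ‖cpx N P t‖ ≤ (M : ℝ) ^ (β / 16) * M :=
          mul_le_mul h1 h2 (norm_nonneg _) (Real.rpow_nonneg hMR0.le _)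
      _ = D := by
          rw [hDdef, add_comm 1 (β / 16), Real.rpow_add hMR0, Real.rpow_one]
  -- the transform formulas
  have hNm : 2 ^ S ≤ 2 ^ (3 * bh r M) := by
    have h1 : M < 2 ^ (Nat.log 2 M + 1) := Nat.lt_pow_succ_log_self (by norm_num) M
    calc 2 ^ S ≤ 2 ^ (3 * r + 12) * M ^ 3 := hS2
      _ ≤ 2 ^ (3 * r + 12) * (2 ^ (Nat.log 2 M + 1)) ^ 3 :=
          Nat.mul_le_mul_left _ (Nat.pow_le_pow_left h1.le 3)
      _ = 2 ^ (3 * bh r M) := by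
          rw [← pow_mul, ← pow_add]
          congr 1
          unfold bh
          ring
  have hP1 : ∀ i, ∀ p ∈ P i, 1 ≤ p := by
    intro i p hp
    have := (hB.hp i p hp).1
    omega
  have htrf := trf e (2 ^ (3 * bh r M)) N P T τ hTpos hNm hP1
  have htrf0 := trf e (2 ^ (3 * bh r M)) N P T0 τ hT00 hNm hP1
  have hint := trf_int e N P T τ hTpos
  have hint0 := trf_int e N P T0 τ hT00
  rw [htrf, htrf0, ← mul_sub, ← integral_sub hint hint0, norm_mul]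
  have hnorm : ∀ t : ℝ, ‖(Real.exp (-(t / (2 * T)) ^ 2) : ℂ) *
      (ex (t * τ) * H43.SI.bp c1 e t * cpx N P t) - (Real.exp (-(t / (2 * T0)) ^ 2) : ℂ) *
      (ex (t * τ) * H43.SI.bp c1 e t * cpx N P t)‖ =
      |Real.exp (-(t / (2 * T)) ^ 2) - Real.exp (-(t / (2 * T0)) ^ 2)| *
        (‖H43.SI.bp c1 e t‖ * ‖cpx N P t‖) := by
    intro t
    rw [← sub_mul, ← Complex.ofReal_sub, norm_mul, Complex.norm_real, Real.norm_eq_abs, norm_mul,
      norm_mul, norm_ex, one_mul]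
  have hintn : Integrable (fun t : ℝ => Real.exp (-(t / (2 * T)) ^ 2) *
      (‖H43.SI.bp c1 e t‖ * ‖cpx N P t‖)) := by
    refine (hint.norm).congr (Filter.Eventually.of_forall fun t => ?_)
    simp only
    rw [norm_mul, Complex.norm_real, Real.norm_of_nonneg (Real.exp_pos _).le, norm_mul,
      norm_mul, norm_ex, one_mul]
  have hT2' : T ≤ (M : ℝ) ^ 2 := by
    refine hT2.trans ?_
    rw [← Real.rpow_natCast]
    exact Real.rpow_le_rpow_of_exponent_le hMR1 (by push_cast; linarith)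
  have hmain := bxe_int T0 T ((M : ℝ) ^ (β / 16)) D M hT00 hT0
    (Real.rpow_pos_of_pos hMR0 _) hMR0 hT2'
    (fun t => ‖H43.SI.bp c1 e t‖ * ‖cpx N P t‖)
    (fun t => mul_nonneg (norm_nonneg _) (norm_nonneg _)) hphi hintn
  have hn1 : ‖∫ t : ℝ, ((Real.exp (-(t / (2 * T)) ^ 2) : ℂ) *
      (ex (t * τ) * H43.SI.bp c1 e t * cpx N P t) - (Real.exp (-(t / (2 * T0)) ^ 2) : ℂ) *
      (ex (t * τ) * H43.SI.bp c1 e t * cpx N P t))‖ ≤
      ∫ t : ℝ, |Real.exp (-(t / (2 * T)) ^ 2) - Real.exp (-(t / (2 * T0)) ^ 2)| *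
        (‖H43.SI.bp c1 e t‖ * ‖cpx N P t‖) := by
    refine (norm_integral_le_integral_norm _).trans (le_of_eq ?_)
    exact integral_congr_ae (Filter.Eventually.of_forall hnorm)
  -- the three bounds
  have b1 : ((M : ℝ) ^ (β / 16)) ^ 3 * D / (2 * T0 ^ 2) ≤ (M : ℝ) ^ (1 - η) := by
    have h1 : ((M : ℝ) ^ (β / 16)) ^ 3 * D / (2 * T0 ^ 2) =
        (M : ℝ) ^ (1 - β / 4) / 2 := by
      have e1 : ((M : ℝ) ^ (β / 16)) ^ 3 = (M : ℝ) ^ (3 * β / 16) := by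
        rw [← Real.rpow_natCast, ← Real.rpow_mul hMR0.le]
        congr 1
        push_cast
        ring
      have e2 : T0 ^ 2 = (M : ℝ) ^ (β / 2) := by
        rw [hT0def, ← Real.rpow_natCast, ← Real.rpow_mul hMR0.le]
        congr 1
        push_cast
        ring
      have e3 : (M : ℝ) ^ (3 * β / 16) * (M : ℝ) ^ (1 + β / 16) =
          (M : ℝ) ^ (1 - β / 4) * (M : ℝ) ^ (β / 2) := by
        rw [← Real.rpow_add hMR0, ← Real.rpow_add hMR0]
        congr 1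
        ring
      rw [e1, e2, hDdef, e3]
      have e4 : (M : ℝ) ^ (β / 2) ≠ 0 := (Real.rpow_pos_of_pos hMR0 _).ne'
      field_simp
    rw [h1]
    have h2 : (M : ℝ) ^ (1 - β / 4) ≤ (M : ℝ) ^ (1 - η) :=
      Real.rpow_le_rpow_of_exponent_le hMR1 (by linarith)
    have h3 : 0 ≤ (M : ℝ) ^ (1 - β / 4) := Real.rpow_nonneg hMR0.le _
    linarith
  have b3 : 6 * T * (D * Real.exp (-((M : ℝ) ^ 2 / 8))) ≤ (M : ℝ) ^ (1 - η) := by
    have h1 : D ≤ (M : ℝ) ^ 2 := by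
      rw [hDdef, ← Real.rpow_natCast]
      exact Real.rpow_le_rpow_of_exponent_le hMR1 (by push_cast; linarith)
    have h2 : 6 * T * (D * Real.exp (-((M : ℝ) ^ 2 / 8))) ≤
        6 * (M : ℝ) ^ 2 * ((M : ℝ) ^ 2 * Real.exp (-((M : ℝ) ^ 2 / 8))) := by
      gcongr
    have h3 : 6 * (M : ℝ) ^ 2 * ((M : ℝ) ^ 2 * Real.exp (-((M : ℝ) ^ 2 / 8))) =
        6 * (M : ℝ) ^ 4 * Real.exp (-((M : ℝ) ^ 2 / 8)) := by ring
    rw [h3] at h2
    have h4 : (1 : ℝ) ≤ (M : ℝ) ^ (1 - η) := Real.one_le_rpow hMR1 (by linarith)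
    exact (h2.trans (hM4 M hMM4)).trans h4
  have b2 : ∫ t in {t : ℝ | (M : ℝ) ^ (β / 16) ≤ |t| ∧ |t| ≤ (M : ℝ) ^ (3 : ℕ)},
      Real.exp (-(t / (2 * T)) ^ 2) * (‖H43.SI.bp c1 e t‖ * ‖cpx N P t‖) ≤
      (M : ℝ) ^ (1 - η) := by
    have hSR : (M : ℝ) ^ 3 ≤ 2 ^ (3 * r + 12) * 2 ^ S := by exact_mod_cast hS1
    have hlo : (M : ℝ) ^ (1 - δ / 8) ≤ (2 : ℝ) ^ (∑ i, e i) := by
      have h1 : (M : ℝ) ^ (1 - δ / 8) ≤ (M : ℝ) := by
        conv_rhs => rw [← Real.rpow_one (M : ℝ)]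
        exact Real.rpow_le_rpow_of_exponent_le hMR1 (by linarith)
      have h2 : (2 : ℝ) ^ (3 * r + 12) ≤ M := by exact_mod_cast hMM5
      have h3 : (0 : ℝ) < 2 ^ (3 * r + 12) := by positivity
      have h4 : (M : ℝ) * 2 ^ (3 * r + 12) ≤ 2 ^ (3 * r + 12) * 2 ^ S := by
        calc (M : ℝ) * 2 ^ (3 * r + 12) ≤ M * M := by gcongr
          _ = (M : ℝ) ^ 2 := by ring
          _ ≤ (M : ℝ) ^ 3 := pow_le_pow_right₀ hMR1 (by norm_num)
          _ ≤ _ := hSR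
      have h5 : (M : ℝ) ≤ 2 ^ S := by
        rw [mul_comm] at h4
        exact le_of_mul_le_mul_left h4 h3
      exact h1.trans h5
    rcases cmb e ((M : ℝ) ^ (1 - δ / 8)) ((M : ℝ) ^ (2 + δ / 8))
      (Real.one_le_rpow hMR1 (by linarith))
      (by
        rw [← Real.rpow_add hMR0]
        exact Real.rpow_le_rpow_of_exponent_le hMR1 (by linarith))
      hlo with ⟨J, hJ1, hJ2⟩ | ⟨i, hi⟩
    · have := hM1 M hMM1 N F P hB e J hS1 hS2 hJ1 hJ2 T hT1 hT2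
      refine this.trans ?_
      exact Real.rpow_le_rpow_of_exponent_le hMR1 (by linarith)
    · have hi3 : 3 ≤ (i : ℕ) := by
        by_contra hcon
        push Not at hcon
        have h1 : e i ≤ bh r M := by
          unfold H43.SI.boxes at he
          rw [Fintype.mem_piFinset] at he
          have h2 := he i
          rw [if_pos hcon, Finset.mem_range] at h2
          omega
        have h2 : 2 ^ (e i) ≤ 2 ^ (r + 5) * M := by
          calc 2 ^ (e i) ≤ 2 ^ (bh r M) := Nat.pow_le_pow_right (by norm_num) h1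
            _ = 2 ^ (r + 5) * 2 ^ (Nat.log 2 M) := by
                rw [← pow_add]
                congr 1
                unfold bh
                ring
            _ ≤ 2 ^ (r + 5) * M :=
                Nat.mul_le_mul_left _ (Nat.pow_log_le_self 2 (by omega))
        have h3 : 2 ^ (r + 5) ≤ M :=
          le_trans (Nat.pow_le_pow_right (by norm_num) (by omega)) hMM5
        have h4 : (2 : ℝ) ^ (e i) ≤ (M : ℝ) ^ 2 := by
          have : 2 ^ (e i) ≤ M ^ 2 := by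
            calc 2 ^ (e i) ≤ 2 ^ (r + 5) * M := h2
              _ ≤ M * M := Nat.mul_le_mul_right _ h3
              _ = M ^ 2 := by ring
          exact_mod_cast this
        have h5 : (M : ℝ) ^ 2 ≤ (M : ℝ) ^ (2 + δ / 8) := by
          rw [← Real.rpow_natCast]
          exact Real.rpow_le_rpow_of_exponent_le hMR1 (by push_cast; linarith)
        linarith
      have := hM2 M hMM2 N F P hB e i hi3 hi.le hS2 T hT1 hT2
      refine this.trans ?_
      exact Real.rpow_le_rpow_of_exponent_le hMR1 (by linarith)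
  have hX : 0 ≤ (M : ℝ) ^ (1 - η) := Real.rpow_nonneg hMR0.le _
  have hc : ‖((1 / (2 * Real.sqrt Real.pi) : ℝ) : ℂ)‖ ≤ 1 / 3 := by
    rw [Complex.norm_real, Real.norm_of_nonneg (by positivity)]
    exact bxe_sqrtpi
  calc ‖((1 / (2 * Real.sqrt Real.pi) : ℝ) : ℂ)‖ * _ ≤ 1 / 3 * (3 * (M : ℝ) ^ (1 - η)) := by
        apply mul_le_mul hc _ (norm_nonneg _) (by norm_num)
        linarith
    _ = (M : ℝ) ^ (1 - η) := by ring

end Pool.Agent.H98.PK
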