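import Pool.Agent.H43.SI.Mvp
import Pool.Agent.H43.SI.Hb

/-!
# MP_4d57ea_nt, project PK: for every eps > 0 a positive proportion of the k <= K has the right order of magnitude
of primes m^3+k, m <= M, for all log K <= M <= K^(1-eps): definitions and plan

NOTATION. L = log M, all constants may depend on r, β, δ. `40 β <= δ <= 1`. A BOX is given by naturals `N`, `F i` (i < r)
and sets `P i ⊆ (F i, 2 F i]`; its numbers are `m = m0 * ∏ p_i`, `m0 ∈ (N, 2N]`, `p_i ∈ P i`. `Bx β M N F P`: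
`M^β/2 <= N <= 2 M^(2β)`, `F i <= 2 M^(2β)`, `M <= 2^(r+2) N ∏ F i`, `2^(r+1) N ∏ F i <= M`. So `M/2^(r+2) < m <= M`.

MAIN IDEA. To count the primes just behind the cubes, `m^3 < p <= m^3 + K`, `K = M^(1+δ)`, with the right order of magnitude
it is enough to use a positive proportion of the `m <= M`. The `m` of a box factor completely (short factors), so in a
bilinear sum over `n = a b` (Heath-Brown's identity, `a ∈ [M^(1-δ/8), M^(2+δ/8)]`) and `m = m0 ∏ p_i` we can attach some of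
the `p_i` to `a` and the others to `b` such that both groups have size `M^(2+-δ/4)`; the mean value theorem for the
frequencies `log a - 3 log m_I` (`Cnt`, `Gcn`, `Gmv`) is then sharp for `|t| <= T = M^(2-δ/2)` and the power saving comes from
the short smooth factor `m0` (`Sup`). Factors `> M^(2+δ/8)` of `n` are smooth and longer than `T` (`Smo`, `Ti`).

* `Cnt`, `Gcn`, `Gmv`: counting lemma, Gaussian weights, mean value theorem.
* `Coj`, `Coi`: coefficients of partial products. `Sup`: sup of the factor `m0`. `Smo`: long smooth factors.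
* `Gau`, `Trf`: the Gaussian, transform formula for `W`.
* `Gre`, `Cmb`: combinatorial choices. `Tii`, `Ti`, `Tail`, `Bxe`, `Far`, `Mpr`: box estimates and assembly: main proposition.
* `Low`: lower bound at the short scale `T0 = M^(β/4)`. `Grd`, `Win`: from Gaussians to windows.
* `Bct`, `Mul`, `Fm`, `Pp`: all boxes, first moment, prime powers. `Fmt`: the trivial range `12 M^2 <= K`.
* `Sie`, `Sw`, `Sm`: second moment. `Fin`: the theorem.
-/

namespace Pool.Agent.H98.PK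

open Finset

/-- `exp(i x)` -/
noncomputable def ex (x : ℝ) : ℂ := Complex.exp ((x : ℂ) * Complex.I)

/-- `Σ_{p ∈ P} p^(3it)` -/
noncomputable def cp (P : Finset ℕ) (t : ℝ) : ℂ := ∑ p ∈ P, ex (3 * t * Real.log p)

/-- the tuples `(m0, (p_i))` -/
def tup {r : ℕ} (N : ℕ) (P : Fin r → Finset ℕ) : Finset (ℕ × (Fin r → ℕ)) :=
  Ioc N (2 * N) ×ˢ Fintype.piFinset P

/-- the number `m = m0 p_1 ... p_r` -/
def mv {r : ℕ} (x : ℕ × (Fin r → ℕ)) : ℕ := x.1 * ∏ i, x.2 i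

/-- the Dirichlet polynomial of the numbers `m` of a box at `-3it` -/
noncomputable def cpx {r : ℕ} (N : ℕ) (P : Fin r → Finset ℕ) (t : ℝ) : ℂ :=
  cp (Ioc N (2 * N)) t * ∏ i, cp (P i) t

/-- `Σ_{n<=Nm} f(n)/n Σ_m exp(-(T(log n - 3 log m - τ))^2)` -/
noncomputable def W {r : ℕ} (f : ℕ → ℂ) (Nm N : ℕ) (P : Fin r → Finset ℕ) (T τ : ℝ) : ℂ :=
  ∑ n ∈ Icc 1 Nm, f n / n *
    ∑ x ∈ tup N P, (Real.exp (-(T * (Real.log n - 3 * Real.log (mv x) - τ)) ^ 2) : ℂ)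

/-- the same for real `f` -/
noncomputable def WR {r : ℕ} (f : ℕ → ℝ) (Nm N : ℕ) (P : Fin r → Finset ℕ) (T τ : ℝ) : ℝ :=
  ∑ n ∈ Icc 1 Nm, f n / n *
    ∑ x ∈ tup N P, Real.exp (-(T * (Real.log n - 3 * Real.log (mv x) - τ)) ^ 2)

theorem W_real {r : ℕ} (f : ℕ → ℝ) (Nm N : ℕ) (P : Fin r → Finset ℕ) (T τ : ℝ) :
    W (fun n => (f n : ℂ)) Nm N P T τ = (WR f Nm N P T τ : ℂ) := by
  unfold W WR
  push_cast
  rfl

/-- a box of numbers `m ∈ (M/2^(r+2), M]` with short factors -/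
structure Bx (β : ℝ) {r : ℕ} (M N : ℕ) (F : Fin r → ℕ) (P : Fin r → Finset ℕ) : Prop where
  n0 : (M : ℝ) ^ β / 2 ≤ N
  n1 : (N : ℝ) ≤ 2 * (M : ℝ) ^ (2 * β)
  f0 : ∀ i, 1 ≤ F i
  f1 : ∀ i, (F i : ℝ) ≤ 2 * (M : ℝ) ^ (2 * β)
  hp : ∀ i, ∀ p ∈ P i, F i < p ∧ p ≤ 2 * F i
  t0 : M ≤ 2 ^ (r + 2) * (N * ∏ i, F i)
  t1 : 2 ^ (r + 1) * (N * ∏ i, F i) ≤ M

/-- the exponent in Heath-Brown's identity: `2^(bh r M) ∈ (2^(r+4) M, 2^(r+5) M]` -/
def bh (r M : ℕ) : ℕ := Nat.log 2 M + r + 5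

/-- the trivial character -/
noncomputable abbrev c1 : DirichletCharacter ℂ 1 := 1

/-- the set of quadruples `((n,n'),(m,m'))` -/
def qd (A Q : ℕ) : Finset ((ℕ × ℕ) × (ℕ × ℕ)) := (Icc 1 A ×ˢ Icc 1 A) ×ˢ (Icc 1 Q ×ˢ Icc 1 Q)

/-- `log(n/n') - 3 log(m/m')` -/
noncomputable def qx (x : (ℕ × ℕ) × (ℕ × ℕ)) : ℝ :=
  (Real.log x.1.1 - Real.log x.1.2) - 3 * (Real.log x.2.1 - Real.log x.2.2)

end Pool.Agent.H98.PK
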