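import Pool.Agent.H5.PNT.PNT

/-!
# [H98 PK FMT] First moment in the trivial range `12 M^2 <= K`

PROOF. Prime number theorem (`H5.PNT.pi_tendsto`): `#primes in (x/2, x] >= x/(3 log x)` for real `x >= x0`. `K` large.
(1) `2 M^3 <= K`: for every `m <= M` the primes of `(K/2, K]` are in `(m^3, m^3+K]`: the sum is `>= M K/(3 log K)`.
(2) `2 M^3 > K`: `M` is large and `log(M^3) <= (3/2) log K` (`M^2 <= K`). Count the pairs `(m,p)`, `p` prime in `(M^3/2, M^3]`, `1 <= m <= M`,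
`m^3 < p <= m^3 + K`, i.e. `p - K <= m^3 < p`. For fixed `p` the number of these `m` is `>= K/(4M^2)`: if `p <= K`: all `m` with `1 <= m`, `m^3 < p`, i.e.
at least `(M^3/2)^(1/3) - 1 >= M/2 >= K/(4M^2)`. If `p > K`: `p^(1/3) - (p-K)^(1/3) >= K/(3 p^(2/3)) >= K/(3M^2) >= 4` (concavity / mean value), so at least
`K/(3M^2) - 1 >= K/(4M^2)` integers `m` with `(p-K)^(1/3) <= m < p^(1/3)` (`m >= 1` as `p > K`; `m <= M` as `p <= M^3`).
(A way without cube roots: let `m1` be the largest `m` with `m^3 < p`, `m1 < M+1`; all `m = m1 - j` with `0 <= j < K/(3M^2)`, `m >= 1`, satisfy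
`p - m^3 <= (m1+1)^3 - (m1-j)^3 <= 3 (j+1) (m1+1)^2`, which is `<= K` if `j + 1 <= K/(4M^2)`, `M` large.)
The sum is `>= (K/(4M^2)) (M^3/(3 log(M^3))) >= K M/(18 log K)`. `c = 1/100`.
-/

namespace Pool.Agent.H98.PK

open Finset

private theorem fmt_theta (N : ℕ) : Chebyshev.theta (N : ℝ) - Chebyshev.theta ((N / 2 : ℕ) : ℝ) ≤
    (((Ioc (N / 2) N).filter Nat.Prime).card : ℝ) * Real.log N := by
  unfold Chebyshev.theta
  rw [Nat.floor_natCast, Nat.floor_natCast, sum_filter, sum_filter,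
    ← sum_Ioc_consecutive (fun p : ℕ => if Nat.Prime p then Real.log (p : ℝ) else 0)
      (Nat.zero_le (N / 2)) (Nat.div_le_self N 2), add_sub_cancel_left, ← sum_filter,
    ← nsmul_eq_mul, ← sum_const]
  refine sum_le_sum fun p hp => ?_
  rw [mem_filter, mem_Ioc] at hp
  have h1 : (0 : ℝ) < p := by exact_mod_cast hp.2.pos
  have h2 : (p : ℝ) ≤ N := by exact_mod_cast hp.1.2
  exact Real.log_le_log h1 h2

private theorem fmt_half : ∃ N0 : ℕ, ∀ N : ℕ, N0 ≤ N →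
    (N : ℝ) / (3 * Real.log N) ≤ (((Ioc (N / 2) N).filter Nat.Prime).card : ℝ) := by
  have h := Pool.Agent.H5.PNT.theta_tendsto
  rw [Metric.tendsto_atTop] at h
  obtain ⟨X0, hX0⟩ := h (1 / 9) (by norm_num)
  obtain ⟨n0, hn0⟩ := exists_nat_ge X0
  refine ⟨2 * n0 + 2, fun N hN => ?_⟩
  have hN2 : (2 : ℝ) ≤ N := by exact_mod_cast (by omega : 2 ≤ N)
  have hNn : n0 ≤ N := by omega
  have hNh : n0 ≤ N / 2 := by omega
  have hh1 : 1 ≤ N / 2 := by omega
  have h1 := hX0 (N : ℝ) (hn0.trans (by exact_mod_cast hNn))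
  have h2 := hX0 ((N / 2 : ℕ) : ℝ) (hn0.trans (by exact_mod_cast hNh))
  rw [Real.dist_eq, abs_lt] at h1 h2
  have hNpos : (0 : ℝ) < N := by linarith
  have hHpos : (0 : ℝ) < ((N / 2 : ℕ) : ℝ) := by exact_mod_cast hh1
  have h3 : 8 / 9 * (N : ℝ) ≤ Chebyshev.theta (N : ℝ) := by
    have h4 : 8 / 9 ≤ Chebyshev.theta (N : ℝ) / N := by linarith [h1.1]
    rwa [le_div_iff₀ hNpos] at h4
  have h5 : Chebyshev.theta ((N / 2 : ℕ) : ℝ) ≤ 10 / 9 * ((N / 2 : ℕ) : ℝ) := by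
    have h4 : Chebyshev.theta ((N / 2 : ℕ) : ℝ) / ((N / 2 : ℕ) : ℝ) ≤ 10 / 9 := by linarith [h2.2]
    rwa [div_le_iff₀ hHpos] at h4
  have h6 : ((N / 2 : ℕ) : ℝ) ≤ N / 2 := Nat.cast_div_le
  have h7 := fmt_theta N
  have hlog : 0 < Real.log N := Real.log_pos (by linarith)
  rw [div_le_iff₀ (by positivity)]
  nlinarith

private theorem fmt_A (K M : ℕ) (h : 2 * M ^ 3 ≤ K) :
    (M : ℝ) * (((Ioc (K / 2) K).filter Nat.Prime).card : ℝ) ≤
      ∑ m ∈ Icc 1 M, ((((Ioc (m ^ 3) (m ^ 3 + K)).filter Nat.Prime).card : ℕ) : ℝ) := by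
  have h1 : (M : ℝ) * (((Ioc (K / 2) K).filter Nat.Prime).card : ℝ) =
      ∑ _m ∈ Icc 1 M, (((Ioc (K / 2) K).filter Nat.Prime).card : ℝ) := by
    rw [sum_const, Nat.card_Icc, nsmul_eq_mul]
    simp
  rw [h1]
  refine sum_le_sum fun m hm => ?_
  rw [mem_Icc] at hm
  have h2 : m ^ 3 ≤ M ^ 3 := Nat.pow_le_pow_left hm.2 3
  have h3 : (Ioc (K / 2) K).filter Nat.Prime ⊆ (Ioc (m ^ 3) (m ^ 3 + K)).filter Nat.Prime := by
    intro p hp
    rw [mem_filter, mem_Ioc] at hp ⊢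
    refine ⟨⟨?_, ?_⟩, hp.2⟩ <;> omega
  exact_mod_cast card_le_card h3

private theorem fmt_one (K M p : ℕ) (hM : 12 * M ^ 2 ≤ K) (hK : K < 2 * M ^ 3) (hM4 : 4 ≤ M)
    (hp1 : M ^ 3 / 2 < p) (hp2 : p ≤ M ^ 3) :
    (K : ℝ) / (4 * M ^ 2) ≤
      (((Icc 1 M).filter (fun m => m ^ 3 < p ∧ p ≤ m ^ 3 + K)).card : ℝ) := by
  classical
  set m1 : ℕ := Nat.findGreatest (fun m => m ^ 3 < p) M with hm1
  have hp0 : 0 ^ 3 < p := by omega
  have h1 : m1 ^ 3 < p := Nat.findGreatest_spec (P := fun m => m ^ 3 < p) (Nat.zero_le M) hp0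
  have h2 : m1 < M := by
    by_contra h
    push Not at h
    have : M ^ 3 ≤ m1 ^ 3 := Nat.pow_le_pow_left h 3
    omega
  have h3 : p ≤ (m1 + 1) ^ 3 := by
    by_contra h
    push Not at h
    exact Nat.findGreatest_is_greatest (P := fun m => m ^ 3 < p) (n := M) (k := m1 + 1)
      (by omega) (by omega) h
  set J : ℕ := min m1 (K / (3 * M ^ 2)) with hJ
  have hJ1 : J ≤ m1 := min_le_left _ _
  have hJ2 : J * (3 * M ^ 2) ≤ K :=
    (Nat.mul_le_mul_right _ (min_le_right _ _)).trans (Nat.div_mul_le_self _ _)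
  have hsub : Ioc (m1 - J) m1 ⊆ (Icc 1 M).filter (fun m => m ^ 3 < p ∧ p ≤ m ^ 3 + K) := by
    intro m hm
    rw [mem_Ioc] at hm
    rw [mem_filter, mem_Icc]
    refine ⟨⟨by omega, by omega⟩, ?_, ?_⟩
    · exact (Nat.pow_le_pow_left hm.2 3).trans_lt h1
    · refine h3.trans ?_
      obtain ⟨j, hj⟩ : ∃ j, m1 + 1 = m + j := ⟨m1 + 1 - m, by omega⟩
      have hjJ : j ≤ J := by omega
      have hmM : m + j ≤ M := by omega
      rw [hj]
      have e1 : (m + j) ^ 3 = m ^ 3 + j * ((m + j) ^ 2 + (m + j) * m + m ^ 2) := by ring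
      rw [e1]
      have e2 : (m + j) ^ 2 + (m + j) * m + m ^ 2 ≤ 3 * M ^ 2 := by nlinarith
      have e3 : j * ((m + j) ^ 2 + (m + j) * m + m ^ 2) ≤ J * (3 * M ^ 2) :=
        Nat.mul_le_mul hjJ e2
      omega
  have hcard : (J : ℝ) ≤ (((Icc 1 M).filter (fun m => m ^ 3 < p ∧ p ≤ m ^ 3 + K)).card : ℝ) := by
    have := card_le_card hsub
    rw [Nat.card_Ioc] at this
    have h4 : J ≤ ((Icc 1 M).filter (fun m => m ^ 3 < p ∧ p ≤ m ^ 3 + K)).card := by omega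
    exact_mod_cast h4
  refine le_trans ?_ hcard
  have hMpos : (0 : ℝ) < M := by exact_mod_cast (by omega : 0 < M)
  have hM2 : (0 : ℝ) < (M : ℝ) ^ 2 := by positivity
  have hMr : 12 * (M : ℝ) ^ 2 ≤ K := by exact_mod_cast hM
  rw [hJ, Nat.cast_min]
  refine le_min ?_ ?_
  · -- K / (4 M^2) ≤ M / 2 ≤ m1
    have h5 : (K : ℝ) / (4 * M ^ 2) ≤ M / 2 := by
      rw [div_le_div_iff₀ (by positivity) (by norm_num)]
      have : (K : ℝ) < 2 * (M : ℝ) ^ 3 := by exact_mod_cast hK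
      nlinarith
    refine h5.trans ?_
    have h6 : M ≤ 2 * m1 := by
      by_contra h
      push Not at h
      have h7 : M ^ 3 < 2 * (m1 + 1) ^ 3 := by omega
      have h8 : 2 * (m1 + 1) ≤ M + 1 := by omega
      have h9 : (2 * (m1 + 1)) ^ 3 ≤ (M + 1) ^ 3 := Nat.pow_le_pow_left h8 3
      have h10 : 8 * (m1 + 1) ^ 3 ≤ (M + 1) ^ 3 := by
        have : (2 * (m1 + 1)) ^ 3 = 8 * (m1 + 1) ^ 3 := by ring
        omega
      have h11 : 4 * M ^ 3 < (M + 1) ^ 3 := by omega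
      obtain ⟨k, rfl⟩ : ∃ k, M = 4 + k := ⟨M - 4, by omega⟩
      have h12 : (4 + k + 1) ^ 3 + (3 * k ^ 3 + 33 * k ^ 2 + 117 * k + 131) = 4 * (4 + k) ^ 3 := by
        ring
      omega
    have h7 : (M : ℝ) ≤ 2 * m1 := by exact_mod_cast h6
    linarith
  · have h5 : (K : ℝ) / (3 * M ^ 2) - 1 ≤ ((K / (3 * M ^ 2) : ℕ) : ℝ) := by
      have h6 := Nat.lt_floor_add_one ((K : ℝ) / ((3 * M ^ 2 : ℕ) : ℝ))
      rw [Nat.floor_div_natCast, Nat.floor_natCast] at h6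
      push_cast at h6 ⊢
      linarith
    refine le_trans ?_ h5
    have h6 : (1 : ℝ) ≤ K / (12 * M ^ 2) := by
      rw [one_le_div (by positivity)]
      exact hMr
    have h7 : (K : ℝ) / (3 * M ^ 2) = K / (4 * M ^ 2) + K / (12 * M ^ 2) := by
      field_simp
      ring
    linarith

private theorem fmt_B (K M : ℕ) (hM : 12 * M ^ 2 ≤ K) (hK : K < 2 * M ^ 3) (hM4 : 4 ≤ M) :
    (((Ioc (M ^ 3 / 2) (M ^ 3)).filter Nat.Prime).card : ℝ) * ((K : ℝ) / (4 * M ^ 2)) ≤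
      ∑ m ∈ Icc 1 M, ((((Ioc (m ^ 3) (m ^ 3 + K)).filter Nat.Prime).card : ℕ) : ℝ) := by
  classical
  calc (((Ioc (M ^ 3 / 2) (M ^ 3)).filter Nat.Prime).card : ℝ) * ((K : ℝ) / (4 * M ^ 2))
      = ∑ _p ∈ (Ioc (M ^ 3 / 2) (M ^ 3)).filter Nat.Prime, ((K : ℝ) / (4 * M ^ 2)) := by
        rw [sum_const, nsmul_eq_mul]
    _ ≤ ∑ p ∈ (Ioc (M ^ 3 / 2) (M ^ 3)).filter Nat.Prime,
        (((Icc 1 M).filter (fun m => m ^ 3 < p ∧ p ≤ m ^ 3 + K)).card : ℝ) := by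
        refine sum_le_sum fun p hp => ?_
        rw [mem_filter, mem_Ioc] at hp
        exact fmt_one K M p hM hK hM4 hp.1.1 hp.1.2
    _ = ∑ m ∈ Icc 1 M, (((((Ioc (M ^ 3 / 2) (M ^ 3)).filter Nat.Prime).filter
        (fun p => m ^ 3 < p ∧ p ≤ m ^ 3 + K)).card : ℕ) : ℝ) := by
        simp only [card_filter _ (Icc 1 M), card_filter _ ((Ioc (M ^ 3 / 2) (M ^ 3)).filter Nat.Prime)]
        push_cast
        exact sum_comm
    _ ≤ ∑ m ∈ Icc 1 M, ((((Ioc (m ^ 3) (m ^ 3 + K)).filter Nat.Prime).card : ℕ) : ℝ) := by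
        refine sum_le_sum fun m _ => ?_
        have h1 : ((Ioc (M ^ 3 / 2) (M ^ 3)).filter Nat.Prime).filter
            (fun p => m ^ 3 < p ∧ p ≤ m ^ 3 + K) ⊆
            (Ioc (m ^ 3) (m ^ 3 + K)).filter Nat.Prime := by
          intro p hp
          rw [mem_filter, mem_filter] at hp
          rw [mem_filter, mem_Ioc]
          exact ⟨hp.2, hp.1.2⟩
        exact_mod_cast card_le_card h1

theorem fmt : ∃ c : ℝ, 0 < c ∧ ∃ K0 : ℕ, ∀ K : ℕ, K0 ≤ K → ∀ M : ℕ, 1 ≤ M → 12 * M ^ 2 ≤ K →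
    c * K * M / Real.log K ≤
      ∑ m ∈ Icc 1 M, ((((Ioc (m ^ 3) (m ^ 3 + K)).filter Nat.Prime).card : ℕ) : ℝ) := by
  obtain ⟨N0, hN0⟩ := fmt_half
  refine ⟨1 / 100, by norm_num, N0 + 2 * (N0 + 4) ^ 3 + 2, fun K hK M hM1 hM => ?_⟩
  have hK2 : (2 : ℝ) ≤ K := by exact_mod_cast (by omega : 2 ≤ K)
  have hlog : 0 < Real.log K := Real.log_pos (by linarith)
  have hMpos : (0 : ℝ) < M := by exact_mod_cast (by omega : 0 < M)
  have hKpos : (0 : ℝ) < K := by linarith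
  rcases le_or_gt (2 * M ^ 3) K with hA | hB
  · refine le_trans ?_ (fmt_A K M hA)
    have h1 := hN0 K (by omega)
    calc 1 / 100 * (K : ℝ) * M / Real.log K ≤ M * ((K : ℝ) / (3 * Real.log K)) := by
          rw [mul_div_assoc', div_le_div_iff₀ hlog (by positivity)]
          have : 0 < (K : ℝ) * M * Real.log K := by positivity
          nlinarith
      _ ≤ M * (((Ioc (K / 2) K).filter Nat.Prime).card : ℝ) := by gcongr
  · have hML : N0 + 4 ≤ M := by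
      by_contra h
      push Not at h
      have h2 : M ^ 3 ≤ (N0 + 4) ^ 3 := Nat.pow_le_pow_left h.le 3
      omega
    have hM4 : 4 ≤ M := by omega
    refine le_trans ?_ (fmt_B K M hM hB hM4)
    have hM3 : N0 ≤ M ^ 3 := by
      calc N0 ≤ M := by omega
        _ ≤ M ^ 3 := Nat.le_self_pow (by norm_num) M
    have h1 := hN0 (M ^ 3) hM3
    have hM1r : (4 : ℝ) ≤ M := by exact_mod_cast hM4
    have hlM : 0 < Real.log M := Real.log_pos (by linarith)
    have h3 : Real.log ((M ^ 3 : ℕ) : ℝ) ≤ 3 / 2 * Real.log K := by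
      have h4 : 2 * Real.log M ≤ Real.log K := by
        have h5 : Real.log ((M : ℝ) ^ 2) ≤ Real.log K := by
          refine Real.log_le_log (by positivity) ?_
          have : 12 * (M : ℝ) ^ 2 ≤ K := by exact_mod_cast hM
          nlinarith
        rw [Real.log_pow] at h5
        exact_mod_cast h5
      push_cast
      rw [Real.log_pow]
      push_cast
      linarith
    have h4 : 0 < Real.log ((M ^ 3 : ℕ) : ℝ) := by
      push_cast
      rw [Real.log_pow]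
      positivity
    have h5 : ((M : ℝ) ^ 3) / (9 / 2 * Real.log K) ≤
        (((Ioc (M ^ 3 / 2) (M ^ 3)).filter Nat.Prime).card : ℝ) := by
      refine le_trans ?_ h1
      push_cast
      refine div_le_div_of_nonneg_left (by positivity) (by
        push_cast at h4
        positivity) ?_
      push_cast at h3
      linarith
    calc 1 / 100 * (K : ℝ) * M / Real.log K
        ≤ ((M : ℝ) ^ 3) / (9 / 2 * Real.log K) * ((K : ℝ) / (4 * M ^ 2)) := by
          rw [div_mul_div_comm, div_le_div_iff₀ hlog (by positivity)]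
          have : 0 < (K : ℝ) * M ^ 3 * Real.log K := by positivity
          nlinarith
      _ ≤ (((Ioc (M ^ 3 / 2) (M ^ 3)).filter Nat.Prime).card : ℝ) * ((K : ℝ) / (4 * M ^ 2)) := by
          gcongr

end Pool.Agent.H98.PK
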