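import Pool.Agent.H98.PK.Defs

/-!
# [H98 PK PP] From `Λ` to primes

PROOF. `M` large, `M <= K <= M^(5/2) <= M^3`. All `n` of the sum are `<= M^3 + K <= 2 M^3`. Split `Λ(n)`: primes: `Λ(p) = log p <= log(2M^3) <= 4 log M`.
Not primes: each `n` occurs for at most `K^(1/3) + 1 <= 2 K^(1/3)` values of `m` (`m1 < m2` both with `n ∈ (m^3, m^3+K]`: `m2^3 - m1^3 < K`,
`(m2-m1)^3 <= m2^3 - m1^3`, so `m2 - m1 < K^(1/3)`), and `Σ_{n<=x, not prime} Λ(n) = ψ(x) - θ(x) <= C √x` (`Chebyshev.psi_sub_theta_le_mul_sqrt`, look up;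
`x = 2M^3`): together `<= 4 C K^(1/3) M^(3/2) <= (c/2) K M`, because `K M >= K^(1/3) K^(2/3) M >= K^(1/3) M^(5/3)`. So
`(c/2) K M <= 4 log M Σ_m #{primes}`; `c' = c/8`.
-/

namespace Pool.Agent.H98.PK

open Finset

/-- number of cubes in a window -/
private lemma cube_cnt (M K n : ℕ) (κ : ℝ) (hκ0 : 0 ≤ κ) (hκ : κ ^ 3 = K) :
    ((((Icc 1 M).filter fun m => n ∈ Ioc (m ^ 3) (m ^ 3 + K)).card : ℕ) : ℝ) ≤ κ + 1 := by
  set R := (Icc 1 M).filter fun m => n ∈ Ioc (m ^ 3) (m ^ 3 + K) with hR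
  rcases R.eq_empty_or_nonempty with h | h
  · rw [h]
    simp
    linarith
  set a := R.min' h with ha
  set b := R.max' h with hb
  have hab : a ≤ b := Finset.min'_le_max' R h
  have hsub : R ⊆ Icc a b := fun m hm =>
    mem_Icc.2 ⟨Finset.min'_le R m hm, Finset.le_max' R m hm⟩
  have hcard : R.card ≤ b - a + 1 := by
    refine (card_le_card hsub).trans ?_
    rw [Nat.card_Icc]
    omega
  have ha' := (mem_filter.1 (Finset.min'_mem R h)).2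
  have hb' := (mem_filter.1 (Finset.max'_mem R h)).2
  rw [mem_Ioc] at ha' hb'
  obtain ⟨d, hd⟩ := Nat.exists_eq_add_of_le hab
  have h1 : d ^ 3 + a ^ 3 ≤ b ^ 3 := by
    rw [hd]
    have : (a + d) ^ 3 = a ^ 3 + 3 * a ^ 2 * d + 3 * a * d ^ 2 + d ^ 3 := by ring
    rw [this]
    have h2 : 0 ≤ 3 * a ^ 2 * d + 3 * a * d ^ 2 := Nat.zero_le _
    omega
  have h2 : d ^ 3 ≤ K := by
    have h3 := ha'.2
    have h4 := hb'.1
    rw [← ha] at h3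
    rw [← hb] at h4
    omega
  have h3 : (d : ℝ) ≤ κ := by
    have h4 : (d : ℝ) ^ 3 ≤ κ ^ 3 := by
      rw [hκ]
      exact_mod_cast h2
    exact le_of_pow_le_pow_left₀ (by norm_num) hκ0 h4
  have h4 : b - a = d := by omega
  rw [h4] at hcard
  have h5 : ((R.card : ℕ) : ℝ) ≤ (d : ℝ) + 1 := by exact_mod_cast hcard
  linarith

open ArithmeticFunction in
private lemma nonprime_sum (M K X2 : ℕ) (hX : ∀ m ∈ Icc 1 M, m ^ 3 + K ≤ X2) (κ : ℝ)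
    (hκ0 : 0 ≤ κ) (hκ : κ ^ 3 = K) :
    ∑ m ∈ Icc 1 M, ∑ n ∈ (Ioc (m ^ 3) (m ^ 3 + K)).filter (fun n => ¬ n.Prime), vonMangoldt n ≤
      (κ + 1) * ∑ n ∈ (Ioc 0 X2).filter (fun n => ¬ n.Prime), vonMangoldt n := by
  have h1 : ∀ m ∈ Icc 1 M,
      ∑ n ∈ (Ioc (m ^ 3) (m ^ 3 + K)).filter (fun n => ¬ n.Prime), vonMangoldt n =
      ∑ n ∈ (Ioc 0 X2).filter (fun n => ¬ n.Prime),
        if n ∈ Ioc (m ^ 3) (m ^ 3 + K) then vonMangoldt n else 0 := by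
    intro m hm
    rw [← Finset.sum_filter]
    refine Finset.sum_congr ?_ fun _ _ => rfl
    ext n
    simp only [mem_filter, mem_Ioc]
    have h2 := hX m hm
    constructor
    · rintro ⟨⟨h3, h4⟩, h5⟩
      exact ⟨⟨⟨by omega, by omega⟩, h5⟩, h3, h4⟩
    · rintro ⟨⟨_, h5⟩, h3, h4⟩
      exact ⟨⟨h3, h4⟩, h5⟩
  rw [Finset.sum_congr rfl h1, Finset.sum_comm, Finset.mul_sum]
  refine Finset.sum_le_sum fun n _ => ?_
  rw [← Finset.sum_filter, Finset.sum_const, nsmul_eq_mul]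
  exact mul_le_mul_of_nonneg_right (cube_cnt M K n κ hκ0 hκ) vonMangoldt_nonneg

theorem pp (c : ℝ) (hc : 0 < c) : ∃ M1 : ℕ, ∀ M : ℕ, M1 ≤ M → ∀ K : ℕ, M ≤ K →
    (K : ℝ) ≤ (M : ℝ) ^ (5 / 2 : ℝ) →
    c * K * M ≤ ∑ m ∈ Icc 1 M, ∑ n ∈ Ioc (m ^ 3) (m ^ 3 + K), ArithmeticFunction.vonMangoldt n →
    c / 8 * K * M / Real.log M ≤
      ∑ m ∈ Icc 1 M, ((((Ioc (m ^ 3) (m ^ 3 + K)).filter Nat.Prime).card : ℕ) : ℝ) := by
  obtain ⟨C, hC⟩ := Chebyshev.psi_sub_theta_le_mul_sqrt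
  set C' : ℝ := |C| + 1 with hC'
  have hC'0 : 0 < C' := by have := abs_nonneg C; linarith
  have hCC : C ≤ C' := by have := le_abs_self C; linarith
  refine ⟨max 2 ⌈(6 * C' / c) ^ 6⌉₊, fun M hM K hMK hK h => ?_⟩
  have hM2 : 2 ≤ M := (le_max_left _ _).trans hM
  have hM2' : (2 : ℝ) ≤ M := by exact_mod_cast hM2
  have hM0 : (0 : ℝ) < M := by linarith
  have hMC : (6 * C' / c) ^ 6 ≤ (M : ℝ) := by
    have h1 := Nat.le_ceil ((6 * C' / c) ^ 6)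
    have h2 : (⌈(6 * C' / c) ^ 6⌉₊ : ℝ) ≤ M := by
      have : ⌈(6 * C' / c) ^ 6⌉₊ ≤ M := (le_max_right _ _).trans hM
      exact_mod_cast this
    linarith
  have hK0 : (0 : ℝ) < K := by
    have : 0 < K := by omega
    exact_mod_cast this
  -- roots
  obtain ⟨κ, hκ0, hκ⟩ : ∃ κ : ℝ, 0 ≤ κ ∧ κ ^ 3 = K := by
    refine ⟨(K : ℝ) ^ ((1 : ℝ) / 3), by positivity, ?_⟩
    rw [← Real.rpow_natCast, ← Real.rpow_mul hK0.le]
    norm_num
  obtain ⟨μ, hμ0, hμ⟩ : ∃ μ : ℝ, 0 ≤ μ ∧ μ ^ 6 = M := by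
    refine ⟨(M : ℝ) ^ ((1 : ℝ) / 6), by positivity, ?_⟩
    rw [← Real.rpow_natCast, ← Real.rpow_mul hM0.le]
    norm_num
  have hμ1 : 1 ≤ μ := by
    by_contra hcon
    push Not at hcon
    have : μ ^ 6 ≤ 1 := pow_le_one₀ hμ0 hcon.le
    linarith
  have hμC : 6 * C' / c ≤ μ := by
    rw [← hμ] at hMC
    exact le_of_pow_le_pow_left₀ (by norm_num) hμ0 hMC
  have hκμ : μ ^ 2 ≤ κ := by
    have h1 : (μ ^ 2) ^ 3 ≤ κ ^ 3 := by
      rw [hκ, ← pow_mul]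
      norm_num
      rw [hμ]
      exact_mod_cast hMK
    exact le_of_pow_le_pow_left₀ (by norm_num) hκ0 h1
  have hκ1 : 1 ≤ κ := by nlinarith
  -- the size of n
  have hKM : (K : ℝ) ≤ (M : ℝ) ^ 3 := by
    refine hK.trans ?_
    rw [← Real.rpow_natCast]
    exact Real.rpow_le_rpow_of_exponent_le (by linarith) (by norm_num)
  have hKM' : K ≤ M ^ 3 := by exact_mod_cast hKM
  have hX : ∀ m ∈ Icc 1 M, m ^ 3 + K ≤ 2 * M ^ 3 := by
    intro m hm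
    have h1 : m ^ 3 ≤ M ^ 3 := Nat.pow_le_pow_left (mem_Icc.1 hm).2 3
    omega
  have hnp := nonprime_sum M K (2 * M ^ 3) hX κ hκ0 hκ
  have hpsi : ∑ n ∈ (Ioc 0 (2 * M ^ 3)).filter (fun n => ¬ n.Prime),
      ArithmeticFunction.vonMangoldt n ≤ C' * (3 / 2 * μ ^ 9) := by
    have h1 := Chebyshev.psi_sub_theta_eq_sum_not_prime ((2 * M ^ 3 : ℕ) : ℝ)
    rw [Nat.floor_natCast] at h1
    rw [← h1]
    refine (hC _).trans ?_
    have h2 : Real.sqrt ((2 * M ^ 3 : ℕ) : ℝ) ≤ 3 / 2 * μ ^ 9 := by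
      rw [Real.sqrt_le_left (by positivity)]
      push_cast
      rw [← hμ]
      have h3 : (3 / 2 * μ ^ 9) ^ 2 = 9 / 4 * (μ ^ 6) ^ 3 := by ring
      rw [h3]
      have h4 : 0 ≤ (μ ^ 6) ^ 3 := by positivity
      linarith
    exact mul_le_mul hCC h2 (Real.sqrt_nonneg _) hC'0.le
  have hnp2 : ∑ m ∈ Icc 1 M, ∑ n ∈ (Ioc (m ^ 3) (m ^ 3 + K)).filter (fun n => ¬ n.Prime),
      ArithmeticFunction.vonMangoldt n ≤ c / 2 * K * M := by
    refine hnp.trans ((mul_le_mul_of_nonneg_left hpsi (by linarith)).trans ?_)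
    rw [← hκ, ← hμ]
    have h1 : 6 * C' ≤ c * μ := by
      rw [div_le_iff₀ hc] at hμC
      linarith
    have h2 : 0 ≤ κ * μ ^ 9 := by positivity
    calc (κ + 1) * (C' * (3 / 2 * μ ^ 9)) ≤ (2 * κ) * (C' * (3 / 2 * μ ^ 9)) :=
          mul_le_mul_of_nonneg_right (by linarith) (by positivity)
      _ = 1 / 2 * (6 * C') * (κ * μ ^ 9) := by ring
      _ ≤ 1 / 2 * (c * μ) * (κ * μ ^ 9) :=
          mul_le_mul_of_nonneg_right (by linarith) h2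
      _ = c / 2 * (κ * μ ^ 6) * (μ ^ 2) ^ 2 := by ring
      _ ≤ c / 2 * (κ * μ ^ 6) * κ ^ 2 := by
          apply mul_le_mul_of_nonneg_left _ (by positivity)
          exact pow_le_pow_left₀ (by positivity) hκμ 2
      _ = c / 2 * κ ^ 3 * μ ^ 6 := by ring
  -- primes
  have hlogM : 0 < Real.log M := Real.log_pos (by linarith)
  have hpr : ∀ m ∈ Icc 1 M,
      ∑ n ∈ (Ioc (m ^ 3) (m ^ 3 + K)).filter Nat.Prime, ArithmeticFunction.vonMangoldt n ≤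
      4 * Real.log M * ((((Ioc (m ^ 3) (m ^ 3 + K)).filter Nat.Prime).card : ℕ) : ℝ) := by
    intro m hm
    have h1 : ∀ n ∈ (Ioc (m ^ 3) (m ^ 3 + K)).filter Nat.Prime,
        ArithmeticFunction.vonMangoldt n ≤ 4 * Real.log M := by
      intro n hn
      rw [mem_filter, mem_Ioc] at hn
      rw [ArithmeticFunction.vonMangoldt_apply_prime hn.2]
      have h2 : (n : ℝ) ≤ 2 * (M : ℝ) ^ 3 := by
        have := hn.1.2.trans (hX m hm)
        exact_mod_cast this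
      have h3 : (n : ℝ) ≤ (M : ℝ) ^ 4 := by
        have h4 : 2 * (M : ℝ) ^ 3 ≤ M * (M : ℝ) ^ 3 :=
          mul_le_mul_of_nonneg_right hM2' (by positivity)
        calc (n : ℝ) ≤ 2 * (M : ℝ) ^ 3 := h2
          _ ≤ M * (M : ℝ) ^ 3 := h4
          _ = (M : ℝ) ^ 4 := by ring
      have h4 : (0 : ℝ) < n := by exact_mod_cast hn.2.pos
      calc Real.log n ≤ Real.log ((M : ℝ) ^ 4) := Real.log_le_log h4 h3
        _ = 4 * Real.log M := by rw [Real.log_pow]; norm_num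
    refine (Finset.sum_le_card_nsmul _ _ _ h1).trans_eq ?_
    rw [nsmul_eq_mul, mul_comm]
  have hsplit : ∑ m ∈ Icc 1 M, ∑ n ∈ Ioc (m ^ 3) (m ^ 3 + K), ArithmeticFunction.vonMangoldt n =
      ∑ m ∈ Icc 1 M, ∑ n ∈ (Ioc (m ^ 3) (m ^ 3 + K)).filter Nat.Prime,
        ArithmeticFunction.vonMangoldt n +
      ∑ m ∈ Icc 1 M, ∑ n ∈ (Ioc (m ^ 3) (m ^ 3 + K)).filter (fun n => ¬ n.Prime),
        ArithmeticFunction.vonMangoldt n := by
    rw [← Finset.sum_add_distrib]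
    exact Finset.sum_congr rfl fun m _ => (Finset.sum_filter_add_sum_filter_not _ _ _).symm
  have hpr2 := Finset.sum_le_sum hpr
  rw [← Finset.mul_sum] at hpr2
  rw [hsplit] at h
  rw [div_le_iff₀ hlogM]
  have h9 : c * K * M = c / 2 * K * M + c / 2 * K * M := by ring
  have h10 : c / 8 * K * M = (c / 2 * K * M) / 4 := by ring
  rw [h10]
  generalize ∑ m ∈ Icc 1 M, ((((Ioc (m ^ 3) (m ^ 3 + K)).filter Nat.Prime).card : ℕ) : ℝ) = Z at *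
  linarith

end Pool.Agent.H98.PK
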