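import Pool.Agent.H98.PK.Fm
import Pool.Agent.H98.PK.Pp
import Pool.Agent.H98.PK.Fmt

/-!
# [H98 PK FA] First moment, all `1 <= M <= K^(1-ε)`

PROOF. `Σ_{k<=K} #{m<=M : m^3+k prime} = Σ_{m<=M} #{p prime : m^3 < p <= m^3+K}` (exchange the sums, `p = m^3+k`). If `12 M^2 <= K`: `fmt`. Otherwise
`K < 12 M^2 <= M^(5/2)` (`M >= √(K/12)` is large), and `M <= K^(1-ε)` gives `K >= M^(1/(1-ε)) >= M^(1+ε)` (`(1+ε)(1-ε) <= 1`): `fm ε`, `pp`, and `log M <= log K`
(`M <= K`).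
-/

namespace Pool.Agent.H98.PK

open Finset

/-- the number of `m <= M` with `m^3+k` prime -/
def nk (M k : ℕ) : ℕ := ((Icc 1 M).filter fun m => (m ^ 3 + k).Prime).card

private lemma nk_swap (M K : ℕ) : ∑ k ∈ Icc 1 K, (nk M k : ℝ) =
    ∑ m ∈ Icc 1 M, ((((Ioc (m ^ 3) (m ^ 3 + K)).filter Nat.Prime).card : ℕ) : ℝ) := by
  have h1 : ∀ m, ((Ioc (m ^ 3) (m ^ 3 + K)).filter Nat.Prime).card =
      ((Icc 1 K).filter fun k => (m ^ 3 + k).Prime).card := by
    intro m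
    have : (Ioc (m ^ 3) (m ^ 3 + K)).filter Nat.Prime =
        ((Icc 1 K).filter fun k => (m ^ 3 + k).Prime).map (addLeftEmbedding (m ^ 3)) := by
      ext n
      simp only [mem_filter, mem_Ioc, mem_map, mem_Icc, addLeftEmbedding_apply]
      constructor
      · rintro ⟨⟨h2, h3⟩, h4⟩
        refine ⟨n - m ^ 3, ⟨⟨by omega, by omega⟩, ?_⟩, by omega⟩
        have : m ^ 3 + (n - m ^ 3) = n := by omega
        rwa [this]
      · rintro ⟨k, ⟨⟨h2, h3⟩, h4⟩, rfl⟩
        exact ⟨⟨by omega, by omega⟩, h4⟩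
    rw [this, card_map]
  simp_rw [h1]
  unfold nk
  simp_rw [card_filter]
  push_cast
  rw [Finset.sum_comm]

theorem fa (ε : ℝ) (hε : 0 < ε) (hε1 : ε < 1) : ∃ c : ℝ, 0 < c ∧ ∃ K0 : ℕ, ∀ K : ℕ, K0 ≤ K →
    ∀ M : ℕ, 1 ≤ M → (M : ℝ) ≤ (K : ℝ) ^ (1 - ε) →
    c * K * M / Real.log K ≤ ∑ k ∈ Icc 1 K, (nk M k : ℝ) := by
  obtain ⟨ca, hca, Ka, ha⟩ := fmt
  obtain ⟨cb, hcb, Mb, hb⟩ := fm ε hε hε1.le
  obtain ⟨Mc, hc⟩ := pp cb hcb
  refine ⟨min ca (cb / 8), lt_min hca (by linarith),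
    max (max Ka 3) (12 * (max (max Mb Mc) 144) ^ 2), ?_⟩
  intro K hK M hM1 hMK
  have hKa : Ka ≤ K := (le_max_left _ _).trans ((le_max_left _ _).trans hK)
  have hK3 : 3 ≤ K := (le_max_right _ _).trans ((le_max_left _ _).trans hK)
  have hKb : 12 * (max (max Mb Mc) 144) ^ 2 ≤ K := (le_max_right _ _).trans hK
  have hK3' : (3 : ℝ) ≤ K := by exact_mod_cast hK3
  have hlogK : 0 < Real.log K := Real.log_pos (by linarith)
  have hM0 : (0 : ℝ) < M := by exact_mod_cast hM1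
  have hM1' : (1 : ℝ) ≤ M := by exact_mod_cast hM1
  rw [nk_swap]
  have hKM0 : 0 ≤ (K : ℝ) * M / Real.log K := by positivity
  by_cases h12 : 12 * M ^ 2 ≤ K
  · have h1 := ha K hKa M hM1 h12
    refine le_trans ?_ h1
    have h2 := mul_le_mul_of_nonneg_right (min_le_left ca (cb / 8)) hKM0
    calc min ca (cb / 8) * K * M / Real.log K = min ca (cb / 8) * (K * M / Real.log K) := by ring
      _ ≤ ca * (K * M / Real.log K) := h2
      _ = ca * K * M / Real.log K := by ring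
  · push Not at h12
    have hMx : max (max Mb Mc) 144 ≤ M := by
      by_contra hcon
      push Not at hcon
      have h1 : M ^ 2 ≤ (max (max Mb Mc) 144) ^ 2 := Nat.pow_le_pow_left hcon.le 2
      omega
    have hMb : Mb ≤ M := (le_max_left _ _).trans ((le_max_left _ _).trans hMx)
    have hMc : Mc ≤ M := (le_max_right _ _).trans ((le_max_left _ _).trans hMx)
    have hM144 : 144 ≤ M := (le_max_right _ _).trans hMx
    have hM144' : (144 : ℝ) ≤ M := by exact_mod_cast hM144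
    have hK1 : (M : ℝ) ^ (1 + ε) ≤ K := by
      have h1 : (M : ℝ) ^ (1 + ε) ≤ ((K : ℝ) ^ (1 - ε)) ^ (1 + ε) :=
        Real.rpow_le_rpow hM0.le hMK (by linarith)
      rw [← Real.rpow_mul (by linarith)] at h1
      have h2 : (K : ℝ) ^ ((1 - ε) * (1 + ε)) ≤ (K : ℝ) ^ (1 : ℝ) :=
        Real.rpow_le_rpow_of_exponent_le (by linarith) (by nlinarith)
      rw [Real.rpow_one] at h2
      exact h1.trans h2
    have hK2 : (K : ℝ) ≤ (M : ℝ) ^ (5 / 2 : ℝ) := by
      have h1 : (K : ℝ) ≤ 12 * (M : ℝ) ^ 2 := by exact_mod_cast h12.le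
      have h2 : (M : ℝ) ^ (5 / 2 : ℝ) = (M : ℝ) ^ 2 * (M : ℝ) ^ (1 / 2 : ℝ) := by
        rw [← Real.rpow_natCast, ← Real.rpow_add hM0]
        norm_num
      have h3 : (12 : ℝ) ≤ (M : ℝ) ^ (1 / 2 : ℝ) := by
        rw [← Real.sqrt_eq_rpow]
        apply Real.le_sqrt_of_sq_le
        linarith
      rw [h2]
      have h4 : 0 ≤ (M : ℝ) ^ 2 := by positivity
      nlinarith
    have hMK' : M ≤ K := by
      have h1 : (M : ℝ) ≤ (M : ℝ) ^ (1 + ε) := by
        have := Real.rpow_le_rpow_of_exponent_le hM1' (by linarith : (1 : ℝ) ≤ 1 + ε)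
        rwa [Real.rpow_one] at this
      exact_mod_cast h1.trans hK1
    have h1 := hc M hMc K hMK' hK2 (hb M hMb K hK1 hK2)
    refine le_trans ?_ h1
    have hlogM : 0 < Real.log M := Real.log_pos (by linarith)
    have hlog : Real.log M ≤ Real.log K := Real.log_le_log hM0 (by exact_mod_cast hMK')
    have h2 := mul_le_mul_of_nonneg_right (min_le_right ca (cb / 8)) hKM0
    have h3 : (K : ℝ) * M / Real.log K ≤ K * M / Real.log M :=
      div_le_div_of_nonneg_left (by positivity) hlogM hlog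
    calc min ca (cb / 8) * K * M / Real.log K = min ca (cb / 8) * (K * M / Real.log K) := by ring
      _ ≤ cb / 8 * (K * M / Real.log K) := h2
      _ ≤ cb / 8 * (K * M / Real.log M) := mul_le_mul_of_nonneg_left h3 (by linarith)
      _ = cb / 8 * K * M / Real.log M := by ring

end Pool.Agent.H98.PK
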