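import Pool.Agent.H98.PK.Sm

/-!
# [H98 PK FIN] The theorem

PROOF. W.l.o.g. `ε <= 1/2` (the condition `M <= K^(1-ε)` is stronger for larger `ε`). `c1`, `C2` from `fa`, `sm`; `c = min(c1/2, c1^2/(4 C2))`. `y = c M/log K > 0`.
Let `G` be the set of `k <= K` with `nk M k >= y`. `Σ_{k∉G} nk M k <= K y <= (c1/2) K M/log K`, so `Σ_{k∈G} nk M k >= (c1/2) K M/log K`, and by Cauchy-Schwarz
`((c1/2) K M/log K)^2 <= #G Σ_k (nk M k)^2 <= #G C2 K (M/log K)^2`, `#G >= c1^2 K/(4 C2)`. (`M >= log K > 0`, `K >= 3`.)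
-/

namespace Pool.Agent.H98.PK

open Finset

theorem fin_thm (ε : ℝ) (hε : 0 < ε) : ∃ c : ℝ, 0 < c ∧ ∃ K0 : ℕ, ∀ K : ℕ, K0 ≤ K → ∀ M : ℕ,
    Real.log K ≤ M → (M : ℝ) ≤ (K : ℝ) ^ (1 - ε) →
    c * K ≤ ((((Icc 1 K).filter fun k =>
      c * (M / Real.log K) ≤ (((Icc 1 M).filter fun m => (m ^ 3 + k).Prime).card : ℝ)).card : ℕ) : ℝ) := by
  have hmin : 0 < min ε (1 / 2) := lt_min hε (by norm_num)
  obtain ⟨c, hc, K0, h1⟩ := fa (min ε (1 / 2)) hmin
    (lt_of_le_of_lt (min_le_right _ _) (by norm_num))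
  obtain ⟨c', hc', h2⟩ := Pool.Agent.H96.FM.pos_prop c hc
  refine ⟨c', hc', max K0 3, ?_⟩
  intro K hK M hM hMK
  have hK0 : K0 ≤ K := (le_max_left _ _).trans hK
  have hK3 : 3 ≤ K := (le_max_right _ _).trans hK
  have hKR : (3 : ℝ) ≤ K := by exact_mod_cast hK3
  have hlog : 0 < Real.log K := Real.log_pos (by linarith)
  have hM1 : 1 ≤ M := by
    by_contra h
    have : M = 0 := by omega
    rw [this] at hM
    push_cast at hM
    linarith
  have hMK' : (M : ℝ) ≤ (K : ℝ) ^ (1 - min ε (1 / 2)) := by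
    refine hMK.trans ?_
    apply Real.rpow_le_rpow_of_exponent_le (by linarith)
    have := min_le_left ε (1 / 2)
    linarith
  have h3 := h1 K hK0 M hM1 hMK'
  apply h2 K M (by omega) hM
  refine le_trans (le_of_eq ?_) h3
  ring

end Pool.Agent.H98.PK
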