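import Pool.Agent.H98.PK.Win
import Pool.Agent.H98.PK.Mul

/-!
# [H98 PK FM] First moment with `Λ`, `M^(1+δ) <= K <= M^(5/2)`

PROOF. `r = ⌈40/δ⌉₊`, `β = 1/(r+2)`, `40 β <= δ`, `r >= 1`. For `g ∈ GG r M`: `bct1`, `bct2`, `win`:
`c K N ∏ #(P i) <= Σ_{x∈tup} h(mv x)`, `h(m) = Σ_{n∈(m^3,m^3+K]} Λ(n) >= 0`. Sum over `g`: `bct3` (left `>= c c' K M`), `mul` (right `<= C Σ_{m<=M} h(m)`).
-/

namespace Pool.Agent.H98.PK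

open Finset

theorem fm (δ : ℝ) (hδ : 0 < δ) (hδ1 : δ ≤ 1) : ∃ c : ℝ, 0 < c ∧ ∃ M1 : ℕ, ∀ M : ℕ, M1 ≤ M →
    ∀ K : ℕ, (M : ℝ) ^ (1 + δ) ≤ K → (K : ℝ) ≤ (M : ℝ) ^ (5 / 2 : ℝ) →
    c * K * M ≤ ∑ m ∈ Icc 1 M, ∑ n ∈ Ioc (m ^ 3) (m ^ 3 + K), ArithmeticFunction.vonMangoldt n := by
  obtain ⟨r, hr1, hrδ⟩ : ∃ r : ℕ, 1 ≤ r ∧ 40 * (1 / ((r : ℝ) + 2)) ≤ δ := by
    refine ⟨⌈40 / δ⌉₊ + 1, by omega, ?_⟩
    have h1 := Nat.le_ceil (40 / δ)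
    rw [div_le_iff₀ hδ] at h1
    push_cast
    have h2 : (0 : ℝ) < (⌈40 / δ⌉₊ : ℝ) + 1 + 2 := by positivity
    rw [mul_one_div, div_le_iff₀ h2]
    nlinarith
  have hβ : (0 : ℝ) < 1 / ((r : ℝ) + 2) := by positivity
  obtain ⟨cw, hcw, Mw, hw⟩ := win r (1 / ((r : ℝ) + 2)) δ hβ hrδ hδ1
  obtain ⟨M₁, h1⟩ := bct1 r hr1
  obtain ⟨M₂, h2⟩ := bct2 r hr1
  obtain ⟨c3, hc3, M₃, h3⟩ := bct3 r hr1
  obtain ⟨Cm, hCm, M₄, h4⟩ := mul r hr1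
  refine ⟨cw * c3 / Cm, by positivity, max (max Mw M₁) (max (max M₂ M₃) M₄), ?_⟩
  intro M hM K hK1 hK2
  have hMw : Mw ≤ M := (le_max_left _ _).trans ((le_max_left _ _).trans hM)
  have hM₁ : M₁ ≤ M := (le_max_right _ _).trans ((le_max_left _ _).trans hM)
  have hM' : max (max M₂ M₃) M₄ ≤ M := (le_max_right _ _).trans hM
  have hM₂ : M₂ ≤ M := (le_max_left _ _).trans ((le_max_left _ _).trans hM')
  have hM₃ : M₃ ≤ M := (le_max_right _ _).trans ((le_max_left _ _).trans hM')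
  have hM₄ : M₄ ≤ M := (le_max_right _ _).trans hM'
  have e1 : ∑ g ∈ GG r M, cw * K * (Ng r M g * ∏ i, ((Pg r M g i).card : ℝ)) ≤
      ∑ g ∈ GG r M, ∑ x ∈ tup (Ng r M g) (Pg r M g), ∑ n ∈ Ioc (mv x ^ 3) (mv x ^ 3 + K),
        ArithmeticFunction.vonMangoldt n :=
    Finset.sum_le_sum fun g hg =>
      hw M hMw (Ng r M g) (Fg r M g) (Pg r M g) (h1 M hM₁ g hg) K hK1 hK2 (h2 M hM₂ g hg)
  have e2 := h4 M hM₄ (fun m => ∑ n ∈ Ioc (m ^ 3) (m ^ 3 + K), ArithmeticFunction.vonMangoldt n)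
    (fun m => Finset.sum_nonneg fun n _ => ArithmeticFunction.vonMangoldt_nonneg)
  have e3 := h3 M hM₃
  rw [← Finset.mul_sum] at e1
  have e4 : cw * K * (c3 * M) ≤
      cw * K * ∑ g ∈ GG r M, (Ng r M g : ℝ) * ∏ i, ((Pg r M g i).card : ℝ) :=
    mul_le_mul_of_nonneg_left e3 (by positivity)
  have e5 := (e4.trans e1).trans e2
  have e6 : cw * c3 / Cm * K * M = (cw * K * (c3 * M)) / Cm := by ring
  rw [e6, div_le_iff₀ hCm]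
  linarith

end Pool.Agent.H98.PK
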