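import Pool.Agent.H98.PK.Cnt

/-!
# [H98 PK GCN] The counting lemma with Gaussian weights

`Σ_{x ∈ qd A Q} exp(-(T qx x)^2) <= 100 (A Q (1+log A)(1+log Q) + (AQ)^2/T)` for `A, Q >= 1`, `T > 0`.

PROOF. For real `y` and the least natural number `j` with `|y| <= 2^j`: `exp(-y^2) <= 4 * 4^(-j)` (`j = 0`: clear; `j >= 1`:
`|y| > 2^(j-1)`, `exp(-y^2) <= 1/(1+y^2) <= 1/y^2 <= 4 * 4^(-j)`). Let `J` be so large that `T |qx x| <= 2^J` for all
`x ∈ qd A Q` (finite set). Then `exp(-(T qx x)^2) <= Σ_{j<=J} 4 * 4^(-j) 1[|T qx x| <= 2^j]`, and by `cnt` with `T/2^j`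
`Σ_x exp(..) <= Σ_{j<=J} 4*4^(-j) (A Q (1+log A)(1+log Q) + 6 (AQ)^2 2^j/T) <= (16/3) A Q (..)(..) + 48 (AQ)^2/T`.
-/

namespace Pool.Agent.H98.PK

open Finset

private theorem gcn_pt (J : ℕ) (y : ℝ) (hy : |y| ≤ 2 ^ J) :
    Real.exp (-y ^ 2) ≤ ∑ j ∈ range (J + 1), 4 * (1 / 4 : ℝ) ^ j * (if |y| ≤ 2 ^ j then 1 else 0) := by
  classical
  have hex : ∃ j : ℕ, |y| ≤ (2 : ℝ) ^ j := ⟨J, hy⟩
  obtain ⟨j, hj⟩ : ∃ j, j = Nat.find hex := ⟨_, rfl⟩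
  have h1 : |y| ≤ (2 : ℝ) ^ j := by rw [hj]; exact Nat.find_spec hex
  have h2 : j ≤ J := by rw [hj]; exact Nat.find_min' hex hy
  have h3 : 4 * (1 / 4 : ℝ) ^ j * (if |y| ≤ 2 ^ j then 1 else 0) ≤
      ∑ j ∈ range (J + 1), 4 * (1 / 4 : ℝ) ^ j * (if |y| ≤ 2 ^ j then 1 else 0) :=
    Finset.single_le_sum (f := fun j => 4 * (1 / 4 : ℝ) ^ j * (if |y| ≤ 2 ^ j then 1 else 0))
      (fun i _ => by positivity) (mem_range.2 (by omega))
  refine le_trans ?_ h3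
  rw [if_pos h1, mul_one]
  rcases Nat.eq_zero_or_pos j with h0 | h0
  · rw [h0, pow_zero, mul_one]
    have : Real.exp (-y ^ 2) ≤ 1 := Real.exp_le_one_iff.2 (by nlinarith [sq_nonneg y])
    linarith
  · obtain ⟨i, rfl⟩ : ∃ i, j = i + 1 := ⟨j - 1, by omega⟩
    have h4 : (2 : ℝ) ^ i < |y| := by
      have := Nat.find_min hex (m := i) (by omega)
      exact not_le.1 this
    have h5 : (4 : ℝ) ^ i ≤ y ^ 2 := by
      rw [← sq_abs]
      calc (4 : ℝ) ^ i = ((2 : ℝ) ^ i) ^ 2 := by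
            rw [← pow_mul, mul_comm, pow_mul]; norm_num
        _ ≤ |y| ^ 2 := pow_le_pow_left₀ (by positivity) h4.le _
    have h6 : y ^ 2 ≤ Real.exp (y ^ 2) := by
      have := Real.add_one_le_exp (y ^ 2)
      linarith
    rw [Real.exp_neg]
    have h7 : (4 : ℝ) ^ i ≤ Real.exp (y ^ 2) := h5.trans h6
    have h8 : 4 * (1 / 4 : ℝ) ^ (i + 1) = ((4 : ℝ) ^ i)⁻¹ := by
      rw [pow_succ, one_div, inv_pow]
      ring
    rw [h8]
    exact inv_anti₀ (by positivity) h7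

theorem gcn (A Q : ℕ) (T : ℝ) (hA : 1 ≤ A) (hQ : 1 ≤ Q) (hT : 0 < T) :
    ∑ x ∈ qd A Q, Real.exp (-(T * qx x) ^ 2) ≤
      100 * (A * Q * (1 + Real.log A) * (1 + Real.log Q) + (A * Q) ^ 2 / T) := by
  classical
  obtain ⟨J, hJ⟩ : ∃ J : ℕ, ∀ x ∈ qd A Q, |T * qx x| ≤ (2 : ℝ) ^ J := by
    obtain ⟨J, hJ⟩ := pow_unbounded_of_one_lt (∑ x ∈ qd A Q, |T * qx x|)
      (by norm_num : (1 : ℝ) < 2)
    exact ⟨J, fun x hx => (Finset.single_le_sum (f := fun x => |T * qx x|)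
      (fun i _ => abs_nonneg _) hx).trans hJ.le⟩
  have hAR : (1 : ℝ) ≤ A := by exact_mod_cast hA
  have hQR : (1 : ℝ) ≤ Q := by exact_mod_cast hQ
  have hlA : 0 ≤ Real.log A := Real.log_nonneg hAR
  have hlQ : 0 ≤ Real.log Q := Real.log_nonneg hQR
  obtain ⟨U, hU⟩ : ∃ U : ℝ, U = A * Q * (1 + Real.log A) * (1 + Real.log Q) := ⟨_, rfl⟩
  obtain ⟨V, hV⟩ : ∃ V : ℝ, V = (A * Q : ℝ) ^ 2 / T := ⟨_, rfl⟩
  have hU0 : 0 ≤ U := by rw [hU]; positivity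
  have hV0 : 0 ≤ V := by rw [hV]; positivity
  have h1 : ∀ j : ℕ, (∑ x ∈ qd A Q, (if |T * qx x| ≤ 2 ^ j then (1 : ℝ) else 0)) ≤
      U + 6 * V * 2 ^ j := by
    intro j
    have hTj : 0 < T / 2 ^ j := by positivity
    have h2 := cnt A Q (T / 2 ^ j) hA hQ hTj
    rw [← Finset.sum_filter, Finset.sum_const, nsmul_eq_mul, mul_one]
    have h3 : (qd A Q).filter (fun x => |T * qx x| ≤ 2 ^ j) =
        (qd A Q).filter (fun x => |qx x| ≤ 1 / (T / 2 ^ j)) := by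
      refine Finset.filter_congr fun x _ => ?_
      rw [abs_mul, abs_of_pos hT, one_div_div, le_div_iff₀ hT, mul_comm]
    rw [h3]
    refine h2.trans (le_of_eq ?_)
    rw [hU, hV]
    field_simp
  have h4 : ∀ n : ℕ, ∑ j ∈ range n, 4 * (1 / 4 : ℝ) ^ j ≤ 16 / 3 := by
    intro n
    have h5 : ∑ j ∈ range n, 4 * (1 / 4 : ℝ) ^ j = 16 / 3 - 16 / 3 * (1 / 4) ^ n := by
      induction n with
      | zero => norm_num
      | succ n ih => rw [sum_range_succ, ih, pow_succ]; ring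
    rw [h5]
    have : (0 : ℝ) ≤ 16 / 3 * (1 / 4) ^ n := by positivity
    linarith
  have h6 : ∀ n : ℕ, ∑ j ∈ range n, 4 * (1 / 4 : ℝ) ^ j * 2 ^ j ≤ 8 := by
    intro n
    have h5 : ∑ j ∈ range n, 4 * (1 / 4 : ℝ) ^ j * 2 ^ j = 8 - 8 * (1 / 2) ^ n := by
      induction n with
      | zero => norm_num
      | succ n ih =>
        rw [sum_range_succ, ih, pow_succ]
        have : (1 / 4 : ℝ) ^ n * 2 ^ n = (1 / 2) ^ n := by
          rw [← mul_pow]; norm_num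
        have h7 : 4 * (1 / 4 : ℝ) ^ n * 2 ^ n = 4 * (1 / 2) ^ n := by rw [mul_assoc, this]
        rw [h7]
        ring
    rw [h5]
    have : (0 : ℝ) ≤ 8 * (1 / 2) ^ n := by positivity
    linarith
  calc ∑ x ∈ qd A Q, Real.exp (-(T * qx x) ^ 2) ≤
        ∑ x ∈ qd A Q, ∑ j ∈ range (J + 1), 4 * (1 / 4 : ℝ) ^ j *
          (if |T * qx x| ≤ 2 ^ j then 1 else 0) := sum_le_sum fun x hx => gcn_pt J _ (hJ x hx)
    _ = ∑ j ∈ range (J + 1), 4 * (1 / 4 : ℝ) ^ j *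
          ∑ x ∈ qd A Q, (if |T * qx x| ≤ 2 ^ j then (1 : ℝ) else 0) := by
        rw [sum_comm]
        refine sum_congr rfl fun j _ => ?_
        rw [mul_sum]
    _ ≤ ∑ j ∈ range (J + 1), 4 * (1 / 4 : ℝ) ^ j * (U + 6 * V * 2 ^ j) :=
        sum_le_sum fun j _ => mul_le_mul_of_nonneg_left (h1 j) (by positivity)
    _ = U * ∑ j ∈ range (J + 1), 4 * (1 / 4 : ℝ) ^ j +
          6 * V * ∑ j ∈ range (J + 1), 4 * (1 / 4 : ℝ) ^ j * 2 ^ j := by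
        rw [mul_sum, mul_sum, ← sum_add_distrib]
        refine sum_congr rfl fun j _ => ?_
        ring
    _ ≤ U * (16 / 3) + 6 * V * 8 := by
        gcongr
        · exact h4 _
        · exact h6 _
    _ ≤ 100 * (U + V) := by linarith
    _ = _ := by rw [hU, hV]

end Pool.Agent.H98.PK
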