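import Mathlib

/-!
# [H98 PK GRD] A grid of Gaussians

`T = 40 L/ω`, grid points `ω/4 + l/T`, `0 <= l < ⌊10 L⌋` (they are in `[ω/4, ω/2]`).

PROOF. (1) `y = T (x - ω/4)`, terms `exp(-(y-l)^2)`. Let `l0 = round y` (an integer), `j = |l - l0|`; `|y - l| >= j - 1/2` for `j >= 1`, and
`(j-1/2)^2 = 1/4 + (j-1) + (j-1)^2 >= 1/4 + (j-1)`. So the sum is `<= 1 + 2 e^(-1/4) Σ_{j>=1} e^(-(j-1)) <= 1 + 2*0.78*1.6 <= 4` (each `j` occurs at most twice).
(2) `x <= 0` or `ω < x`: `|x - τ_l| >= ω/4` for `τ_l ∈ [ω/4, ω/2]`, so `(T(x-τ_l))^2 >= (10 L)^2 = 100 L^2`; at most `10 L` terms.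
-/

namespace Pool.Agent.H98.PK

open Finset

private theorem grd_geo (S : Finset ℕ) (g : ℕ → ℕ) (hg : Set.InjOn g S) :
    ∑ l ∈ S, (1 / 2 : ℝ) ^ (g l) ≤ 2 := by
  classical
  rw [← Finset.sum_image (s := S) (g := g) (f := fun k => (1 / 2 : ℝ) ^ k) hg]
  exact (Summable.sum_le_tsum _ (fun k _ => by positivity) summable_geometric_two).trans
    (le_of_eq tsum_geometric_two)

private theorem grd_exp (t : ℝ) (k : ℕ) (h : (k : ℝ) ≤ t) : Real.exp (-t ^ 2) ≤ (1 / 2 : ℝ) ^ k := by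
  have hk : (k : ℝ) ≤ (k : ℝ) ^ 2 := by
    rcases Nat.eq_zero_or_pos k with h0 | h0
    · rw [h0]; norm_num
    · have : (1 : ℝ) ≤ k := by exact_mod_cast h0
      nlinarith
  have hk0 : (0 : ℝ) ≤ k := Nat.cast_nonneg k
  have h1 : (k : ℝ) ≤ t ^ 2 := by nlinarith
  have h2 : Real.exp (-t ^ 2) ≤ Real.exp (-(k : ℝ)) := Real.exp_le_exp.2 (by linarith)
  refine h2.trans ?_
  have h3 : Real.exp (-(k : ℝ)) = (Real.exp (-1)) ^ k := by
    rw [← Real.exp_nat_mul]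
    congr 1
    ring
  rw [h3]
  refine pow_le_pow_left₀ (Real.exp_pos _).le ?_ k
  rw [Real.exp_neg, one_div]
  refine inv_anti₀ (by norm_num) ?_
  have := Real.add_one_le_exp (1 : ℝ)
  linarith

private theorem grd_sum (n : ℕ) (y : ℝ) : ∑ l ∈ range n, Real.exp (-(y - l) ^ 2) ≤ 4 := by
  classical
  rw [← Finset.sum_filter_add_sum_filter_not (range n) (fun l : ℕ => (l : ℤ) ≤ ⌊y⌋)]
  have hf1 := Int.floor_le y
  have hf2 := Int.lt_floor_add_one y
  have h1 : ∑ l ∈ (range n).filter (fun l : ℕ => (l : ℤ) ≤ ⌊y⌋), Real.exp (-(y - l) ^ 2) ≤ 2 := by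
    refine (Finset.sum_le_sum fun l hl => ?_).trans
      (grd_geo ((range n).filter (fun l : ℕ => (l : ℤ) ≤ ⌊y⌋)) (fun l => (⌊y⌋ - l).toNat) ?_)
    · have hl' := (Finset.mem_filter.1 hl).2
      refine grd_exp _ _ ?_
      have h2 : (((⌊y⌋ - l).toNat : ℕ) : ℝ) = ((⌊y⌋ - l : ℤ) : ℝ) := by
        have : (((⌊y⌋ - l).toNat : ℕ) : ℤ) = ⌊y⌋ - l := Int.toNat_of_nonneg (by omega)
        exact_mod_cast congrArg (fun z : ℤ => (z : ℝ)) this
      rw [h2]
      push_cast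
      linarith
    · intro a ha b hb hab
      have ha' := (Finset.mem_filter.1 ha).2
      have hb' := (Finset.mem_filter.1 hb).2
      simp only at hab
      omega
  have h2 : ∑ l ∈ (range n).filter (fun l : ℕ => ¬ (l : ℤ) ≤ ⌊y⌋), Real.exp (-(y - l) ^ 2) ≤ 2 := by
    refine (Finset.sum_le_sum fun l hl => ?_).trans
      (grd_geo ((range n).filter (fun l : ℕ => ¬ (l : ℤ) ≤ ⌊y⌋)) (fun l => ((l : ℤ) - ⌊y⌋ - 1).toNat) ?_)
    · have hl' := (Finset.mem_filter.1 hl).2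
      have h3 : (y - l) ^ 2 = ((l : ℝ) - y) ^ 2 := by ring
      rw [h3]
      refine grd_exp _ _ ?_
      have h2 : ((((l : ℤ) - ⌊y⌋ - 1).toNat : ℕ) : ℝ) = (((l : ℤ) - ⌊y⌋ - 1 : ℤ) : ℝ) := by
        have : ((((l : ℤ) - ⌊y⌋ - 1).toNat : ℕ) : ℤ) = (l : ℤ) - ⌊y⌋ - 1 :=
          Int.toNat_of_nonneg (by omega)
        exact_mod_cast congrArg (fun z : ℤ => (z : ℝ)) this
      rw [h2]
      push_cast
      linarith
    · intro a ha b hb hab
      have ha' := (Finset.mem_filter.1 ha).2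
      have hb' := (Finset.mem_filter.1 hb).2
      simp only at hab
      omega
  linarith

theorem grd1 (L ω x : ℝ) (hL : 1 ≤ L) (hω : 0 < ω) :
    ∑ l ∈ range ⌊10 * L⌋₊, Real.exp (-((40 * L / ω) * (x - (ω / 4 + l / (40 * L / ω)))) ^ 2) ≤ 4 := by
  have hT : 0 < 40 * L / ω := by positivity
  refine le_trans (le_of_eq (Finset.sum_congr rfl fun l _ => ?_))
    (grd_sum ⌊10 * L⌋₊ ((40 * L / ω) * (x - ω / 4)))
  congr 3
  field_simp
  ring

theorem grd3 (L ω : ℝ) (hL : 1 ≤ L) (hω : 0 < ω) (l : ℕ) (hl : l ∈ range ⌊10 * L⌋₊) :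
    ω / 4 + l / (40 * L / ω) ≤ ω / 2 := by
  have h1 : (l : ℝ) ≤ 10 * L := by
    have h2 := Finset.mem_range.1 hl
    have h3 : (l : ℝ) ≤ (⌊10 * L⌋₊ : ℝ) := by exact_mod_cast h2.le
    exact h3.trans (Nat.floor_le (by positivity))
  have hT : 0 < 40 * L / ω := by positivity
  have h4 : (l : ℝ) / (40 * L / ω) ≤ ω / 4 := by
    rw [div_le_iff₀ hT]
    have : ω / 4 * (40 * L / ω) = 10 * L := by
      field_simp
      ring
    rw [this]
    exact h1
  linarith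

theorem grd2 (L ω x : ℝ) (hL : 1 ≤ L) (hω : 0 < ω) (hx : x ≤ 0 ∨ ω < x) :
    ∑ l ∈ range ⌊10 * L⌋₊, Real.exp (-((40 * L / ω) * (x - (ω / 4 + l / (40 * L / ω)))) ^ 2) ≤
      10 * L * Real.exp (-(100 * L ^ 2)) := by
  have hT : 0 < 40 * L / ω := by positivity
  have hTw : 40 * L / ω * (ω / 4) = 10 * L := by
    field_simp
    ring
  have h1 : ∀ l ∈ range ⌊10 * L⌋₊,
      Real.exp (-((40 * L / ω) * (x - (ω / 4 + l / (40 * L / ω)))) ^ 2) ≤ Real.exp (-(100 * L ^ 2)) := by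
    intro l hl
    have h3 := grd3 L ω hL hω l hl
    have h0 : 0 ≤ (l : ℝ) / (40 * L / ω) := by positivity
    refine Real.exp_le_exp.2 ?_
    have hsq : (10 * L) ^ 2 ≤ ((40 * L / ω) * (x - (ω / 4 + l / (40 * L / ω)))) ^ 2 := by
      rcases hx with hx | hx
      · have h4 : 10 * L ≤ -((40 * L / ω) * (x - (ω / 4 + l / (40 * L / ω)))) := by
          rw [← hTw, ← mul_neg]
          exact mul_le_mul_of_nonneg_left (by linarith) hT.le
        have h5 : 0 ≤ 10 * L := by linarith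
        nlinarith
      · have h4 : 10 * L ≤ (40 * L / ω) * (x - (ω / 4 + l / (40 * L / ω))) := by
          rw [← hTw]
          exact mul_le_mul_of_nonneg_left (by linarith) hT.le
        have h5 : 0 ≤ 10 * L := by linarith
        exact pow_le_pow_left₀ h5 h4 2
    nlinarith
  refine (Finset.sum_le_sum h1).trans ?_
  rw [Finset.sum_const, Finset.card_range, nsmul_eq_mul]
  exact mul_le_mul_of_nonneg_right (Nat.floor_le (by positivity)) (Real.exp_pos _).le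

end Pool.Agent.H98.PK
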