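import Pool.Agent.H98.PK.Triv
import Pool.Agent.H5.PNT.PNT

/-!
# [H98 PK LOW] Lower bound at the short scale `T0 = M^(β/4)`

`T0 WR Λ (T0,τ) >= c N ∏ #(P i)`, `c = 1/100`, `M` large.

PROOF. `M` large, so `N >= M^β/2` is large, also `N >= 100 T0`. Fix `(p_i)`, `u = ∏ p_i >= 1`, `x0 = e^τ (1.2 N u)^3`. Let `n` be natural,
`x0 < n <= 3.375 x0`; `n <= 3.375 e (1.2 N u)^3 <= 16 (N 2^r ∏ F i)^3 <= 16 (M/2)^3 = 2 M^3 <= Nm` (`p_i <= 2 F i`, `t1`, `e <= 2.72`, `5.832 e < 16`;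
`Nm = 2^(3 bh) >= 2^12 M^3`). Put `y = (n e^(-τ))^(1/3)/u ∈ (1.2 N, 1.8 N]`, so `log n - τ = 3 log(u y)`. For an integer `m0` with `|m0 - y| <= y/(8 T0)`:
`m0 ∈ (N, 2N]` (`T0 >= 100`), `|log(m0/y)| <= (1/(8T0))/(1 - 1/(8T0)) <= 1/(6 T0)`, so `|T0 (log n - 3 log(m0 u) - τ)| = 3 T0 |log(y/m0)| <= 1/2`, and the
term is `>= exp(-1/4) >= 1/2`. The number of these `m0` is `>= 2 y/(8 T0) - 1 >= 1.2 N/(4 T0) - 1 >= N/(5 T0)` (`N >= 100 T0`). So
`Σ_{m0} >= N/(10 T0)`, and `Σ_n Λ(n)/n >= (ψ(3.375 x0) - ψ(x0))/(3.375 x0) >= x0/(3.375 x0) >= 0.29` for `x0 >= N^3` large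
(`H5.PNT.psi_tendsto`: `ψ(x)/x -> 1`, `3.375 - 1 = 2.375 > 1`). Sum over the `∏ #(P i)` tuples (all other terms of `WR` are `>= 0`):
`T0 WR >= (N/10) 0.29 ∏ #(P i)`.
-/

namespace Pool.Agent.H98.PK

open Finset

private theorem low_inner (N : ℕ) (T y : ℝ) (hT : 100 ≤ T) (hN : 100 * T ≤ N)
    (hy1 : 6 / 5 * N < y) (hy2 : y ≤ 9 / 5 * N) :
    (N : ℝ) / (10 * T) ≤
      ∑ m ∈ Ioc N (2 * N), Real.exp (-(T * (3 * Real.log y - 3 * Real.log m)) ^ 2) := by
  have hT0 : (0 : ℝ) < T := by linarith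
  have hN0 : (0 : ℝ) < N := by nlinarith
  have hy0 : 0 < y := by nlinarith
  have hd0 : 0 < 1 / (8 * T) := by positivity
  have hd1 : 1 / (8 * T) ≤ 1 / 800 := by
    apply one_div_le_one_div_of_le (by norm_num)
    linarith
  set d : ℝ := 1 / (8 * T) with hd
  have hTd : T * d = 1 / 8 := by
    rw [hd]
    field_simp
  set a : ℝ := y * (1 - d) with ha
  set b : ℝ := y * (1 + d) with hb
  have ha0 : 0 ≤ a := by
    rw [ha]
    apply mul_nonneg hy0.le
    linarith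
  have haN : (N : ℝ) ≤ a := by
    rw [ha]
    nlinarith
  have hbN : b ≤ 2 * N := by
    rw [hb]
    nlinarith
  have hab : a ≤ b := by
    rw [ha, hb]
    nlinarith
  have hsub : Ioc ⌊a⌋₊ ⌊b⌋₊ ⊆ Ioc N (2 * N) := by
    apply Ioc_subset_Ioc
    · exact Nat.le_floor haN
    · have h1 : (⌊b⌋₊ : ℝ) ≤ ((2 * N : ℕ) : ℝ) := by
        push_cast
        exact (Nat.floor_le (ha0.trans hab)).trans hbN
      exact_mod_cast h1
  have hterm : ∀ m ∈ Ioc ⌊a⌋₊ ⌊b⌋₊,
      (1 / 2 : ℝ) ≤ Real.exp (-(T * (3 * Real.log y - 3 * Real.log m)) ^ 2) := by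
    intro m hm
    rw [mem_Ioc] at hm
    have h1 : a < m := (Nat.floor_lt ha0).1 hm.1
    have h2 : (m : ℝ) ≤ b := (Nat.le_floor_iff (ha0.trans hab)).1 hm.2
    have hm0 : (0 : ℝ) < m := lt_of_le_of_lt ha0 h1
    set z : ℝ := m / y with hz
    have hz0 : 0 < z := div_pos hm0 hy0
    have hz1 : z ≤ 1 + d := by
      rw [hz, div_le_iff₀ hy0]
      rw [hb] at h2
      linarith
    have hz2 : 1 - d ≤ z := by
      rw [hz, le_div_iff₀ hy0]
      rw [ha] at h1
      linarith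
    have hl : 3 * Real.log y - 3 * Real.log m = -(3 * Real.log z) := by
      rw [hz, Real.log_div hm0.ne' hy0.ne']
      ring
    have hu : Real.log z ≤ d := by
      have := Real.log_le_sub_one_of_pos hz0
      linarith
    have hlo : -(4 / 3 * d) ≤ Real.log z := by
      have h3 := Real.one_sub_inv_le_log_of_pos hz0
      have h4 : z⁻¹ ≤ 1 + 4 / 3 * d := by
        rw [inv_le_comm₀ hz0 (by positivity)]
        refine le_trans ?_ hz2
        rw [inv_le_iff_one_le_mul₀ (by positivity)]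
        nlinarith
      linarith
    have h5 : |T * (-(3 * Real.log z))| ≤ 1 / 2 := by
      rw [abs_le]
      constructor
      · nlinarith
      · nlinarith
    rw [hl]
    have h6 : (T * (-(3 * Real.log z))) ^ 2 ≤ 1 / 4 := by
      rw [← sq_abs]
      nlinarith [abs_nonneg (T * (-(3 * Real.log z)))]
    have h7 := Real.add_one_le_exp (-(T * (-(3 * Real.log z))) ^ 2)
    linarith
  have hcard : (2 / 10 : ℝ) * (N / T) ≤ ((Ioc ⌊a⌋₊ ⌊b⌋₊).card : ℝ) := by
    rw [Nat.card_Ioc, Nat.cast_sub (Nat.floor_le_floor hab)]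
    have h1 := Nat.sub_one_lt_floor b
    have h2 := Nat.floor_le ha0
    have h3 : b - a = y * (2 * d) := by
      rw [ha, hb]
      ring
    have h4 : 100 ≤ (N : ℝ) / T := by
      rw [le_div_iff₀ hT0]
      exact hN
    have h5 : 6 / 5 * (N / T) * (1 / 4) ≤ y * (2 * d) := by
      have h6 : y * (2 * d) = y / T * (1 / 4) := by
        rw [hd]
        field_simp
        try norm_num
      rw [h6]
      have h7 : 6 / 5 * (N / T) ≤ y / T := by
        rw [← mul_div_assoc]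
        exact div_le_div_of_nonneg_right hy1.le hT0.le
      linarith
    linarith
  calc (N : ℝ) / (10 * T) = (2 / 10 : ℝ) * (N / T) * (1 / 2) := by
        field_simp
        try norm_num
    _ ≤ ((Ioc ⌊a⌋₊ ⌊b⌋₊).card : ℝ) * (1 / 2) := by
        apply mul_le_mul_of_nonneg_right hcard (by norm_num)
    _ = ∑ m ∈ Ioc ⌊a⌋₊ ⌊b⌋₊, (1 / 2 : ℝ) := by
        rw [sum_const, nsmul_eq_mul]
    _ ≤ ∑ m ∈ Ioc ⌊a⌋₊ ⌊b⌋₊, Real.exp (-(T * (3 * Real.log y - 3 * Real.log m)) ^ 2) :=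
        sum_le_sum hterm
    _ ≤ _ := sum_le_sum_of_subset_of_nonneg hsub (fun _ _ _ => (Real.exp_pos _).le)

private theorem low_psi : ∃ Y : ℝ, 1 ≤ Y ∧ ∀ x : ℝ, Y ≤ x →
    x ≤ Chebyshev.psi (27 / 8 * x) - Chebyshev.psi x := by
  have h := H5.PNT.psi_tendsto
  rw [Metric.tendsto_atTop] at h
  obtain ⟨Y, hY⟩ := h (1 / 10) (by norm_num)
  refine ⟨max 1 Y, le_max_left _ _, fun x hx => ?_⟩
  have hx1 : 1 ≤ x := (le_max_left _ _).trans hx
  have hx2 : Y ≤ x := (le_max_right _ _).trans hx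
  have h1 := hY x hx2
  have h2 := hY (27 / 8 * x) (by linarith)
  rw [Real.dist_eq, abs_lt] at h1 h2
  have h3 : Chebyshev.psi x < 11 / 10 * x := by
    have := h1.2
    have h4 : Chebyshev.psi x / x < 11 / 10 := by linarith
    rwa [div_lt_iff₀ (by linarith)] at h4
  have h5 : 9 / 10 * (27 / 8 * x) < Chebyshev.psi (27 / 8 * x) := by
    have := h2.1
    have h4 : 9 / 10 < Chebyshev.psi (27 / 8 * x) / (27 / 8 * x) := by linarith
    rwa [lt_div_iff₀ (by linarith)] at h4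
  linarith

private theorem low_alg (N T C : ℝ) (hT : 0 < T) (h : 0 ≤ N * C) :
    1 / 100 * (N * C) ≤ T * (C * (N / (10 * T) * (29 / 100))) := by
  have h1 : T * (C * (N / (10 * T) * (29 / 100))) = 29 / 1000 * (N * C) := by
    field_simp
    ring
  rw [h1]
  linarith

/-- the sum over `n` for a fixed product `u` -/
private theorem low_one (Y : ℝ) (hY : ∀ x : ℝ, Y ≤ x → x ≤ Chebyshev.psi (27 / 8 * x) - Chebyshev.psi x)
    (N u Nm : ℕ) (T τ : ℝ) (hT : 100 ≤ T) (hN : 100 * T ≤ N) (hNY : Y ≤ N) (hu : 1 ≤ u)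
    (hτ0 : 0 ≤ τ) (hτ1 : τ ≤ 1) (hNm : 16 * ((N : ℝ) * u) ^ 3 ≤ Nm) :
    (N : ℝ) / (10 * T) * (29 / 100) ≤ ∑ n ∈ Icc 1 Nm, ArithmeticFunction.vonMangoldt n / (n : ℝ) *
      ∑ m ∈ Ioc N (2 * N),
        Real.exp (-(T * (Real.log n - 3 * Real.log ((m * u : ℕ) : ℝ) - τ)) ^ 2) := by
  have hT0 : (0 : ℝ) < T := by linarith
  have hN1 : (1 : ℝ) ≤ N := by nlinarith
  have hu1 : (1 : ℝ) ≤ u := by exact_mod_cast hu
  have hNu : (N : ℝ) ≤ N * u := by nlinarith
  have hNu1 : (1 : ℝ) ≤ N * u := hN1.trans hNu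
  set v : ℝ := (N : ℝ) * u with hv
  set x0 : ℝ := Real.exp τ * (6 / 5 * v) ^ 3 with hx0
  have he1 : 1 ≤ Real.exp τ := Real.one_le_exp hτ0
  have he2 : Real.exp τ ≤ 2.7182818286 :=
    (Real.exp_le_exp.2 hτ1).trans Real.exp_one_lt_d9.le
  have hv3 : v ≤ v ^ 3 := by
    nlinarith [mul_nonneg (by linarith : (0 : ℝ) ≤ v - 1) (by linarith : (0 : ℝ) ≤ v)]
  have hx0v : v ≤ x0 := by
    rw [hx0]
    have h1 : (6 / 5 * v) ^ 3 = 216 / 125 * v ^ 3 := by ring
    rw [h1]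
    have h2 : 0 ≤ v ^ 3 := by positivity
    nlinarith
  have hx0p : 0 < x0 := by linarith
  have hx0m : 27 / 8 * x0 ≤ Nm := by
    refine le_trans ?_ hNm
    rw [hx0]
    have h1 : (6 / 5 * v) ^ 3 = 216 / 125 * v ^ 3 := by ring
    rw [h1]
    have h2 : 0 ≤ v ^ 3 := by positivity
    nlinarith
  have hpsi := hY x0 ((hNY.trans hNu).trans hx0v)
  have hfl : ⌊x0⌋₊ ≤ ⌊27 / 8 * x0⌋₊ := Nat.floor_le_floor (by linarith)
  have hpsi2 : Chebyshev.psi (27 / 8 * x0) - Chebyshev.psi x0 =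
      ∑ n ∈ Ioc ⌊x0⌋₊ ⌊27 / 8 * x0⌋₊, ArithmeticFunction.vonMangoldt n := by
    unfold Chebyshev.psi
    rw [← Finset.sum_Ioc_consecutive _ (Nat.zero_le _) hfl]
    ring
  have hsub : Ioc ⌊x0⌋₊ ⌊27 / 8 * x0⌋₊ ⊆ Icc 1 Nm := by
    intro n hn
    rw [mem_Ioc] at hn
    rw [mem_Icc]
    refine ⟨by omega, hn.2.trans ?_⟩
    have h1 : (⌊27 / 8 * x0⌋₊ : ℝ) ≤ Nm := (Nat.floor_le (by linarith)).trans hx0m
    exact_mod_cast h1
  have hin : ∀ n ∈ Ioc ⌊x0⌋₊ ⌊27 / 8 * x0⌋₊,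
      ArithmeticFunction.vonMangoldt n / (27 / 8 * x0) * ((N : ℝ) / (10 * T)) ≤
      ArithmeticFunction.vonMangoldt n / (n : ℝ) *
        ∑ m ∈ Ioc N (2 * N),
          Real.exp (-(T * (Real.log n - 3 * Real.log ((m * u : ℕ) : ℝ) - τ)) ^ 2) := by
    intro n hn
    rw [mem_Ioc] at hn
    have h1 : x0 < n := (Nat.floor_lt hx0p.le).1 hn.1
    have h2 : (n : ℝ) ≤ 27 / 8 * x0 := (Nat.le_floor_iff (by linarith)).1 hn.2
    have hn0 : (0 : ℝ) < n := hx0p.trans h1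
    have hΛ : 0 ≤ ArithmeticFunction.vonMangoldt n := ArithmeticFunction.vonMangoldt_nonneg
    set y : ℝ := Real.exp ((Real.log n - τ) / 3) / u with hy
    have hy0 : 0 < y := by positivity
    have hly : 3 * Real.log y = Real.log n - τ - 3 * Real.log u := by
      rw [hy, Real.log_div (Real.exp_pos _).ne' (by positivity), Real.log_exp]
      ring
    have hlx : Real.log x0 = τ + 3 * Real.log (6 / 5 * v) := by
      rw [hx0, Real.log_mul (Real.exp_pos _).ne' (by positivity), Real.log_exp, Real.log_pow]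
      push_cast
      ring
    have hy1 : 6 / 5 * N < y := by
      rw [hy, lt_div_iff₀ (by linarith)]
      have h3 : Real.log x0 < Real.log n := Real.log_lt_log hx0p h1
      rw [hlx] at h3
      have h4 : Real.log (6 / 5 * v) < (Real.log n - τ) / 3 := by linarith
      have h5 := (Real.log_lt_iff_lt_exp (by positivity)).1 h4
      calc 6 / 5 * (N : ℝ) * u = 6 / 5 * v := by rw [hv]; ring
        _ < _ := h5
    have hy2 : y ≤ 9 / 5 * N := by
      rw [hy, div_le_iff₀ (by linarith)]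
      have h3 : Real.log n ≤ Real.log (27 / 8 * x0) := Real.log_le_log hn0 h2
      have h3' : Real.log (27 / 8 * x0) = τ + 3 * Real.log (9 / 5 * v) := by
        have : 27 / 8 * x0 = Real.exp τ * (9 / 5 * v) ^ 3 := by
          rw [hx0]
          ring
        rw [this, Real.log_mul (Real.exp_pos _).ne' (by positivity), Real.log_exp, Real.log_pow]
        push_cast
        ring
      rw [h3'] at h3
      have h4 : (Real.log n - τ) / 3 ≤ Real.log (9 / 5 * v) := by linarith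
      have h5 := (Real.le_log_iff_exp_le (by positivity)).1 h4
      calc _ ≤ 9 / 5 * v := h5
        _ = 9 / 5 * (N : ℝ) * u := by rw [hv]; ring
    have h6 := low_inner N T y hT hN hy1 hy2
    have h7 : ∑ m ∈ Ioc N (2 * N), Real.exp (-(T * (3 * Real.log y - 3 * Real.log m)) ^ 2) =
        ∑ m ∈ Ioc N (2 * N),
          Real.exp (-(T * (Real.log n - 3 * Real.log ((m * u : ℕ) : ℝ) - τ)) ^ 2) := by
      refine sum_congr rfl fun m hm => ?_
      rw [mem_Ioc] at hm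
      have hm0 : (0 : ℝ) < m := by
        have : 0 < m := by omega
        exact_mod_cast this
      rw [hly, Nat.cast_mul, Real.log_mul hm0.ne' (by linarith)]
      congr 2
      ring
    rw [h7] at h6
    apply mul_le_mul _ h6 (by positivity) (by positivity)
    exact div_le_div_of_nonneg_left hΛ hn0 h2
  calc (N : ℝ) / (10 * T) * (29 / 100) ≤ (N : ℝ) / (10 * T) * (8 / 27) := by
        apply mul_le_mul_of_nonneg_left (by norm_num) (by positivity)
    _ ≤ (∑ n ∈ Ioc ⌊x0⌋₊ ⌊27 / 8 * x0⌋₊, ArithmeticFunction.vonMangoldt n) / (27 / 8 * x0) *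
          ((N : ℝ) / (10 * T)) := by
        rw [← hpsi2, mul_comm]
        apply mul_le_mul_of_nonneg_right _ (by positivity)
        rw [le_div_iff₀ (by positivity)]
        linarith
    _ = ∑ n ∈ Ioc ⌊x0⌋₊ ⌊27 / 8 * x0⌋₊,
          ArithmeticFunction.vonMangoldt n / (27 / 8 * x0) * ((N : ℝ) / (10 * T)) := by
        rw [sum_div, sum_mul]
    _ ≤ _ := sum_le_sum hin
    _ ≤ _ := by
        apply sum_le_sum_of_subset_of_nonneg hsub
        intro n _ _
        apply mul_nonneg (div_nonneg ArithmeticFunction.vonMangoldt_nonneg (Nat.cast_nonneg _))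
        exact sum_nonneg fun _ _ => (Real.exp_pos _).le

theorem low (r : ℕ) (β : ℝ) (hβ : 0 < β) (hβ1 : β ≤ 1) : ∃ c : ℝ, 0 < c ∧ ∃ M1 : ℕ, ∀ M : ℕ,
    M1 ≤ M → ∀ (N : ℕ) (F : Fin r → ℕ) (P : Fin r → Finset ℕ), Bx β M N F P → ∀ τ : ℝ, 0 ≤ τ → τ ≤ 1 →
    c * (N * ∏ i, ((P i).card : ℝ)) ≤ (M : ℝ) ^ (β / 4) *
      WR ArithmeticFunction.vonMangoldt (2 ^ (3 * bh r M)) N P ((M : ℝ) ^ (β / 4)) τ := by
  obtain ⟨Y, hY1, hY⟩ := low_psi
  refine ⟨1 / 100, by norm_num, ?_⟩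
  have hlim : Filter.Tendsto (fun M : ℕ => (M : ℝ) ^ (β / 4)) Filter.atTop Filter.atTop :=
    (tendsto_rpow_atTop (by positivity)).comp tendsto_natCast_atTop_atTop
  obtain ⟨M1, hM1⟩ := Filter.eventually_atTop.1 (hlim.eventually_ge_atTop (max 100 Y))
  refine ⟨M1, fun M hM N F P hB τ hτ0 hτ1 => ?_⟩
  have hT := hM1 M hM
  set T : ℝ := (M : ℝ) ^ (β / 4) with hTd
  have hT100 : 100 ≤ T := (le_max_left _ _).trans hT
  have hTY : Y ≤ T := (le_max_right _ _).trans hT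
  have hT0 : (0 : ℝ) < T := by linarith
  have hM0 : 0 < M := by
    rcases Nat.eq_zero_or_pos M with h | h
    · rw [h, Nat.cast_zero, Real.zero_rpow (by positivity)] at hTd
      linarith
    · exact h
  have hNT : T ^ 4 / 2 ≤ N := by
    refine le_trans (le_of_eq ?_) hB.n0
    rw [hTd, ← Real.rpow_natCast, ← Real.rpow_mul (Nat.cast_nonneg _)]
    congr 2
    push_cast
    ring
  have hN100 : 100 * T ≤ N := by
    refine le_trans ?_ hNT
    have h1 : (100 : ℝ) ^ 3 ≤ T ^ 3 := pow_le_pow_left₀ (by norm_num) hT100 3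
    have h2 : T ^ 4 = T ^ 3 * T := by ring
    rw [h2]
    nlinarith
  have hNY : Y ≤ N := by linarith
  have hN1 : (1 : ℝ) ≤ N := by linarith
  -- one tuple
  have hone : ∀ p ∈ Fintype.piFinset P, (N : ℝ) / (10 * T) * (29 / 100) ≤
      ∑ n ∈ Icc 1 (2 ^ (3 * bh r M)), ArithmeticFunction.vonMangoldt n / (n : ℝ) *
        ∑ m ∈ Ioc N (2 * N),
          Real.exp (-(T * (Real.log n - 3 * Real.log ((m * ∏ i, p i : ℕ) : ℝ) - τ)) ^ 2) := by
    intro p hp
    rw [Fintype.mem_piFinset] at hp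
    have hu1 : 1 ≤ ∏ i, p i := by
      apply Nat.one_le_iff_ne_zero.2
      rw [prod_ne_zero_iff]
      intro i _
      have := (hB.hp i _ (hp i)).1
      omega
    have hu2 : ∏ i, p i ≤ 2 ^ r * ∏ i, F i := by
      calc ∏ i, p i ≤ ∏ i : Fin r, (2 * F i) := prod_le_prod' fun i _ => (hB.hp i _ (hp i)).2
        _ = 2 ^ r * ∏ i, F i := by
            rw [prod_mul_distrib, prod_const, card_univ, Fintype.card_fin]
    have h3 : 2 * (N * ∏ i, p i) ≤ M := by
      refine le_trans ?_ hB.t1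
      calc 2 * (N * ∏ i, p i) ≤ 2 * (N * (2 ^ r * ∏ i, F i)) := by gcongr
        _ = 2 ^ (r + 1) * (N * ∏ i, F i) := by ring
    have h4 : M ≤ 2 ^ bh r M := by
      have h5 := Nat.lt_pow_succ_log_self (b := 2) (by norm_num) M
      refine h5.le.trans ?_
      apply Nat.pow_le_pow_right (by norm_num)
      unfold bh
      omega
    have h4' : 2 * M ≤ 2 ^ bh r M := by
      have h5 := Nat.lt_pow_succ_log_self (b := 2) (by norm_num) M
      have h6 : 2 * M ≤ 2 * 2 ^ (Nat.log 2 M).succ := by omega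
      refine h6.trans ?_
      rw [← pow_succ']
      apply Nat.pow_le_pow_right (by norm_num)
      unfold bh
      omega
    refine low_one Y hY N (∏ i, p i) (2 ^ (3 * bh r M)) T τ hT100 hN100 hNY hu1 hτ0 hτ1 ?_
    have h7 : 2 * ((N : ℝ) * ((∏ i, p i : ℕ) : ℝ)) ≤ M := by exact_mod_cast h3
    have h8 : 2 * (M : ℝ) ≤ 2 ^ bh r M := by exact_mod_cast h4'
    have h9 : 4 * ((N : ℝ) * ((∏ i, p i : ℕ) : ℝ)) ≤ 2 ^ bh r M := by linarith
    have h10 : (4 * ((N : ℝ) * ((∏ i, p i : ℕ) : ℝ))) ^ 3 ≤ (2 ^ bh r M) ^ 3 := by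
      apply pow_le_pow_left₀ _ h9
      positivity
    rw [← pow_mul, mul_comm (bh r M) 3] at h10
    push_cast at h10 ⊢
    have h11 : 0 ≤ ((N : ℝ) * ∏ i, (p i : ℝ)) ^ 3 := by positivity
    nlinarith
  -- rewrite `WR`
  have hWR : WR ArithmeticFunction.vonMangoldt (2 ^ (3 * bh r M)) N P T τ =
      ∑ p ∈ Fintype.piFinset P,
        ∑ n ∈ Icc 1 (2 ^ (3 * bh r M)), ArithmeticFunction.vonMangoldt n / (n : ℝ) *
        ∑ m ∈ Ioc N (2 * N),
          Real.exp (-(T * (Real.log n - 3 * Real.log ((m * ∏ i, p i : ℕ) : ℝ) - τ)) ^ 2) := by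
    unfold WR tup
    rw [sum_comm]
    refine sum_congr rfl fun n _ => ?_
    rw [← mul_sum, sum_product_right]
    rfl
  rw [hWR]
  have hsum := sum_le_sum hone
  rw [sum_const, nsmul_eq_mul, Fintype.card_piFinset] at hsum
  push_cast at hsum
  calc 1 / 100 * ((N : ℝ) * ∏ i, ((P i).card : ℝ))
      ≤ T * ((∏ i, ((P i).card : ℝ)) * ((N : ℝ) / (10 * T) * (29 / 100))) := by
        exact low_alg _ _ _ hT0
          (mul_nonneg (Nat.cast_nonneg _) (prod_nonneg fun i _ => Nat.cast_nonneg _))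
    _ ≤ _ := by
        apply mul_le_mul_of_nonneg_left _ hT0.le
        push_cast
        exact hsum

end Pool.Agent.H98.PK
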