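import Pool.Agent.H98.PK.Bxe
import Pool.Agent.H98.PK.Far

/-!
# [H98 PK MPR] Main proposition: `Λ` at the scales `T` and `T0 = M^(β/4)`

PROOF. `b = bh r M`, `B = 3b`, `Nm = 2^(3b)`. `SI.hb c1 b B n` for `1 <= n <= Nm`: `Λ(n) = Σ_{e∈boxes b B} wt e bf c1 e n` (`c1 n = 1`). So `W` is linear:
`(WR Λ .. : ℂ) = W (Λ) = Σ_e wt e W(bf e)` (`W_real`, `Finset.sum_comm`), for `T` and for `T0`. Each `e`: `bxe` (`<= M^(1-η1)`) or `far` twice (`<= 2`).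
`#boxes = (b+1)^3 (3b+1)^3 <= C (1 + log M)^6`, `‖wt e‖ <= 7`. Total `<= 7 C (1+log M)^6 (M^(1-η1) + 2) <= M^(1-η1/2)`, for `M` large
(w.l.o.g. `η1 <= 1/2`). `η = η1/2`.
-/

namespace Pool.Agent.H98.PK

open Finset

private theorem mpr_c1 (n : ℕ) : c1 n = 1 := by
  apply MulChar.one_apply
  rw [show (n : ZMod 1) = 1 from Subsingleton.elim _ _]
  exact isUnit_one

private theorem mpr_lin {r : ℕ} (b N : ℕ) (P : Fin r → Finset ℕ) (T τ : ℝ) :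
    ((WR ArithmeticFunction.vonMangoldt (2 ^ (3 * b)) N P T τ : ℝ) : ℂ) =
      ∑ e ∈ H43.SI.boxes b (3 * b), H43.SI.wt e *
        W (fun n => H43.SI.bf c1 e n) (2 ^ (3 * b)) N P T τ := by
  rw [← W_real]
  unfold W
  have h1 : ∀ n ∈ Icc 1 (2 ^ (3 * b)), ((ArithmeticFunction.vonMangoldt n : ℝ) : ℂ) =
      ∑ e ∈ H43.SI.boxes b (3 * b), H43.SI.wt e * H43.SI.bf c1 e n := by
    intro n hn
    rw [Finset.mem_Icc] at hn
    have h := H43.SI.hb c1 b (3 * b) n hn.1 hn.2 hn.2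
    rw [mpr_c1, mul_one] at h
    exact h
  let G : ℕ → ℂ := fun n => ∑ x ∈ tup N P,
    (Real.exp (-(T * (Real.log n - 3 * Real.log (mv x) - τ)) ^ 2) : ℂ)
  have h2 : ∀ n ∈ Icc 1 (2 ^ (3 * b)), ((ArithmeticFunction.vonMangoldt n : ℝ) : ℂ) / n * G n =
      ∑ e ∈ H43.SI.boxes b (3 * b), H43.SI.wt e * (H43.SI.bf c1 e n / n * G n) := by
    intro n hn
    rw [h1 n hn, Finset.sum_div, Finset.sum_mul]
    refine Finset.sum_congr rfl fun e _ => ?_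
    ring
  calc _ = ∑ n ∈ Icc 1 (2 ^ (3 * b)), ((ArithmeticFunction.vonMangoldt n : ℝ) : ℂ) / n * G n := rfl
    _ = ∑ n ∈ Icc 1 (2 ^ (3 * b)), ∑ e ∈ H43.SI.boxes b (3 * b),
        H43.SI.wt e * (H43.SI.bf c1 e n / n * G n) := Finset.sum_congr rfl h2
    _ = ∑ e ∈ H43.SI.boxes b (3 * b), ∑ n ∈ Icc 1 (2 ^ (3 * b)),
        H43.SI.wt e * (H43.SI.bf c1 e n / n * G n) := Finset.sum_comm
    _ = _ := by
        refine Finset.sum_congr rfl fun e _ => ?_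
        rw [← Finset.mul_sum]

private theorem mpr_wt (e : Fin 6 → ℕ) : ‖H43.SI.wt e‖ ≤ 7 := by
  unfold H43.SI.wt
  refine (norm_add_le _ _).trans ?_
  refine (add_le_add_left (norm_add_le _ _) _).trans ?_
  have h1 : ‖(if e 2 = 0 ∧ e 5 = 0 then (-3 : ℂ) else 0)‖ ≤ 3 := by
    split_ifs
    · simp
    · simp
  have h2 : ‖(if e 1 = 0 ∧ e 2 = 0 ∧ e 4 = 0 ∧ e 5 = 0 then (3 : ℂ) else 0)‖ ≤ 3 := by
    split_ifs
    · simp
    · simp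
  have h3 : ‖(1 : ℂ)‖ = 1 := norm_one
  linarith

private theorem mpr_card (b : ℕ) : (H43.SI.boxes b (3 * b)).card ≤ (3 * b + 1) ^ 6 := by
  unfold H43.SI.boxes
  rw [Fintype.card_piFinset]
  calc _ ≤ ∏ _i : Fin 6, (3 * b + 1) := by
        refine Finset.prod_le_prod' fun i _ => ?_
        split_ifs
        · rw [Finset.card_range]; omega
        · rw [Finset.card_range]
    _ = _ := by simp

private theorem mpr_b (r : ℕ) (ε : ℝ) (hε : 0 < ε) : ∃ C : ℝ, 0 < C ∧ ∀ M : ℕ, 1 ≤ M →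
    3 * (bh r M : ℝ) + 1 ≤ C * (M : ℝ) ^ ε := by
  refine ⟨6 / ε + 3 * r + 16, by positivity, fun M hM => ?_⟩
  have hM1 : (1 : ℝ) ≤ M := by exact_mod_cast hM
  have h1 : (1 : ℝ) ≤ (M : ℝ) ^ ε := Real.one_le_rpow hM1 hε.le
  have h2 : Real.log M ≤ (M : ℝ) ^ ε / ε := Real.log_le_rpow_div (by linarith) hε
  have h3 : ((Nat.log 2 M : ℕ) : ℝ) ≤ Real.logb 2 M := by
    have := Real.natLog_le_logb M 2
    exact_mod_cast this
  have h4 : Real.logb 2 M ≤ 2 * Real.log M := by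
    unfold Real.logb
    have hl : (1 : ℝ) / 2 < Real.log 2 := by
      have := Real.log_two_gt_d9
      linarith
    rw [div_le_iff₀ (by linarith)]
    have h0 : 0 ≤ Real.log M := Real.log_nonneg hM1
    nlinarith
  unfold bh
  push_cast
  have h5 : (M : ℝ) ^ ε / ε = (1 / ε) * (M : ℝ) ^ ε := by ring
  have h6 : (6 / ε + 3 * (r : ℝ) + 16) * (M : ℝ) ^ ε =
      6 * ((1 / ε) * (M : ℝ) ^ ε) + (3 * (r : ℝ) + 16) * (M : ℝ) ^ ε := by ring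
  rw [h6]
  have h7 : (3 * (r : ℝ) + 16) * 1 ≤ (3 * (r : ℝ) + 16) * (M : ℝ) ^ ε :=
    mul_le_mul_of_nonneg_left h1 (by positivity)
  rw [h5] at h2
  linarith

theorem mpr (r : ℕ) (β δ : ℝ) (hβ : 0 < β) (hδ : 40 * β ≤ δ) (hδ1 : δ ≤ 1) : ∃ η : ℝ, 0 < η ∧
    ∃ M1 : ℕ, ∀ M : ℕ, M1 ≤ M → ∀ (N : ℕ) (F : Fin r → ℕ) (P : Fin r → Finset ℕ), Bx β M N F P →
    ∀ T : ℝ, (M : ℝ) ^ (β / 4) ≤ T → T ≤ (M : ℝ) ^ (2 - δ / 2) → ∀ τ : ℝ, 0 ≤ τ → τ ≤ 1 →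
    |T * WR ArithmeticFunction.vonMangoldt (2 ^ (3 * bh r M)) N P T τ -
      (M : ℝ) ^ (β / 4) *
        WR ArithmeticFunction.vonMangoldt (2 ^ (3 * bh r M)) N P ((M : ℝ) ^ (β / 4)) τ| ≤
      (M : ℝ) ^ (1 - η) := by
  obtain ⟨η1, hη1, M1, h1⟩ := bxe r β δ hβ hδ hδ1
  obtain ⟨M2, h2⟩ := far r β hβ
  set η' : ℝ := min η1 (1 / 2) with hη'
  have hη'0 : 0 < η' := lt_min hη1 (by norm_num)
  have hη'1 : η' ≤ η1 := min_le_left _ _
  have hη'2 : η' ≤ 1 / 2 := min_le_right _ _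
  obtain ⟨C, hC, hb⟩ := mpr_b r (η' / 24) (by positivity)
  have hev : ∀ᶠ M : ℕ in Filter.atTop, 21 * C ^ 6 ≤ (M : ℝ) ^ (η' / 4) :=
    ((tendsto_rpow_atTop (by positivity : 0 < η' / 4)).comp
      tendsto_natCast_atTop_atTop).eventually_ge_atTop _
  obtain ⟨M3, h3⟩ := Filter.eventually_atTop.1 hev
  refine ⟨η' / 2, by positivity, M1 + M2 + M3 + 1, fun M hM N F P hB T hT1 hT2 τ hτ0 hτ1 => ?_⟩
  have hMM1 : M1 ≤ M := by omega
  have hMM2 : M2 ≤ M := by omega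
  have hMM3 : M3 ≤ M := by omega
  have hM1 : (1 : ℝ) ≤ M := by exact_mod_cast (by omega : 1 ≤ M)
  have hM0 : (0 : ℝ) < M := by linarith
  have hX : (1 : ℝ) ≤ (M : ℝ) ^ (1 - η') := Real.one_le_rpow hM1 (by linarith)
  have hT0 : (M : ℝ) ^ (β / 4) ≤ (M : ℝ) ^ (2 - δ / 2) :=
    Real.rpow_le_rpow_of_exponent_le hM1 (by linarith)
  -- the single boxes
  have key : ∀ e ∈ H43.SI.boxes (bh r M) (3 * bh r M),
      ‖H43.SI.wt e * ((T : ℂ) * W (fun n => H43.SI.bf c1 e n) (2 ^ (3 * bh r M)) N P T τ -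
      (((M : ℝ) ^ (β / 4) : ℝ) : ℂ) *
        W (fun n => H43.SI.bf c1 e n) (2 ^ (3 * bh r M)) N P ((M : ℝ) ^ (β / 4)) τ)‖ ≤
      21 * (M : ℝ) ^ (1 - η') := by
    intro e he
    have hk : ‖(T : ℂ) * W (fun n => H43.SI.bf c1 e n) (2 ^ (3 * bh r M)) N P T τ -
      (((M : ℝ) ^ (β / 4) : ℝ) : ℂ) *
        W (fun n => H43.SI.bf c1 e n) (2 ^ (3 * bh r M)) N P ((M : ℝ) ^ (β / 4)) τ‖ ≤
        3 * (M : ℝ) ^ (1 - η') := by
      by_cases hc : M ^ 3 ≤ 2 ^ (3 * r + 12) * 2 ^ (∑ i, e i) ∧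
          2 ^ (∑ i, e i) ≤ 2 ^ (3 * r + 12) * M ^ 3
      · refine (h1 M hMM1 N F P hB e he hc.1 hc.2 T hT1 hT2 τ hτ0 hτ1).trans ?_
        have : (M : ℝ) ^ (1 - η1) ≤ (M : ℝ) ^ (1 - η') :=
          Real.rpow_le_rpow_of_exponent_le hM1 (by linarith)
        linarith
      · have ha := h2 M hMM2 N F P hB e he hc T hT1 τ hτ0 hτ1
        have hb := h2 M hMM2 N F P hB e he hc ((M : ℝ) ^ (β / 4)) le_rfl τ hτ0 hτ1
        refine (norm_sub_le _ _).trans ?_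
        linarith
    rw [norm_mul]
    calc _ ≤ 7 * (3 * (M : ℝ) ^ (1 - η')) :=
          mul_le_mul (mpr_wt e) hk (norm_nonneg _) (by norm_num)
      _ = _ := by ring
  have hsum : ((T * WR ArithmeticFunction.vonMangoldt (2 ^ (3 * bh r M)) N P T τ -
      (M : ℝ) ^ (β / 4) *
        WR ArithmeticFunction.vonMangoldt (2 ^ (3 * bh r M)) N P ((M : ℝ) ^ (β / 4)) τ : ℝ) : ℂ) =
      ∑ e ∈ H43.SI.boxes (bh r M) (3 * bh r M),
      H43.SI.wt e * ((T : ℂ) * W (fun n => H43.SI.bf c1 e n) (2 ^ (3 * bh r M)) N P T τ -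
      (((M : ℝ) ^ (β / 4) : ℝ) : ℂ) *
        W (fun n => H43.SI.bf c1 e n) (2 ^ (3 * bh r M)) N P ((M : ℝ) ^ (β / 4)) τ) := by
    rw [Complex.ofReal_sub, Complex.ofReal_mul, Complex.ofReal_mul, mpr_lin, mpr_lin,
      Finset.mul_sum, Finset.mul_sum, ← Finset.sum_sub_distrib]
    refine Finset.sum_congr rfl fun e _ => ?_
    ring
  have hcard : ((H43.SI.boxes (bh r M) (3 * bh r M)).card : ℝ) ≤ C ^ 6 * (M : ℝ) ^ (η' / 4) := by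
    have c1' : ((H43.SI.boxes (bh r M) (3 * bh r M)).card : ℝ) ≤
        (3 * (bh r M : ℝ) + 1) ^ 6 := by exact_mod_cast mpr_card (bh r M)
    have c2 := hb M (by omega)
    have c3 : (3 * (bh r M : ℝ) + 1) ^ 6 ≤ (C * (M : ℝ) ^ (η' / 24)) ^ 6 :=
      pow_le_pow_left₀ (by positivity) c2 6
    have c4 : (C * (M : ℝ) ^ (η' / 24)) ^ 6 = C ^ 6 * (M : ℝ) ^ (η' / 4) := by
      rw [mul_pow, ← Real.rpow_natCast ((M : ℝ) ^ (η' / 24)) 6, ← Real.rpow_mul hM0.le]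
      congr 2
      push_cast
      ring
    linarith
  rw [← Real.norm_eq_abs, ← Complex.norm_real, hsum]
  calc _ ≤ ∑ e ∈ H43.SI.boxes (bh r M) (3 * bh r M), 21 * (M : ℝ) ^ (1 - η') :=
        norm_sum_le_of_le _ key
    _ = ((H43.SI.boxes (bh r M) (3 * bh r M)).card : ℝ) * (21 * (M : ℝ) ^ (1 - η')) := by
        rw [Finset.sum_const, nsmul_eq_mul]
    _ ≤ (C ^ 6 * (M : ℝ) ^ (η' / 4)) * (21 * (M : ℝ) ^ (1 - η')) :=
        mul_le_mul_of_nonneg_right hcard (by positivity)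
    _ = (21 * C ^ 6) * ((M : ℝ) ^ (η' / 4) * (M : ℝ) ^ (1 - η')) := by ring
    _ ≤ (M : ℝ) ^ (η' / 4) * ((M : ℝ) ^ (η' / 4) * (M : ℝ) ^ (1 - η')) :=
        mul_le_mul_of_nonneg_right (h3 M hMM3) (by positivity)
    _ = (M : ℝ) ^ (1 - η' / 2) := by
        rw [← Real.rpow_add hM0, ← Real.rpow_add hM0]
        congr 1
        ring

end Pool.Agent.H98.PK
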