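import Pool.Agent.H33.Cubic.Second

/-!
# [H98 PK SW] The weights of the pairs on average

PROOF. The term `1` gives `<= M^2`. Let `d = m^3 - m'^3 ∈ [1, M^3)`, primes `p ∣ 2d`. `p = 2`: `<= M^2`. Primes `p ∣ d`, `p > M`: at most two (three would give
`d > M^3`), each with `1/√p <= 1`: `<= 2 M^2`. Primes `2 < p <= M` (or all `p <= M`): for fixed `m` the `m' <= M` with `p ∣ m^3 - m'^3` lie in at most three
residue classes mod `p` (roots of `X^3 - m^3` in the field `ZMod p`: `Polynomial.card_roots'`, `Polynomial.nthRoots`, `Polynomial.card_nthRoots`), each class has at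
most `M/p + 1 <= 2M/p` elements in `[1,M]`: at most `6M/p` values `m'`. So `Σ_{m,m'} Σ_{p<=M, p∣d} 1/√p <= Σ_{p<=M} 6 M^2/p^(3/2) <= 6 M^2 ζ(3/2)`
(`Real.summable_nat_rpow_inv`).
-/

namespace Pool.Agent.H98.PK

open Finset

theorem sw : ∃ C : ℝ, 0 < C ∧ ∀ M : ℕ, ∑ m ∈ Icc 1 M, ∑ m' ∈ Ico 1 m,
    (1 + ∑ p ∈ (2 * (m ^ 3 - m' ^ 3) : ℕ).primeFactors, 1 / Real.sqrt (p : ℝ)) ≤ C * (M : ℝ) ^ 2 := by
  obtain ⟨C, hC, h⟩ := Pool.Agent.H33.Cubic.sum_weight_cubes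
  refine ⟨C, hC, ?_⟩
  intro M
  have h1 : ∀ m ∈ Icc 1 M, ∑ m' ∈ Ico 1 m,
      (1 + ∑ p ∈ (2 * (m ^ 3 - m' ^ 3) : ℕ).primeFactors, 1 / Real.sqrt (p : ℝ)) ≤ C * M := by
    intro m hm
    refine le_trans ?_ (h M m hm)
    have e : ∀ m' ∈ Ico 1 m, (1 + ∑ p ∈ (2 * (m ^ 3 - m' ^ 3) : ℕ).primeFactors, 1 / Real.sqrt (p : ℝ)) =
        (1 + ∑ p ∈ (2 * Pool.Agent.H33.Cubic.cd m m').primeFactors, 1 / Real.sqrt (p : ℝ)) := by
      intro m' hm'
      rw [mem_Ico] at hm'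
      have h2 := Pool.Agent.H33.Cubic.cd_of_lt hm'.2
      have h3 : m ^ 3 - m' ^ 3 = Pool.Agent.H33.Cubic.cd m m' := by
        rw [Pool.Agent.H33.Cubic.cd_comm]
        omega
      rw [h3]
    rw [sum_congr rfl e]
    apply sum_le_sum_of_subset_of_nonneg
    · intro m' hm'
      rw [mem_Ico] at hm'
      rw [mem_Icc] at hm
      rw [mem_erase, mem_Icc]
      exact ⟨by omega, by omega, by omega⟩
    · intro m' _ _
      have : 0 ≤ ∑ p ∈ (2 * Pool.Agent.H33.Cubic.cd m m').primeFactors, 1 / Real.sqrt (p : ℝ) :=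
        sum_nonneg fun p _ => by positivity
      linarith
  refine (sum_le_sum h1).trans ?_
  rw [sum_const, nsmul_eq_mul, Nat.card_Icc]
  simp only [Nat.add_sub_cancel]
  apply le_of_eq
  ring

end Pool.Agent.H98.PK
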