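import Pool.Agent.H98.PK.Fa
import Pool.Agent.H98.PK.Sw
import Pool.Agent.H96.FM.Second

/-!
# [H98 PK SM] Second moment

PROOF. `nk M k ^2 = nk M k + 2 #{(m,m') : m' < m <= M, m'^3+k and m^3+k prime}`. `Σ_{k<=K} nk M k = Σ_{m<=M} #{p prime ∈ (m^3, m^3+K]} <= C M K/log K` (`pi_loc`)
`<= C K M^2/(log K)^2` as `M >= log K`. For `m' < m`, `d = m^3 - m'^3 >= 1`, `p = m'^3+k`: `#{k<=K : ..} = #{p ∈ Ioc (m'^3) (m'^3+K) : p and p+d prime}`
`<= C (1 + Σ_{p∣2d} 1/√p) K/(log K)^2` (`pairs_loc`), and `sw`.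
(`pi_loc`, `pairs_loc` are in `H24/LJ/Pairs.lean`; look up their namespace.)
-/

namespace Pool.Agent.H98.PK

open Finset

theorem sm : ∃ C : ℝ, 0 < C ∧ ∃ K0 : ℕ, ∀ K : ℕ, K0 ≤ K → ∀ M : ℕ, Real.log K ≤ M →
    ∑ k ∈ Icc 1 K, (nk M k : ℝ) ^ 2 ≤ C * K * (M / Real.log K) ^ 2 := by
  obtain ⟨C, hC, h⟩ := Pool.Agent.H96.FM.second_cubes_loc
  refine ⟨2 * C, by positivity, 2, ?_⟩
  intro K hK M hM
  have hKR : (2 : ℝ) ≤ K := by exact_mod_cast hK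
  have hlog : 0 < Real.log K := Real.log_pos (by linarith)
  have h1 := h K M hK
  have e : ∀ k, nk M k = Pool.Agent.H33.Cubic.nk k M := fun k => rfl
  simp only [e]
  refine h1.trans ?_
  set R : ℝ := M / Real.log K with hR
  have hR1 : 1 ≤ R := by
    rw [hR, le_div_iff₀ hlog]; linarith
  have e1 : (M : ℝ) * K / Real.log K = K * R := by rw [hR]; ring
  have e2 : (M : ℝ) ^ 2 * K / (Real.log K) ^ 2 = K * R ^ 2 := by rw [hR]; ring
  rw [e1, e2]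
  have : (K : ℝ) * R ≤ K * R ^ 2 := by
    apply mul_le_mul_of_nonneg_left _ (by linarith)
    nlinarith
  nlinarith

end Pool.Agent.H98.PK
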