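import Pool.Agent.H98.PK.Mpr
import Pool.Agent.H98.PK.Low
import Pool.Agent.H98.PK.Grd
import Pool.Agent.H98.PK.Triv

/-!
# [H98 PK WIN] Windows behind the cubes of the numbers of one box

PROOF. `L = log M`, `ω = K/(2M^3)` (`<= 1/2`), `T = 40 L/ω = 80 L M^3/K`; `M` large. `M^(β/4) <= M^(1/2) <= T` (`K <= M^(5/2)`), `T <= 80 L M^(2-δ) <= M^(2-δ/2)`.
`Bd = N ∏ #(P i) >= M/L^(r+1)`. Grid `τ_l` of `Grd`, `l < n0 = ⌊10L⌋ >= 9L`, `0 <= τ_l <= 1`. `Nm = 2^(3 bh) <= 2^(3r+15) M^3`, `Nm >= 2 M^3`.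
LOWER: `mpr`, `low`: `T WR(T,τ_l) >= c0 Bd - M^(1-η) >= c0 Bd/2`, so `Σ_l WR(T,τ_l) >= 9 L c0 Bd/(2T) = (9/80) c0 ω Bd`.
UPPER: `ξ = log n - 3 log(mv x)`. `Σ_l WR(T,τ_l) = Σ_n Λ(n)/n Σ_x Σ_l exp(-(T(ξ-τ_l))^2) <= 4 Σ_{(n,x): 0<ξ<=ω} Λ(n)/n + Nm M 10 L exp(-100 L^2)`
(`grd1`, `grd2`, `Λ(n) <= log n <= n`, `#tup <= M`), and the last term is `<= M^(-10)` for `M` large, `<= (1/80) c0 ω Bd` since
`ω Bd >= (M/(2M^3)) (M/L^(r+1))` (`K >= M`). Hence `Σ_{(n,x): 0<ξ<=ω} Λ(n)/n >= (1/40) c0 ω Bd`.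
Finally `0 < ξ <= ω` gives `m^3 < n <= m^3 e^ω <= m^3 (1+2ω) <= m^3 + 2ωM^3 = m^3 + K` with `m = mv x <= M` (`e^ω <= 1 + 2ω` for `0 <= ω <= 1`), i.e.
`n ∈ Ioc (m^3) (m^3+K)`, and `Λ(n)/n <= Λ(n)/m^3 <= 2^(3(r+2)) Λ(n)/M^3`. So the right side of the theorem is
`>= M^3 2^(-3r-6) (1/40) c0 ω Bd = c K Bd`.
-/

namespace Pool.Agent.H98.PK

open Finset Filter

private theorem win_ev (k : ℕ) (C a : ℝ) (ha : 0 < a) :
    ∀ᶠ M : ℕ in atTop, C * (Real.log M) ^ k ≤ (M : ℝ) ^ a := by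
  have h1 := isLittleO_log_rpow_rpow_atTop (k : ℝ) ha
  have h2 : ∀ᶠ x : ℝ in atTop, |C| * (Real.log x) ^ k ≤ x ^ a := by
    have h3 := h1.def (show (0 : ℝ) < 1 / (|C| + 1) by positivity)
    filter_upwards [h3, eventually_ge_atTop 1] with x hx hx1
    have hl : 0 ≤ Real.log x := Real.log_nonneg hx1
    rw [Real.norm_of_nonneg (by positivity), Real.norm_of_nonneg (by positivity),
      Real.rpow_natCast] at hx
    have h4 : 0 ≤ (Real.log x) ^ k := by positivity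
    have h5 : (|C| + 1) * (Real.log x) ^ k ≤ x ^ a := by
      calc (|C| + 1) * (Real.log x) ^ k ≤ (|C| + 1) * (1 / (|C| + 1) * x ^ a) := by gcongr
        _ = x ^ a := by field_simp
    linarith
  have h3 := tendsto_natCast_atTop_atTop.eventually h2
  filter_upwards [h3, eventually_ge_atTop 1] with M hM hM1
  have hl : 0 ≤ Real.log M := Real.log_nonneg (by exact_mod_cast hM1)
  have h4 : 0 ≤ (Real.log M) ^ k := by positivity
  calc C * (Real.log M) ^ k ≤ |C| * (Real.log M) ^ k := by gcongr; exact le_abs_self C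
    _ ≤ _ := hM

private theorem win_mem (M m n K : ℕ) (ω : ℝ) (hm : 1 ≤ m) (hmM : m ≤ M) (hn : 1 ≤ n)
    (hω0 : 0 < ω) (hω1 : ω ≤ 1 / 2) (hK : 2 * ω * (M : ℝ) ^ 3 = K)
    (h0 : 0 < Real.log n - 3 * Real.log m) (h1 : Real.log n - 3 * Real.log m ≤ ω) :
    n ∈ Ioc (m ^ 3) (m ^ 3 + K) := by
  have hm0 : (0 : ℝ) < m := by exact_mod_cast hm
  have hn0 : (0 : ℝ) < n := by exact_mod_cast hn
  have hl : 3 * Real.log m = Real.log ((m : ℝ) ^ 3) := by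
    rw [Real.log_pow]; push_cast; ring
  rw [hl] at h0 h1
  rw [mem_Ioc]
  constructor
  · have h2 : Real.log ((m : ℝ) ^ 3) < Real.log n := by linarith
    have h3 := (Real.log_lt_log_iff (by positivity) hn0).mp h2
    exact_mod_cast h3
  · have h2 : Real.log n ≤ Real.log ((m : ℝ) ^ 3) + ω := by linarith
    have h3 : (n : ℝ) ≤ (m : ℝ) ^ 3 * Real.exp ω := by
      rw [← Real.exp_log hn0]
      calc Real.exp (Real.log n) ≤ Real.exp (Real.log ((m : ℝ) ^ 3) + ω) := Real.exp_le_exp.mpr h2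
        _ = (m : ℝ) ^ 3 * Real.exp ω := by
          rw [Real.exp_add, Real.exp_log (by positivity)]
    have h4 : Real.exp ω ≤ 1 + 2 * ω := by
      have h5 := Real.abs_exp_sub_one_sub_id_le (x := ω) (by rw [abs_of_pos hω0]; linarith)
      have h6 := (abs_le.mp h5).2
      nlinarith
    have h5 : (m : ℝ) ^ 3 ≤ (M : ℝ) ^ 3 := by
      have : (m : ℝ) ≤ M := by exact_mod_cast hmM
      gcongr
    have h6 : (n : ℝ) ≤ (m : ℝ) ^ 3 + K := by
      calc (n : ℝ) ≤ (m : ℝ) ^ 3 * Real.exp ω := h3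
        _ ≤ (m : ℝ) ^ 3 * (1 + 2 * ω) := by gcongr
        _ = (m : ℝ) ^ 3 + 2 * ω * (m : ℝ) ^ 3 := by ring
        _ ≤ (m : ℝ) ^ 3 + 2 * ω * (M : ℝ) ^ 3 := by gcongr
        _ = (m : ℝ) ^ 3 + K := by rw [hK]
    exact_mod_cast h6

private theorem win_nm (r M : ℕ) (hM : M ≠ 0) :
    ((2 ^ (3 * bh r M) : ℕ) : ℝ) ≤ 2 ^ (3 * r + 15) * (M : ℝ) ^ 3 := by
  have h2 : 2 ^ (3 * bh r M) ≤ 2 ^ (3 * r + 15) * M ^ 3 := by
    have h3 : 2 ^ Nat.log 2 M ≤ M := Nat.pow_log_le_self 2 hM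
    calc 2 ^ (3 * bh r M) = 2 ^ (3 * r + 15) * (2 ^ Nat.log 2 M) ^ 3 := by
          rw [bh, ← pow_mul, ← pow_add]
          congr 1
          ring
      _ ≤ 2 ^ (3 * r + 15) * M ^ 3 := by gcongr
  exact_mod_cast h2

private theorem win_err (r : ℕ) (c0 M L K ω Bd Nm q D : ℝ) (hc0 : 0 < c0) (hM : 3 ≤ M) (hL1 : 1 ≤ L)
    (hexpL : Real.exp L = M) (hMK : M ≤ K) (hω : ω = K / (2 * M ^ 3))
    (h1 : Nm ≤ 2 ^ (3 * r + 15) * M ^ 3) (hNm0 : 0 ≤ Nm) (h20 : 0 ≤ q) (h2 : q ≤ M)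
    (hD : D = 10 * L * Real.exp (-(100 * L ^ 2))) (hBd : M / L ^ (r + 1) ≤ Bd)
    (hE4 : 1600 * 2 ^ (3 * r + 15) / c0 * L ^ (r + 2) ≤ M) :
    Nm * (q * D) ≤ 1 / 80 * c0 * ω * Bd := by
  have hM0 : 0 < M := by linarith
  have hL0 : 0 < L := by linarith
  have hK0 : 0 < K := by linarith
  have hω0 : 0 < ω := by rw [hω]; positivity
  have h3 : Real.exp (-(100 * L ^ 2)) ≤ 1 / M ^ 10 := by
    have h4 : Real.exp (-(100 * L ^ 2)) ≤ Real.exp (-(10 * L)) := by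
      apply Real.exp_le_exp.mpr
      nlinarith
    refine h4.trans (le_of_eq ?_)
    rw [Real.exp_neg, one_div]
    congr 1
    rw [show (10 : ℝ) * L = ((10 : ℕ) : ℝ) * L by norm_num, Real.exp_nat_mul, hexpL]
  have h5 : 1 / (2 * M * L ^ (r + 1)) ≤ ω * Bd := by
    have h7 : 1 / (2 * M ^ 2) ≤ ω := by
      rw [hω, div_le_div_iff₀ (by positivity) (by positivity)]
      have : M * M ^ 2 ≤ K * M ^ 2 := by gcongr
      calc 1 * (2 * M ^ 3) = 2 * (M * M ^ 2) := by ring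
        _ ≤ 2 * (K * M ^ 2) := by linarith
        _ = K * (2 * M ^ 2) := by ring
    calc 1 / (2 * M * L ^ (r + 1)) = 1 / (2 * M ^ 2) * (M / L ^ (r + 1)) := by
          field_simp
      _ ≤ ω * Bd := by gcongr
  have h8 : Nm * (q * D) ≤
      (2 ^ (3 * r + 15) * M ^ 3) * (M * (10 * L * (1 / M ^ 10))) := by
    rw [hD]
    gcongr
  have h9 : (2 ^ (3 * r + 15) * M ^ 3) * (M * (10 * L * (1 / M ^ 10))) ≤
      1 / 80 * c0 * (1 / (2 * M * L ^ (r + 1))) := by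
    have h10 : 1600 * 2 ^ (3 * r + 15) * L ^ (r + 2) ≤ c0 * M := by
      calc 1600 * 2 ^ (3 * r + 15) * L ^ (r + 2) =
          c0 * (1600 * 2 ^ (3 * r + 15) / c0 * L ^ (r + 2)) := by field_simp
        _ ≤ c0 * M := by gcongr
    have e1 : (2 ^ (3 * r + 15) * M ^ 3) * (M * (10 * L * (1 / M ^ 10))) =
        2 ^ (3 * r + 15) * 10 * L / M ^ 6 := by
      field_simp
    have e2 : 1 / 80 * c0 * (1 / (2 * M * L ^ (r + 1))) =
        c0 / (160 * M * L ^ (r + 1)) := by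
      field_simp
      norm_num
    rw [e1, e2, div_le_div_iff₀ (by positivity) (by positivity)]
    have h11 : M ^ 2 ≤ M ^ 6 := pow_le_pow_right₀ (by linarith) (by norm_num)
    calc 2 ^ (3 * r + 15) * 10 * L * (160 * M * L ^ (r + 1)) =
        (1600 * 2 ^ (3 * r + 15) * L ^ (r + 2)) * M := by ring
      _ ≤ (c0 * M) * M := by gcongr
      _ = c0 * M ^ 2 := by ring
      _ ≤ c0 * M ^ 6 := by gcongr
  calc Nm * (q * D) ≤ _ := h8
    _ ≤ _ := h9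
    _ ≤ 1 / 80 * c0 * (ω * Bd) := by gcongr
    _ = _ := by ring

theorem win (r : ℕ) (β δ : ℝ) (hβ : 0 < β) (hδ : 40 * β ≤ δ) (hδ1 : δ ≤ 1) : ∃ c : ℝ, 0 < c ∧
    ∃ M1 : ℕ, ∀ M : ℕ, M1 ≤ M → ∀ (N : ℕ) (F : Fin r → ℕ) (P : Fin r → Finset ℕ), Bx β M N F P →
    ∀ K : ℕ, (M : ℝ) ^ (1 + δ) ≤ K → (K : ℝ) ≤ (M : ℝ) ^ (5 / 2 : ℝ) →
    (M : ℝ) / (Real.log M) ^ (r + 1) ≤ N * ∏ i, ((P i).card : ℝ) →
    c * K * (N * ∏ i, ((P i).card : ℝ)) ≤ ∑ x ∈ tup N P, ∑ n ∈ Ioc (mv x ^ 3) (mv x ^ 3 + K),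
      ArithmeticFunction.vonMangoldt n := by
  have hδ0 : 0 < δ := by linarith
  obtain ⟨η, hη, M1, hmpr⟩ := mpr r β δ hβ hδ hδ1
  obtain ⟨c0, hc0, M2, hlow⟩ := low r β hβ (by linarith)
  have hE2 := win_ev 1 80 (δ / 2) (by linarith)
  have hE3 := win_ev (r + 1) (2 / c0) η hη
  have hE4 := win_ev (r + 2) (1600 * 2 ^ (3 * r + 15) / c0) 1 one_pos
  obtain ⟨M3, hM3⟩ := eventually_atTop.mp (hE2.and (hE3.and hE4))
  refine ⟨c0 / (80 * 2 ^ (3 * r + 6)), by positivity, max (max M1 M2) (max M3 3), ?_⟩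
  intro M hM N F P hbx K hK1 hK2 hBd
  have hMM1 : M1 ≤ M := (le_max_left _ _).trans ((le_max_left _ _).trans hM)
  have hMM2 : M2 ≤ M := (le_max_right _ _).trans ((le_max_left _ _).trans hM)
  have hMM3 : M3 ≤ M := (le_max_left _ _).trans ((le_max_right _ _).trans hM)
  have hM3' : 3 ≤ M := (le_max_right _ _).trans ((le_max_right _ _).trans hM)
  obtain ⟨hE2, hE3, hE4⟩ := hM3 M hMM3
  have hMR : (3 : ℝ) ≤ M := by exact_mod_cast hM3'
  have hM0 : (0 : ℝ) < M := by linarith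
  set L := Real.log M with hL
  have hL1 : 1 ≤ L := by
    rw [hL, Real.le_log_iff_exp_le hM0]
    have := Real.exp_one_lt_d9
    linarith
  have hL0 : 0 < L := by linarith
  have hexpL : Real.exp L = M := Real.exp_log hM0
  have hK0 : (0 : ℝ) < K := lt_of_lt_of_le (by positivity) hK1
  set ω : ℝ := K / (2 * (M : ℝ) ^ 3) with hω
  have hω0 : 0 < ω := by positivity
  have hKω : 2 * ω * (M : ℝ) ^ 3 = K := by rw [hω]; field_simp
  have hω1 : ω ≤ 1 / 2 := by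
    rw [hω, div_le_iff₀ (by positivity)]
    have : (M : ℝ) ^ (5 / 2 : ℝ) ≤ (M : ℝ) ^ (3 : ℝ) :=
      Real.rpow_le_rpow_of_exponent_le (by linarith) (by norm_num)
    have h3 : (M : ℝ) ^ (3 : ℝ) = (M : ℝ) ^ 3 := by
      rw [← Real.rpow_natCast]; norm_num
    rw [h3] at this
    linarith
  set T : ℝ := 40 * L / ω with hT
  have hT0 : 0 < T := by positivity
  have hTK : T = 80 * L * ((M : ℝ) ^ 3 / K) := by
    rw [hT, hω]; field_simp; ring
  have hM3r : (M : ℝ) ^ 3 = (M : ℝ) ^ (3 : ℝ) := by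
    rw [← Real.rpow_natCast]; norm_num
  have hTlow : (M : ℝ) ^ (β / 4) ≤ T := by
    have h1 : (M : ℝ) ^ (1 / 2 : ℝ) ≤ (M : ℝ) ^ 3 / K := by
      rw [le_div_iff₀ hK0]
      calc (M : ℝ) ^ (1 / 2 : ℝ) * K ≤ (M : ℝ) ^ (1 / 2 : ℝ) * (M : ℝ) ^ (5 / 2 : ℝ) := by gcongr
        _ = (M : ℝ) ^ 3 := by
          rw [← Real.rpow_add hM0, hM3r]; norm_num
    have h2 : (M : ℝ) ^ (β / 4) ≤ (M : ℝ) ^ (1 / 2 : ℝ) :=
      Real.rpow_le_rpow_of_exponent_le (by linarith) (by linarith)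
    have h3 : 0 < (M : ℝ) ^ (1 / 2 : ℝ) := by positivity
    rw [hTK]
    nlinarith
  have hThigh : T ≤ (M : ℝ) ^ (2 - δ / 2) := by
    have h1 : (M : ℝ) ^ 3 / K ≤ (M : ℝ) ^ (2 - δ) := by
      rw [div_le_iff₀ hK0]
      calc (M : ℝ) ^ 3 = (M : ℝ) ^ (2 - δ) * (M : ℝ) ^ (1 + δ) := by
            rw [← Real.rpow_add hM0, hM3r]; congr 1; ring
        _ ≤ (M : ℝ) ^ (2 - δ) * K := by gcongr
    rw [hTK]
    calc 80 * L * ((M : ℝ) ^ 3 / K) ≤ (M : ℝ) ^ (δ / 2) * (M : ℝ) ^ (2 - δ) := by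
          rw [pow_one] at hE2
          gcongr
      _ = (M : ℝ) ^ (2 - δ / 2) := by
          rw [← Real.rpow_add hM0]; congr 1; ring
  set Bd : ℝ := N * ∏ i, ((P i).card : ℝ) with hBdd
  have hBd0 : 0 < Bd := lt_of_lt_of_le (by positivity) hBd
  set n0 : ℕ := ⌊10 * L⌋₊ with hn0
  have hn09 : 9 * L ≤ n0 := by
    have := Nat.lt_floor_add_one (10 * L)
    rw [← hn0] at this
    linarith
  set τ : ℕ → ℝ := fun l => ω / 4 + l / T with hτ
  have hτ0 : ∀ l, 0 ≤ τ l := fun l => by simp only [hτ]; positivity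
  have hτ1 : ∀ l ∈ range n0, τ l ≤ 1 := by
    intro l hl
    have := grd3 L ω hL1 hω0 l (by rw [← hn0]; exact hl)
    rw [← hT] at this
    simp only [hτ]
    linarith
  set Nm : ℕ := 2 ^ (3 * bh r M) with hNm
  clear_value Nm n0 Bd T ω L
  -- LOWER
  have hlower : ∀ l ∈ range n0, c0 / 2 * Bd / T ≤
      WR ArithmeticFunction.vonMangoldt Nm N P T (τ l) := by
    intro l hl
    have h1 := hmpr M hMM1 N F P hbx T hTlow hThigh (τ l) (hτ0 l) (hτ1 l hl)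
    have h2 := hlow M hMM2 N F P hbx (τ l) (hτ0 l) (hτ1 l hl)
    rw [← hNm] at h1 h2
    rw [← hBdd] at h2
    have h3 := (abs_le.mp h1).1
    have h4 : (M : ℝ) ^ (1 - η) ≤ c0 / 2 * Bd := by
      have h5 : (M : ℝ) ^ (1 - η) ≤ c0 / 2 * ((M : ℝ) / L ^ (r + 1)) := by
        rw [Real.rpow_sub hM0, Real.rpow_one, div_le_iff₀ (by positivity)]
        have h6 : L ^ (r + 1) ≤ c0 / 2 * (M : ℝ) ^ η := by
          calc L ^ (r + 1) = c0 / 2 * (2 / c0 * L ^ (r + 1)) := by field_simp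
            _ ≤ c0 / 2 * (M : ℝ) ^ η := by gcongr
        calc (M : ℝ) = (M : ℝ) / L ^ (r + 1) * L ^ (r + 1) := by field_simp
          _ ≤ (M : ℝ) / L ^ (r + 1) * (c0 / 2 * (M : ℝ) ^ η) := by gcongr
          _ = _ := by ring
      refine h5.trans ?_
      gcongr
    rw [div_le_iff₀ hT0]
    have h5 : c0 / 2 * Bd = c0 * Bd - c0 / 2 * Bd := by ring
    rw [h5]
    linarith
  have hlowsum : 9 / 80 * c0 * ω * Bd ≤ ∑ l ∈ range n0,
      WR ArithmeticFunction.vonMangoldt Nm N P T (τ l) := by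
    calc 9 / 80 * c0 * ω * Bd = 9 * L * (c0 / 2 * Bd / T) := by
          rw [hT]; field_simp; ring
      _ ≤ n0 * (c0 / 2 * Bd / T) := by gcongr
      _ = ∑ l ∈ range n0, c0 / 2 * Bd / T := by rw [sum_const, card_range, nsmul_eq_mul]
      _ ≤ _ := sum_le_sum hlower
  -- UPPER
  obtain ⟨D, hD⟩ : ∃ D : ℝ, D = 10 * L * Real.exp (-(100 * L ^ 2)) := ⟨_, rfl⟩
  have hD0 : 0 ≤ D := by rw [hD]; positivity
  set ξ : ℕ → ℕ × (Fin r → ℕ) → ℝ := fun n x => Real.log n - 3 * Real.log (mv x) with hξ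
  have hLam : ∀ n : ℕ, 0 ≤ (ArithmeticFunction.vonMangoldt n : ℝ) / n := fun n =>
    div_nonneg ArithmeticFunction.vonMangoldt_nonneg (Nat.cast_nonneg n)
  have hLam1 : ∀ n ∈ Icc 1 Nm, (ArithmeticFunction.vonMangoldt n : ℝ) / n ≤ 1 := by
    intro n hn
    rw [mem_Icc] at hn
    have hn0 : (0 : ℝ) < n := by exact_mod_cast hn.1
    rw [div_le_one hn0]
    refine ArithmeticFunction.vonMangoldt_le_log.trans ?_
    have := Real.log_le_sub_one_of_pos hn0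
    linarith
  have hinner : ∀ n x, ∑ l ∈ range n0, Real.exp (-(T * (ξ n x - τ l)) ^ 2) ≤
      4 * (if 0 < ξ n x ∧ ξ n x ≤ ω then (1 : ℝ) else 0) + D := by
    intro n x
    split_ifs with h
    · have := grd1 L ω (ξ n x) hL1 hω0
      rw [← hT, ← hn0] at this
      simp only [hτ]
      linarith
    · have h' : ξ n x ≤ 0 ∨ ω < ξ n x := by
        by_contra hcon
        push Not at hcon
        exact h ⟨hcon.1, hcon.2⟩
      have := grd2 L ω (ξ n x) hL1 hω0 h'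
      rw [← hT, ← hn0] at this
      simp only [hτ]
      rw [hD]
      linarith
  have hupper : ∑ l ∈ range n0, WR ArithmeticFunction.vonMangoldt Nm N P T (τ l) ≤
      4 * (∑ n ∈ Icc 1 Nm, (ArithmeticFunction.vonMangoldt n : ℝ) / n *
        ∑ x ∈ tup N P, (if 0 < ξ n x ∧ ξ n x ≤ ω then (1 : ℝ) else 0)) +
      (Nm : ℝ) * (((tup N P).card : ℝ) * D) := by
    have h1 : ∑ l ∈ range n0, WR ArithmeticFunction.vonMangoldt Nm N P T (τ l) =
        ∑ n ∈ Icc 1 Nm, (ArithmeticFunction.vonMangoldt n : ℝ) / n *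
          ∑ x ∈ tup N P, ∑ l ∈ range n0, Real.exp (-(T * (ξ n x - τ l)) ^ 2) := by
      unfold WR
      rw [sum_comm]
      apply sum_congr rfl
      intro n _
      rw [← mul_sum]
      congr 1
      rw [sum_comm]
    rw [h1]
    calc ∑ n ∈ Icc 1 Nm, (ArithmeticFunction.vonMangoldt n : ℝ) / n *
          ∑ x ∈ tup N P, ∑ l ∈ range n0, Real.exp (-(T * (ξ n x - τ l)) ^ 2)
        ≤ ∑ n ∈ Icc 1 Nm, (ArithmeticFunction.vonMangoldt n : ℝ) / n *
          ∑ x ∈ tup N P, (4 * (if 0 < ξ n x ∧ ξ n x ≤ ω then (1 : ℝ) else 0) + D) := by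
          apply sum_le_sum
          intro n _
          apply mul_le_mul_of_nonneg_left _ (hLam n)
          exact sum_le_sum fun x _ => hinner n x
      _ = 4 * (∑ n ∈ Icc 1 Nm, (ArithmeticFunction.vonMangoldt n : ℝ) / n *
            ∑ x ∈ tup N P, (if 0 < ξ n x ∧ ξ n x ≤ ω then (1 : ℝ) else 0)) +
          ∑ n ∈ Icc 1 Nm, (ArithmeticFunction.vonMangoldt n : ℝ) / n *
            (((tup N P).card : ℝ) * D) := by
          rw [mul_sum, ← sum_add_distrib]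
          apply sum_congr rfl
          intro n _
          rw [sum_add_distrib, ← mul_sum, sum_const, nsmul_eq_mul]
          ring
      _ ≤ 4 * (∑ n ∈ Icc 1 Nm, (ArithmeticFunction.vonMangoldt n : ℝ) / n *
            ∑ x ∈ tup N P, (if 0 < ξ n x ∧ ξ n x ≤ ω then (1 : ℝ) else 0)) +
          (Nm : ℝ) * (((tup N P).card : ℝ) * D) := by
          apply add_le_add le_rfl
          rw [← sum_mul]
          apply mul_le_mul_of_nonneg_right _ (mul_nonneg (Nat.cast_nonneg _) hD0)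
          calc ∑ n ∈ Icc 1 Nm, (ArithmeticFunction.vonMangoldt n : ℝ) / n ≤ ∑ n ∈ Icc 1 Nm, (1 : ℝ) :=
                sum_le_sum hLam1
            _ = Nm := by rw [sum_const, nsmul_eq_mul, Nat.card_Icc]; simp
  -- the error term
  have hMK : (M : ℝ) ≤ K := by
    refine le_trans ?_ hK1
    calc (M : ℝ) = (M : ℝ) ^ (1 : ℝ) := (Real.rpow_one _).symm
      _ ≤ _ := Real.rpow_le_rpow_of_exponent_le (by linarith) (by linarith)
  have herr : (Nm : ℝ) * (((tup N P).card : ℝ) * D) ≤ 1 / 80 * c0 * ω * Bd := by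
    have h1 : (Nm : ℝ) ≤ 2 ^ (3 * r + 15) * (M : ℝ) ^ 3 := by
      rw [hNm]
      exact win_nm r M (by omega)
    have h2 : ((tup N P).card : ℝ) ≤ M := by
      have h3 := tup_card hbx
      have h4 : (tup N P).card ≤ M := by rw [h3.1]; exact h3.2
      exact Nat.cast_le.mpr h4
    rw [Real.rpow_one] at hE4
    exact win_err r c0 M L K ω Bd Nm _ D hc0 hMR hL1 hexpL hMK hω h1 (Nat.cast_nonneg _)
      (Nat.cast_nonneg _) h2 hD hBd hE4
  -- the count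
  set R := ∑ x ∈ tup N P, ∑ n ∈ Ioc (mv x ^ 3) (mv x ^ 3 + K),
      (ArithmeticFunction.vonMangoldt n : ℝ) with hR
  have hcount : (∑ n ∈ Icc 1 Nm, (ArithmeticFunction.vonMangoldt n : ℝ) / n *
        ∑ x ∈ tup N P, (if 0 < ξ n x ∧ ξ n x ≤ ω then (1 : ℝ) else 0)) ≤
      2 ^ (3 * r + 6) / (M : ℝ) ^ 3 * R := by
    have h1 : (∑ n ∈ Icc 1 Nm, (ArithmeticFunction.vonMangoldt n : ℝ) / n *
        ∑ x ∈ tup N P, (if 0 < ξ n x ∧ ξ n x ≤ ω then (1 : ℝ) else 0)) =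
        ∑ x ∈ tup N P, ∑ n ∈ (Icc 1 Nm).filter (fun n => 0 < ξ n x ∧ ξ n x ≤ ω),
          (ArithmeticFunction.vonMangoldt n : ℝ) / n := by
      simp_rw [mul_sum]
      rw [sum_comm]
      apply sum_congr rfl
      intro x _
      rw [sum_filter]
      apply sum_congr rfl
      intro n _
      split_ifs <;> simp
    rw [h1, hR, mul_sum]
    apply sum_le_sum
    intro x hx
    obtain ⟨hm1, hm2, hm3⟩ := mv_bounds hbx x hx
    have hmr : (0 : ℝ) < mv x := by exact_mod_cast hm1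
    calc ∑ n ∈ (Icc 1 Nm).filter (fun n => 0 < ξ n x ∧ ξ n x ≤ ω),
          (ArithmeticFunction.vonMangoldt n : ℝ) / n
        ≤ ∑ n ∈ Ioc (mv x ^ 3) (mv x ^ 3 + K), (ArithmeticFunction.vonMangoldt n : ℝ) / n := by
          apply sum_le_sum_of_subset_of_nonneg
          · intro n hn
            rw [mem_filter, mem_Icc] at hn
            exact win_mem M (mv x) n K ω hm1 hm3 hn.1.1 hω0 hω1 hKω hn.2.1 hn.2.2
          · intro n _ _
            exact hLam n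
      _ ≤ ∑ n ∈ Ioc (mv x ^ 3) (mv x ^ 3 + K),
            2 ^ (3 * r + 6) / (M : ℝ) ^ 3 * (ArithmeticFunction.vonMangoldt n : ℝ) := by
          apply sum_le_sum
          intro n hn
          rw [mem_Ioc] at hn
          have hn1 : ((mv x : ℝ)) ^ 3 < n := by exact_mod_cast hn.1
          have h2 : (M : ℝ) ≤ 2 ^ (r + 2) * mv x := by exact_mod_cast hm2
          have h3 : (M : ℝ) ^ 3 ≤ 2 ^ (3 * r + 6) * n := by
            calc (M : ℝ) ^ 3 ≤ (2 ^ (r + 2) * (mv x : ℝ)) ^ 3 := by gcongr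
              _ = 2 ^ (3 * r + 6) * (mv x : ℝ) ^ 3 := by
                rw [mul_pow, ← pow_mul]; congr 2; ring
              _ ≤ 2 ^ (3 * r + 6) * n := by gcongr
          have hn0 : (0 : ℝ) < n := lt_trans (by positivity) hn1
          have h4 : 1 / (n : ℝ) ≤ 2 ^ (3 * r + 6) / (M : ℝ) ^ 3 := by
            rw [div_le_div_iff₀ hn0 (by positivity)]
            linarith
          calc (ArithmeticFunction.vonMangoldt n : ℝ) / n =
              1 / (n : ℝ) * (ArithmeticFunction.vonMangoldt n : ℝ) := by ring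
            _ ≤ _ := mul_le_mul_of_nonneg_right h4 ArithmeticFunction.vonMangoldt_nonneg
      _ = _ := by rw [← mul_sum]
  have hfin : 1 / 40 * c0 * ω * Bd ≤ 2 ^ (3 * r + 6) / (M : ℝ) ^ 3 * R := by
    linarith
  calc c0 / (80 * 2 ^ (3 * r + 6)) * K * Bd =
      (M : ℝ) ^ 3 / 2 ^ (3 * r + 6) * (1 / 40 * c0 * ω * Bd) := by
        rw [hω]; field_simp; norm_num
    _ ≤ (M : ℝ) ^ 3 / 2 ^ (3 * r + 6) * (2 ^ (3 * r + 6) / (M : ℝ) ^ 3 * R) := by gcongr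
    _ = R := by field_simp

end Pool.Agent.H98.PK
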